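import Pool.Agent.Helper25.SEY.T.Triad

/-!
T3-Card5.
* `card5`: H a TC graph with HasT rows H, not iso to N0 (rows), N0 TC with at least 6 elements.  If
  |U| <= 4: no parallel edges (`IsGr.no_par`), so |S| <= 6; `Sub` with l >= 6 fibres inside A subset S: so |S| = l = 6,
  A = S, the fibres are singletons, H is iso to N0 (rows of H = vectors orthogonal to Z(H)), contradiction.
-/

namespace SEY

open Finset

variable {E : Type} [Fintype E] [DecidableEq E] {V : Type} [Fintype V] [DecidableEq V]

/-- A subdivision with singleton fibres is an isomorphism. -/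
private theorem card5_iso {r l : ℕ} {rows : Fin r → Fin l → ZMod 2} {M : BM E} {π : E → Fin l}
    (hS : Sub rows M M.S π) (hinj : ∀ a ∈ M.S, ∀ b ∈ M.S, π a = π b → a = b) :
    IsIso rows M := by
  obtain ⟨-, hsurj, hZ⟩ := hS
  choose φ hφ hπφ using hsurj
  have hφi : Function.Injective φ := by
    intro i j hij
    rw [← hπφ i, ← hπφ j, hij]
  have hφπ : ∀ e ∈ M.S, φ (π e) = e := fun e he => hinj _ (hφ _) _ he (hπφ _)
  have hmem : ∀ e, e ∈ M.S ↔ ∃ i, φ i = e := by
    intro e
    constructor
    · intro he
      exact ⟨π e, hφπ e he⟩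
    · rintro ⟨i, rfl⟩
      exact hφ i
  -- sums
  have hsum : ∀ (F : E → ZMod 2), (∀ e, e ∉ M.S → F e = 0) → ∑ e, F e = ∑ j, F (φ j) := by
    intro F hF
    have h1 : ∑ e, F e = ∑ e ∈ M.S, F e := by
      symm
      exact Finset.sum_subset (Finset.subset_univ _) (fun e _ he => hF e he)
    rw [h1]
    refine Finset.sum_bij' (fun e _ => π e) (fun j _ => φ j) (fun e _ => Finset.mem_univ _)
      (fun j _ => hφ j) (fun e he => hφπ e he) (fun j _ => hπφ j) ?_
    intro e he
    rw [hφπ e he]
  refine ⟨φ, hφi, hmem, ?_, ?_⟩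
  · intro i
    refine ⟨fun e => if e ∈ M.S then rows i (π e) else 0, ?_, ?_⟩
    · rw [M.mem_R_iff]
      refine ⟨fun e he => if_neg he, ?_⟩
      intro z hz
      obtain ⟨w, hw, hwz⟩ := (hZ z (fun e he => M.Z_supp hz he)).1 hz
      show ∑ e, (if e ∈ M.S then rows i (π e) else 0) * z e = 0
      rw [hsum _ (fun e he => by rw [if_neg he, zero_mul]), ← hw i]
      refine Finset.sum_congr rfl (fun j _ => ?_)
      rw [if_pos (hφ j), hwz _ (hφ j), hπφ j]
    · intro j
      show (if φ j ∈ M.S then rows i (π (φ j)) else 0) = rows i j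
      rw [if_pos (hφ j), hπφ j]
  · intro f hf
    have h1 : (fun j => f (φ j)) ∈ (ofRows rows).R := by
      rw [(ofRows rows).mem_R_iff]
      refine ⟨fun e he => absurd (Finset.mem_univ e) he, ?_⟩
      intro w hw
      have h2 := mem_ofRows_Z_iff.1 hw
      have h3 : (fun e => if e ∈ M.S then w (π e) else 0) ∈ M.Z := by
        rw [hZ _ (fun e he => if_neg he)]
        exact ⟨w, h2, fun e he => if_pos he⟩
      have h4 := M.dot_eq_zero hf h3
      have h5 : dot f (fun e => if e ∈ M.S then w (π e) else 0) =
          ∑ j, f (φ j) * w j := by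
        show ∑ e, f e * (if e ∈ M.S then w (π e) else 0) = _
        rw [hsum _ (fun e he => by rw [if_neg he, mul_zero])]
        refine Finset.sum_congr rfl (fun j _ => ?_)
        rw [if_pos (hφ j), hπφ j]
      rw [h5] at h4
      exact h4
    exact mem_ofRows.1 h1

/-- A 3-connected graph with at most four vertices has at most six edges. -/
private theorem card5_edges {M : BM E} (hM : M.TC) {U : Finset V} {h t : E → V}
    (hg : IsGr M U h t) (hU : U.card ≤ 4) : M.S.card ≤ 6 := by
  have hsc : M.SC := ((TC_iff_SC M).1 hM).1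
  have h1 : M.S.card ≤ (U.powersetCard 2).card := by
    refine Finset.card_le_card_of_injOn (fun e => ({h e, t e} : Finset V)) ?_ ?_
    · intro e he
      have h2 := hg.ends e he
      have h3 : ({h e, t e} : Finset V) ∈ U.powersetCard 2 := by
        rw [Finset.mem_powersetCard]
        refine ⟨?_, Finset.card_pair h2.2.2⟩
        intro v hv
        rw [Finset.mem_insert, Finset.mem_singleton] at hv
        rcases hv with rfl | rfl
        · exact h2.1
        · exact h2.2.1
      exact h3
    · intro e he e' he' hee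
      have hee' : ({h e, t e} : Finset V) = {h e', t e'} := hee
      refine hg.no_par hsc he he' (u := h e) (v := t e) (Or.inl ⟨rfl, rfl⟩) ?_
      have h2 := (hg.ends e he).2.2
      have h4 : h e ∈ ({h e', t e'} : Finset V) := by
        rw [← hee']
        exact Finset.mem_insert_self _ _
      have h5 : t e ∈ ({h e', t e'} : Finset V) := by
        rw [← hee']
        exact Finset.mem_insert_of_mem (Finset.mem_singleton_self _)
      rw [Finset.mem_insert, Finset.mem_singleton] at h4 h5
      rcases h4 with h4 | h4 <;> rcases h5 with h5 | h5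
      · exact absurd (h4.trans h5.symm) h2
      · exact Or.inl ⟨h4.symm, h5.symm⟩
      · exact Or.inr ⟨h5.symm, h4.symm⟩
      · exact absurd (h4.trans h5.symm) h2
  rw [Finset.card_powersetCard] at h1
  have h2 : U.card.choose 2 ≤ 6 := by
    have h3 := Nat.choose_le_choose 2 hU
    have h4 : Nat.choose 4 2 = 6 := by decide
    omega
  omega

theorem card5 {r l : ℕ} {rows : Fin r → Fin l → ZMod 2} (h0 : (ofRows rows).TC) (hl : 6 ≤ l)
    {M : BM E} (hM : M.TC) {U : Finset V} {h t : E → V} (hg : IsGr M U h t)
    (hT : HasT rows M) (hI : ¬ IsIso rows M) : 5 ≤ U.card := by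
  by_contra hU
  have h6 : M.S.card ≤ 6 := card5_edges hM hg (by omega)
  obtain ⟨A, π, hSub⟩ := hT
  have hAS : A ⊆ M.S := hSub.1
  have himg : A.image π = Finset.univ := by
    rw [Finset.eq_univ_iff_forall]
    intro i
    obtain ⟨e, he, rfl⟩ := hSub.2.1 i
    exact Finset.mem_image_of_mem π he
  have h7 : l ≤ A.card := by
    have h8 := Finset.card_image_le (s := A) (f := π)
    rw [himg, Finset.card_univ, Fintype.card_fin] at h8
    exact h8
  have h9 := Finset.card_le_card hAS
  have hA : A = M.S := Finset.eq_of_subset_of_card_le hAS (by omega)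
  subst hA
  apply hI
  refine card5_iso hSub ?_
  have h10 : (M.S.image π).card = M.S.card := by
    rw [himg, Finset.card_univ, Fintype.card_fin]
    omega
  have h11 := Finset.card_image_iff.1 h10
  intro a ha b hb hab
  exact h11 ha hb hab

end SEY
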