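import Mathlib

/-!
T3-Comb (STEP 0, combinatorial part).  `wt f` = number of v with f v /= 0, for f : V -> ZMod 2.
p i = delta (u i) + delta (w i).  Hypotheses: (N), (A), (B) of STEP 0 in /team-store/helper25_SEY.md.
Proof there: (A) gives m <= 3 (if m >= 1: wt >= 0 and m - 1 <= 2).  m = 1, 2 contradictions, m = 3 triangle.  (`hev`: parity.)
m=1: |T0| >= 3, |T0+u| <= 2, |T0+w| <= 2 => |T0| = 3, u,w in T0, |T0+{u,w}| = 1, contradiction to (N).
m=2: |T0| even, all |T0+...| >= 2.  (A_0): T0' := T0 or T0+p_1 has |T0'+{u0}| <= 1, so T0' = {u0,x}.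
  (B_0): T0' + {w0} or T0'+{w0}+p_1 has <= 1 (so = 1) elements.  First: T0'={u0,w0}, adding p_0
  gives 0, contradiction to (N).  Second: {u0,x}+{u1,w1} = {w0,z}.  Exactly one common element.  If u0 is
  common, say u0=u1: {x,w1} = {w0,z}: x = w0 (as before) or w1 = w0 (p_0 = p_1, excluded).  If x is common, x = u1
  say: {u0,w1} = {w0,z}, w1 = w0: T0' = {u0,u1}, adding p_0+p_1 gives 0, contradiction.
m=3: (A_0),(B_0): T0+{u0}, T0+{w0} in span(p_1,p_2), so p_0 in span(p_1,p_2), so p_0 = p_1+p_2 (p_0 /= 0, p_1, p_2).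
  So there are c 0, c 1, c 2 with p i = sum of the two c j, j /= i, and T0 is an odd subset of {c 0, c 1, c 2}.
-/

namespace SEY

open Finset

/-- The number of nonzero values. -/
def wt {V : Type} [Fintype V] (f : V → ZMod 2) : ℕ := (Finset.univ.filter (fun v => f v ≠ 0)).card

theorem comb_cases (x : ZMod 2) : x = 0 ∨ x = 1 := by
  revert x
  decide

theorem comb_add_self {V : Type} (f : V → ZMod 2) : f + f = 0 := by
  funext v
  have : ∀ x : ZMod 2, x + x = 0 := by decide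
  exact this _

theorem comb_ne_zero {x : ZMod 2} (h : x ≠ 0) : x = 1 := (comb_cases x).resolve_left h

theorem comb_wt_zero {V : Type} [Fintype V] {f : V → ZMod 2} (h : wt f = 0) : f = 0 := by
  funext v
  by_contra hv
  have : v ∈ Finset.univ.filter (fun v => f v ≠ 0) := by
    rw [mem_filter]
    exact ⟨mem_univ v, hv⟩
  rw [wt, Finset.card_eq_zero] at h
  rw [h] at this
  exact Finset.notMem_empty _ this

theorem comb_wt_zero' {V : Type} [Fintype V] : wt (0 : V → ZMod 2) = 0 := by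
  simp [wt]

theorem comb_wt_add {V : Type} [Fintype V] [DecidableEq V] (f : V → ZMod 2) (v : V) (h : f v = 0) :
    wt (f + Pi.single v 1) = wt f + 1 := by
  unfold wt
  have h1 : (Finset.univ.filter fun x => (f + Pi.single v 1 : V → ZMod 2) x ≠ 0) =
      insert v (Finset.univ.filter fun x => f x ≠ 0) := by
    ext x
    rw [mem_filter, mem_insert, mem_filter, Pi.add_apply]
    by_cases hx : x = v
    · rw [hx, h, Pi.single_eq_same]
      simp
    · rw [Pi.single_eq_of_ne hx, add_zero]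
      simp [hx]
  rw [h1, Finset.card_insert_of_notMem]
  rw [mem_filter]
  exact fun h2 => h2.2 h

theorem comb_wt_sub {V : Type} [Fintype V] [DecidableEq V] (f : V → ZMod 2) (v : V) (h : f v ≠ 0) :
    wt (f + Pi.single v 1) + 1 = wt f := by
  have h1 : (f + Pi.single v 1 : V → ZMod 2) v = 0 := by
    rw [Pi.add_apply, Pi.single_eq_same, comb_ne_zero h]
    decide
  have h2 := comb_wt_add _ v h1
  rw [add_assoc, comb_add_self, add_zero] at h2
  exact h2.symm

theorem comb_wt_one {V : Type} [Fintype V] [DecidableEq V] {f : V → ZMod 2} (h : wt f = 1) :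
    ∃ v, f = Pi.single v 1 := by
  have h0 : ∃ v, f v ≠ 0 := by
    by_contra hcon
    push Not at hcon
    have : f = 0 := funext hcon
    rw [this, comb_wt_zero'] at h
    exact absurd h (by decide)
  obtain ⟨v, hv⟩ := h0
  refine ⟨v, ?_⟩
  have h1 := comb_wt_sub f v hv
  have h2 := comb_wt_zero (f := f + Pi.single v 1) (by omega)
  have h3 : f = (f + Pi.single v 1) + Pi.single v 1 := by
    rw [add_assoc, comb_add_self, add_zero]
  rw [h2, zero_add] at h3
  exact h3

/-- If `wt f ≥ 2` and `wt (f + δ_v) ≤ 1`, then `f = δ_v + δ_x` with `x ≠ v`. -/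
theorem comb_two {V : Type} [Fintype V] [DecidableEq V] {f : V → ZMod 2} {v : V} (h : 2 ≤ wt f)
    (h1 : wt (f + Pi.single v 1) ≤ 1) :
    ∃ x, x ≠ v ∧ f = Pi.single v 1 + Pi.single x 1 := by
  by_cases hv : f v = 0
  · rw [comb_wt_add f v hv] at h1
    omega
  · have h2 := comb_wt_sub f v hv
    obtain ⟨x, hx⟩ := comb_wt_one (f := f + Pi.single v 1) (by omega)
    have h3 : f = Pi.single v 1 + Pi.single x 1 := by
      rw [← hx, add_comm f, ← add_assoc, comb_add_self, zero_add]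
    refine ⟨x, fun hxv => hv ?_, h3⟩
    rw [h3, hxv, comb_add_self]
    rfl

theorem comb_m1 {V : Type} [Fintype V] [DecidableEq V] (T : V → ZMod 2) (u w : V) (huw : u ≠ w)
    (h0 : 3 ≤ wt T) (h1 : 3 ≤ wt (T + (Pi.single u 1 + Pi.single w 1)))
    (hA : wt (T + Pi.single u 1) ≤ 2) (hB : wt (T + Pi.single w 1) ≤ 2) : False := by
  have hu : T u ≠ 0 := fun h => by
    rw [comb_wt_add T u h] at hA
    omega
  have hw : T w ≠ 0 := fun h => by
    rw [comb_wt_add T w h] at hB
    omega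
  have h2 := comb_wt_sub T u hu
  have h3 := comb_wt_sub (T + Pi.single u 1) w (by
    rw [Pi.add_apply, Pi.single_eq_of_ne huw.symm, add_zero]
    exact hw)
  rw [add_assoc] at h3
  omega

theorem comb_wt_pair_self {V : Type} [Fintype V] [DecidableEq V] {f : V → ZMod 2} (h : 2 ≤ wt f)
    (h0 : f = 0) : False := by
  rw [h0, comb_wt_zero'] at h
  omega

theorem comb_m2a {V : Type} [Fintype V] [DecidableEq V] (T : V → ZMod 2) (u0 w0 u1 w1 x z : V)
    (h0 : u0 ≠ w0) (h1 : u1 ≠ w1) (hw : w0 = w1)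
    (hne : (Pi.single u0 1 + Pi.single w0 1 : V → ZMod 2) ≠ Pi.single u1 1 + Pi.single w1 1)
    (hx : x ≠ u0) (hT : T = Pi.single u0 1 + Pi.single x 1)
    (hz : T + (Pi.single u1 1 + Pi.single w1 1) = Pi.single w0 1 + Pi.single z 1)
    (hN : 2 ≤ wt (T + ((Pi.single u0 1 + Pi.single w0 1) + (Pi.single u1 1 + Pi.single w1 1)))) :
    False := by
  subst hw
  have hu : u0 ≠ u1 := fun h => hne (by rw [h])
  -- evaluate at `u0`
  have h2 := congrFun hz u0
  rw [hT] at h2
  simp only [Pi.add_apply, Pi.single_eq_same, Pi.single_eq_of_ne hx.symm, Pi.single_eq_of_ne hu,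
    Pi.single_eq_of_ne h0, add_zero, zero_add] at h2
  have h3 : u0 = z := by
    by_contra h
    rw [Pi.single_eq_of_ne h] at h2
    exact one_ne_zero h2
  subst h3
  refine comb_wt_pair_self hN ?_
  have h4 : T + ((Pi.single u0 1 + Pi.single w0 1) + (Pi.single u1 1 + Pi.single w0 1)) =
      (T + (Pi.single u1 1 + Pi.single w0 1)) + (Pi.single w0 1 + Pi.single u0 1) := by
    abel
  rw [h4, hz, comb_add_self]

theorem comb_m2 {V : Type} [Fintype V] [DecidableEq V] (T : V → ZMod 2) (u0 w0 u1 w1 : V)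
    (h0 : u0 ≠ w0) (h1 : u1 ≠ w1)
    (hne : (Pi.single u0 1 + Pi.single w0 1 : V → ZMod 2) ≠ Pi.single u1 1 + Pi.single w1 1)
    (hT0 : 2 ≤ wt T) (hT1 : 2 ≤ wt (T + (Pi.single u0 1 + Pi.single w0 1)))
    (hT2 : 2 ≤ wt (T + (Pi.single u1 1 + Pi.single w1 1)))
    (hT3 : 2 ≤ wt (T + ((Pi.single u0 1 + Pi.single w0 1) + (Pi.single u1 1 + Pi.single w1 1))))
    (hA : wt (T + Pi.single u0 1) ≤ 1)
    (hB : wt (T + Pi.single w0 1) ≤ 1 ∨
      wt (T + Pi.single w0 1 + (Pi.single u1 1 + Pi.single w1 1)) ≤ 1) : False := by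
  obtain ⟨x, hx, hTx⟩ := comb_two hT0 hA
  rcases hB with hB | hB
  · obtain ⟨y, hy, hTy⟩ := comb_two hT0 hB
    have h2 := congrFun hTy w0
    rw [hTx] at h2
    simp only [Pi.add_apply, Pi.single_eq_same, Pi.single_eq_of_ne hy.symm,
      Pi.single_eq_of_ne h0.symm, add_zero, zero_add] at h2
    have h3 : w0 = x := by
      by_contra h
      rw [Pi.single_eq_of_ne h] at h2
      exact zero_ne_one h2
    subst h3
    refine comb_wt_pair_self hT1 ?_
    rw [hTx, comb_add_self]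
  · rw [add_assoc, add_comm (Pi.single w0 1), ← add_assoc] at hB
    obtain ⟨z, hz, hTz⟩ := comb_two hT2 hB
    have h2 := congrFun hTz w0
    rw [hTx] at h2
    have hxw : x ≠ w0 := by
      rintro rfl
      refine comb_wt_pair_self hT1 ?_
      rw [hTx, comb_add_self]
    simp only [Pi.add_apply, Pi.single_eq_same, Pi.single_eq_of_ne hz.symm,
      Pi.single_eq_of_ne h0.symm, Pi.single_eq_of_ne hxw.symm, add_zero, zero_add] at h2
    by_cases hw1 : w0 = w1
    · exact comb_m2a T u0 w0 u1 w1 x z h0 h1 hw1 hne hx hTx hTz hT3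
    · by_cases hu1 : w0 = u1
      · refine comb_m2a T u0 w0 w1 u1 x z h0 h1.symm hu1 ?_ hx hTx ?_ ?_
        · rwa [add_comm (Pi.single w1 1)]
        · rwa [add_comm (Pi.single w1 1)]
        · rwa [add_comm (Pi.single w1 1)]
      · rw [Pi.single_eq_of_ne hw1, Pi.single_eq_of_ne hu1, add_zero] at h2
        exact zero_ne_one h2

theorem comb_mem {V : Type} [DecidableEq V] {a b v : V} {q : V → ZMod 2} (hab : a ≠ b)
    (hq : q = Pi.single a 1 + Pi.single b 1) (h : q v ≠ 0) :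
    ∃ y, y ≠ v ∧ q = Pi.single v 1 + Pi.single y 1 := by
  by_cases ha : v = a
  · exact ⟨b, by rw [ha]; exact hab.symm, by rw [ha]; exact hq⟩
  · by_cases hb : v = b
    · exact ⟨a, by rw [hb]; exact hab, by rw [hb, hq, add_comm]⟩
    · exfalso
      apply h
      rw [hq, Pi.add_apply, Pi.single_eq_of_ne ha, Pi.single_eq_of_ne hb, add_zero]

theorem comb_single_inj {V : Type} [DecidableEq V] {a b : V}
    (h : (Pi.single a 1 : V → ZMod 2) = Pi.single b 1) : a = b := by
  by_contra hab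
  have h1 := congrFun h a
  rw [Pi.single_eq_same, Pi.single_eq_of_ne hab] at h1
  exact one_ne_zero h1

/-- Three pairs with sum zero form a triangle, one orientation. -/
theorem comb_triA {V : Type} [DecidableEq V] (a b : V) (hab : a ≠ b) (p0 p1 p2 : V → ZMod 2)
    (hp0 : p0 = Pi.single a 1 + Pi.single b 1)
    (hp1 : ∃ x y, x ≠ y ∧ p1 = Pi.single x 1 + Pi.single y 1)
    (hp2 : ∃ x y, x ≠ y ∧ p2 = Pi.single x 1 + Pi.single y 1)
    (h01 : p0 ≠ p1) (h : p0 = p1 + p2) (h1a : p1 a ≠ 0) :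
    ∃ y, y ≠ a ∧ y ≠ b ∧ p1 = Pi.single a 1 + Pi.single y 1 ∧
      p2 = Pi.single b 1 + Pi.single y 1 := by
  obtain ⟨x1, y1, hxy1, hq1⟩ := hp1
  obtain ⟨x2, y2, hxy2, hq2⟩ := hp2
  obtain ⟨y, hya, hy⟩ := comb_mem hxy1 hq1 h1a
  have hyb : y ≠ b := fun hyb => h01 (by rw [hp0, hy, hyb])
  have h1b : p1 b = 0 := by
    rw [hy, Pi.add_apply, Pi.single_eq_of_ne hab.symm, Pi.single_eq_of_ne hyb.symm, add_zero]
  have h0b : p0 b = 1 := by
    rw [hp0, Pi.add_apply, Pi.single_eq_same, Pi.single_eq_of_ne hab.symm, zero_add]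
  have h2b : p2 b ≠ 0 := by
    intro h2
    have h3 := congrFun h b
    rw [h0b, Pi.add_apply, h1b, h2, add_zero] at h3
    exact one_ne_zero h3
  obtain ⟨y', -, hy'⟩ := comb_mem hxy2 hq2 h2b
  refine ⟨y, hya, hyb, hy, ?_⟩
  have h4 : (Pi.single y 1 : V → ZMod 2) = Pi.single y' 1 := by
    rw [hp0, hy, hy'] at h
    have h5 : (Pi.single y 1 : V → ZMod 2) =
        Pi.single a 1 + (Pi.single a 1 + Pi.single b 1) + Pi.single b 1 + Pi.single y 1 := by
      rw [← add_assoc (Pi.single a 1) (Pi.single a 1), comb_add_self, zero_add, comb_add_self,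
        zero_add]
    rw [h5, h]
    have h6 : (Pi.single a 1 + (Pi.single a 1 + Pi.single y 1 + (Pi.single b 1 +
        Pi.single y' 1)) + Pi.single b 1 + Pi.single y 1 : V → ZMod 2) =
        (Pi.single a 1 + Pi.single a 1) + (Pi.single y 1 + Pi.single y 1) +
          (Pi.single b 1 + Pi.single b 1) + Pi.single y' 1 := by
      abel
    rw [h6, comb_add_self, comb_add_self, zero_add, zero_add, comb_add_self, zero_add]
  rw [hy', ← h4]

/-- Three pairs with sum zero form a triangle. -/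
theorem comb_tri {V : Type} [DecidableEq V] (u w : Fin 3 → V) (huw : ∀ i, u i ≠ w i)
    (p : Fin 3 → V → ZMod 2) (hp : ∀ i, p i = Pi.single (u i) 1 + Pi.single (w i) 1)
    (hd : ∀ i j, i ≠ j → p i ≠ p j) (h : p 0 = p 1 + p 2) :
    ∃ c : Fin 3 → V, Function.Injective c ∧
      p 0 = Pi.single (c 1) 1 + Pi.single (c 2) 1 ∧ p 1 = Pi.single (c 0) 1 + Pi.single (c 2) 1 ∧
      p 2 = Pi.single (c 0) 1 + Pi.single (c 1) 1 ∧ (c 1 = u 0 ∨ c 2 = u 0) := by
  have hinj : ∀ a b c : V, a ≠ b → a ≠ c → b ≠ c → Function.Injective ![a, b, c] := by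
    intro a b c hab hac hbc i j hij
    fin_cases i <;> fin_cases j <;> simp_all
  by_cases h1 : p 1 (u 0) = 0
  · have h2 : p 2 (u 0) ≠ 0 := by
      intro h2
      have h3 := congrFun h (u 0)
      rw [Pi.add_apply, h1, h2, add_zero, hp 0, Pi.add_apply, Pi.single_eq_same,
        Pi.single_eq_of_ne (huw 0), add_zero] at h3
      exact one_ne_zero h3
    obtain ⟨y, hya, hyb, e2, e1⟩ := comb_triA (u 0) (w 0) (huw 0) (p 0) (p 2) (p 1) (hp 0)
      ⟨_, _, huw 2, hp 2⟩ ⟨_, _, huw 1, hp 1⟩ (hd 0 2 (by decide)) (by rw [h, add_comm]) h2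
    refine ⟨![y, u 0, w 0], hinj _ _ _ hya hyb (huw 0), ?_, ?_, ?_, Or.inl rfl⟩
    · exact hp 0
    · rw [e1, add_comm]
      rfl
    · rw [e2, add_comm]
      rfl
  · obtain ⟨y, hya, hyb, e1, e2⟩ := comb_triA (u 0) (w 0) (huw 0) (p 0) (p 1) (p 2) (hp 0)
      ⟨_, _, huw 1, hp 1⟩ ⟨_, _, huw 2, hp 2⟩ (hd 0 1 (by decide)) h h1
    refine ⟨![y, w 0, u 0], hinj _ _ _ hyb hya (huw 0).symm, ?_, ?_, ?_, Or.inr rfl⟩
    · rw [hp 0, add_comm]
      rfl
    · rw [e1, add_comm]
      rfl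
    · rw [e2, add_comm]
      rfl

theorem comb_fin3 (I : Finset (Fin 3)) (h : (0 : Fin 3) ∉ I) :
    I = ∅ ∨ I = {1} ∨ I = {2} ∨ I = {1, 2} := by
  revert I
  decide

theorem comb_m3 {V : Type} [Fintype V] [DecidableEq V] (u w : Fin 3 → V)
    (huw : ∀ i, u i ≠ w i) (p : Fin 3 → V → ZMod 2)
    (hp : ∀ i, p i = Pi.single (u i) 1 + Pi.single (w i) 1)
    (hd : ∀ i j, i ≠ j → p i ≠ p j) (T0 : V → ZMod 2)
    (hA : ∃ I : Finset (Fin 3), 0 ∉ I ∧ T0 + Pi.single (u 0) 1 + ∑ j ∈ I, p j = 0)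
    (hB : ∃ I : Finset (Fin 3), 0 ∉ I ∧ T0 + Pi.single (w 0) 1 + ∑ j ∈ I, p j = 0) :
    ∃ c : Fin 3 → V, Function.Injective c ∧
      (∀ i : Fin 3, p i = (∑ j, Pi.single (c j) 1) - Pi.single (c i) 1) ∧
      ((∃ j, T0 = Pi.single (c j) 1) ∨ T0 = ∑ j, Pi.single (c j) 1) := by
  obtain ⟨I, hI, hIs⟩ := hA
  obtain ⟨J, hJ, hJs⟩ := hB
  have hfin : ∀ I : Finset (Fin 3), 0 ∉ I → ∑ j ∈ I, p j = 0 ∨ ∑ j ∈ I, p j = p 1 ∨
      ∑ j ∈ I, p j = p 2 ∨ ∑ j ∈ I, p j = p 1 + p 2 := by
    intro I hI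
    rcases comb_fin3 I hI with h | h | h | h
    · left
      rw [h, Finset.sum_empty]
    · right; left
      rw [h, Finset.sum_singleton]
    · right; right; left
      rw [h, Finset.sum_singleton]
    · right; right; right
      rw [h, Finset.sum_pair (by decide)]
  have hsum : p 0 = (∑ j ∈ I, p j) + ∑ j ∈ J, p j := by
    have h1 : p 0 = p 0 + ((T0 + Pi.single (u 0) 1 + ∑ j ∈ I, p j) +
        (T0 + Pi.single (w 0) 1 + ∑ j ∈ J, p j)) := by
      rw [hIs, hJs, add_zero, add_zero]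
    rw [h1]
    have h2 : p 0 + ((T0 + Pi.single (u 0) 1 + ∑ j ∈ I, p j) +
        (T0 + Pi.single (w 0) 1 + ∑ j ∈ J, p j)) =
        (p 0 + (Pi.single (u 0) 1 + Pi.single (w 0) 1)) + (T0 + T0) +
          ((∑ j ∈ I, p j) + ∑ j ∈ J, p j) := by
      abel
    rw [h2, ← hp 0, comb_add_self, comb_add_self, zero_add, zero_add]
  have hp0 : p 0 ≠ 0 := by
    intro h0
    have h1 := congrFun h0 (u 0)
    rw [hp 0, Pi.add_apply, Pi.single_eq_same, Pi.single_eq_of_ne (huw 0), add_zero] at h1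
    exact one_ne_zero h1
  have hs11 := comb_add_self (p 1)
  have hs22 := comb_add_self (p 2)
  have h01 := hd 0 1 (by decide)
  have h02 := hd 0 2 (by decide)
  have h012 : p 0 = p 1 + p 2 := by
    have h121 : p 1 + p 2 + p 1 = p 2 := by
      rw [add_comm, ← add_assoc, hs11, zero_add]
    have h122 : p 1 + p 2 + p 2 = p 1 := by
      rw [add_assoc, hs22, add_zero]
    have h112 : p 1 + (p 1 + p 2) = p 2 := by
      rw [← add_assoc, hs11, zero_add]
    have h212 : p 2 + (p 1 + p 2) = p 1 := by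
      rw [add_comm, h122]
    rcases hfin I hI with h | h | h | h <;> rcases hfin J hJ with h' | h' | h' | h' <;>
      rw [h, h'] at hsum
    · exact absurd (by rw [hsum, add_zero]) hp0
    · exact absurd (by rw [hsum, zero_add]) h01
    · exact absurd (by rw [hsum, zero_add]) h02
    · rw [hsum, zero_add]
    · exact absurd (by rw [hsum, add_zero]) h01
    · exact absurd (by rw [hsum, hs11]) hp0
    · exact hsum
    · exact absurd (by rw [hsum, h112]) h02
    · exact absurd (by rw [hsum, add_zero]) h02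
    · rw [hsum, add_comm]
    · exact absurd (by rw [hsum, hs22]) hp0
    · exact absurd (by rw [hsum, h212]) h01
    · rw [hsum, add_zero]
    · exact absurd (by rw [hsum, h121]) h02
    · exact absurd (by rw [hsum, h122]) h01
    · exact absurd (by rw [hsum, comb_add_self]) hp0
  obtain ⟨c, hc, e0, e1, e2, hcu⟩ := comb_tri u w huw p hp hd h012
  refine ⟨c, hc, ?_, ?_⟩
  · intro i
    rw [Fin.sum_univ_three]
    fin_cases i
    · change p 0 = _
      rw [e0]
      change _ = _ - Pi.single (c 0) 1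
      abel
    · change p 1 = _
      rw [e1]
      change _ = _ - Pi.single (c 1) 1
      abel
    · change p 2 = _
      rw [e2]
      change _ = _ - Pi.single (c 2) 1
      abel
  · have hT : T0 = Pi.single (u 0) 1 + ∑ j ∈ I, p j := by
      have h1 : T0 = (T0 + Pi.single (u 0) 1 + ∑ j ∈ I, p j) +
          (Pi.single (u 0) 1 + ∑ j ∈ I, p j) := by
        rw [add_assoc T0, add_assoc, comb_add_self, add_zero]
      rw [hIs, zero_add] at h1
      exact h1
    rw [Fin.sum_univ_three]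
    have a0 := comb_add_self (Pi.single (c 0) 1 : V → ZMod 2)
    have a1 := comb_add_self (Pi.single (c 1) 1 : V → ZMod 2)
    have a2 := comb_add_self (Pi.single (c 2) 1 : V → ZMod 2)
    rcases hcu with hu | hu <;> rw [← hu] at hT <;> rcases hfin I hI with h | h | h | h <;>
      rw [h] at hT
    · exact Or.inl ⟨1, by rw [hT, add_zero]⟩
    · right
      rw [hT, e1]
      abel
    · left
      refine ⟨0, ?_⟩
      rw [hT, e2, add_comm, add_assoc, a1, add_zero]
    · left
      refine ⟨2, ?_⟩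
      rw [hT, ← h012, e0, ← add_assoc, a1, zero_add]
    · exact Or.inl ⟨2, by rw [hT, add_zero]⟩
    · left
      refine ⟨0, ?_⟩
      rw [hT, e1, add_comm, add_assoc, a2, add_zero]
    · right
      rw [hT, e2]
      abel
    · left
      refine ⟨1, ?_⟩
      rw [hT, ← h012, e0, add_comm, add_assoc, a2, add_zero]

theorem comb_fin2 (I : Finset (Fin 2)) (h : (0 : Fin 2) ∉ I) : I = ∅ ∨ I = {1} := by
  revert I
  decide

theorem comb_fin1 (I : Finset (Fin 1)) (h : (0 : Fin 1) ∉ I) : I = ∅ := by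
  revert I
  decide

theorem comb {V : Type} [Fintype V] [DecidableEq V] (m : ℕ) (u w : Fin m → V)
    (huw : ∀ i, u i ≠ w i) (p : Fin m → V → ZMod 2)
    (hp : ∀ i, p i = Pi.single (u i) 1 + Pi.single (w i) 1)
    (hd : ∀ i j, i ≠ j → p i ≠ p j) (T0 : V → ZMod 2) (hev : Even (wt T0 + m))
    (hN : ∀ I : Finset (Fin m), 4 ≤ wt (T0 + ∑ i ∈ I, p i) + m)
    (hA : ∀ i, ∃ I : Finset (Fin m), i ∉ I ∧
      wt (T0 + Pi.single (u i) 1 + ∑ j ∈ I, p j) + (m - 1) ≤ 2)
    (hB : ∀ i, ∃ I : Finset (Fin m), i ∉ I ∧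
      wt (T0 + Pi.single (w i) 1 + ∑ j ∈ I, p j) + (m - 1) ≤ 2) :
    m = 0 ∨ ∃ hm : m = 3, ∃ c : Fin 3 → V, Function.Injective c ∧
      (∀ i : Fin 3, p (Fin.cast hm.symm i) = (∑ j, Pi.single (c j) 1) - Pi.single (c i) 1) ∧
      ((∃ j, T0 = Pi.single (c j) 1) ∨ T0 = ∑ j, Pi.single (c j) 1) := by
  by_cases hm0 : m = 0
  · exact Or.inl hm0
  have hm3 : m ≤ 3 := by
    obtain ⟨I, -, hI⟩ := hA ⟨0, by omega⟩
    omega
  have hm : m = 1 ∨ m = 2 ∨ m = 3 := by omega
  rcases hm with rfl | rfl | rfl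
  · exfalso
    obtain ⟨I, hI, hA0⟩ := hA 0
    obtain ⟨J, hJ, hB0⟩ := hB 0
    rw [comb_fin1 I hI, Finset.sum_empty, add_zero] at hA0
    rw [comb_fin1 J hJ, Finset.sum_empty, add_zero] at hB0
    have h1 := hN ∅
    have h2 := hN {0}
    rw [Finset.sum_empty, add_zero] at h1
    rw [Finset.sum_singleton, hp 0] at h2
    exact comb_m1 T0 (u 0) (w 0) (huw 0) (by omega) (by omega) (by omega) (by omega)
  · exfalso
    obtain ⟨I, hI, hA0⟩ := hA 0
    obtain ⟨J, hJ, hB0⟩ := hB 0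
    have h1 := hN ∅
    have h2 := hN {0}
    have h3 := hN {1}
    have h4 := hN {0, 1}
    rw [Finset.sum_empty, add_zero] at h1
    rw [Finset.sum_singleton, hp 0] at h2
    rw [Finset.sum_singleton, hp 1] at h3
    rw [Finset.sum_pair (by decide), hp 0, hp 1] at h4
    have hne := hd 0 1 (by decide)
    rw [hp 0, hp 1] at hne
    have hB' : wt (T0 + Pi.single (w 0) 1) ≤ 1 ∨
        wt (T0 + Pi.single (w 0) 1 + (Pi.single (u 1) 1 + Pi.single (w 1) 1)) ≤ 1 := by
      rcases comb_fin2 J hJ with h | h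
      · left
        rw [h, Finset.sum_empty, add_zero] at hB0
        omega
      · right
        rw [h, Finset.sum_singleton, hp 1] at hB0
        omega
    rcases comb_fin2 I hI with h | h
    · rw [h, Finset.sum_empty, add_zero] at hA0
      exact comb_m2 T0 (u 0) (w 0) (u 1) (w 1) (huw 0) (huw 1) hne (by omega) (by omega)
        (by omega) (by omega) (by omega) hB'
    · rw [h, Finset.sum_singleton, hp 1] at hA0
      have hss := comb_add_self (Pi.single (u 1) 1 + Pi.single (w 1) 1 : V → ZMod 2)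
      have e1 : T0 + (Pi.single (u 1) 1 + Pi.single (w 1) 1) +
          (Pi.single (u 0) 1 + Pi.single (w 0) 1) =
          T0 + ((Pi.single (u 0) 1 + Pi.single (w 0) 1) +
            (Pi.single (u 1) 1 + Pi.single (w 1) 1)) := by
        abel
      have e2 : T0 + (Pi.single (u 1) 1 + Pi.single (w 1) 1) +
          (Pi.single (u 1) 1 + Pi.single (w 1) 1) = T0 := by
        rw [add_assoc, hss, add_zero]
      have e3 : T0 + (Pi.single (u 1) 1 + Pi.single (w 1) 1) +
          ((Pi.single (u 0) 1 + Pi.single (w 0) 1) +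
            (Pi.single (u 1) 1 + Pi.single (w 1) 1)) =
          T0 + (Pi.single (u 0) 1 + Pi.single (w 0) 1) := by
        rw [add_comm (Pi.single (u 0) 1 + Pi.single (w 0) 1), ← add_assoc, e2]
      have e4 : T0 + (Pi.single (u 1) 1 + Pi.single (w 1) 1) + Pi.single (u 0) 1 =
          T0 + Pi.single (u 0) 1 + (Pi.single (u 1) 1 + Pi.single (w 1) 1) := by
        abel
      have e5 : T0 + (Pi.single (u 1) 1 + Pi.single (w 1) 1) + Pi.single (w 0) 1 =
          T0 + Pi.single (w 0) 1 + (Pi.single (u 1) 1 + Pi.single (w 1) 1) := by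
        abel
      have e6 : T0 + (Pi.single (u 1) 1 + Pi.single (w 1) 1) + Pi.single (w 0) 1 +
          (Pi.single (u 1) 1 + Pi.single (w 1) 1) = T0 + Pi.single (w 0) 1 := by
        rw [e5, add_assoc, hss, add_zero]
      refine comb_m2 (T0 + (Pi.single (u 1) 1 + Pi.single (w 1) 1)) (u 0) (w 0) (u 1) (w 1)
        (huw 0) (huw 1) hne (by omega) ?_ ?_ ?_ ?_ ?_
      · rw [e1]
        omega
      · rw [e2]
        omega
      · rw [e3]
        omega
      · rw [e4]
        omega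
      · rw [e6, e5]
        exact hB'.symm
  · right
    refine ⟨rfl, ?_⟩
    have hz : ∀ f : V → ZMod 2, wt f + (3 - 1) ≤ 2 → f = 0 := fun f hf =>
      comb_wt_zero (by omega)
    obtain ⟨c, h1, h2, h3⟩ := comb_m3 u w huw p hp hd T0
      (by
        obtain ⟨I, hI, hA0⟩ := hA 0
        exact ⟨I, hI, hz _ hA0⟩)
      (by
        obtain ⟨I, hI, hB0⟩ := hB 0
        exact ⟨I, hI, hz _ hB0⟩)
    exact ⟨c, h1, fun i => h2 i, h3⟩

end SEY
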