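import Pool.Agent.Helper25.SEY.T.Triad

/-!
T3-Count.
* `count_cycle`: H a TC graph, |U| >= 5, y /= s vertices of degree 3 with a common edge.  F = S minus
  the edges at y or s has |S| - 5 elements and rank <= |U| - 3 (the graph on U - {y,s}); 2|S| = sum of degrees >=
  3|U| so |S| - 5 > |U| - 3.  So F carries a nonzero cycle.  (Concretely: the restrictions to F of the rows are coboundaries
  on U - {y,s}, a space of dimension <= |U| - 3; cycles inside F: dimension >= |F| - (|U|-3) >= 1.)
-/

namespace SEY

open Finset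

variable {E : Type} [Fintype E] [DecidableEq E] {V : Type} [Fintype V] [DecidableEq V]

/-- Sum over the vertices of the sums over the stars, with weights. -/
private lemma count_swap {M : BM E} {U : Finset V} {h t : E → V} (hg : IsGr M U h t)
    {A : Type} [CommRing A] (p : V → A) (z : E → A) :
    ∑ v ∈ U, p v * ∑ e ∈ star M.S h t v, z e = ∑ e ∈ M.S, (p (h e) + p (t e)) * z e := by
  simp only [mul_sum]
  have h1 : ∀ v ∈ U, ∑ e ∈ star M.S h t v, p v * z e =
      ∑ e ∈ M.S, if h e = v ∨ t e = v then p v * z e else 0 := by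
    intro v _
    unfold star
    rw [sum_filter]
  rw [sum_congr rfl h1, sum_comm]
  refine sum_congr rfl fun e he => ?_
  obtain ⟨h2, h3, h4⟩ := hg.ends e he
  have h5 : ∀ v ∈ U, (if h e = v ∨ t e = v then p v * z e else 0) =
      (if h e = v then p v * z e else 0) + (if t e = v then p v * z e else 0) := by
    intro v _
    by_cases ha : h e = v
    · by_cases hb : t e = v
      · exact absurd (ha.trans hb.symm) h4
      · simp [ha, hb]
    · simp [ha]
  rw [sum_congr rfl h5, sum_add_distrib, sum_ite_eq, sum_ite_eq, if_pos h2, if_pos h3]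
  ring

theorem count_cycle {M : BM E} (hM : M.TC) {U : Finset V} {h t : E → V} (hg : IsGr M U h t)
    (hU : 5 ≤ U.card) {y s : V} (hy : y ∈ U) (hs : s ∈ U) (hys : y ≠ s)
    (hy3 : (star M.S h t y).card = 3) (hs3 : (star M.S h t s).card = 3) {x : E} (hx : x ∈ M.S)
    (hj : Jn h t x y s) :
    ∃ z ∈ M.Z, z ≠ 0 ∧ ∀ g, g ∈ star M.S h t y ∨ g ∈ star M.S h t s → z g = 0 := by
  classical
  -- the count
  have hdeg : 3 * U.card ≤ 2 * M.S.card := by
    have h1 := count_swap hg (A := ℤ) (fun _ => 1) (fun _ => 1)
    simp only [one_mul, sum_const, nsmul_eq_mul, mul_one] at h1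
    have h2 : ∑ v ∈ U, ((star M.S h t v).card : ℤ) ≥ ∑ v ∈ U, (3 : ℤ) :=
      sum_le_sum fun v hv => by exact_mod_cast TC.three_le_deg hM hg hv
    rw [h1] at h2
    simp only [sum_const, nsmul_eq_mul] at h2
    push_cast at h2
    omega
  set F : Finset E := M.S \ (star M.S h t y ∪ star M.S h t s) with hF
  have hxy : x ∈ star M.S h t y := by
    refine mem_filter.2 ⟨hx, ?_⟩
    rcases hj with h' | h'
    · exact Or.inl h'.1
    · exact Or.inr h'.2
  have hxs : x ∈ star M.S h t s := by
    refine mem_filter.2 ⟨hx, ?_⟩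
    rcases hj with h' | h'
    · exact Or.inr h'.2
    · exact Or.inl h'.1
  have hun : (star M.S h t y ∪ star M.S h t s).card ≤ 5 := by
    have h1 := card_union_add_card_inter (star M.S h t y) (star M.S h t s)
    have h2 : 0 < (star M.S h t y ∩ star M.S h t s).card := card_pos.2 ⟨x, mem_inter.2 ⟨hxy, hxs⟩⟩
    omega
  have hFc : M.S.card ≤ F.card + 5 := by
    have h1 := card_sdiff_add_card M.S (star M.S h t y ∪ star M.S h t s)
    rw [← hF] at h1
    have h2 : M.S.card ≤ (M.S ∪ (star M.S h t y ∪ star M.S h t s)).card :=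
      card_le_card subset_union_left
    omega
  -- the vertices
  set W : Finset V := (U.erase y).erase s with hW
  have hWc : W.card = U.card - 2 := by
    rw [hW, card_erase_of_mem (mem_erase.2 ⟨hys.symm, hs⟩), card_erase_of_mem hy]
    omega
  obtain ⟨v0, hv0⟩ := card_pos.1 (by omega : 0 < W.card)
  set W' : Finset V := W.erase v0 with hW'
  have hWc' : W'.card = U.card - 3 := by
    rw [hW', card_erase_of_mem hv0]
    omega
  have hlt : W'.card < F.card := by omega
  -- the linear map
  let ext : (F → ZMod 2) → (E → ZMod 2) := fun w e => if he : e ∈ F then w ⟨e, he⟩ else 0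
  let Φ : (F → ZMod 2) →ₗ[ZMod 2] (W' → ZMod 2) :=
    { toFun := fun w v => ∑ e ∈ star M.S h t v.1, ext w e
      map_add' := by
        intro w w'
        funext v
        rw [Pi.add_apply, ← sum_add_distrib]
        refine sum_congr rfl fun e _ => ?_
        by_cases he : e ∈ F
        · simp [ext, he]
        · simp [ext, he]
      map_smul' := by
        intro c w
        funext v
        rw [RingHom.id_apply, Pi.smul_apply, smul_eq_mul, mul_sum]
        refine sum_congr rfl fun e _ => ?_
        by_cases he : e ∈ F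
        · simp [ext, he]
        · simp [ext, he] }
  have hker : Φ.ker ≠ ⊥ := by
    refine LinearMap.ker_ne_bot_of_finrank_lt ?_
    rw [Module.finrank_fintype_fun_eq_card, Module.finrank_fintype_fun_eq_card,
      Fintype.card_coe, Fintype.card_coe]
    exact hlt
  obtain ⟨w, hw, hw0⟩ := Submodule.exists_mem_ne_zero_of_ne_bot hker
  have hzF : ∀ e, e ∉ F → ext w e = 0 := fun e he => dif_neg he
  have hstar0 : ∀ g, g ∈ star M.S h t y ∨ g ∈ star M.S h t s → ext w g = 0 := by
    intro g hg'
    refine hzF g ?_
    rw [hF, mem_sdiff, mem_union]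
    exact fun h' => h'.2 hg'
  have hst : ∀ v ∈ U, ∑ e ∈ star M.S h t v, ext w e = 0 := by
    have hne : ∀ v ∈ U, v ≠ v0 → ∑ e ∈ star M.S h t v, ext w e = 0 := by
      intro v hv hv1
      by_cases h1 : v = y
      · subst h1
        exact sum_eq_zero fun e he => hstar0 e (Or.inl he)
      · by_cases h2 : v = s
        · subst h2
          exact sum_eq_zero fun e he => hstar0 e (Or.inr he)
        · have h3 : v ∈ W' := by
            rw [hW', mem_erase, hW, mem_erase, mem_erase]
            exact ⟨hv1, h2, h1, hv⟩
          exact congrFun (LinearMap.mem_ker.1 hw) ⟨v, h3⟩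
    intro v hv
    by_cases hv1 : v = v0
    · rw [hv1] at hv ⊢
      have h1 := count_swap hg (A := ZMod 2) (fun _ => 1) (ext w)
      simp only [one_mul] at h1
      have h2 : ∑ e ∈ M.S, ((1 : ZMod 2) + 1) * ext w e = 0 := by
        refine sum_eq_zero fun e _ => ?_
        have : (1 : ZMod 2) + 1 = 0 := by decide
        rw [this, zero_mul]
      rw [h2, ← add_sum_erase U _ hv, sum_eq_zero (s := U.erase v0), add_zero] at h1
      · exact h1
      · intro v hv'
        rw [mem_erase] at hv'
        exact hne v hv'.2 hv'.1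
    · exact hne v hv hv1
  refine ⟨ext w, ⟨fun e he => hzF e ?_, ?_⟩, ?_, hstar0⟩
  · rw [hF, mem_sdiff]
    exact fun h' => he h'.1
  · intro f hf
    obtain ⟨π, rfl⟩ := (hg.rows f).1 hf
    have h1 := count_swap hg (A := ZMod 2) π (ext w)
    rw [sum_eq_zero (s := U)] at h1
    · unfold dot cob
      rw [← sum_subset (subset_univ M.S)]
      · rw [h1]
        refine sum_congr rfl fun e he => ?_
        rw [if_pos he]
      · intro e _ he
        rw [if_neg he, zero_mul]
    · intro v hv
      rw [hst v hv, mul_zero]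
  · intro h0
    refine hw0 ?_
    funext e
    have h1 := congrFun h0 e.1
    have h2 : ext w e.1 = w e := by
      simp only [ext]
      rw [dif_pos e.2]
    rw [h2] at h1
    exact h1

end SEY
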