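import Pool.Agent.Helper25.SEY.Link
import Pool.Agent.Helper25.SEY.Bg
import Pool.Agent.Helper25.SEY.Conv
import Pool.Agent.Helper25.SEY.Frame

/-!
Block T3: definitions used in the proof of the structure theorem
(section 3 of /team-store/helper25_SEY.md).
-/

namespace SEY

open Finset

variable {E : Type} [Fintype E] [DecidableEq E]

/-- Minimal nongraphic 3-connected matroid with the topological minor `rows`. -/
structure MinCx {r l : ℕ} (rows : Fin r → Fin l → ZMod 2) (M : BM E) : Prop where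
  tc : M.TC
  nof : NoF M
  hasT : HasT rows M
  ng : ¬ Graphic M
  min : ∀ N : BM E, Minor N M → N.S.card < M.S.card → N.TC → HasT rows N → Graphic N

/-- Triangle type (outcome O2). -/
structure TriT {r l : ℕ} (rows : Fin r → Fin l → ZMod 2) (M : BM E) (e : E)
    (a b : Fin 3 → E) : Prop where
  mem : e ∈ M.S ∧ (∀ i, a i ∈ M.S) ∧ ∀ i, b i ∈ M.S
  inj : Function.Injective a ∧ Function.Injective b ∧ (∀ i j, a i ≠ b j) ∧ (∀ i, e ≠ a i) ∧
    ∀ i, e ≠ b i
  row : ∀ i, ind {e, a i, b i} ∈ M.R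
  cyca : ∀ f ∈ M.R, f e + f (a 0) + f (a 1) + f (a 2) = 0
  cycb : ∀ f ∈ M.R, f e + f (b 0) + f (b 1) + f (b 2) = 0
  tc : ((M.del {e}).con {b 0, b 1, b 2}).TC
  hasT : HasT rows ((M.del {e}).con {b 0, b 1, b 2})

/-- The graft `(N0; f; c, d)` of outcome O4: `N0` is the graph with `ends : Fin k → Fin n × Fin n`;
the edge `f` with ends `a, b` is subdivided by the new vertex `y = n`, column `f` is the edge `a y`,
column `k` is `b y`, column `k + 1` is the edge `y d` and column `k + 2` is the graft element with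
`T = {y, a, b, c}`. -/
def O4rows {n k : ℕ} (ends : Fin k → Fin n × Fin n) (f : Fin k) (c d : Fin n) :
    Fin (n + 1) → Fin (k + 3) → ZMod 2 :=
  fun v j =>
    if hj : (j : ℕ) < k then
      (if (⟨j, hj⟩ : Fin k) = f then
        (if (v : ℕ) = (ends f).1 ∨ (v : ℕ) = n then 1 else 0)
      else
        (if (v : ℕ) = (ends ⟨j, hj⟩).1 then 1 else 0) + (if (v : ℕ) = (ends ⟨j, hj⟩).2 then 1 else 0))
    else if (j : ℕ) = k then (if (v : ℕ) = (ends f).2 ∨ (v : ℕ) = n then 1 else 0)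
    else if (j : ℕ) = k + 1 then (if (v : ℕ) = d ∨ (v : ℕ) = n then 1 else 0)
    else (if (v : ℕ) = (ends f).1 ∨ (v : ℕ) = (ends f).2 ∨ (v : ℕ) = c ∨ (v : ℕ) = n then 1 else 0)

variable {V : Type} [Fintype V] [DecidableEq V]

/-- Option (I): `H = M del e` is a 3-connected graph, `T = {y, a, b, c}`, the vertex `y` has the
three edges `k = y d`, `g1 = y a`, `g2 = y b`, and `H del k` is `SC`. -/
structure SitI {r l : ℕ} (rows : Fin r → Fin l → ZMod 2) (M : BM E) (U : Finset V)
    (h t : E → V) (e k g1 g2 : E) (y a b c d : V) : Prop where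
  cx : MinCx rows M
  gr : IsGraft M e U h t {y, a, b, c}
  tc : (M.del {e}).TC
  ya : y ≠ a
  yb : y ≠ b
  yc : y ≠ c
  ab : a ≠ b
  ac : a ≠ c
  bc : b ≠ c
  yd : y ≠ d
  ad : a ≠ d
  bd : b ≠ d
  jk : Jn h t k y d
  j1 : Jn h t g1 y a
  j2 : Jn h t g2 y b
  st : star (M.S \ {e}) h t y = {k, g1, g2}
  sc : (M.del {e, k}).SC
  hasT : HasT rows (M.del {e, k})

/-- The vertex `s` (`= a` or `b`) has in `H = M del e` the three edges `g` (to `y`), `s c`, `s d`. -/
def Good (M : BM E) (h t : E → V) (e g : E) (s c d : V) : Prop :=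
  ∃ xc xd : E, star (M.S \ {e}) h t s = {g, xc, xd} ∧ Jn h t xc s c ∧ Jn h t xd s d

end SEY
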