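import Pool.Agent.Helper25.SEY.T.Minor

/-!
T3-Exch: graft exchange.
* `exchange` (lemma X): M is the graft of the graph H = M del e with T = {s, n1, n2, w}; the vertex s
  has in H the star {k, p1, p2}, k joins s q, p1 joins s n1, p2 joins s n2.  Then M is also the graft of
  the graph M del k: exchange the two edges p1, p2 at s, e joins s and w, and the graft set of k is
  {s, q, n1, n2}.  Proof: potentials pi (old) and pi' (new): pi' v = pi v for v /= s, pi' s = pi s + pi n1 + pi n2.  Then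
  f(p1) = pi s + pi n1 = pi' s + pi' n2, f(p2) = pi' s + pi' n1, f(e) = pi s + pi n1 + pi n2 + pi w = pi' s + pi' w,
  f(k) = pi s + pi q = pi' s + pi' q + pi' n1 + pi' n2, other edges are not at s.
  The graph M del k: rows by the formula; connectivity: if the coboundary (without k) of pi' vanishes then f = ind {k}
  or 0 would be a row of M; as M del {e,k} is given to be a connected graph: use hc' (the graph of M del {e,k}, same vertices) for
  conn: the new coboundary vanishes on all edges /= k; in terms of old potentials pi the old coboundary vanishes on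
  M.S - {e,k}, so pi is constant on U (hc'), so pi' is constant on U.  ne: vertices n1, n2, q, w have
  other edges (hc' gives nonisolated), s has p1.
-/

namespace SEY

open Finset

variable {E : Type} [Fintype E] [DecidableEq E] {V : Type} [Fintype V] [DecidableEq V]

/-- The ends after the exchange at `s`. -/
def exH (h : E → V) (e p1 p2 : E) (s : V) : E → V :=
  fun x => if x = e ∨ x = p1 ∨ x = p2 then s else h x

/-- The ends after the exchange at `s`. -/
def exT (t : E → V) (e p1 p2 : E) (n1 n2 w : V) : E → V :=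
  fun x => if x = e then w else if x = p1 then n2 else if x = p2 then n1 else t x

/-- The change of the potential at `s`. -/
private def Exch_sw (s n1 n2 : V) (π : V → ZMod 2) : V → ZMod 2 :=
  fun v => if v = s then π s + π n1 + π n2 else π v

omit [Fintype V] in
private theorem Exch_sw_s (s n1 n2 : V) (π : V → ZMod 2) :
    Exch_sw s n1 n2 π s = π s + π n1 + π n2 := if_pos rfl

omit [Fintype V] in
private theorem Exch_sw_ne {s n1 n2 v : V} (π : V → ZMod 2) (h : v ≠ s) :
    Exch_sw s n1 n2 π v = π v := if_neg h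

private theorem Exch_two (x : ZMod 2) : x + x = 0 := by
  revert x
  decide

omit [Fintype V] in
private theorem Exch_sw_sw {s n1 n2 : V} (h1 : n1 ≠ s) (h2 : n2 ≠ s) (π : V → ZMod 2) :
    Exch_sw s n1 n2 (Exch_sw s n1 n2 π) = π := by
  funext v
  by_cases hv : v = s
  · subst hv
    rw [Exch_sw_s, Exch_sw_s, Exch_sw_ne π h1, Exch_sw_ne π h2]
    have e1 := Exch_two (π n1)
    have e2 := Exch_two (π n2)
    calc π v + π n1 + π n2 + π n1 + π n2 = π v + (π n1 + π n1) + (π n2 + π n2) := by ring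
      _ = π v := by rw [e1, e2, add_zero, add_zero]
  · rw [Exch_sw_ne _ hv, Exch_sw_ne _ hv]

omit [Fintype V] in
private theorem Exch_sum4 {a b c d : V} (h : a ≠ b ∧ a ≠ c ∧ a ≠ d ∧ b ≠ c ∧ b ≠ d ∧ c ≠ d)
    (π : V → ZMod 2) : ∑ v ∈ ({a, b, c, d} : Finset V), π v = π a + π b + π c + π d := by
  obtain ⟨h1, h2, h3, h4, h5, h6⟩ := h
  rw [Finset.sum_insert (by simp [h1, h2, h3]), Finset.sum_insert (by simp [h4, h5]),
    Finset.sum_insert (by simp [h6]), Finset.sum_singleton]
  ring

/-- Graft exchange. -/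
theorem exchange {M : BM E} {e k p1 p2 : E} {U : Finset V} {h t : E → V} {s n1 n2 w q : V}
    (hg : IsGraft M e U h t {s, n1, n2, w}) (hd : s ≠ n1 ∧ s ≠ n2 ∧ s ≠ w ∧ n1 ≠ n2 ∧ n1 ≠ w ∧
      n2 ≠ w ∧ q ≠ s ∧ q ≠ n1 ∧ q ≠ n2)
    (hst : star (M.S \ {e}) h t s = {k, p1, p2}) (hk : Jn h t k s q) (h1 : Jn h t p1 s n1)
    (h2 : Jn h t p2 s n2) (hc : IsGr (M.del {e, k}) U h t) :
    IsGraft M k U (exH h e p1 p2 s) (exT t e p1 p2 n1 n2 w) {s, q, n1, n2} := by
  obtain ⟨d1, d2, d3, d4, d5, d6, d7, d8, d9⟩ := hd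
  have hkst : k ∈ star (M.S \ {e}) h t s := by rw [hst]; simp
  have hp1st : p1 ∈ star (M.S \ {e}) h t s := by rw [hst]; simp
  have hp2st : p2 ∈ star (M.S \ {e}) h t s := by rw [hst]; simp
  have hstar : ∀ x, x ∈ star (M.S \ {e}) h t s ↔ (x ∈ M.S ∧ x ≠ e) ∧ (h x = s ∨ t x = s) := by
    intro x
    unfold star
    rw [Finset.mem_filter, Finset.mem_sdiff, Finset.mem_singleton]
  have hkS := ((hstar k).1 hkst).1
  have hp1S := ((hstar p1).1 hp1st).1
  have hp2S := ((hstar p2).1 hp2st).1
  have hkp1 : k ≠ p1 := by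
    rintro rfl
    rcases hk with ⟨a, b⟩ | ⟨a, b⟩ <;> rcases h1 with ⟨a', b'⟩ | ⟨a', b'⟩
    · exact d8 (b.symm.trans b')
    · exact d1 (a.symm.trans a')
    · exact d7 (a.symm.trans a')
    · exact d8 (a.symm.trans a')
  have hkp2 : k ≠ p2 := by
    rintro rfl
    rcases hk with ⟨a, b⟩ | ⟨a, b⟩ <;> rcases h2 with ⟨a', b'⟩ | ⟨a', b'⟩
    · exact d9 (b.symm.trans b')
    · exact d2 (a.symm.trans a')
    · exact d7 (a.symm.trans a')
    · exact d9 (a.symm.trans a')
  have hp12 : p1 ≠ p2 := by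
    rintro rfl
    rcases h1 with ⟨a, b⟩ | ⟨a, b⟩ <;> rcases h2 with ⟨a', b'⟩ | ⟨a', b'⟩
    · exact d4 (b.symm.trans b')
    · exact d2 (a.symm.trans a')
    · exact d1 (a'.symm.trans a)
    · exact d4 (a.symm.trans a')
  have hJ : ∀ {x : E} {u v : V} (π : V → ZMod 2), Jn h t x u v → π (h x) + π (t x) = π u + π v := by
    intro x u v π hx
    rcases hx with ⟨a, b⟩ | ⟨a, b⟩
    · rw [a, b]
    · rw [a, b, add_comm]
  -- the new ends
  have hhe : exH h e p1 p2 s e = s := by simp [exH]
  have hte : exT t e p1 p2 n1 n2 w e = w := by simp [exT]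
  have hh1 : exH h e p1 p2 s p1 = s := by simp [exH]
  have ht1 : exT t e p1 p2 n1 n2 w p1 = n2 := by simp [exT, hp1S.2]
  have hh2 : exH h e p1 p2 s p2 = s := by simp [exH]
  have ht2 : exT t e p1 p2 n1 n2 w p2 = n1 := by simp [exT, hp2S.2, hp12.symm]
  have hho : ∀ x, x ≠ e → x ≠ p1 → x ≠ p2 → exH h e p1 p2 s x = h x := by
    intro x a b c
    simp [exH, a, b, c]
  have hto : ∀ x, x ≠ e → x ≠ p1 → x ≠ p2 → exT t e p1 p2 n1 n2 w x = t x := by
    intro x a b c
    simp [exT, a, b, c]
  have hno : ∀ x, x ∈ M.S → x ≠ e → x ≠ k → x ≠ p1 → x ≠ p2 → h x ≠ s ∧ t x ≠ s := by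
    intro x hx a b c d
    have hns : x ∉ star (M.S \ {e}) h t s := by rw [hst]; simp [b, c, d]
    rw [hstar] at hns
    constructor
    · intro hh; exact hns ⟨⟨hx, a⟩, Or.inl hh⟩
    · intro hh; exact hns ⟨⟨hx, a⟩, Or.inr hh⟩
  -- the key identity
  have key : ∀ (π : V → ZMod 2) (x : E),
      (if x = e then ∑ v ∈ ({s, n1, n2, w} : Finset V), π v else cob (M.S \ {e}) h t π x) =
      (if x = k then ∑ v ∈ ({s, q, n1, n2} : Finset V), Exch_sw s n1 n2 π v else
        cob (M.S \ {k}) (exH h e p1 p2 s) (exT t e p1 p2 n1 n2 w) (Exch_sw s n1 n2 π) x) := by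
    intro π x
    rw [Exch_sum4 ⟨d1, d2, d3, d4, d5, d6⟩ π,
      Exch_sum4 ⟨d7.symm, d1, d2, d8, d9, d4⟩ (Exch_sw s n1 n2 π), Exch_sw_s,
      Exch_sw_ne π d7, Exch_sw_ne π d1.symm, Exch_sw_ne π d2.symm]
    have t1 := Exch_two (π n1)
    have t2 := Exch_two (π n2)
    by_cases hxe : x = e
    · subst hxe
      rw [if_pos rfl, if_neg (fun h' => hkS.2 h'.symm)]
      unfold cob
      rw [if_pos (Finset.mem_sdiff.2 ⟨hg.mem, fun h' => hkS.2 (Finset.mem_singleton.1 h').symm⟩),
        hhe, hte, Exch_sw_s, Exch_sw_ne π d3.symm]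
    · rw [if_neg hxe]
      by_cases hxk : x = k
      · subst hxk
        rw [if_pos rfl]
        unfold cob
        rw [if_pos (Finset.mem_sdiff.2 ⟨hkS.1, fun h' => hxe (Finset.mem_singleton.1 h')⟩),
          hJ π hk]
        calc π s + π q = π s + π q + (π n1 + π n1) + (π n2 + π n2) := by
              rw [t1, t2, add_zero, add_zero]
          _ = π s + π n1 + π n2 + π q + π n1 + π n2 := by ring
      · rw [if_neg hxk]
        unfold cob
        by_cases hx : x ∈ M.S
        · rw [if_pos (Finset.mem_sdiff.2 ⟨hx, fun h' => hxe (Finset.mem_singleton.1 h')⟩),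
            if_pos (Finset.mem_sdiff.2 ⟨hx, fun h' => hxk (Finset.mem_singleton.1 h')⟩)]
          by_cases hx1 : x = p1
          · subst hx1
            rw [hJ π h1, hh1, ht1, Exch_sw_s, Exch_sw_ne π d2.symm]
            calc π s + π n1 = π s + π n1 + (π n2 + π n2) := by rw [t2, add_zero]
              _ = π s + π n1 + π n2 + π n2 := by ring
          · by_cases hx2 : x = p2
            · subst hx2
              rw [hJ π h2, hh2, ht2, Exch_sw_s, Exch_sw_ne π d1.symm]
              calc π s + π n2 = π s + π n2 + (π n1 + π n1) := by rw [t1, add_zero]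
                _ = π s + π n1 + π n2 + π n1 := by ring
            · obtain ⟨a, b⟩ := hno x hx hxe hxk hx1 hx2
              rw [hho x hxe hx1 hx2, hto x hxe hx1 hx2, Exch_sw_ne π a, Exch_sw_ne π b]
        · rw [if_neg (fun h' => hx (Finset.mem_sdiff.1 h').1),
            if_neg (fun h' => hx (Finset.mem_sdiff.1 h').1)]
  have hU : ∀ v ∈ ({s, n1, n2, w} : Finset V), v ∈ U := fun v hv => hg.sub hv
  have hsU := hU s (by simp)
  have hn1U := hU n1 (by simp)
  have hn2U := hU n2 (by simp)
  have hwU := hU w (by simp)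
  have hends : ∀ x, x ∈ M.S → x ≠ e → h x ∈ U ∧ t x ∈ U ∧ h x ≠ t x := by
    intro x hx hxe
    exact hg.gr.ends x (Finset.mem_sdiff.2 ⟨hx, fun h' => hxe (Finset.mem_singleton.1 h')⟩)
  have hqU : q ∈ U := by
    obtain ⟨a, b, _⟩ := hends k hkS.1 hkS.2
    rcases hk with ⟨_, c⟩ | ⟨c, _⟩
    · rw [← c]; exact b
    · rw [← c]; exact a
  have hrows : ∀ f, f ∈ M.R ↔ ∃ π : V → ZMod 2,
      f = fun x => if x = k then ∑ v ∈ ({s, q, n1, n2} : Finset V), π v else
        cob (M.S \ {k}) (exH h e p1 p2 s) (exT t e p1 p2 n1 n2 w) π x := by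
    intro f
    rw [hg.rows f]
    constructor
    · rintro ⟨π, rfl⟩
      exact ⟨Exch_sw s n1 n2 π, funext (key π)⟩
    · rintro ⟨π, rfl⟩
      refine ⟨Exch_sw s n1 n2 π, ?_⟩
      have := funext (key (Exch_sw s n1 n2 π))
      rw [Exch_sw_sw d1.symm d2.symm] at this
      exact this.symm
  refine ⟨hkS.1, ⟨?_, ?_, ?_, ?_⟩, ?_, ?_, hrows⟩
  · -- ends
    intro x hx
    have hx' : x ∈ M.S := (Finset.mem_sdiff.1 hx).1
    by_cases hxe : x = e
    · subst hxe
      rw [hhe, hte]
      exact ⟨hsU, hwU, d3⟩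
    · by_cases hx1 : x = p1
      · subst hx1
        rw [hh1, ht1]
        exact ⟨hsU, hn2U, d2⟩
      · by_cases hx2 : x = p2
        · subst hx2
          rw [hh2, ht2]
          exact ⟨hsU, hn1U, d1⟩
        · rw [hho x hxe hx1 hx2, hto x hxe hx1 hx2]
          exact hends x hx' hxe
  · -- rows of the graph
    intro f
    constructor
    · rintro ⟨g, hgR, rfl⟩
      obtain ⟨π, rfl⟩ := (hrows g).1 hgR
      refine ⟨π, ?_⟩
      funext x
      show (if x ∈ M.S \ {k} then _ else (0 : ZMod 2)) = cob (M.S \ {k}) _ _ π x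
      by_cases hx : x ∈ M.S \ {k}
      · rw [if_pos hx, if_neg (fun h' => (Finset.mem_sdiff.1 hx).2 (Finset.mem_singleton.2 h'))]
      · rw [if_neg hx]
        unfold cob
        rw [if_neg hx]
    · rintro ⟨π, rfl⟩
      refine ⟨_, (hrows _).2 ⟨π, rfl⟩, ?_⟩
      funext x
      show (if x ∈ M.S \ {k} then _ else (0 : ZMod 2)) = cob (M.S \ {k}) _ _ π x
      by_cases hx : x ∈ M.S \ {k}
      · rw [if_pos hx, if_neg (fun h' => (Finset.mem_sdiff.1 hx).2 (Finset.mem_singleton.2 h'))]
      · rw [if_neg hx]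
        unfold cob
        rw [if_neg hx]
  · -- connectedness
    intro π hπ
    set π' := Exch_sw s n1 n2 π with hπ'
    have hback : Exch_sw s n1 n2 π' = π := Exch_sw_sw d1.symm d2.symm π
    have h0 : cob (M.del {e, k}).S h t π' = 0 := by
      funext x
      show (if x ∈ M.S \ {e, k} then π' (h x) + π' (t x) else 0) = 0
      by_cases hx : x ∈ M.S \ {e, k}
      · have hx1 := (Finset.mem_sdiff.1 hx).1
        have hx2 := (Finset.mem_sdiff.1 hx).2
        simp only [Finset.mem_insert, Finset.mem_singleton, not_or] at hx2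
        have h3 := key π' x
        rw [if_neg hx2.1, if_neg hx2.2, hback] at h3
        have h4 : cob (M.S \ {k}) (exH h e p1 p2 s) (exT t e p1 p2 n1 n2 w) π x = 0 :=
          congrFun hπ x
        rw [h4] at h3
        unfold cob at h3
        rw [if_pos (Finset.mem_sdiff.2 ⟨hx1, fun h' => hx2.1 (Finset.mem_singleton.1 h')⟩)] at h3
        rw [if_pos hx, h3]
      · rw [if_neg hx]
    have hconst := hc.conn π' h0
    have hall : ∀ u ∈ U, π u = π' u := by
      intro u hu
      by_cases hus : u = s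
      · subst hus
        have e1 := hconst u hu n1 hn1U
        have e2 := hconst u hu n2 hn2U
        rw [← hback, Exch_sw_s, ← e1, ← e2, add_assoc, Exch_two, add_zero]
      · rw [hπ', Exch_sw_ne π hus]
    intro u hu v hv
    rw [hall u hu, hall v hv]
    exact hconst u hu v hv
  · -- no isolated vertex
    intro v hv
    obtain ⟨x, hx, hxv⟩ := hc.ne v hv
    have hx1 : x ∈ M.S := (Finset.mem_sdiff.1 hx).1
    have hx2 := (Finset.mem_sdiff.1 hx).2
    simp only [Finset.mem_insert, Finset.mem_singleton, not_or] at hx2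
    have hmem : ∀ y, y ∈ M.S → y ≠ k → y ∈ (M.del {k}).S := fun y hy hyk =>
      Finset.mem_sdiff.2 ⟨hy, fun h' => hyk (Finset.mem_singleton.1 h')⟩
    by_cases hxp1 : x = p1
    · subst hxp1
      have hv' : v = s ∨ v = n1 := by
        rcases h1 with ⟨a, b⟩ | ⟨a, b⟩ <;> rcases hxv with c | c
        · exact Or.inl (c.symm.trans a)
        · exact Or.inr (c.symm.trans b)
        · exact Or.inr (c.symm.trans a)
        · exact Or.inl (c.symm.trans b)
      rcases hv' with rfl | rfl
      · exact ⟨x, hmem x hx1 hx2.2, Or.inl hh1⟩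
      · exact ⟨p2, hmem p2 hp2S.1 hkp2.symm, Or.inr ht2⟩
    · by_cases hxp2 : x = p2
      · subst hxp2
        have hv' : v = s ∨ v = n2 := by
          rcases h2 with ⟨a, b⟩ | ⟨a, b⟩ <;> rcases hxv with c | c
          · exact Or.inl (c.symm.trans a)
          · exact Or.inr (c.symm.trans b)
          · exact Or.inr (c.symm.trans a)
          · exact Or.inl (c.symm.trans b)
        rcases hv' with rfl | rfl
        · exact ⟨x, hmem x hx1 hx2.2, Or.inl hh2⟩
        · exact ⟨p1, hmem p1 hp1S.1 hkp1.symm, Or.inr ht1⟩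
      · refine ⟨x, hmem x hx1 hx2.2, ?_⟩
        rw [hho x hx2.1 hxp1 hxp2, hto x hx2.1 hxp1 hxp2]
        exact hxv
  · -- graft set
    intro v hv
    simp only [Finset.mem_insert, Finset.mem_singleton] at hv
    rcases hv with rfl | rfl | rfl | rfl
    · exact hsU
    · exact hqU
    · exact hn1U
    · exact hn2U
  · have : ({s, q, n1, n2} : Finset V).card = 4 := by
      rw [Finset.card_insert_of_notMem (by simp [d7.symm, d1, d2]),
        Finset.card_insert_of_notMem (by simp [d8, d9]),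
        Finset.card_insert_of_notMem (by simp [d4]), Finset.card_singleton]
    rw [this]
    decide

end SEY
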