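import Pool.Agent.Helper25.SEY.T.Triad

/-!
T3-Gext: extending SC graphs by an edge.
* `gext`: M graph, x an edge joining u, v; M del x is SC, Two and a graph on the same vertices; x is not
  parallel to another edge; no vertex s of degree 2 of M del x (s /= u, v) has exactly the neighbours
  u and v.  Then M is SC and Two, and the stars of size 2 of M are stars of size 2 of M del x.
  Proof: `SC_ext` with P = {x}.  z0 = a cycle through x (x is no coloop: otherwise ind {x} is a row of
  M, = cob pi, so pi is constant on U by connectivity of M del x, so cob pi x = 0).  hout: let z be a cycle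
  with z x = 1 such that all elements a /= x with z a = 1 are in one class of M del x; by Two these
  are at most two elements.  None: z = ind {x}, but the star of u contains x once (h x /= t x): parity.
  One, y: y is parallel to x: from the parity at all stars (each vertex /= u,v is not an end of y).
  Two, p and q: p /= q in series in M del x: star s = {p,q} (`IsGr.star2`), by parity of z = {x,p,q} at
  all vertices the neighbours of s are u, v (s is not u or v: star of u meets z evenly...: if s = u then
  star_M u = {x,p,q} has three elements of z, odd: contradiction).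
  Two of M: Ser in M implies Ser in M del x for elements /= x, and x is alone.
-/

namespace SEY

open Finset

variable {E : Type} [Fintype E] [DecidableEq E] {V : Type} [Fintype V] [DecidableEq V]

theorem gext {M : BM E} {U : Finset V} {h t : E → V} {x : E} {u v : V} (hx : x ∈ M.S)
    (hg : IsGr M U h t) (hg' : IsGr (M.del {x}) U h t) (hsc : (M.del {x}).SC)
    (h2 : (M.del {x}).Two) (hj : Jn h t x u v) (hpar : ∀ y ∈ M.S, y ≠ x → ¬ Jn h t y u v)
    (hs : ∀ s ∈ U, s ≠ u → s ≠ v → ∀ p ∈ M.S, ∀ q ∈ M.S, star (M.S \ {x}) h t s = {p, q} →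
      Jn h t p s u → ¬ Jn h t q s v) :
    M.SC ∧ M.Two := by
  have hu : u ∈ U ∧ v ∈ U ∧ u ≠ v := by
    obtain ⟨h1, h2', h3⟩ := hg.ends x hx
    rcases hj with ⟨e1, e2⟩ | ⟨e1, e2⟩
    · rw [← e1, ← e2]
      exact ⟨h1, h2', h3⟩
    · rw [← e1, ← e2]
      exact ⟨h2', h1, Ne.symm h3⟩
  obtain ⟨huU, hvU, huv⟩ := hu
  have hxu : x ∈ star M.S h t u := by
    refine Finset.mem_filter.2 ⟨hx, ?_⟩
    rcases hj with ⟨e1, e2⟩ | ⟨e1, e2⟩
    · exact Or.inl e1
    · exact Or.inr e2
  have hxv : x ∈ star M.S h t v := by
    refine Finset.mem_filter.2 ⟨hx, ?_⟩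
    rcases hj with ⟨e1, e2⟩ | ⟨e1, e2⟩
    · exact Or.inr e2
    · exact Or.inl e1
  -- a cycle through `x`
  obtain ⟨z0, hz0, hz0x⟩ : ∃ z ∈ M.Z, z x = 1 := by
    by_contra hcon
    push Not at hcon
    have h1 : ind {x} ∈ M.R := by
      rw [M.mem_R_iff]
      refine ⟨fun e he => ind_of_notMem (fun h' => he (by
        rw [Finset.mem_singleton.1 h']
        exact hx)), ?_⟩
      intro z hz
      rw [ind_dot, Finset.sum_singleton]
      exact z_ne_one.1 (hcon z hz)
    obtain ⟨π, hπ⟩ := (hg.rows _).1 h1
    have h3 : cob (M.del {x}).S h t π = 0 := by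
      funext e
      unfold cob
      by_cases he : e ∈ (M.del {x}).S
      · rw [if_pos he]
        have he' : e ∈ M.S \ {x} := he
        obtain ⟨he1, he2⟩ := Finset.mem_sdiff.1 he'
        have h4 := congrFun hπ e
        unfold cob at h4
        rw [if_pos he1, ind_of_notMem he2] at h4
        exact h4.symm
      · rw [if_neg he]
        rfl
    have h4 := hg'.conn π h3 (h x) (hg.ends x hx).1 (t x) (hg.ends x hx).2.1
    have h5 := congrFun hπ x
    unfold cob at h5
    rw [if_pos hx, ind_of_mem (Finset.mem_singleton_self x), h4, z_add_self] at h5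
    exact one_ne_zero h5
  have hout : ∀ z ∈ M.Z, (∀ p ∈ ({x} : Finset E), z p = 1) →
      ∃ a b, a ∉ ({x} : Finset E) ∧ b ∉ ({x} : Finset E) ∧ z a = 1 ∧ z b = 1 ∧
        ¬ (M.del {x}).Ser a b := by
    intro z hz hzx
    have hzx : z x = 1 := hzx x (Finset.mem_singleton_self x)
    by_contra hcon
    push Not at hcon
    have hser : ∀ a, a ≠ x → ∀ b, b ≠ x → z a = 1 → z b = 1 → (M.del {x}).Ser a b :=
      fun a ha b hb h1 h3 => hcon a b (by simpa using ha) (by simpa using hb) h1 h3
    set A : Finset E := (M.S \ {x}).filter (fun a => z a = 1) with hA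
    have hAm : ∀ a, a ∈ A ↔ a ∈ M.S ∧ a ≠ x ∧ z a = 1 := by
      intro a
      simp [hA, and_assoc]
    have hxA : x ∉ A := fun h' => ((hAm x).1 h').2.1 rfl
    have hzi : z = ind (insert x A) := by
      funext e
      by_cases he : e ∈ insert x A
      · rw [ind_of_mem he]
        rcases Finset.mem_insert.1 he with h1 | h1
        · rw [h1, hzx]
        · exact ((hAm e).1 h1).2.2
      · rw [ind_of_notMem he]
        have h1 : e ≠ x := fun h' => he (by rw [h']; exact Finset.mem_insert_self _ _)
        have h3 : e ∉ A := fun h' => he (Finset.mem_insert_of_mem h')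
        by_cases h4 : e ∈ M.S
        · rcases zcases (z e) with h5 | h5
          · exact h5
          · exact absurd ((hAm e).2 ⟨h4, h1, h5⟩) h3
        · exact hz.1 e h4
    have par : ∀ s ∈ U, (if x ∈ star M.S h t s then (1 : ZMod 2) else 0) +
        ∑ b ∈ A, (if b ∈ star M.S h t s then (1 : ZMod 2) else 0) = 0 := by
      intro s hsU
      have h1 := hz.2 _ (hg.star_mem hsU)
      rw [ind_dot, hzi] at h1
      have h3 := Finset.sum_insert (f := fun b => if b ∈ star M.S h t s then (1 : ZMod 2) else 0)
        hxA
      have h4 : ∑ b ∈ insert x A, (if b ∈ star M.S h t s then (1 : ZMod 2) else 0) = 0 := by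
        refine Eq.trans ?_ h1
        simp only [ind_apply]
        rw [Finset.sum_ite_mem, Finset.sum_ite_mem, Finset.inter_comm]
      exact h3.symm.trans h4
    have two : ∀ {e : E} {s s' : V}, s ≠ s' → e ∈ star M.S h t s → e ∈ star M.S h t s' →
        Jn h t e s s' := by
      intro e s s' hss h1 h3
      have h4 := (Finset.mem_filter.1 h1).2
      have h5 := (Finset.mem_filter.1 h3).2
      rcases h4 with h4 | h4 <;> rcases h5 with h5 | h5
      · exact absurd (h4.symm.trans h5) hss
      · exact Or.inl ⟨h4, h5⟩
      · exact Or.inr ⟨h5, h4⟩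
      · exact absurd (h4.symm.trans h5) hss
    by_cases hA0 : A = ∅
    · have h1 := par u huU
      rw [hA0, if_pos hxu, Finset.sum_empty] at h1
      simp at h1
    obtain ⟨p, hp⟩ := Finset.nonempty_iff_ne_empty.2 hA0
    obtain ⟨hpS, hpx, hp1⟩ := (hAm p).1 hp
    by_cases hA1 : ∃ q ∈ A, q ≠ p
    · obtain ⟨q, hq, hqp⟩ := hA1
      obtain ⟨hqS, hqx, hq1⟩ := (hAm q).1 hq
      have hpS' : p ∈ (M.del {x}).S := Finset.mem_sdiff.2 ⟨hpS, by simpa using hpx⟩
      have hqS' : q ∈ (M.del {x}).S := Finset.mem_sdiff.2 ⟨hqS, by simpa using hqx⟩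
      have hA2 : A = {p, q} := by
        ext a
        constructor
        · intro ha
          obtain ⟨haS, hax, ha1⟩ := (hAm a).1 ha
          have haS' : a ∈ (M.del {x}).S := Finset.mem_sdiff.2 ⟨haS, by simpa using hax⟩
          rcases h2 p hpS' q hqS' a haS' (hser p hpx q hqx hp1 hq1)
            (hser p hpx a hax hp1 ha1) with h1 | h1 | h1
          · exact absurd h1.symm hqp
          · rw [h1]; simp
          · rw [h1]; simp
        · intro ha
          rcases Finset.mem_insert.1 ha with h1 | h1
          · rw [h1]; exact hp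
          · rw [Finset.mem_singleton.1 h1]; exact hq
      obtain ⟨s, hsU, hst⟩ := (hg'.star2 hsc h2 hpS' hqS' (Ne.symm hqp)).1
        (hser p hpx q hqx hp1 hq1)
      have hst' : star (M.S \ {x}) h t s = {p, q} := hst
      have hps : p ∈ star M.S h t s := by
        have h1 : p ∈ star (M.S \ {x}) h t s := by rw [hst']; simp
        exact Finset.mem_filter.2 ⟨hpS, (Finset.mem_filter.1 h1).2⟩
      have hqs : q ∈ star M.S h t s := by
        have h1 : q ∈ star (M.S \ {x}) h t s := by rw [hst']; simp
        exact Finset.mem_filter.2 ⟨hqS, (Finset.mem_filter.1 h1).2⟩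
      have par2 : ∀ s ∈ U, (if x ∈ star M.S h t s then (1 : ZMod 2) else 0) +
          ((if p ∈ star M.S h t s then (1 : ZMod 2) else 0) +
            (if q ∈ star M.S h t s then (1 : ZMod 2) else 0)) = 0 := by
        intro s hsU
        have h1 := par s hsU
        rwa [hA2, Finset.sum_pair (Ne.symm hqp)] at h1
      have hsu : s ≠ u := by
        intro h1
        rw [h1] at hps hqs
        have h3 := par2 u huU
        rw [if_pos hxu, if_pos hps, if_pos hqs] at h3
        revert h3
        decide
      have hsv : s ≠ v := by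
        intro h1
        rw [h1] at hps hqs
        have h3 := par2 v hvU
        rw [if_pos hxv, if_pos hps, if_pos hqs] at h3
        revert h3
        decide
      -- the three ends of one edge
      have three : ∀ {e : E}, e ∈ star M.S h t s → e ∈ star M.S h t u → e ∈ star M.S h t v →
          False := by
        intro e h1 h3 h4
        rcases two hsu h1 h3 with ⟨a1, a2⟩ | ⟨a1, a2⟩ <;>
          rcases two hsv h1 h4 with ⟨b1, b2⟩ | ⟨b1, b2⟩
        · exact huv (a2.symm.trans b2)
        · exact hsv (a1.symm.trans b1)
        · exact hsu (b1.symm.trans a1)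
        · exact huv (a1.symm.trans b1)
      have pu := par2 u huU
      have pv := par2 v hvU
      rw [if_pos hxu] at pu
      rw [if_pos hxv] at pv
      by_cases hpu : p ∈ star M.S h t u
      · by_cases hqv : q ∈ star M.S h t v
        · exact hs s hsU hsu hsv p hpS q hqS hst' (two hsu hps hpu) (two hsv hqs hqv)
        · have hpv : p ∉ star M.S h t v := fun h1 => three hps hpu h1
          rw [if_neg hpv, if_neg hqv] at pv
          revert pv
          decide
      · by_cases hqu : q ∈ star M.S h t u
        · by_cases hpv : p ∈ star M.S h t v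
          · exact hs s hsU hsu hsv q hqS p hpS (by rw [hst', Finset.pair_comm])
              (two hsu hqs hqu) (two hsv hps hpv)
          · have hqv : q ∉ star M.S h t v := fun h1 => three hqs hqu h1
            rw [if_neg hpv, if_neg hqv] at pv
            revert pv
            decide
        · rw [if_neg hpu, if_neg hqu] at pu
          revert pu
          decide
    · push Not at hA1
      have hA2 : A = {p} := by
        ext a
        constructor
        · intro ha
          rw [hA1 a ha]
          simp
        · intro ha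
          rw [Finset.mem_singleton.1 ha]
          exact hp
      have pu := par u huU
      have pv := par v hvU
      rw [hA2, Finset.sum_singleton, if_pos hxu] at pu
      rw [hA2, Finset.sum_singleton, if_pos hxv] at pv
      by_cases hpu : p ∈ star M.S h t u
      · by_cases hpv : p ∈ star M.S h t v
        · exact hpar p hpS hpx (two huv hpu hpv)
        · rw [if_neg hpv] at pv
          revert pv
          decide
      · rw [if_neg hpu] at pu
        revert pu
        decide
  obtain ⟨h5, h6⟩ := SC_ext M {x} (by simpa using hx) (Finset.singleton_nonempty x) hsc z0 hz0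
    (fun p hp => by rw [Finset.mem_singleton.1 hp]; exact hz0x)
    (fun z _ => by
      rcases zcases (z x) with h1 | h1
      · exact Or.inl (fun p hp => by rw [Finset.mem_singleton.1 hp]; exact h1)
      · exact Or.inr (fun p hp => by rw [Finset.mem_singleton.1 hp]; exact h1)) hout
  refine ⟨h5, ?_⟩
  intro a ha b hb c hc hab hac
  rcases (h6 a ha b hb).1 hab with ⟨h1, h3⟩ | ⟨h1, h3, h4, -⟩
  · left
    rw [Finset.mem_singleton.1 h1, Finset.mem_singleton.1 h3]
  · rcases (h6 a ha c hc).1 hac with ⟨h7, -⟩ | ⟨-, h7, h8, -⟩
    · exact absurd h7 h1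
    · exact h2 a (Finset.mem_sdiff.2 ⟨ha, h1⟩) b (Finset.mem_sdiff.2 ⟨hb, h3⟩) c
        (Finset.mem_sdiff.2 ⟨hc, h7⟩) h4 h8

end SEY
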