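import Pool.Agent.Helper25.SEY.T.Triad
import Pool.Agent.Helper71.SEYApi2

/-!
T3-Gext2: extending SC graphs by an ear of length two.
* `gext2`: the same with an ear of length 2: y a vertex with star {p,q}, p joins y u, q joins y v, u /= v,
  M del {p,q} is SC, Two, a graph on U - y, no edge of it joins u and v, no vertex s of degree 2 has the
  neighbours u, v.  Then M is SC and Two.  (z through P and inside P u class: contract mentally: the
  class part is a path from u to v with at most two edges.)
See also the proof of `gext` in Gext.lean: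
* `gext`: M graph, x an edge joining u, v; M del x is SC, Two and a graph on the same vertices; x is not
  parallel to another edge; no vertex s of degree 2 of M del x (s /= u, v) has exactly the neighbours
  u and v.  Then M is SC and Two, and the stars of size 2 of M are stars of size 2 of M del x.
  Proof: `SC_ext` with P = {x}.  z0 = a cycle through x (x is no coloop: otherwise ind {x} is a row of
  M, = cob pi, so pi is constant on U by connectivity of M del x, so cob pi x = 0).  hout: let z be a cycle
  with z x = 1 such that all elements a /= x with z a = 1 are in one class of M del x; by Two these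
  are at most two elements.  None: z = ind {x}, but the star of u contains x once (h x /= t x): parity.
  One, y: y is parallel to x: from the parity at all stars (each vertex /= u,v is not an end of y).
  Two, p and q: p /= q in series in M del x: star s = {p,q} (`IsGr.star2`), by parity of z = {x,p,q} at
  all vertices the neighbours of s are u, v (s is not u or v: star of u meets z evenly...: if s = u then
  star_M u = {x,p,q} has three elements of z, odd: contradiction).
  Two of M: Ser in M implies Ser in M del x for elements /= x, and x is alone.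
-/

namespace SEY

open Finset

variable {E : Type} [Fintype E] [DecidableEq E] {V : Type} [Fintype V] [DecidableEq V]

theorem gext2 {M : BM E} {U : Finset V} {h t : E → V} {p q : E} {y u v : V}
    (hg : IsGr M U h t) (hy : y ∈ U) (hst : star M.S h t y = {p, q}) (hpq : p ≠ q)
    (hp : Jn h t p y u) (hq : Jn h t q y v) (huv : u ≠ v)
    (hg' : IsGr (M.del {p, q}) (U.erase y) h t) (hsc : (M.del {p, q}).SC)
    (h2 : (M.del {p, q}).Two) (hpar : ∀ x ∈ M.S, ¬ Jn h t x u v)
    (hs : ∀ s ∈ U, s ≠ y → ∀ p' ∈ M.S, ∀ q' ∈ M.S, star (M.S \ {p, q}) h t s = {p', q'} →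
      Jn h t p' s u → ¬ Jn h t q' s v) :
    M.SC ∧ M.Two := by
  have hstar : ∀ (S : Finset E) (s : V) (x : E), x ∈ star S h t s ↔ x ∈ S ∧ (h x = s ∨ t x = s) :=
    fun S s x => by unfold star; rw [mem_filter]
  have hpS : p ∈ M.S := by
    have : p ∈ star M.S h t y := by rw [hst]; simp
    exact ((hstar _ _ _).mp this).1
  have hqS : q ∈ M.S := by
    have : q ∈ star M.S h t y := by rw [hst]; simp
    exact ((hstar _ _ _).mp this).1
  have hyu : y ≠ u := by
    intro e
    have h1 := (hg.ends p hpS).2.2
    rcases hp with ⟨a, b⟩ | ⟨a, b⟩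
    · exact h1 (by rw [a, b, e])
    · exact h1 (by rw [a, b, e])
  have hyv : y ≠ v := by
    intro e
    have h1 := (hg.ends q hqS).2.2
    rcases hq with ⟨a, b⟩ | ⟨a, b⟩
    · exact h1 (by rw [a, b, e])
    · exact h1 (by rw [a, b, e])
  have hu : u ∈ U := by
    have h1 := hg.ends p hpS
    rcases hp with ⟨a, b⟩ | ⟨a, b⟩
    · rw [b] at h1; exact h1.2.1
    · rw [a] at h1; exact h1.1
  have hv : v ∈ U := by
    have h1 := hg.ends q hqS
    rcases hq with ⟨a, b⟩ | ⟨a, b⟩
    · rw [b] at h1; exact h1.2.1
    · rw [a] at h1; exact h1.1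
  -- cycles agree on `p` and `q`
  have hag : ∀ z ∈ M.Z, z p = z q := by
    intro z hz
    have h1 := M.dot_eq_zero (hg.star_mem hy) hz
    rw [hst, ind_dot, sum_pair hpq] at h1
    exact z_add_eq_zero.mp h1
  -- there is a cycle through `p`
  have hz0 : ∃ z ∈ M.Z, z p = 1 := by
    by_contra hno
    push Not at hno
    have hno' : ∀ z ∈ M.Z, z p = 0 := fun z hz => z_ne_one.mp (hno z hz)
    have hR : (ind {p} : E → ZMod 2) ∈ M.R := by
      rw [M.mem_R_iff]
      refine ⟨fun e he => ind_of_notMem ?_, fun z hz => ?_⟩
      · rw [mem_singleton]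
        rintro rfl
        exact he hpS
      · rw [ind_dot, sum_singleton]
        exact hno' z hz
    obtain ⟨π, hπ⟩ := (hg.rows _).mp hR
    have hc : cob (M.S \ {p, q}) h t π = 0 := by
      funext e
      unfold cob
      by_cases he : e ∈ M.S \ {p, q}
      · rw [if_pos he]
        have h1 := congrFun hπ e
        have he1 : e ∈ M.S := (mem_sdiff.mp he).1
        have he2 : e ∉ ({p} : Finset E) := by
          have := (mem_sdiff.mp he).2
          rw [mem_insert, mem_singleton] at this
          rw [mem_singleton]
          exact fun e' => this (Or.inl e')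
        rw [ind_of_notMem he2] at h1
        unfold cob at h1
        rw [if_pos he1] at h1
        exact h1.symm
      · rw [if_neg he]
        rfl
    have h1 : π u = π v := hg'.conn π hc u (mem_erase.mpr ⟨hyu.symm, hu⟩) v
      (mem_erase.mpr ⟨hyv.symm, hv⟩)
    have h2 : π y + π v = 0 := by
      have h3 := congrFun hπ q
      rw [ind_of_notMem (by rw [mem_singleton]; exact hpq.symm)] at h3
      unfold cob at h3
      rw [if_pos hqS] at h3
      rcases hq with ⟨a, b⟩ | ⟨a, b⟩
      · rw [a, b] at h3; exact h3.symm
      · rw [a, b, add_comm] at h3; exact h3.symm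
    have h4 : π y + π u = 1 := by
      have h3 := congrFun hπ p
      rw [ind_of_mem (mem_singleton_self p)] at h3
      unfold cob at h3
      rw [if_pos hpS] at h3
      rcases hp with ⟨a, b⟩ | ⟨a, b⟩
      · rw [a, b] at h3; exact h3.symm
      · rw [a, b, add_comm] at h3; exact h3.symm
    rw [h1, h2] at h4
    exact zero_ne_one h4
  obtain ⟨z0, hz0, hz0p⟩ := hz0
  have hz0q : z0 q = 1 := by rw [← hag z0 hz0]; exact hz0p
  -- a cycle through `p` and `q` has another element at `u` and at `v`
  have key : ∀ (r r' : E) (w w' : V), r ∈ M.S → w ∈ U → w ≠ y → w ≠ w' → Jn h t r y w →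
      Jn h t r' y w' → (∀ e, e = p ∨ e = q ↔ e = r ∨ e = r') → ∀ z ∈ M.Z, z r = 1 →
      ∃ a ∈ star M.S h t w, a ≠ p ∧ a ≠ q ∧ z a = 1 := by
    intro r r' w w' hr hw hwy hww hjr hjr' hrr z hz hzr
    by_contra hno
    push Not at hno
    have h1 := M.dot_eq_zero (hg.star_mem hw) hz
    rw [ind_dot] at h1
    have hrw : r ∈ star M.S h t w := by
      rw [hstar]
      refine ⟨hr, ?_⟩
      rcases hjr with ⟨a, b⟩ | ⟨a, b⟩
      · exact Or.inr b
      · exact Or.inl a
    have hr'w : r' ∉ star M.S h t w := by
      rw [hstar]
      rintro ⟨-, h3⟩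
      rcases hjr' with ⟨a, b⟩ | ⟨a, b⟩
      · rcases h3 with h3 | h3
        · exact hwy (h3.symm.trans a)
        · exact hww (h3.symm.trans b)
      · rcases h3 with h3 | h3
        · exact hww (h3.symm.trans a)
        · exact hwy (h3.symm.trans b)
    rw [← add_sum_erase _ _ hrw, hzr, sum_eq_zero, add_zero] at h1
    · exact one_ne_zero h1
    · intro e he
      rw [mem_erase] at he
      have he' : e ≠ r' := fun e' => hr'w (e' ▸ he.2)
      have h5 : ¬ (e = p ∨ e = q) := by
        rw [hrr]
        rintro (h | h)
        · exact he.1 h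
        · exact he' h
      push Not at h5
      exact z_ne_one.mp (hno e he.2 h5.1 h5.2)
  have hjoin : ∀ (x : E) (s w : V), x ∈ star M.S h t w → (h x = s ∨ t x = s) → s ≠ w →
      Jn h t x s w := by
    intro x s w hx hs' hsw
    have hx' := ((hstar _ _ _).mp hx).2
    rcases hs' with h1 | h1
    · rcases hx' with h2 | h2
      · exact absurd (h1.symm.trans h2) hsw
      · exact Or.inl ⟨h1, h2⟩
    · rcases hx' with h2 | h2
      · exact Or.inr ⟨h2, h1⟩
      · exact absurd (h1.symm.trans h2) hsw
  have hmem : ∀ e : E, e ∉ ({p, q} : Finset E) ↔ e ≠ p ∧ e ≠ q := by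
    intro e
    rw [mem_insert, mem_singleton, not_or]
  obtain ⟨hSC, hSer⟩ := SC_ext M {p, q} (by
      intro e he
      rw [mem_insert, mem_singleton] at he
      rcases he with rfl | rfl
      · exact hpS
      · exact hqS) ⟨p, by simp⟩ hsc z0 hz0 (by
      intro e he
      rw [mem_insert, mem_singleton] at he
      rcases he with rfl | rfl
      · exact hz0p
      · exact hz0q) (by
      intro z hz
      have h1 := hag z hz
      rcases zcases (z p) with h0 | h0
      · left
        intro e he
        rw [mem_insert, mem_singleton] at he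
        rcases he with rfl | rfl
        · exact h0
        · rw [← h1]; exact h0
      · right
        intro e he
        rw [mem_insert, mem_singleton] at he
        rcases he with rfl | rfl
        · exact h0
        · rw [← h1]; exact h0) (by
      intro z hz hzP
      have hzp : z p = 1 := hzP p (by simp)
      have hzq : z q = 1 := hzP q (by simp)
      obtain ⟨a, ha, hap, haq, hza⟩ := key p q u v hpS hu hyu.symm huv hp hq
        (fun e => Iff.rfl) z hz hzp
      obtain ⟨b, hb, hbp, hbq, hzb⟩ := key q p v u hqS hv hyv.symm huv.symm hq hp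
        (fun e => or_comm) z hz hzq
      by_contra hno
      push Not at hno
      have hser := hno a b ((hmem a).mpr ⟨hap, haq⟩) ((hmem b).mpr ⟨hbp, hbq⟩) hza hzb
      have haS : a ∈ M.S := ((hstar _ _ _).mp ha).1
      have hbS : b ∈ M.S := ((hstar _ _ _).mp hb).1
      by_cases hab : a = b
      · subst hab
        exact hpar a haS (hjoin a u v hb ((hstar _ _ _).mp ha).2 huv)
      · have haS' : a ∈ (M.del {p, q}).S := mem_sdiff.mpr ⟨haS, (hmem a).mpr ⟨hap, haq⟩⟩
        have hbS' : b ∈ (M.del {p, q}).S := mem_sdiff.mpr ⟨hbS, (hmem b).mpr ⟨hbp, hbq⟩⟩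
        obtain ⟨s, hsU, hss⟩ := (hg'.star2 hsc h2 haS' hbS' hab).mp hser
        have hss' : star (M.S \ {p, q}) h t s = {a, b} := hss
        have hsa : h a = s ∨ t a = s := by
          have : a ∈ star (M.S \ {p, q}) h t s := by rw [hss']; simp
          exact ((hstar _ _ _).mp this).2
        have hsb : h b = s ∨ t b = s := by
          have : b ∈ star (M.S \ {p, q}) h t s := by rw [hss']; simp
          exact ((hstar _ _ _).mp this).2
        rw [mem_erase] at hsU
        by_cases hsu : s = u
        · subst hsu
          exact hpar b hbS (hjoin b s v hb hsb huv)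
        · by_cases hsv : s = v
          · subst hsv
            have := hjoin a s u ha hsa huv.symm
            exact hpar a haS (Or.symm this)
          · exact hs s hsU.2 hsU.1 a haS b hbS hss' (hjoin a s u ha hsa hsu)
              (hjoin b s v hb hsb hsv))
  refine ⟨hSC, ?_⟩
  intro a ha b hb c hc hab hac
  rw [hSer a ha b hb] at hab
  rw [hSer a ha c hc] at hac
  rcases hab with ⟨h1, h3⟩ | ⟨h1, h3, h4, -⟩
  · rcases hac with ⟨-, h5⟩ | ⟨h5, -⟩
    · rw [mem_insert, mem_singleton] at h1 h3 h5
      rcases h1 with rfl | rfl <;> rcases h3 with rfl | rfl <;> rcases h5 with rfl | rfl <;> simp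
    · exact absurd h1 h5
  · rcases hac with ⟨h5, -⟩ | ⟨-, h5, h6, -⟩
    · exact absurd h5 h1
    · exact h2 a (mem_sdiff.mpr ⟨ha, h1⟩) b (mem_sdiff.mpr ⟨hb, h3⟩) c (mem_sdiff.mpr ⟨hc, h5⟩)
        h4 h6

end SEY
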