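import Pool.Agent.Helper25.SEY.T.Count
import Pool.Agent.Helper71.SEYApi2

/-!
T3-GoodW.
T3-GoodW (3y): Good gives the W-structure a := ![e, g2, xc], b := ![g1, k, xd].
f in M.R is given by potentials pi (`IsGraft.rows`): f e = pi y + pi a + pi b + pi c, f g2 = pi y + pi b, f xc = pi a + pi c: sum 0;
f g1 + f k + f xd = (y+a) + (y+d) + (a+d) = 0.  Rows: {e,g1,g2,k} = lifted star of y, {e,g1,xc,xd} =
lifted star of a (`IsGraft.star_mem`, y, a in T), {g2,k,xc,xd} = their sum.  Distinct elements: e is not
an edge; c /= d; no parallel edges; xc, xd /= g1 (c,d /= y), not at y.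
The cycle: `count_cycle` for H = M.del {e}, y and s = a, joined by g1.
-/

namespace SEY

open Finset

variable {E : Type} [Fintype E] [DecidableEq E] {V : Type} [Fintype V] [DecidableEq V]
variable {r l : ℕ} {rows : Fin r → Fin l → ZMod 2} {M : BM E} {U : Finset V} {h t : E → V}
  {e k g1 g2 : E} {y a b c d : V}

omit [Fintype E] [DecidableEq E] [Fintype V] [DecidableEq V] in
private theorem GoodW_jn_eq {x : E} {u v w : V} (h1 : Jn h t x u v) (h2 : Jn h t x u w) : v = w := by
  rcases h1 with ⟨p, q⟩ | ⟨p, q⟩ <;> rcases h2 with ⟨p', q'⟩ | ⟨p', q'⟩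
  · exact q.symm.trans q'
  · exact (q.symm.trans q').trans (p.symm.trans p')
  · exact (p.symm.trans p').trans (q.symm.trans q')
  · exact p.symm.trans p'

omit [Fintype E] [DecidableEq E] [Fintype V] [DecidableEq V] in
private theorem GoodW_jn_ne {x x' : E} {u v u' v' : V} (h1 : Jn h t x u v) (h2 : Jn h t x' u' v')
    (hu : u ≠ u') (hv : u ≠ v') : x ≠ x' := by
  rintro rfl
  rcases h1 with ⟨p, q⟩ | ⟨p, q⟩ <;> rcases h2 with ⟨p', q'⟩ | ⟨p', q'⟩
  · exact hu (p.symm.trans p')
  · exact hv (p.symm.trans p')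
  · exact hv (q.symm.trans q')
  · exact hu (q.symm.trans q')

omit [Fintype E] [Fintype V] [DecidableEq V] in
private theorem GoodW_cob {S : Finset E} {π : V → ZMod 2} {x : E} {u v : V} (hx : x ∈ S)
    (h1 : Jn h t x u v) : cob S h t π x = π u + π v := by
  unfold cob
  rw [if_pos hx]
  rcases h1 with ⟨p, q⟩ | ⟨p, q⟩
  · rw [p, q]
  · rw [p, q, add_comm]

theorem SitI.good_W (S : SitI rows M U h t e k g1 g2 y a b c d) (hcd : c ≠ d)
    (hU : 5 ≤ U.card) (hG : Good M h t e g1 a c d) :
    ∃ a b : Fin 3 → E, WStr M a b ∧ ∃ z ∈ M.Z, z ≠ 0 ∧ ∀ i, z (a i) = 0 ∧ z (b i) = 0 := by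
  obtain ⟨xc, xd, hst, hxc, hxd⟩ := hG
  have hk : k ∈ star (M.S \ {e}) h t y := by
    rw [S.st]
    simp
  have hg1 : g1 ∈ star (M.S \ {e}) h t y := by
    rw [S.st]
    simp
  have hg2 : g2 ∈ star (M.S \ {e}) h t y := by
    rw [S.st]
    simp
  have hxc' : xc ∈ star (M.S \ {e}) h t a := by
    rw [hst]
    simp
  have hxd' : xd ∈ star (M.S \ {e}) h t a := by
    rw [hst]
    simp
  have hmem : ∀ {x : E} {v : V}, x ∈ star (M.S \ {e}) h t v → x ∈ M.S \ {e} :=
    fun hx => (Finset.mem_filter.1 hx).1
  have hmS : ∀ {x : E} {v : V}, x ∈ star (M.S \ {e}) h t v → x ∈ M.S :=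
    fun hx => (Finset.mem_sdiff.1 (hmem hx)).1
  have hme : ∀ {x : E} {v : V}, x ∈ star (M.S \ {e}) h t v → x ≠ e :=
    fun hx h' => (Finset.mem_sdiff.1 (hmem hx)).2 (Finset.mem_singleton.2 h')
  have n1 : k ≠ g1 := fun h' => S.ad (GoodW_jn_eq (h' ▸ S.jk) S.j1).symm
  have n2 : k ≠ g2 := fun h' => S.bd (GoodW_jn_eq (h' ▸ S.jk) S.j2).symm
  have n3 : g1 ≠ g2 := fun h' => S.ab (GoodW_jn_eq (h' ▸ S.j1) S.j2)
  have n4 : xc ≠ xd := fun h' => hcd (GoodW_jn_eq (h' ▸ hxc) hxd)
  have n5 : k ≠ xc := GoodW_jn_ne S.jk hxc S.ya S.yc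
  have n6 : k ≠ xd := GoodW_jn_ne S.jk hxd S.ya S.yd
  have n7 : g1 ≠ xc := GoodW_jn_ne S.j1 hxc S.ya S.yc
  have n8 : g1 ≠ xd := GoodW_jn_ne S.j1 hxd S.ya S.yd
  have n9 : g2 ≠ xc := GoodW_jn_ne S.j2 hxc S.ya S.yc
  have n10 : g2 ≠ xd := GoodW_jn_ne S.j2 hxd S.ya S.yd
  have hyT : y ∈ ({y, a, b, c} : Finset V) := by simp
  have haT : a ∈ ({y, a, b, c} : Finset V) := by simp
  have hyU : y ∈ U := S.gr.sub hyT
  have haU : a ∈ U := S.gr.sub haT
  have hsy : ind (insert e ({k, g1, g2} : Finset E)) ∈ M.R := by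
    have h1 := S.gr.star_mem hyU
    rw [if_pos hyT, S.st] at h1
    exact h1
  have hsa : ind (insert e ({g1, xc, xd} : Finset E)) ∈ M.R := by
    have h1 := S.gr.star_mem haU
    rw [if_pos haT, hst] at h1
    exact h1
  have hrow : ∀ f ∈ M.R, f e + f g2 + f xc = 0 ∧ f g1 + f k + f xd = 0 := by
    intro f hf
    obtain ⟨π, rfl⟩ := (S.gr.rows f).1 hf
    simp only [if_true, if_neg (hme hg2), if_neg (hme hxc'), if_neg (hme hg1), if_neg (hme hk),
      if_neg (hme hxd')]
    rw [GoodW_cob (hmem hg2) S.j2, GoodW_cob (hmem hxc') hxc, GoodW_cob (hmem hg1) S.j1,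
      GoodW_cob (hmem hk) S.jk, GoodW_cob (hmem hxd') hxd]
    have hsum : ∑ v ∈ ({y, a, b, c} : Finset V), π v = π y + π a + π b + π c := by
      rw [Finset.sum_insert, Finset.sum_insert, Finset.sum_insert, Finset.sum_singleton]
      · ring
      · rw [Finset.mem_singleton]
        exact S.bc
      · rw [Finset.mem_insert, Finset.mem_singleton, not_or]
        exact ⟨S.ab, S.ac⟩
      · rw [Finset.mem_insert, Finset.mem_insert, Finset.mem_singleton, not_or, not_or]
        exact ⟨S.ya, S.yb, S.yc⟩
    rw [hsum]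
    generalize π y = x1
    generalize π a = x2
    generalize π b = x3
    generalize π c = x4
    generalize π d = x5
    revert x1 x2 x3 x4 x5
    decide
  have hcy : (star (M.del {e}).S h t y).card = 3 := by
    show (star (M.S \ {e}) h t y).card = 3
    rw [S.st, Finset.card_eq_three]
    exact ⟨k, g1, g2, n1, n2, n3, rfl⟩
  have hca : (star (M.del {e}).S h t a).card = 3 := by
    show (star (M.S \ {e}) h t a).card = 3
    rw [hst, Finset.card_eq_three]
    exact ⟨g1, xc, xd, n7, n8, n4, rfl⟩
  obtain ⟨z, hz, hz0, hzv⟩ := count_cycle S.tc S.gr.gr hU hyU haU S.ya hcy hca (hmem hg1) S.j1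
  obtain ⟨hzM, hze⟩ := M.mem_Z_del.1 hz
  refine ⟨![e, g2, xc], ![g1, k, xd], ⟨?_, ?_, ?_, ?_, ?_, ?_, ?_, ?_⟩, z, hzM, hz0, ?_⟩
  · intro i
    fin_cases i
    · exact S.gr.mem
    · exact hmS hg2
    · exact hmS hxc'
  · intro i
    fin_cases i
    · exact hmS hg1
    · exact hmS hk
    · exact hmS hxd'
  · intro i j hij
    fin_cases i <;> fin_cases j
    · rfl
    · exact absurd hij.symm (hme hg2)
    · exact absurd hij.symm (hme hxc')
    · exact absurd hij (hme hg2)
    · rfl
    · exact absurd hij n9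
    · exact absurd hij (hme hxc')
    · exact absurd hij.symm n9
    · rfl
  · intro i j hij
    fin_cases i <;> fin_cases j
    · rfl
    · exact absurd hij.symm n1
    · exact absurd hij n8
    · exact absurd hij n1
    · rfl
    · exact absurd hij n6
    · exact absurd hij.symm n8
    · exact absurd hij.symm n6
    · rfl
  · intro i j
    fin_cases i <;> fin_cases j
    · exact (hme hg1).symm
    · exact (hme hk).symm
    · exact (hme hxd').symm
    · exact n3.symm
    · exact n2.symm
    · exact n10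
    · exact n7.symm
    · exact n5.symm
    · exact n4
  · intro f hf
    exact (hrow f hf).1
  · intro f hf
    exact (hrow f hf).2
  · have r01 : ind ({e, g1, g2, k} : Finset E) ∈ M.R := by
      have h1 : ({e, g1, g2, k} : Finset E) = insert e {k, g1, g2} := by
        ext x
        simp only [Finset.mem_insert, Finset.mem_singleton]
        tauto
      rw [h1]
      exact hsy
    have r02 : ind ({e, g1, xc, xd} : Finset E) ∈ M.R := hsa
    have r12 : ind ({g2, k, xc, xd} : Finset E) ∈ M.R := by
      have h1 : (ind ({g2, k, xc, xd} : Finset E) : E → ZMod 2) =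
          ind ({e, g1, g2, k} : Finset E) + ind ({e, g1, xc, xd} : Finset E) := by
        rw [ind_add, ind_inj]
        ext x
        rw [Finset.mem_symmDiff]
        simp only [Finset.mem_insert, Finset.mem_singleton]
        constructor
        · rintro (rfl | rfl | rfl | rfl)
          · left
            refine ⟨by tauto, ?_⟩
            rintro (h' | h' | h' | h')
            · exact hme hg2 h'
            · exact n3 h'.symm
            · exact n9 h'
            · exact n10 h'
          · left
            refine ⟨by tauto, ?_⟩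
            rintro (h' | h' | h' | h')
            · exact hme hk h'
            · exact n1 h'
            · exact n5 h'
            · exact n6 h'
          · right
            refine ⟨by tauto, ?_⟩
            rintro (h' | h' | h' | h')
            · exact hme hxc' h'
            · exact n7 h'.symm
            · exact n9 h'.symm
            · exact n5 h'.symm
          · right
            refine ⟨by tauto, ?_⟩
            rintro (h' | h' | h' | h')
            · exact hme hxd' h'
            · exact n8 h'.symm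
            · exact n10 h'.symm
            · exact n6 h'.symm
        · tauto
      rw [h1]
      exact M.R.add_mem r01 r02
    have perm : ∀ {A B : Finset E}, A = B → ind A ∈ M.R → ind B ∈ M.R := fun h' hA => h' ▸ hA
    intro i j hij
    fin_cases i <;> fin_cases j
    · exact absurd rfl hij
    · exact r01
    · exact r02
    · refine perm (A := {e, g1, g2, k}) ?_ r01
      show ({e, g1, g2, k} : Finset E) = {g2, k, e, g1}
      ext x
      simp only [Finset.mem_insert, Finset.mem_singleton]
      tauto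
    · exact absurd rfl hij
    · exact r12
    · refine perm (A := {e, g1, xc, xd}) ?_ r02
      show ({e, g1, xc, xd} : Finset E) = {xc, xd, e, g1}
      ext x
      simp only [Finset.mem_insert, Finset.mem_singleton]
      tauto
    · refine perm (A := {g2, k, xc, xd}) ?_ r12
      show ({g2, k, xc, xd} : Finset E) = {xc, xd, g2, k}
      ext x
      simp only [Finset.mem_insert, Finset.mem_singleton]
      tauto
    · exact absurd rfl hij
  · have hy0 : ∀ x, x ∈ star (M.S \ {e}) h t y → z x = 0 := fun x hx => hzv x (Or.inl hx)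
    have ha0 : ∀ x, x ∈ star (M.S \ {e}) h t a → z x = 0 := fun x hx => hzv x (Or.inr hx)
    intro i
    fin_cases i
    · exact ⟨hze e (Finset.mem_singleton_self e), hy0 g1 hg1⟩
    · exact ⟨hy0 g2 hg2, hy0 k hk⟩
    · exact ⟨ha0 xc hxc', ha0 xd hxd'⟩

end SEY
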