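import Pool.Agent.Helper25.SEY.T.Minor
import Pool.Agent.Helper71.SEYApi2

/-!
T3-MinCx: consequences of minimality.
* `MinCx.sc_graphic` (G): induction on |N.S|.  If all series classes of N are singletons, N is TC (`TC_iff_SC`)
  and the minimality applies.  Else N.Ser a b, a /= b: N.con {a} is SC (`SC_con`), HasT (`HasT_con`), a minor
  of M, smaller: graphic; `Graphic_of_con` (a is not a coloop: `SC_not_coloop`).
* `MinCx.graft_graphic`: `extg` gives N graphic or (SC and Two); in the second case HasT N by `HasT_of_del`, apply (G).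
* `MinCx.false_of_graft`: N is graphic by the previous lemma; `crit` gives SS inside T with stars of size 2; in
  a 3-connected graph all stars have at least 3 edges (a star of size 2 is a row (`IsGr.star_mem` for
  N.del {e}), i.e. a series pair; use `TC_iff_SC` and `IsGr.star2` or directly), so SS is empty and
  swT = T (T is a subset of U), |T| <= 2, contradiction.
* `MinCx.four_le`: `IsGraft.graphic` and T even.
-/

namespace SEY

open Finset

variable {E : Type} [Fintype E] [DecidableEq E] {V : Type} [Fintype V] [DecidableEq V]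

theorem MinCx.sc_graphic {r l : ℕ} {rows : Fin r → Fin l → ZMod 2} (h0 : (ofRows rows).TC)
    {M : BM E} (hM : MinCx rows M) (N : BM E) (hN : Minor N M) (hc : N.S.card < M.S.card)
    (hsc : N.SC) (hT : HasT rows N) : Graphic N := by
  obtain ⟨n, hn⟩ : ∃ n, N.S.card = n := ⟨_, rfl⟩
  induction n using Nat.strong_induction_on generalizing N with
  | _ n ih =>
    by_cases hser : ∀ a ∈ N.S, ∀ b ∈ N.S, N.Ser a b → a = b
    · exact hM.min N hN hc ((TC_iff_SC N).2 ⟨hsc, hser⟩) hT
    · push Not at hser
      obtain ⟨a, ha, b, hb, hs, hab⟩ := hser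
      have hlt : (N.con {a}).S.card < N.S.card := by
        refine Finset.card_lt_card (Finset.ssubset_iff_subset_ne.2 ⟨Finset.sdiff_subset, ?_⟩)
        intro heq
        have h1 : a ∈ N.S \ {a} := by
          have h2 : a ∈ (N.con {a}).S := by
            rw [heq]
            exact ha
          exact h2
        exact (Finset.mem_sdiff.1 h1).2 (Finset.mem_singleton_self a)
      have hgr : Graphic (N.con {a}) :=
        ih (N.con {a}).S.card (by omega) (N.con {a}) (Minor_trans (Minor_con N {a}) hN)
          (by omega) (SC_con N hsc a b ha hb hab hs).1 (HasT_con h0 ha hb hab hs hT) rfl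
      exact Graphic_of_con ha hb hab hs (SC_not_coloop N hsc a ha) hgr

theorem MinCx.graft_graphic {r l : ℕ} {rows : Fin r → Fin l → ZMod 2} (h0 : (ofRows rows).TC)
    {M : BM E} (hM : MinCx rows M) (N : BM E) (hN : Minor N M) (hc : N.S.card < M.S.card)
    {e : E} {U : Finset V} {h t : E → V} {T : Finset V} (hg : IsGraft N e U h t T)
    (hsc : (N.del {e}).SC) (h2 : (N.del {e}).Two) (hT : HasT rows (N.del {e})) : Graphic N := by
  rcases extg hg hsc h2 with h | h
  · exact hM.sc_graphic h0 N hN hc h.1 (HasT_of_del hT)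
  · exact h

theorem MinCx.false_of_graft {r l : ℕ} {rows : Fin r → Fin l → ZMod 2} (h0 : (ofRows rows).TC)
    {M : BM E} (hM : MinCx rows M) (N : BM E) (hN : Minor N M) (hc : N.S.card < M.S.card)
    {e : E} {U : Finset V} {h t : E → V} {T : Finset V} (hg : IsGraft N e U h t T)
    (htc : (N.del {e}).TC) (hT : HasT rows (N.del {e})) (h4 : 4 ≤ T.card) : False := by
  have hsc := (TC_iff_SC (N.del {e})).1 htc
  have htwo : (N.del {e}).Two := by
    intro a ha b hb c hc' hab _
    exact Or.inl (hsc.2 a ha b hb hab)
  have hG : Graphic N := hM.graft_graphic h0 N hN hc hg hsc.1 htwo hT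
  obtain ⟨SS, hSS, hst, hcard⟩ := crit hg hsc.1 htwo hG
  have hempty : SS = ∅ := by
    rw [Finset.eq_empty_iff_forall_notMem]
    intro s hs
    have h1 : ind (star (N.S \ {e}) h t s) ∈ (N.del {e}).R := hg.gr.star_mem (hg.sub (hSS hs))
    have h2 := hst s hs
    have h3 : (ind (star (N.S \ {e}) h t s) : E → ZMod 2) ≠ 0 := by
      rw [Ne, ind_eq_zero]
      intro h4
      rw [h4] at h2
      simp at h2
    have h4 := htc.row_weight h1 h3
    rw [spt_ind] at h4
    omega
  subst hempty
  have hsw : swT (N.S \ {e}) h t U T ∅ = T := by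
    ext v
    simp only [swT, Finset.mem_filter, Finset.sum_empty, add_zero]
    constructor
    · rintro ⟨-, hodd⟩
      by_contra hv
      rw [if_neg hv] at hodd
      exact absurd hodd (by decide)
    · intro hv
      refine ⟨hg.sub hv, ?_⟩
      rw [if_pos hv]
      exact odd_one
  rw [hsw] at hcard
  omega

theorem MinCx.four_le {r l : ℕ} {rows : Fin r → Fin l → ZMod 2}
    {M : BM E} (hM : MinCx rows M) {e : E} {U : Finset V} {h t : E → V} {T : Finset V}
    (hg : IsGraft M e U h t T) : 4 ≤ T.card := by
  by_contra hlt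
  have h3 := hg.even
  have h2 : T.card ≤ 2 := by
    obtain ⟨k, hk⟩ := h3
    omega
  exact hM.ng (hg.graphic h2)

end SEY
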