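import Pool.Agent.Helper25.SEY.T.Def

/-!
T3-Minor: minors of minors.
* `Minor_con`, `Minor_del`, `Minor_trans`: (M con C) del D con C' del D' = (M con (C u (C' - D))) del (D u D' ...).
  Note that contracting an element outside the ground set does not change anything (rows vanish there), so
  intersect C' with the ground set of the middle matroid first; for C, D disjoint (M del D) con C = (M con C) del D
  [f = mask (S - D) g, f = 0 on C iff g = 0 on C as C is disjoint from D].
-/

namespace SEY

open Finset

variable {E : Type} [Fintype E] [DecidableEq E] {V : Type} [Fintype V] [DecidableEq V]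

private theorem bm_ext {M N : BM E} (h1 : M.S = N.S) (h2 : ∀ f, f ∈ M.R ↔ f ∈ N.R) : M = N := by
  obtain ⟨S, R, h⟩ := M
  obtain ⟨S', R', h'⟩ := N
  simp only at h1 h2
  subst h1
  have : R = R' := Submodule.ext h2
  subst this
  rfl

private theorem mask_app (A : Finset E) (f : E → ZMod 2) (e : E) :
    mask A f e = if e ∈ A then f e else 0 := rfl

theorem con_del_comm (M : BM E) (C D : Finset E) (hd : Disjoint C D) :
    (M.del D).con C = (M.con C).del D := by
  apply bm_ext
  · exact sdiff_right_comm M.S D C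
  · have key : ∀ g ∈ M.R, (∀ e ∈ C, g e = 0) →
        mask ((M.S \ C) \ D) g = mask (M.S \ D) g := by
      intro g _ hg
      funext e
      rw [mask_app, mask_app]
      by_cases hC : e ∈ C
      · rw [hg e hC]
        simp
      · simp [hC]
    intro f
    constructor
    · rintro ⟨⟨g, hg, rfl⟩, hf⟩
      have hg0 : ∀ e ∈ C, g e = 0 := by
        intro e he
        by_cases hS : e ∈ M.S
        · have h1 := hf e he
          rw [mask_app, if_pos] at h1
          · exact h1
          · exact Finset.mem_sdiff.mpr ⟨hS, Finset.disjoint_left.mp hd he⟩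
        · exact M.supp g hg e hS
      exact ⟨g, ⟨hg, hg0⟩, key g hg hg0⟩
    · rintro ⟨g, ⟨hg, hg0⟩, rfl⟩
      refine ⟨⟨g, hg, (key g hg hg0).symm⟩, fun e he => ?_⟩
      have h1 : e ∉ (M.S \ C) \ D := by
        intro h
        exact (Finset.mem_sdiff.mp (Finset.mem_sdiff.mp h).1).2 he
      change mask ((M.S \ C) \ D) g e = 0
      rw [mask_app, if_neg h1]

theorem del_del (M : BM E) (C D : Finset E) : (M.del C).del D = M.del (C ∪ D) := by
  have hS : (M.S \ C) \ D = M.S \ (C ∪ D) := sdiff_sdiff_left
  have key : ∀ g : E → ZMod 2,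
      mask ((M.S \ C) \ D) (mask (M.S \ C) g) = mask (M.S \ (C ∪ D)) g := by
    intro g
    funext e
    rw [mask_app, mask_app, mask_app, hS]
    by_cases h : e ∈ M.S \ (C ∪ D)
    · have h' : e ∈ M.S \ C := by
        rw [← hS] at h
        exact (Finset.mem_sdiff.mp h).1
      rw [if_pos h, if_pos h', if_pos h]
    · rw [if_neg h, if_neg h]
  apply bm_ext
  · exact hS
  · intro f
    constructor
    · rintro ⟨g', ⟨g, hg, rfl⟩, rfl⟩
      exact ⟨g, hg, (key g).symm⟩
    · rintro ⟨g, hg, rfl⟩
      exact ⟨mask (M.S \ C) g, ⟨g, hg, rfl⟩, key g⟩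

theorem con_con (M : BM E) (C D : Finset E) : (M.con C).con D = M.con (C ∪ D) := by
  apply bm_ext
  · exact (sdiff_sdiff_left : (M.S \ C) \ D = M.S \ (C ∪ D))
  · intro f
    constructor
    · rintro ⟨⟨hf, h1⟩, h2⟩
      refine ⟨hf, fun e he => ?_⟩
      rcases Finset.mem_union.mp he with h | h
      · exact h1 e h
      · exact h2 e h
    · rintro ⟨hf, h1⟩
      exact ⟨⟨hf, fun e he => h1 e (Finset.mem_union_left _ he)⟩,
        fun e he => h1 e (Finset.mem_union_right _ he)⟩

private theorem con_empty (M : BM E) : M.con ∅ = M := by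
  apply bm_ext
  · exact Finset.sdiff_empty
  · intro f
    exact ⟨fun h => h.1, fun h => ⟨h, fun e he => absurd he (Finset.notMem_empty e)⟩⟩

private theorem del_empty (M : BM E) : M.del ∅ = M := by
  have key : ∀ g ∈ M.R, mask (M.S \ ∅) g = g := by
    intro g hg
    funext e
    rw [mask_app, Finset.sdiff_empty]
    by_cases h : e ∈ M.S
    · rw [if_pos h]
    · rw [if_neg h, M.supp g hg e h]
  apply bm_ext
  · exact Finset.sdiff_empty
  · intro f
    constructor
    · rintro ⟨g, hg, rfl⟩
      rw [key g hg]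
      exact hg
    · intro h
      exact ⟨f, h, key f h⟩

theorem Minor_con (M : BM E) (C : Finset E) : Minor (M.con C) M :=
  ⟨C, ∅, (del_empty _).symm⟩

theorem Minor_del (M : BM E) (D : Finset E) : Minor (M.del D) M :=
  ⟨∅, D, by rw [con_empty]⟩

private theorem con_sdiff (M : BM E) (C D : Finset E) :
    (M.del D).con C = (M.del D).con (C \ D) := by
  apply bm_ext
  · change (M.S \ D) \ C = (M.S \ D) \ (C \ D)
    ext e
    simp only [Finset.mem_sdiff]
    tauto
  · intro f
    constructor
    · rintro ⟨hf, h1⟩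
      exact ⟨hf, fun e he => h1 e (Finset.mem_sdiff.mp he).1⟩
    · rintro ⟨hf, h1⟩
      refine ⟨hf, fun e he => ?_⟩
      by_cases hD : e ∈ D
      · refine (M.del D).supp f hf e ?_
        intro h
        exact (Finset.mem_sdiff.mp h).2 hD
      · exact h1 e (Finset.mem_sdiff.mpr ⟨he, hD⟩)

theorem Minor_trans {N M L : BM E} (h : Minor N M) (h' : Minor M L) : Minor N L := by
  obtain ⟨C, D, rfl⟩ := h
  obtain ⟨C', D', rfl⟩ := h'
  refine ⟨C' ∪ (C \ D'), D' ∪ D, ?_⟩
  rw [con_sdiff, con_del_comm _ _ _ Finset.sdiff_disjoint, con_con, del_del]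

end SEY
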