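import Pool.Agent.Helper25.SEY.T.Triad

/-!
T3-Subdiv.
* `subdiv`: y a vertex with star {p,q} (p joins y u, q joins y v, u /= v), M con {q} is SC and p is in no
  series pair of M con {q}: then M is SC, and Two if M con {q} is Two.  (`SC_of_con` with a = q, b = p; Ser q p since {p,q} is a row.)
* `con_two`: q, p are in series (their star is a row, p, q are not coloops): `SC_con` with a = q, b = p; Two: Ser in
  M.con {q} is Ser in M.
-/

namespace SEY

open Finset

variable {E : Type} [Fintype E] [DecidableEq E] {V : Type} [Fintype V] [DecidableEq V]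

/-- The two edges at a vertex of degree two are in series. -/
private lemma subdiv_ser {M : BM E} {U : Finset V} {h t : E → V} {p q : E} {y : V}
    (hg : IsGr M U h t) (hy : y ∈ U) (hst : star M.S h t y = {p, q}) (hpq : p ≠ q) :
    p ∈ M.S ∧ q ∈ M.S ∧ M.Ser q p := by
  have h1 : ind (star M.S h t y) ∈ M.R := hg.star_mem hy
  have hp : p ∈ star M.S h t y := by rw [hst]; simp
  have hq : q ∈ star M.S h t y := by rw [hst]; simp
  refine ⟨(Finset.mem_filter.1 hp).1, (Finset.mem_filter.1 hq).1, ?_⟩
  intro z hz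
  have h2 := M.dot_eq_zero h1 hz
  rw [hst, ind_dot, Finset.sum_pair hpq] at h2
  exact (z_add_eq_zero.1 h2).symm

theorem subdiv {M : BM E} {U : Finset V} {h t : E → V} {p q : E} {y : V}
    (hg : IsGr M U h t) (hy : y ∈ U) (hst : star M.S h t y = {p, q}) (hpq : p ≠ q)
    (hcl : ∃ z ∈ M.Z, z q = 1)
    (hsc : (M.con {q}).SC) (h2 : (M.con {q}).Two)
    (hp : ∀ x ∈ M.S, x ≠ q → (M.con {q}).Ser p x → x = p) :
    M.SC ∧ M.Two := by
  obtain ⟨hpS, hqS, hs⟩ := subdiv_ser hg hy hst hpq
  obtain ⟨hSC, hser⟩ := SC_of_con M q p hqS hpS (Ne.symm hpq) hs hcl hsc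
  refine ⟨hSC, ?_⟩
  have key : ∀ x ∈ M.S, M.Ser q x → x = q ∨ x = p := by
    intro x hx hqx
    by_cases hxq : x = q
    · exact Or.inl hxq
    · right
      apply hp x hx hxq
      rw [hser p hpS hpq x hx hxq]
      intro z hz
      rw [← hs z hz]
      exact hqx z hz
  intro a ha b hb c hc hab hac
  by_cases haq : a = q
  · subst haq
    rcases key b hb hab with hb' | hb'
    · exact Or.inl hb'.symm
    · rcases key c hc hac with hc' | hc'
      · exact Or.inr (Or.inl hc'.symm)
      · exact Or.inr (Or.inr (hb'.trans hc'.symm))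
  · by_cases hbq : b = q
    · subst hbq
      have h1 : a = p := by
        rcases key a ha (fun z hz => (hab z hz).symm) with h | h
        · exact absurd h haq
        · exact h
      rcases key c hc (fun z hz => (hab z hz).symm.trans (hac z hz)) with hc' | hc'
      · exact Or.inr (Or.inr hc'.symm)
      · exact Or.inr (Or.inl (h1.trans hc'.symm))
    · by_cases hcq : c = q
      · subst hcq
        have h1 : a = p := by
          rcases key a ha (fun z hz => (hac z hz).symm) with h | h
          · exact absurd h haq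
          · exact h
        rcases key b hb (fun z hz => (hac z hz).symm.trans (hab z hz)) with hb' | hb'
        · exact Or.inr (Or.inr hb')
        · exact Or.inl (h1.trans hb'.symm)
      · have hS : ∀ x ∈ M.S, x ≠ q → x ∈ (M.con {q}).S := by
          intro x hx hxq
          exact Finset.mem_sdiff.2 ⟨hx, fun h => hxq (Finset.mem_singleton.1 h)⟩
        exact h2 a (hS a ha haq) b (hS b hb hbq) c (hS c hc hcq)
          ((hser a ha haq b hb hbq).2 hab) ((hser a ha haq c hc hcq).2 hac)

/-- Contracting one of the two edges at a vertex of degree two keeps `SC` and `Two`. -/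
theorem con_two {M : BM E} {U : Finset V} {h t : E → V} {p q : E} {y : V}
    (hg : IsGr M U h t) (hy : y ∈ U) (hst : star M.S h t y = {p, q}) (hpq : p ≠ q)
    (hsc : M.SC) (h2 : M.Two) : (M.con {q}).SC ∧ (M.con {q}).Two := by
  obtain ⟨hpS, hqS, hs⟩ := subdiv_ser hg hy hst hpq
  obtain ⟨hSC, hser⟩ := SC_con M hsc q p hqS hpS (Ne.symm hpq) hs
  refine ⟨hSC, ?_⟩
  have hS : ∀ x ∈ (M.con {q}).S, x ∈ M.S ∧ x ≠ q := by
    intro x hx
    have h1 := Finset.mem_sdiff.1 hx
    exact ⟨h1.1, fun h => h1.2 (Finset.mem_singleton.2 h)⟩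
  intro a ha b hb c hc hab hac
  obtain ⟨ha1, ha2⟩ := hS a ha
  obtain ⟨hb1, hb2⟩ := hS b hb
  obtain ⟨hc1, hc2⟩ := hS c hc
  exact h2 a ha1 b hb1 c hc1 ((hser a ha1 ha2 b hb1 hb2).1 hab) ((hser a ha1 ha2 c hc1 hc2).1 hac)

end SEY
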