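import Pool.Agent.Helper25.SEY.T.OptD
import Pool.Agent.Helper25.SEY.T.MinCx
import Pool.Agent.Helper25.SEY.T.Gext
import Pool.Agent.Helper25.SEY.T.Subdiv

/-!
T3-OptA.
* `optA_false` (II.6): contract g1 = y a, merging y into a.  N := M con {g1}, H/g1 = N del {e}.
  (M.con {g1}).del {e,k} is SC, Two: contraction in the 2-class {g1,g2} = star of y in H del k
  (`con_two`), HasT (`HasT_con`).  Add k = (a,y'): `gext`: not parallel (the other edges at y' are y'a', y'b', and a is not a', b'),
  the vertices of degree 2 of (H del k)/g1 are y' only (2-classes of H del k are the stars of y and y'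
  [vertices of degree 2 in H del k are ends of k], contraction of g1 keeps the other degrees), y' is an end of k, so the
  hypothesis on s is void.  So N del {e} is SC, Two; all degrees are >= 3 (y' has k, g3, g4), so TC by `IsGr.tc_of_deg`.
  `IsGraft.con`: y in T, so T becomes {y',b,a',b'} (y erased, a removed): 4 elements.
  `MinCx.false_of_graft`.
-/

namespace SEY

open Finset

variable {E : Type} [Fintype E] [DecidableEq E] {V : Type} [Fintype V] [DecidableEq V]

omit [Fintype E] [DecidableEq E] [Fintype V] in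
private lemma optA_mem_star (S : Finset E) (h t : E → V) (v : V) (x : E) :
    x ∈ star S h t v ↔ x ∈ S ∧ (h x = v ∨ t x = v) := Finset.mem_filter

omit [Fintype E] [DecidableEq E] [Fintype V] [DecidableEq V] in
private lemma optA_Jn_end {h t : E → V} {x : E} {u v w : V} (hj : Jn h t x u v)
    (hw : h x = w ∨ t x = w) : w = u ∨ w = v := by
  rcases hj with ⟨q1, q2⟩ | ⟨q1, q2⟩ <;> rcases hw with hw | hw
  · exact Or.inl (hw.symm.trans q1)
  · exact Or.inr (hw.symm.trans q2)
  · exact Or.inr (hw.symm.trans q1)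
  · exact Or.inl (hw.symm.trans q2)

omit [Fintype E] [DecidableEq E] [Fintype V] [DecidableEq V] in
private lemma optA_Jn_left {h t : E → V} {x : E} {u v : V} (hj : Jn h t x u v) :
    h x = u ∨ t x = u := by
  rcases hj with ⟨q1, _⟩ | ⟨_, q2⟩
  · exact Or.inl q1
  · exact Or.inr q2

omit [Fintype E] [DecidableEq E] [Fintype V] [DecidableEq V] in
private lemma optA_Jn_right {h t : E → V} {x : E} {u v : V} (hj : Jn h t x u v) :
    h x = v ∨ t x = v := by
  rcases hj with ⟨_, q2⟩ | ⟨q1, _⟩
  · exact Or.inr q2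
  · exact Or.inl q1

omit [Fintype V] in
private lemma optA_mg_ne {u v w s : V} (hs : s ≠ v) (hm : mg u v w = s) : w = s := by
  unfold mg at hm
  by_cases hw : w = u
  · rw [if_pos hw] at hm
    exact absurd hm.symm hs
  · rwa [if_neg hw] at hm

omit [Fintype V] in
private lemma optA_mg_of_ne {u v w : V} (hw : w ≠ u) : mg u v w = w := if_neg hw

omit [Fintype V] in
private lemma optA_mg_self (u v : V) : mg u v u = v := if_pos rfl

omit [Fintype E] [DecidableEq E] [Fintype V] [DecidableEq V] in
private lemma optA_ne_edge {h t : E → V} {x z : E} {u v u' v' : V} (hj : Jn h t x u v)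
    (hj' : Jn h t z u' v') (h1 : u' ≠ u) (h2 : u' ≠ v) : x ≠ z := by
  rintro rfl
  rcases optA_Jn_end hj (optA_Jn_left hj') with q | q
  · exact h1 q
  · exact h2 q

omit [Fintype E] [DecidableEq E] [Fintype V] [DecidableEq V] in
private lemma optA_ne_edge' {h t : E → V} {x z : E} {u v u' v' : V} (hj : Jn h t x u v)
    (hj' : Jn h t z u' v') (h1 : v' ≠ u) (h2 : v' ≠ v) : x ≠ z := by
  rintro rfl
  rcases optA_Jn_end hj (optA_Jn_right hj') with q | q
  · exact h1 q
  · exact h2 q

theorem optA_false {r l : ℕ} {rows : Fin r → Fin l → ZMod 2} (h0 : (ofRows rows).TC)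
    {M : BM E} (hM : MinCx rows M) {U : Finset V} {h t : E → V} {e k g1 g2 g3 g4 : E}
    {y y' a b a' b' : V} (hO : OptA M U h t e k g1 g2 g3 g4 y y' a b a' b')
    (htc : (M.del {e}).TC) (hsc : (M.del {e, k}).SC) (hT : HasT rows (M.del {e, k})) :
    False := by
  have hnd := hO.nd
  simp only [List.nodup_cons, List.mem_cons, List.not_mem_nil, or_false, not_or,
    not_false_eq_true, List.nodup_nil, and_true] at hnd
  obtain ⟨⟨hyy', hya, hyb, hya', hyb'⟩, ⟨hy'a, hy'b, hy'a', hy'b'⟩, ⟨hab, haa', hab'⟩,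
    ⟨hba', hbb'⟩, ha'b'⟩ := hnd
  have heS : e ∈ M.S := hO.gr.mem
  have hkst : k ∈ star (M.S \ {e}) h t y := by rw [hO.st]; simp
  have hg1st : g1 ∈ star (M.S \ {e}) h t y := by rw [hO.st]; simp
  have hg2st : g2 ∈ star (M.S \ {e}) h t y := by rw [hO.st]; simp
  have hg3st : g3 ∈ star (M.S \ {e}) h t y' := by rw [hO.st']; simp
  have hg4st : g4 ∈ star (M.S \ {e}) h t y' := by rw [hO.st']; simp
  have hkS : k ∈ M.S \ {e} := ((optA_mem_star _ _ _ _ _).1 hkst).1
  have hg1S : g1 ∈ M.S \ {e} := ((optA_mem_star _ _ _ _ _).1 hg1st).1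
  have hg2S : g2 ∈ M.S \ {e} := ((optA_mem_star _ _ _ _ _).1 hg2st).1
  have hg3S : g3 ∈ M.S \ {e} := ((optA_mem_star _ _ _ _ _).1 hg3st).1
  have hg4S : g4 ∈ M.S \ {e} := ((optA_mem_star _ _ _ _ _).1 hg4st).1
  have hHsc : (M.del {e}).SC := ((TC_iff_SC _).1 htc).1
  have hends := hO.gr.gr.ends
  have h1k : g1 ≠ k := (optA_ne_edge' hO.jk hO.j1 (fun q => hya q.symm) (fun q => hy'a q.symm)).symm
  have h2k : g2 ≠ k := (optA_ne_edge' hO.jk hO.j2 (fun q => hyb q.symm) (fun q => hy'b q.symm)).symm
  have h3k : g3 ≠ k :=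
    (optA_ne_edge' hO.jk hO.j3 (fun q => hya' q.symm) (fun q => hy'a' q.symm)).symm
  have h4k : g4 ≠ k :=
    (optA_ne_edge' hO.jk hO.j4 (fun q => hyb' q.symm) (fun q => hy'b' q.symm)).symm
  have h12 : g1 ≠ g2 := optA_ne_edge' hO.j1 hO.j2 (fun q => hyb q.symm) (fun q => hab q.symm)
  have h34 : g3 ≠ g4 := optA_ne_edge' hO.j3 hO.j4 (fun q => hy'b' q.symm) (fun q => ha'b' q.symm)
  have h31 : g3 ≠ g1 := (optA_ne_edge hO.j1 hO.j3 (fun q => hyy' q.symm) hy'a).symm
  have h41 : g4 ≠ g1 := (optA_ne_edge hO.j1 hO.j4 (fun q => hyy' q.symm) hy'a).symm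
  rw [Finset.mem_sdiff, Finset.mem_singleton] at hkS hg1S hg2S hg3S hg4S
  have hyU : y ∈ U := hO.gr.sub (by simp)
  have hdd : (M.del {e}).del {k} = M.del {e, k} := by
    rw [del_del]
    congr 1
  have hkS' : k ∈ (M.del {e}).S := by
    show k ∈ M.S \ {e}
    simp [hkS.1, hkS.2]
  have hgr0 : IsGr (M.del {e, k}) U h t := by
    rw [← hdd]
    exact hO.gr.gr.del hkS' (BM.TC.exists_cycle htc hkS')
  have htwo0 : (M.del {e, k}).Two := by
    rw [← hdd]
    exact TC.del_two htc hkS'
  have hx1H : g1 ∈ (M.del {e, k}).S := by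
    show g1 ∈ M.S \ {e, k}
    simp [hg1S.1, hg1S.2, h1k]
  have hx2H : g2 ∈ (M.del {e, k}).S := by
    show g2 ∈ M.S \ {e, k}
    simp [hg2S.1, hg2S.2, h2k]
  have hst0 : star (M.del {e, k}).S h t y = {g2, g1} := by
    show star (M.S \ {e, k}) h t y = {g2, g1}
    ext x
    have h3 : x ∈ star (M.S \ {e}) h t y ↔ x ∈ ({k, g1, g2} : Finset E) := by rw [hO.st]
    rw [optA_mem_star] at h3
    rw [optA_mem_star]
    simp only [Finset.mem_sdiff, Finset.mem_insert, Finset.mem_singleton] at h3 ⊢
    constructor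
    · rintro ⟨⟨hx, hx2⟩, hx3⟩
      rw [not_or] at hx2
      rcases h3.1 ⟨⟨hx, hx2.1⟩, hx3⟩ with h4 | h4 | h4
      · exact absurd h4 hx2.2
      · exact Or.inr h4
      · exact Or.inl h4
    · intro h4
      have h5 : (x ∈ M.S ∧ ¬x = e) ∧ (h x = y ∨ t x = y) := h3.2 (by tauto)
      refine ⟨⟨h5.1.1, ?_⟩, h5.2⟩
      rintro (h6 | h6)
      · exact h5.1.2 h6
      · rcases h4 with h4 | h4
        · exact h2k (h4.symm.trans h6)
        · exact h1k (h4.symm.trans h6)
  have hser : (M.del {e, k}).Ser g1 g2 :=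
    (hgr0.star2 hsc htwo0 hx1H hx2H h12).2 ⟨y, hyU, by rw [hst0, Finset.pair_comm]⟩
  have hcon := con_two hgr0 hyU hst0 h12.symm hsc htwo0
  have hTcon : HasT rows ((M.del {e, k}).con {g1}) := HasT_con h0 hx1H hx2H h12 hser hT
  have hcard : 4 ≤ M.S.card := hM.tc.1
  -- no parallel edges to `g1`
  have hnop : ∀ x ∈ M.S, x ≠ e → x ≠ g1 → ¬ Jn h t x y a := by
    intro x hx hxe hxx hjx
    exact hxx (hO.gr.gr.no_par hHsc (by show x ∈ M.S \ {e}; simp [hx, hxe])
      (by show g1 ∈ M.S \ {e}; simp [hg1S.1, hg1S.2]) hjx hO.j1)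
  have hgraft0 := hO.gr.con hg1S.1 hg1S.2 hO.j1 hnop (by omega)
  have hyT : y ∈ ({y, y', a, b, a', b'} : Finset V) := by simp
  rw [if_pos hyT] at hgraft0
  have hgN : IsGr ((M.con {g1}).del {e}) (U.erase y) (fun z => mg y a (h z))
      (fun z => mg y a (t z)) := hgraft0.gr
  -- deleting `k`
  have hNk : ((M.con {g1}).del {e}).del {k} = (M.del {e, k}).con {g1} := by
    rw [del_del, con_del_comm M {g1} {e, k}]
    · rfl
    · rw [Finset.disjoint_singleton_left]
      simp [hg1S.2, h1k]
  have hkN : k ∈ ((M.con {g1}).del {e}).S := by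
    show k ∈ (M.S \ {g1}) \ {e}
    simp [hkS.1, hkS.2, h1k.symm]
  have hgNk : IsGr (((M.con {g1}).del {e}).del {k}) (U.erase y) (fun z => mg y a (h z))
      (fun z => mg y a (t z)) := by
    rw [hNk]
    refine hgr0.con hx1H hO.j1 ?_ ?_
    · intro x hx hxx hjx
      have hx' : x ∈ M.S \ {e, k} := hx
      rw [Finset.mem_sdiff, Finset.mem_insert, Finset.mem_singleton, not_or] at hx'
      exact hnop x hx'.1 hx'.2.1 hxx hjx
    · have h5 : ({g1, g2} : Finset E) ⊆ (M.del {e, k}).S := by
        intro x hx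
        rw [Finset.mem_insert, Finset.mem_singleton] at hx
        rcases hx with rfl | rfl
        · exact hx1H
        · exact hx2H
      have h6 := Finset.card_le_card h5
      rw [Finset.card_pair h12] at h6
      exact h6
  have hscNk : (((M.con {g1}).del {e}).del {k}).SC := by rw [hNk]; exact hcon.1
  have htwoNk : (((M.con {g1}).del {e}).del {k}).Two := by rw [hNk]; exact hcon.2
  -- edges at `y'`
  have hxy : ∀ x ∈ M.S, x ≠ e → x ≠ k → (h x = y' ∨ t x = y') → x = g3 ∨ x = g4 := by
    intro x hx h1 h2 h5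
    have h6 : x ∈ star (M.S \ {e}) h t y' := by
      rw [optA_mem_star, Finset.mem_sdiff, Finset.mem_singleton]
      exact ⟨⟨hx, h1⟩, h5⟩
    rw [hO.st', Finset.mem_insert, Finset.mem_insert, Finset.mem_singleton] at h6
    exact h6.resolve_left h2
  have hy'y : y' ≠ y := fun q => hyy' q.symm
  -- degrees
  have hdegs : ∀ s ∈ U, s ≠ y → s ≠ a → s ≠ y' →
      3 ≤ (star (M.S \ {e, k, g1}) (fun z => mg y a (h z)) (fun z => mg y a (t z)) s).card := by
    intro s hs hsd hsw hsy
    have h3 : 3 ≤ (star (M.S \ {e}) h t s).card := TC.three_le_deg htc hO.gr.gr hs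
    refine h3.trans (Finset.card_le_card ?_)
    intro x hx
    rw [optA_mem_star, Finset.mem_sdiff, Finset.mem_singleton] at hx
    rw [optA_mem_star, Finset.mem_sdiff, Finset.mem_insert, Finset.mem_insert,
      Finset.mem_singleton]
    refine ⟨⟨hx.1.1, ?_⟩, ?_⟩
    · rintro (h4 | h4 | h4)
      · exact hx.1.2 h4
      · subst h4
        rcases optA_Jn_end hO.jk hx.2 with q | q
        · exact hsd q
        · exact hsy q
      · subst h4
        rcases optA_Jn_end hO.j1 hx.2 with q | q
        · exact hsd q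
        · exact hsw q
    · rcases hx.2 with q | q
      · left
        show mg y a (h x) = s
        rw [q, optA_mg_of_ne hsd]
      · right
        show mg y a (t x) = s
        rw [q, optA_mg_of_ne hsd]
  have hjk' : Jn (fun z => mg y a (h z)) (fun z => mg y a (t z)) k y' a := by
    rcases hO.jk with ⟨q1, q2⟩ | ⟨q1, q2⟩
    · right
      constructor
      · show mg y a (h k) = a
        rw [q1, optA_mg_self]
      · show mg y a (t k) = y'
        rw [q2, optA_mg_of_ne hy'y]
    · left
      constructor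
      · show mg y a (h k) = y'
        rw [q1, optA_mg_of_ne hy'y]
      · show mg y a (t k) = a
        rw [q2, optA_mg_self]
  have hgx := gext hkN hgN hgNk hscNk htwoNk hjk' (by
      intro x hx hxk hjx
      have hx' : x ∈ (M.S \ {g1}) \ {e} := hx
      rw [Finset.mem_sdiff, Finset.mem_sdiff, Finset.mem_singleton, Finset.mem_singleton] at hx'
      have hy1 : h x = y' ∨ t x = y' := by
        rcases optA_Jn_left hjx with q | q
        · exact Or.inl (optA_mg_ne hy'a q)
        · exact Or.inr (optA_mg_ne hy'a q)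
      have hw1 : mg y a (h x) = a ∨ mg y a (t x) = a := optA_Jn_right hjx
      rcases hxy x hx'.1.1 hx'.2 hxk hy1 with h4 | h4
      · subst h4
        rcases hO.j3 with ⟨q1, q2⟩ | ⟨q1, q2⟩
        · rw [q1, q2, optA_mg_of_ne hy'y, optA_mg_of_ne (fun q => hya' q.symm)] at hw1
          exact hw1.elim (fun q => hy'a q) (fun q => haa' q.symm)
        · rw [q1, q2, optA_mg_of_ne hy'y, optA_mg_of_ne (fun q => hya' q.symm)] at hw1
          exact hw1.elim (fun q => haa' q.symm) (fun q => hy'a q)
      · subst h4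
        rcases hO.j4 with ⟨q1, q2⟩ | ⟨q1, q2⟩
        · rw [q1, q2, optA_mg_of_ne hy'y, optA_mg_of_ne (fun q => hyb' q.symm)] at hw1
          exact hw1.elim (fun q => hy'a q) (fun q => hab' q.symm)
        · rw [q1, q2, optA_mg_of_ne hy'y, optA_mg_of_ne (fun q => hyb' q.symm)] at hw1
          exact hw1.elim (fun q => hab' q.symm) (fun q => hy'a q)) (by
      intro s hs hsy hsw p _ q _ hst' _ _
      have hs' := Finset.mem_erase.1 hs
      have h3 := hdegs s hs'.2 hs'.1 hsw hsy
      have h4 : ((M.con {g1}).del {e}).S \ {k} = M.S \ {e, k, g1} := by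
        show ((M.S \ {g1}) \ {e}) \ {k} = M.S \ {e, k, g1}
        ext x
        simp only [Finset.mem_sdiff, Finset.mem_singleton, Finset.mem_insert]
        tauto
      rw [← h4, hst'] at h3
      have h5 := Finset.card_le_two (a := p) (b := q)
      omega)
  have htcN : ((M.con {g1}).del {e}).TC := by
    refine hgN.tc_of_deg hgx.1 hgx.2 ?_
    intro v hv
    have hv' := Finset.mem_erase.1 hv
    show 3 ≤ (star ((M.S \ {g1}) \ {e}) (fun z => mg y a (h z)) (fun z => mg y a (t z)) v).card
    by_cases hvy : v = y'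
    · subst hvy
      have h5 : ({k, g3, g4} : Finset E) ⊆
          star ((M.S \ {g1}) \ {e}) (fun z => mg y a (h z)) (fun z => mg y a (t z)) v := by
        have aux : ∀ x, x ∈ M.S → x ≠ e → x ≠ g1 → (h x = v ∨ t x = v) →
            x ∈ star ((M.S \ {g1}) \ {e}) (fun z => mg y a (h z)) (fun z => mg y a (t z)) v := by
          intro x hx1 hx2 hx3 hx4
          rw [optA_mem_star, Finset.mem_sdiff, Finset.mem_sdiff, Finset.mem_singleton,
            Finset.mem_singleton]
          refine ⟨⟨⟨hx1, hx3⟩, hx2⟩, ?_⟩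
          rcases hx4 with q | q
          · left
            show mg y a (h x) = v
            rw [q, optA_mg_of_ne hy'y]
          · right
            show mg y a (t x) = v
            rw [q, optA_mg_of_ne hy'y]
        intro x hx
        rw [Finset.mem_insert, Finset.mem_insert, Finset.mem_singleton] at hx
        rcases hx with rfl | rfl | rfl
        · exact aux _ hkS.1 hkS.2 h1k.symm (optA_Jn_right hO.jk)
        · exact aux _ hg3S.1 hg3S.2 h31 (optA_Jn_left hO.j3)
        · exact aux _ hg4S.1 hg4S.2 h41 (optA_Jn_left hO.j4)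
      have h6 := Finset.card_le_card h5
      rw [Finset.card_insert_of_notMem (by simp [h3k.symm, h4k.symm]),
        Finset.card_pair h34] at h6
      exact h6
    · by_cases hvw : v = a
      · subst hvw
        have h3 : 3 ≤ (star (M.S \ {e}) h t v).card := TC.three_le_deg htc hO.gr.gr hv'.2
        have h5 : insert k ((star (M.S \ {e}) h t v).erase g1) ⊆
            star ((M.S \ {g1}) \ {e}) (fun z => mg y v (h z)) (fun z => mg y v (t z)) v := by
          intro x hx
          rw [Finset.mem_insert, Finset.mem_erase, optA_mem_star, Finset.mem_sdiff,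
            Finset.mem_singleton] at hx
          rw [optA_mem_star, Finset.mem_sdiff, Finset.mem_sdiff, Finset.mem_singleton,
            Finset.mem_singleton]
          rcases hx with rfl | hx
          · exact ⟨⟨⟨hkS.1, h1k.symm⟩, hkS.2⟩, optA_Jn_right hjk'⟩
          · refine ⟨⟨⟨hx.2.1.1, hx.1⟩, hx.2.1.2⟩, ?_⟩
            rcases hx.2.2 with q | q
            · left
              show mg y v (h x) = v
              rw [q, optA_mg_of_ne (fun q => hya q.symm)]
            · right
              show mg y v (t x) = v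
              rw [q, optA_mg_of_ne (fun q => hya q.symm)]
        have h6 := Finset.card_le_card h5
        have hknot : k ∉ (star (M.S \ {e}) h t v).erase g1 := by
          intro hk'
          have h7 := (optA_mem_star _ _ _ _ _).1 (Finset.mem_erase.1 hk').2
          rcases optA_Jn_end hO.jk h7.2 with q | q
          · exact hya q.symm
          · exact hy'a q.symm
        rw [Finset.card_insert_of_notMem hknot] at h6
        have h8 := Finset.pred_card_le_card_erase (s := star (M.S \ {e}) h t v) (a := g1)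
        omega
      · refine (hdegs v hv'.2 hv'.1 hvw hvy).trans (Finset.card_le_card ?_)
        intro x hx
        rw [optA_mem_star, Finset.mem_sdiff, Finset.mem_insert, Finset.mem_insert,
          Finset.mem_singleton] at hx
        rw [optA_mem_star, Finset.mem_sdiff, Finset.mem_sdiff, Finset.mem_singleton,
          Finset.mem_singleton]
        exact ⟨⟨⟨hx.1.1, fun q => hx.1.2 (Or.inr (Or.inr q))⟩, fun q => hx.1.2 (Or.inl q)⟩, hx.2⟩
  have hTN : HasT rows ((M.con {g1}).del {e}) := by
    refine HasT_of_del (D := {k}) ?_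
    rw [hNk]
    exact hTcon
  have hlt : (M.con {g1}).S.card < M.S.card := by
    show (M.S \ {g1}).card < M.S.card
    refine Finset.card_lt_card (Finset.ssubset_iff_subset_ne.2 ⟨Finset.sdiff_subset, ?_⟩)
    intro heq
    have h1 : g1 ∈ M.S \ {g1} := by rw [heq]; exact hg1S.1
    exact (Finset.mem_sdiff.1 h1).2 (Finset.mem_singleton_self g1)
  have h4 : 4 ≤ (symmDiff (({y, y', a, b, a', b'} : Finset V).erase y) {a}).card := by
    have hsub : ({y', b, a', b'} : Finset V) ⊆
        symmDiff (({y, y', a, b, a', b'} : Finset V).erase y) {a} := by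
      intro x hx
      rw [Finset.mem_insert, Finset.mem_insert, Finset.mem_insert, Finset.mem_singleton] at hx
      rw [Finset.mem_symmDiff, Finset.mem_erase, Finset.mem_singleton]
      left
      rcases hx with rfl | rfl | rfl | rfl
      · exact ⟨⟨hy'y, by simp⟩, hy'a⟩
      · exact ⟨⟨fun q => hyb q.symm, by simp⟩, fun q => hab q.symm⟩
      · exact ⟨⟨fun q => hya' q.symm, by simp⟩, fun q => haa' q.symm⟩
      · exact ⟨⟨fun q => hyb' q.symm, by simp⟩, fun q => hab' q.symm⟩
    refine le_trans ?_ (Finset.card_le_card hsub)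
    rw [Finset.card_insert_of_notMem (by simp [hy'b, hy'a', hy'b']),
      Finset.card_insert_of_notMem (by simp [hba', hbb']), Finset.card_pair ha'b']
  exact hM.false_of_graft h0 (M.con {g1}) (Minor_con M {g1}) hlt hgraft0 htcN hTN h4

end SEY
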