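import Pool.Agent.Helper25.SEY.T.OptD
import Pool.Agent.Helper25.SEY.T.Count
import Pool.Agent.Helper71.SEYApi2

/-!
T3-OptB.
* `optB_W` (II.4): W-structure a := ![e, g1, g3], b := ![k, g2, g4].  f in M.R is given by pi (`IsGraft.rows`): f e = pi y + pi y' +
  pi a + pi a' , f g1 = pi y + pi a, f g3 = pi y' + pi a': sum 0.  f k + f g2 + f g4 = (y+y')+(y+b)+(y'+b) = 0.  Rows:
  {e,k,g1,g2} = lifted star of y (`IsGraft.star_mem`, y in T), {e,k,g3,g4} = lifted star of y', {g1,g2,g3,g4} their sum.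
  The cycle: `count_cycle` for H = M del {e}, vertices y, y' (U >= 5 by hypothesis): z vanishes on both stars, and at e.
-/

namespace SEY

open Finset

variable {E : Type} [Fintype E] [DecidableEq E] {V : Type} [Fintype V] [DecidableEq V]

omit [Fintype E] [DecidableEq E] [Fintype V] [DecidableEq V] in
/-- Edges with different pairs of ends are different. -/
private lemma optB_ne {h t : E → V} {x x' : E} {u v u' v' : V} (hj : Jn h t x u v)
    (hj' : Jn h t x' u' v') (h1 : u ≠ u' ∨ v ≠ v') (h2 : u ≠ v' ∨ v ≠ u') : x ≠ x' := by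
  rintro rfl
  rcases hj with ⟨p, q⟩ | ⟨p, q⟩ <;> rcases hj' with ⟨p', q'⟩ | ⟨p', q'⟩
  · have hu : u = u' := p.symm.trans p'
    have hv : v = v' := q.symm.trans q'
    rcases h1 with h | h
    · exact h hu
    · exact h hv
  · have hu : u = v' := p.symm.trans p'
    have hv : v = u' := q.symm.trans q'
    rcases h2 with h | h
    · exact h hu
    · exact h hv
  · have hu : v = u' := p.symm.trans p'
    have hv : u = v' := q.symm.trans q'
    rcases h2 with h | h
    · exact h hv
    · exact h hu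
  · have hu : v = v' := p.symm.trans p'
    have hv : u = u' := q.symm.trans q'
    rcases h1 with h | h
    · exact h hv
    · exact h hu

omit [Fintype E] [Fintype V] [DecidableEq V] in
private lemma optB_cob {S : Finset E} {h t : E → V} {x : E} {u v : V} (π : V → ZMod 2)
    (hx : x ∈ S) (hj : Jn h t x u v) : cob S h t π x = π u + π v := by
  unfold cob
  rw [if_pos hx]
  rcases hj with ⟨p, q⟩ | ⟨p, q⟩
  · rw [p, q]
  · rw [p, q, add_comm]

omit [Fintype E] in
private lemma optB_ind_add {p q x1 x2 x3 x4 : E} (hp1 : p ≠ x1) (hp2 : p ≠ x2) (hp3 : p ≠ x3)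
    (hp4 : p ≠ x4) (hq1 : q ≠ x1) (hq2 : q ≠ x2) (hq3 : q ≠ x3) (hq4 : q ≠ x4)
    (h13 : x1 ≠ x3) (h14 : x1 ≠ x4) (h23 : x2 ≠ x3) (h24 : x2 ≠ x4) :
    (ind {x1, x2, x3, x4} : E → ZMod 2) = ind {p, q, x1, x2} + ind {p, q, x3, x4} := by
  have h2 : (1 : ZMod 2) + 1 = 0 := by decide
  funext x
  simp only [ind, Pi.add_apply, mem_insert, mem_singleton]
  by_cases hxp : x = p
  · subst hxp
    simp [hp1, hp2, hp3, hp4, h2]
  by_cases hxq : x = q
  · subst hxq
    simp [hq1, hq2, hq3, hq4, h2]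
  by_cases hx1 : x = x1
  · subst hx1
    simp [hxp, hxq, h13, h14]
  by_cases hx2 : x = x2
  · subst hx2
    simp [hxp, hxq, h23, h24]
  simp [hxp, hxq, hx1, hx2]

theorem optB_W {M : BM E} {U : Finset V} {h t : E → V} {e k g1 g2 g3 g4 : E}
    {y y' a a' b : V} (hO : OptB M U h t e k g1 g2 g3 g4 y y' a a' b)
    (htc : (M.del {e}).TC) (hU : 5 ≤ U.card) :
    ∃ a b : Fin 3 → E, WStr M a b ∧ ∃ z ∈ M.Z, z ≠ 0 ∧ ∀ i, z (a i) = 0 ∧ z (b i) = 0 := by
  classical
  have hnd := hO.nd
  simp only [List.nodup_cons, List.mem_cons, List.not_mem_nil, or_false, not_or,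
    not_false_eq_true, List.nodup_nil, and_true] at hnd
  obtain ⟨⟨nyy', nya, nya', nyb⟩, ⟨ny'a, ny'a', ny'b⟩, ⟨naa', nab⟩, na'b⟩ := hnd
  have hsub1 : ∀ x ∈ star (M.S \ {e}) h t y, x ∈ M.S ∧ x ≠ e := by
    intro x hx
    have := (mem_filter.1 hx).1
    rw [mem_sdiff, mem_singleton] at this
    exact this
  have hsub2 : ∀ x ∈ star (M.S \ {e}) h t y', x ∈ M.S ∧ x ≠ e := by
    intro x hx
    have := (mem_filter.1 hx).1
    rw [mem_sdiff, mem_singleton] at this
    exact this
  have ck := hsub1 k (by rw [hO.st]; simp)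
  have c1 := hsub1 g1 (by rw [hO.st]; simp)
  have c2 := hsub1 g2 (by rw [hO.st]; simp)
  have c3 := hsub2 g3 (by rw [hO.st']; simp)
  have c4 := hsub2 g4 (by rw [hO.st']; simp)
  have nk1 : k ≠ g1 := optB_ne hO.jk hO.j1 (Or.inr ny'a) (Or.inl nya)
  have nk2 : k ≠ g2 := optB_ne hO.jk hO.j2 (Or.inr ny'b) (Or.inl nyb)
  have nk3 : k ≠ g3 := optB_ne hO.jk hO.j3 (Or.inl nyy') (Or.inl nya')
  have nk4 : k ≠ g4 := optB_ne hO.jk hO.j4 (Or.inl nyy') (Or.inl nyb)
  have n12 : g1 ≠ g2 := optB_ne hO.j1 hO.j2 (Or.inr nab) (Or.inl nyb)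
  have n13 : g1 ≠ g3 := optB_ne hO.j1 hO.j3 (Or.inl nyy') (Or.inl nya')
  have n14 : g1 ≠ g4 := optB_ne hO.j1 hO.j4 (Or.inl nyy') (Or.inl nyb)
  have n23 : g2 ≠ g3 := optB_ne hO.j2 hO.j3 (Or.inl nyy') (Or.inl nya')
  have n24 : g2 ≠ g4 := optB_ne hO.j2 hO.j4 (Or.inl nyy') (Or.inl nyb)
  have n34 : g3 ≠ g4 := optB_ne hO.j3 hO.j4 (Or.inr na'b) (Or.inl ny'b)
  have hyU : y ∈ U := hO.gr.sub (by simp)
  have hy'U : y' ∈ U := hO.gr.sub (by simp)
  have hr1 : ind {e, k, g1, g2} ∈ M.R := by
    have := hO.gr.star_mem hyU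
    rw [if_pos (by simp), hO.st] at this
    exact this
  have hr2 : ind {e, k, g3, g4} ∈ M.R := by
    have := hO.gr.star_mem hy'U
    rw [if_pos (by simp), hO.st'] at this
    exact this
  have hr3 : ind {g1, g2, g3, g4} ∈ M.R := by
    rw [optB_ind_add (p := e) (q := k) c1.2.symm c2.2.symm c3.2.symm c4.2.symm nk1 nk2 nk3 nk4
      n13 n14 n23 n24]
    exact M.R.add_mem hr1 hr2
  have mS : ∀ x : E, x ∈ M.S ∧ x ≠ e → x ∈ M.S \ {e} := by
    intro x hx
    rw [mem_sdiff, mem_singleton]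
    exact hx
  have two : ∀ x : ZMod 2, x + x = 0 := z_add_self
  refine ⟨![e, g1, g3], ![k, g2, g4], ⟨?_, ?_, ?_, ?_, ?_, ?_, ?_, ?_⟩, ?_⟩
  · intro i
    fin_cases i
    · exact hO.gr.mem
    · exact c1.1
    · exact c3.1
  · intro i
    fin_cases i
    · exact ck.1
    · exact c2.1
    · exact c4.1
  · intro i j hij
    fin_cases i <;> fin_cases j <;> simp_all
  · intro i j hij
    fin_cases i <;> fin_cases j <;> simp_all
  · intro i j
    fin_cases i <;> fin_cases j
    · exact ck.2.symm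
    · exact c2.2.symm
    · exact c4.2.symm
    · exact nk1.symm
    · exact n12
    · exact n14
    · exact nk3.symm
    · exact n23.symm
    · exact n34
  · intro f hf
    obtain ⟨π, rfl⟩ := (hO.gr.rows f).1 hf
    have e1 : ∑ v ∈ ({y, y', a, a'} : Finset V), π v = π y + (π y' + (π a + π a')) := by
      rw [sum_insert, sum_insert, sum_insert, sum_singleton]
      · simpa using naa'
      · simp only [mem_insert, mem_singleton, not_or]; exact ⟨ny'a, ny'a'⟩
      · simp only [mem_insert, mem_singleton, not_or]; exact ⟨nyy', nya, nya'⟩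
    have e2 := optB_cob π (mS g1 c1) hO.j1
    have e3 := optB_cob π (mS g3 c3) hO.j3
    show (if e = e then ∑ v ∈ ({y, y', a, a'} : Finset V), π v else cob (M.S \ {e}) h t π e)
      + (if g1 = e then ∑ v ∈ ({y, y', a, a'} : Finset V), π v else cob (M.S \ {e}) h t π g1)
      + (if g3 = e then ∑ v ∈ ({y, y', a, a'} : Finset V), π v else cob (M.S \ {e}) h t π g3) = 0
    rw [if_pos rfl, if_neg c1.2, if_neg c3.2, e1, e2, e3]
    have : π y + (π y' + (π a + π a')) + (π y + π a) + (π y' + π a')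
        = (π y + π y) + (π y' + π y') + (π a + π a) + (π a' + π a') := by ring
    rw [this, two (π y), two (π y'), two (π a), two (π a')]
    simp
  · intro f hf
    obtain ⟨π, rfl⟩ := (hO.gr.rows f).1 hf
    have e1 := optB_cob π (mS k ck) hO.jk
    have e2 := optB_cob π (mS g2 c2) hO.j2
    have e3 := optB_cob π (mS g4 c4) hO.j4
    show (if k = e then ∑ v ∈ ({y, y', a, a'} : Finset V), π v else cob (M.S \ {e}) h t π k)
      + (if g2 = e then ∑ v ∈ ({y, y', a, a'} : Finset V), π v else cob (M.S \ {e}) h t π g2)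
      + (if g4 = e then ∑ v ∈ ({y, y', a, a'} : Finset V), π v else cob (M.S \ {e}) h t π g4) = 0
    rw [if_neg ck.2, if_neg c2.2, if_neg c4.2, e1, e2, e3]
    have : π y + π y' + (π y + π b) + (π y' + π b)
        = (π y + π y) + (π y' + π y') + (π b + π b) := by ring
    rw [this, two (π y), two (π y'), two (π b)]
    simp
  · have q1 : ({g1, g2, e, k} : Finset E) = {e, k, g1, g2} := by
      ext x; simp only [mem_insert, mem_singleton]; tauto
    have q2 : ({g3, g4, e, k} : Finset E) = {e, k, g3, g4} := by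
      ext x; simp only [mem_insert, mem_singleton]; tauto
    have q3 : ({g3, g4, g1, g2} : Finset E) = {g1, g2, g3, g4} := by
      ext x; simp only [mem_insert, mem_singleton]; tauto
    intro i j hij
    fin_cases i <;> fin_cases j
    · exact absurd rfl hij
    · exact hr1
    · exact hr2
    · show ind {g1, g2, e, k} ∈ M.R
      rw [q1]; exact hr1
    · exact absurd rfl hij
    · exact hr3
    · show ind {g3, g4, e, k} ∈ M.R
      rw [q2]; exact hr2
    · show ind {g3, g4, g1, g2} ∈ M.R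
      rw [q3]; exact hr3
    · exact absurd rfl hij
  · have s1 : star (M.del {e}).S h t y = {k, g1, g2} := hO.st
    have s2 : star (M.del {e}).S h t y' = {k, g3, g4} := hO.st'
    obtain ⟨z, hz, hz0, hv⟩ := count_cycle htc hO.gr.gr hU hyU hy'U nyy'
      (by rw [s1, card_insert_of_notMem, card_insert_of_notMem, card_singleton]
          · simpa using n12
          · simp only [mem_insert, mem_singleton, not_or]; exact ⟨nk1, nk2⟩)
      (by rw [s2, card_insert_of_notMem, card_insert_of_notMem, card_singleton]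
          · simpa using n34
          · simp only [mem_insert, mem_singleton, not_or]; exact ⟨nk3, nk4⟩)
      (x := k) (mS k ck) hO.jk
    have hz' := (BM.mem_Z_del M).1 hz
    have ze : z e = 0 := hz'.2 e (mem_singleton_self e)
    have v1 : ∀ g ∈ ({k, g1, g2} : Finset E), z g = 0 := by
      intro g hg
      exact hv g (Or.inl (by rw [s1]; exact hg))
    have v2 : ∀ g ∈ ({k, g3, g4} : Finset E), z g = 0 := by
      intro g hg
      exact hv g (Or.inr (by rw [s2]; exact hg))
    refine ⟨z, hz'.1, hz0, ?_⟩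
    intro i
    fin_cases i
    · exact ⟨ze, v1 k (by simp)⟩
    · exact ⟨v1 g1 (by simp), v1 g2 (by simp)⟩
    · exact ⟨v2 g3 (by simp), v2 g4 (by simp)⟩

end SEY
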