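import Pool.Agent.Helper25.SEY.T.Def

/-!
T3-OptD: the options (II), definitions.

-/

namespace SEY

open Finset

variable {E : Type} [Fintype E] [DecidableEq E] {V : Type} [Fintype V] [DecidableEq V]

/-- Option (II.6). -/
structure OptA (M : BM E) (U : Finset V) (h t : E → V) (e k g1 g2 g3 g4 : E)
    (y y' a b a' b' : V) : Prop where
  gr : IsGraft M e U h t {y, y', a, b, a', b'}
  nd : [y, y', a, b, a', b'].Nodup
  jk : Jn h t k y y'
  j1 : Jn h t g1 y a
  j2 : Jn h t g2 y b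
  j3 : Jn h t g3 y' a'
  j4 : Jn h t g4 y' b'
  st : star (M.S \ {e}) h t y = {k, g1, g2}
  st' : star (M.S \ {e}) h t y' = {k, g3, g4}

/-- Option (II.4). -/
structure OptB (M : BM E) (U : Finset V) (h t : E → V) (e k g1 g2 g3 g4 : E)
    (y y' a a' b : V) : Prop where
  gr : IsGraft M e U h t {y, y', a, a'}
  nd : [y, y', a, a', b].Nodup
  jk : Jn h t k y y'
  j1 : Jn h t g1 y a
  j2 : Jn h t g2 y b
  j3 : Jn h t g3 y' a'
  j4 : Jn h t g4 y' b
  st : star (M.S \ {e}) h t y = {k, g1, g2}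
  st' : star (M.S \ {e}) h t y' = {k, g3, g4}

end SEY
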