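import Pool.Agent.Helper25.SEY.T.Minor
import Pool.Agent.Helper71.SEYApi2

/-!
T3-Triad: deleting an element from a 3-connected matroid.
* `TC.triad`: M TC, a /= b in series in M del e.  The functional z -> z a + z b on Z(M) vanishes on
  all z with z e = 0 (these are the cycles of M del e), so it is 0 or z -> z e; i.e. {a,b} or {a,b,e}
  is a row (double dual: a vector orthogonal to Z and supported on S is a row).  {a,b} is not a row of a TC matroid: it would give a
  series pair, `TC_iff_SC`.
* `TC.del_two`: a ~ b, a ~ c, all different: {a,b,e}+{a,c,e} = {b,c} is a row, contradiction.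
* `TC.three_le_deg`: the star of v is a row (`IsGr.star_mem`), not empty (IsGr.ne); a row of a TC matroid has
  weight >= 3 (weight 1: coloop, weight 2: series pair).
* `IsGr.tc_of_deg`: `TC_iff_SC`; a series pair {a,b} is a star of size 2 by `IsGr.star2`.
-/

namespace SEY

open Finset

variable {E : Type} [Fintype E] [DecidableEq E] {V : Type} [Fintype V] [DecidableEq V]

/-- The functional `z ↦ z a + z b` is the functional `z ↦ z e`. -/
private lemma h85_triad_fun {M : BM E} (h : M.TC) {e a b : E} (he : e ∈ M.S) (ha : a ∈ M.S)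
    (hb : b ∈ M.S) (hab : a ≠ b) (hs : (M.del {e}).Ser a b) :
    ∀ z ∈ M.Z, z a + z b = z e := by
  have hs' : ∀ z ∈ M.Z, z e = 0 → z a = z b := by
    intro z hz hze
    refine hs z ((M.mem_Z_del).2 ⟨hz, ?_⟩)
    intro x hx
    rw [Finset.mem_singleton.1 hx]
    exact hze
  obtain ⟨z0, hz0, hz0e⟩ := BM.TC.exists_cycle h he
  have hns : ¬ M.Ser a b := BM.TC.not_ser h ha hb hab
  have key : ∀ z ∈ M.Z, z e = 1 → z a + z b = z0 a + z0 b := by
    intro z hz hze
    have h1 : (z + z0) a = (z + z0) b := by
      apply hs' _ (M.Z.add_mem hz hz0)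
      rw [Pi.add_apply, hze, hz0e]
      rfl
    rw [Pi.add_apply, Pi.add_apply] at h1
    generalize z a = p at h1 ⊢
    generalize z b = q at h1 ⊢
    generalize z0 a = r at h1 ⊢
    generalize z0 b = s at h1 ⊢
    revert p q r s
    decide
  have h01 : z0 a + z0 b = 1 := by
    by_contra hne
    have h0 : z0 a + z0 b = 0 := by
      rcases zcases (z0 a + z0 b) with h | h
      · exact h
      · exact absurd h hne
    apply hns
    intro z hz
    rcases zcases (z e) with h | h
    · exact hs' z hz h
    · have := key z hz h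
      rw [h0] at this
      exact z_add_eq_zero.1 this
  intro z hz
  rcases zcases (z e) with h | h
  · rw [h, z_add_eq_zero]
    exact hs' z hz h
  · rw [key z hz h, h01, h]

theorem TC.triad {M : BM E} (h : M.TC) {e a b : E} (he : e ∈ M.S) (ha : a ∈ M.S) (hb : b ∈ M.S)
    (hae : a ≠ e) (hbe : b ≠ e) (hab : a ≠ b) (hs : (M.del {e}).Ser a b) :
    ind {e, a, b} ∈ M.R := by
  rw [M.mem_R_iff]
  constructor
  · intro x hx
    apply ind_of_notMem
    intro hx'
    simp only [Finset.mem_insert, Finset.mem_singleton] at hx'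
    rcases hx' with rfl | rfl | rfl
    · exact hx he
    · exact hx ha
    · exact hx hb
  · intro z hz
    rw [ind_dot, Finset.sum_insert (by simp [Ne.symm hae, Ne.symm hbe]), Finset.sum_pair hab,
      h85_triad_fun h he ha hb hab hs z hz]
    exact z_add_self _

theorem TC.del_two {M : BM E} (h : M.TC) {e : E} (he : e ∈ M.S) : (M.del {e}).Two := by
  intro a ha b hb c hc hab hac
  by_contra hcon
  push Not at hcon
  obtain ⟨h1, h2, h3⟩ := hcon
  have ha' : a ∈ M.S := (Finset.mem_sdiff.1 ha).1
  have hb' : b ∈ M.S := (Finset.mem_sdiff.1 hb).1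
  have hc' : c ∈ M.S := (Finset.mem_sdiff.1 hc).1
  refine BM.TC.not_ser h hb' hc' h3 ?_
  intro z hz
  have e1 := h85_triad_fun h he ha' hb' h1 hab z hz
  have e2 := h85_triad_fun h he ha' hc' h2 hac z hz
  rw [← e2] at e1
  exact add_left_cancel e1

theorem TC.three_le_deg {M : BM E} (hM : M.TC) {U : Finset V} {h t : E → V}
    (hg : IsGr M U h t) {v : V} (hv : v ∈ U) : 3 ≤ (star M.S h t v).card := by
  have h1 : ind (star M.S h t v) ∈ M.R := hg.star_mem hv
  have h2 : (ind (star M.S h t v) : E → ZMod 2) ≠ 0 := by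
    intro h0
    rw [ind_eq_zero] at h0
    obtain ⟨e, he, hev⟩ := hg.ne v hv
    have : e ∈ star M.S h t v := Finset.mem_filter.2 ⟨he, hev⟩
    rw [h0] at this
    exact absurd this (Finset.notMem_empty e)
  have h3 := BM.TC.row_weight hM h1 h2
  rwa [spt_ind] at h3

/-- An `SC` graph with classes of at most two elements and all degrees at least 3 is 3-connected. -/
theorem IsGr.tc_of_deg {M : BM E} {U : Finset V} {h t : E → V} (hg : IsGr M U h t)
    (hsc : M.SC) (h2 : M.Two) (hd : ∀ v ∈ U, 3 ≤ (star M.S h t v).card) : M.TC := by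
  rw [TC_iff_SC]
  refine ⟨hsc, ?_⟩
  intro a ha b hb hs
  by_contra hab
  obtain ⟨s, hsU, hst⟩ := (hg.star2 hsc h2 ha hb hab).1 hs
  have h3 := hd s hsU
  rw [hst, Finset.card_pair hab] at h3
  omega

end SEY
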