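import Pool.Agent.Helper25.SEY.T.OptD
import Pool.Agent.Helper25.SEY.T.MinCx
import Pool.Agent.Helper25.SEY.T.Triad

/-!
T3-OptM.
T3-Opt (STEP 1).  H = M del e is a 3-connected graph, k an edge of H with H del k SC and HasT.

The minor M del {k} of M: (M del {k}) del {e} = M del {e,k} is SC, Two (`TC.del_two` for H), HasT.  So
M del {k} is graphic (`MinCx.graft_graphic`; the graft structure of M del {k} is `IsGraft.del`, k is no coloop of H).
`crit` gives SS inside T with |star| = 2 (in H del k) and swT(T, SS) has <= 2 elements; |T| >= 4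
(`MinCx.four_le`), so SS is not empty.  A vertex of degree 2 in H del k has degree >= 3 in H
(`TC.three_le_deg`), so it is an end of k and has degree 3 in H: there are at most two of them.
* |SS| = 1, SS = {y}, star_H y = {k,g1,g2}, k = y d, g1 = y a, g2 = y b (a, b, d different: no parallel
  edges in H).  swT = T + {a,b} (mod 2) has <= 2 elements, |T| >= 4: a, b in T, T = {y,a,b,c}.
* |SS| = 2, k = y y', star y = {k,g1,g2}, star y' = {k,g3,g4}, neighbours a,b and a',b'; a,b,a',b' are not y, y'.
  {a,b} /= {a',b'} by `IsGr.deg2` for H del k.  swT = T + {a,b} + {a',b'} contains y, y', so equals {y,y'}.  If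
  {a,b}, {a',b'} are disjoint: T = {y,y',a,b,a',b'}; if they have one common element, say b = b': T = {y,y',a,a'}.
-/

namespace SEY

open Finset

variable {E : Type} [Fintype E] [DecidableEq E] {V : Type} [Fintype V] [DecidableEq V]

omit [Fintype E] [DecidableEq E] [Fintype V] [DecidableEq V] in
private theorem optM_jn_inj {h t : E → V} {x : E} {s u v : V} (hu : u ≠ s) (h1 : Jn h t x s u)
    (h2 : Jn h t x s v) : v = u := by
  rcases h1 with ⟨a1, a2⟩ | ⟨a1, a2⟩ <;> rcases h2 with ⟨b1, b2⟩ | ⟨b1, b2⟩
  · rw [← a2, ← b2]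
  · exact absurd (a2.symm.trans b2) hu
  · exact absurd (a1.symm.trans b1) hu
  · rw [← a1, ← b1]

omit [Fintype E] [DecidableEq E] [Fintype V] in
private theorem optM_jn_star {S : Finset E} {h t : E → V} {x : E} {s v : V} (hx : x ∈ S)
    (h1 : Jn h t x s v) : x ∈ star S h t s := by
  rw [star, Finset.mem_filter]
  refine ⟨hx, ?_⟩
  rcases h1 with ⟨a1, _⟩ | ⟨_, a2⟩
  · exact Or.inl a1
  · exact Or.inr a2

omit [Fintype E] [Fintype V] in
private theorem optM_count {S : Finset E} {h t : E → V} {p q : E} {s u w : V} (hp : p ∈ S)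
    (hq : q ∈ S) (hst : star S h t s = {p, q}) (h1 : Jn h t p s u) (h2 : Jn h t q s w)
    (huw : u ≠ w) (hus : u ≠ s) (hws : w ≠ s) (v : V) :
    (S.filter (fun x => Jn h t x s v)).card = (if v = u then 1 else 0) +
      (if v = w then 1 else 0) := by
  have key : S.filter (fun x => Jn h t x s v) =
      (if v = u then {p} else ∅) ∪ (if v = w then {q} else ∅) := by
    ext x
    rw [Finset.mem_filter, Finset.mem_union]
    constructor
    · rintro ⟨hx, hj⟩
      have h3 : x ∈ ({p, q} : Finset E) := hst ▸ optM_jn_star hx hj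
      rw [Finset.mem_insert, Finset.mem_singleton] at h3
      rcases h3 with rfl | rfl
      · left
        rw [if_pos (optM_jn_inj hus h1 hj)]
        exact Finset.mem_singleton_self _
      · right
        rw [if_pos (optM_jn_inj hws h2 hj)]
        exact Finset.mem_singleton_self _
    · rintro (h3 | h3)
      · by_cases hv : v = u
        · rw [if_pos hv, Finset.mem_singleton] at h3
          rw [h3, hv]
          exact ⟨hp, h1⟩
        · rw [if_neg hv] at h3
          simp at h3
      · by_cases hv : v = w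
        · rw [if_pos hv, Finset.mem_singleton] at h3
          rw [h3, hv]
          exact ⟨hq, h2⟩
        · rw [if_neg hv] at h3
          simp at h3
  rw [key]
  by_cases hv : v = u
  · rw [if_pos hv, if_pos hv, if_neg (fun h3 => huw (hv.symm.trans h3)),
      if_neg (fun h3 => huw (hv.symm.trans h3))]
    simp
  · rw [if_neg hv, if_neg hv]
    by_cases hv' : v = w
    · rw [if_pos hv', if_pos hv']
      simp
    · rw [if_neg hv', if_neg hv']
      simp

/-- The data at a vertex `y` of degree 3 with the edges `k`, `g1`, `g2`. -/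
private structure OptMD (S : Finset E) (h t : E → V) (U : Finset V) (k g1 g2 : E) (y a b : V) :
    Prop where
  st : star S h t y = {k, g1, g2}
  j1 : Jn h t g1 y a
  j2 : Jn h t g2 y b
  m1 : g1 ∈ S
  m2 : g2 ∈ S
  k1 : g1 ≠ k
  k2 : g2 ≠ k
  ab : a ≠ b
  ay : a ≠ y
  bY : b ≠ y
  aU : a ∈ U
  bU : b ∈ U
  cnt : ∀ v, ((S \ {k}).filter (fun x => Jn h t x y v)).card = (if v = a then 1 else 0) +
      (if v = b then 1 else 0)

omit [Fintype E] [Fintype V] in
private theorem OptMD.sw {S : Finset E} {h t : E → V} {U : Finset V} {k g1 g2 : E} {y a b : V}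
    (D : OptMD S h t U k g1 g2 y a b) : OptMD S h t U k g2 g1 y b a where
  st := by
    rw [D.st]
    ext x
    simp only [Finset.mem_insert, Finset.mem_singleton]
    tauto
  j1 := D.j2
  j2 := D.j1
  m1 := D.m2
  m2 := D.m1
  k1 := D.k2
  k2 := D.k1
  ab := D.ab.symm
  ay := D.bY
  bY := D.ay
  aU := D.bU
  bU := D.aU
  cnt := fun v => by rw [D.cnt v, add_comm]

omit [Fintype E] [Fintype V] in
/-- An odd sum of indicators of `a`, `b`, `a'`, `b'` when `b = b'`. -/
private theorem optM_B {M : BM E} {e k : E} {U : Finset V} {h t : E → V} {T : Finset V}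
    (hg : IsGraft M e U h t T) {g1 g2 g3 g4 : E} {y y' a b a' : V}
    (D : OptMD (M.S \ {e}) h t U k g1 g2 y a b) (D' : OptMD (M.S \ {e}) h t U k g3 g4 y' a' b)
    (hjk : Jn h t k y y') (hyy : y ≠ y') (hyT : y ∈ T) (hyT' : y' ∈ T)
    (hay : a ≠ y') (hby : b ≠ y') (hay' : a' ≠ y) (haa : a ≠ a')
    (hT : ∀ v ∈ U, v ≠ y → v ≠ y' → ¬ Odd ((if v ∈ T then 1 else 0) +
      (((if v = a then 1 else 0) + (if v = b then 1 else 0)) +
        ((if v = a' then 1 else 0) + (if v = b then 1 else 0))))) :
    OptB M U h t e k g1 g2 g3 g4 y y' a a' b := by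
  have hTe : T = {y, y', a, a'} := by
    ext v
    simp only [Finset.mem_insert, Finset.mem_singleton]
    constructor
    · intro hv
      by_contra hcon
      push Not at hcon
      obtain ⟨h1, h2, h3, h4⟩ := hcon
      refine hT v (hg.sub hv) h1 h2 ?_
      rw [if_pos hv, if_neg h3, if_neg h4]
      by_cases h5 : v = b
      · rw [if_pos h5]
        exact ⟨1, by norm_num⟩
      · rw [if_neg h5]
        exact ⟨0, by norm_num⟩
    · rintro (rfl | rfl | rfl | rfl)
      · exact hyT
      · exact hyT'
      · by_contra hv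
        refine hT v D.aU D.ay hay ?_
        rw [if_neg hv, if_pos rfl, if_neg D.ab, if_neg haa]
        exact ⟨0, by norm_num⟩
      · by_contra hv
        refine hT v D'.aU hay' D'.ay ?_
        rw [if_neg hv, if_pos rfl, if_neg haa.symm, if_neg D'.ab]
        exact ⟨0, by norm_num⟩
  refine ⟨hTe ▸ hg, ?_, hjk, D.j1, D.j2, D'.j1, D'.j2, D.st, D'.st⟩
  have h1 := D.ab
  have h2 := D.ay
  have h3 := D.bY
  have h4 := D'.ab
  have h5 := D'.ay
  simp only [List.nodup_cons, List.mem_cons, List.not_mem_nil, or_false, not_or,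
    List.nodup_nil, and_true, not_false_eq_true]
  exact ⟨⟨hyy, h2.symm, hay'.symm, h3.symm⟩, ⟨hay.symm, h5.symm, hby.symm⟩, ⟨haa, h1⟩, h4⟩

theorem options {r l : ℕ} {rows : Fin r → Fin l → ZMod 2} (h0 : (ofRows rows).TC)
    {M : BM E} (hM : MinCx rows M) {e k : E} {U : Finset V} {h t : E → V} {T : Finset V}
    (hg : IsGraft M e U h t T) (htc : (M.del {e}).TC) (hk : k ∈ M.S) (hke : k ≠ e)
    (hsc : (M.del {e, k}).SC) (hT : HasT rows (M.del {e, k})) :
    (∃ (g1 g2 : E) (y a b c d : V), SitI rows M U h t e k g1 g2 y a b c d) ∨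
    (∃ (g1 g2 g3 g4 : E) (y y' a b a' b' : V), OptA M U h t e k g1 g2 g3 g4 y y' a b a' b') ∨
    (∃ (g1 g2 g3 g4 : E) (y y' a a' b : V), OptB M U h t e k g1 g2 g3 g4 y y' a a' b) := by
  have hkS : k ∈ M.S \ {e} := by simp [hk, hke]
  have hNe : (M.del {k}).del {e} = M.del {e, k} := by
    rw [BM.del_del]
    congr 1
    ext x
    simp only [Finset.mem_union, Finset.mem_singleton, Finset.mem_insert]
    tauto
  have hHk : (M.del {e}).del {k} = M.del {e, k} := by
    rw [BM.del_del]
    congr 1
  have hSS' : (M.del {k}).S \ {e} = (M.S \ {e}) \ {k} := by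
    ext x
    simp only [BM.del_S, Finset.mem_sdiff, Finset.mem_singleton]
    tauto
  have hgN : IsGraft (M.del {k}) e U h t T := by
    refine hg.del hk hke ?_
    exact htc.exists_cycle (e := k) hkS
  have hsc' : ((M.del {k}).del {e}).SC := by rw [hNe]; exact hsc
  have htwo : ((M.del {k}).del {e}).Two := by
    rw [hNe, ← hHk]
    exact TC.del_two htc hkS
  have hT' : HasT rows ((M.del {k}).del {e}) := by rw [hNe]; exact hT
  have hcard : (M.del {k}).S.card < M.S.card := by
    refine Finset.card_lt_card (Finset.ssubset_iff_subset_ne.2 ⟨Finset.sdiff_subset, ?_⟩)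
    intro heq
    have h1 : k ∈ M.S \ {k} := by
      have h2 : k ∈ (M.del {k}).S := by
        rw [heq]
        exact hk
      exact h2
    exact (Finset.mem_sdiff.1 h1).2 (Finset.mem_singleton_self k)
  have hG : Graphic (M.del {k}) :=
    hM.graft_graphic h0 (M.del {k}) (Minor_del M {k}) hcard hgN hsc' htwo hT'
  obtain ⟨SS, hSST, hSS2, hsw⟩ := crit hgN hsc' htwo hG
  rw [hSS'] at hSS2 hsw
  have h4 := hM.four_le hg
  have hHsc : (M.del {e}).SC := ((TC_iff_SC _).1 htc).1
  -- the ends of `k`
  have hkU := hg.gr.ends k hkS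
  -- the data at the vertices of `SS`
  have hdata : ∀ s ∈ SS, (s = h k ∨ s = t k) ∧ ∃ g1 g2 a b,
      OptMD (M.S \ {e}) h t U k g1 g2 s a b ∧
      (∀ s' ∈ SS, s' ≠ s → ∀ x ∈ (M.S \ {e}) \ {k}, ∀ z ∈ (M.S \ {e}) \ {k},
        Jn h t x s' a → ¬ Jn h t z s' b) := by
    intro s hs
    have hsU : s ∈ U := hg.sub (hSST hs)
    have h3 : 3 ≤ (star (M.S \ {e}) h t s).card := TC.three_le_deg htc hg.gr hsU
    have h2 := hSS2 s hs
    have hd2 := hgN.gr.deg2 hsc' htwo hsU (by
      rw [show ((M.del {k}).del {e}).S = (M.S \ {e}) \ {k} from hSS']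
      exact h2)
    rw [show ((M.del {k}).del {e}).S = (M.S \ {e}) \ {k} from hSS'] at hd2
    obtain ⟨g1, g2, a, b, m1, m2, h12, hst, j1, j2, haU, hbU, hab, has, hbs, -, -, -, hoth⟩ := hd2
    have hkst : k ∈ star (M.S \ {e}) h t s := by
      by_contra hcon
      have h5 : star (M.S \ {e}) h t s ⊆ star ((M.S \ {e}) \ {k}) h t s := by
        intro x hx
        have hx' := Finset.mem_filter.1 hx
        refine Finset.mem_filter.2 ⟨?_, hx'.2⟩
        refine Finset.mem_sdiff.2 ⟨hx'.1, ?_⟩
        rw [Finset.mem_singleton]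
        rintro rfl
        exact hcon hx
      have h6 := Finset.card_le_card h5
      omega
    have hst3 : star (M.S \ {e}) h t s = {k, g1, g2} := by
      have h5 : star (M.S \ {e}) h t s = insert k (star ((M.S \ {e}) \ {k}) h t s) := by
        ext x
        rw [Finset.mem_insert]
        constructor
        · intro hx
          by_cases hxk : x = k
          · exact Or.inl hxk
          · right
            have hx' := Finset.mem_filter.1 hx
            refine Finset.mem_filter.2 ⟨?_, hx'.2⟩
            refine Finset.mem_sdiff.2 ⟨hx'.1, ?_⟩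
            rwa [Finset.mem_singleton]
        · rintro (rfl | hx)
          · exact hkst
          · have hx' := Finset.mem_filter.1 hx
            exact Finset.mem_filter.2 ⟨(Finset.mem_sdiff.1 hx'.1).1, hx'.2⟩
      rw [h5, hst]
    refine ⟨?_, g1, g2, a, b, ?_, ?_⟩
    · rcases (Finset.mem_filter.1 hkst).2 with h5 | h5
      · exact Or.inl h5.symm
      · exact Or.inr h5.symm
    · have m1' := Finset.mem_sdiff.1 m1
      have m2' := Finset.mem_sdiff.1 m2
      rw [Finset.mem_singleton] at m1' m2'
      exact ⟨hst3, j1, j2, m1'.1, m2'.1, m1'.2, m2'.2, hab, has, hbs, haU, hbU,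
        optM_count m1 m2 hst j1 j2 hab has hbs⟩
    · intro s' hs' hne x hx z hz
      exact hoth s' (hg.sub (hSST hs')) hne (hSS2 s' hs') x hx z hz
  have hpar : ∀ g1 ∈ M.S \ {e}, g1 ≠ k → ∀ u v, Jn h t k u v → ¬ Jn h t g1 u v := by
    intro g1 hg1 hgk u v h1 h2
    exact hgk (hg.gr.no_par hHsc hg1 hkS h2 h1)
  -- membership in the swapped set
  have hX : ∀ v, v ∈ swT ((M.S \ {e}) \ {k}) h t U T SS ↔ v ∈ U ∧
      Odd ((if v ∈ T then 1 else 0) + ∑ s ∈ SS,
        (((M.S \ {e}) \ {k}).filter (fun x => Jn h t x s v)).card) := by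
    intro v
    rw [swT, Finset.mem_filter]
  by_cases hone : ∃ y, SS = {y}
  · -- one vertex
    obtain ⟨y, rfl⟩ := hone
    left
    obtain ⟨hyk, g1, g2, a, b, D, -⟩ := hdata y (Finset.mem_singleton_self y)
    have hyT : y ∈ T := hSST (Finset.mem_singleton_self y)
    obtain ⟨d, hjk, hyd⟩ : ∃ d, Jn h t k y d ∧ y ≠ d := by
      rcases hyk with rfl | rfl
      · exact ⟨t k, Or.inl ⟨rfl, rfl⟩, hkU.2.2⟩
      · exact ⟨h k, Or.inr ⟨rfl, rfl⟩, hkU.2.2.symm⟩
    have had : a ≠ d := by
      rintro rfl
      exact hpar g1 D.m1 D.k1 y a hjk D.j1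
    have hbd : b ≠ d := by
      rintro rfl
      exact hpar g2 D.m2 D.k2 y b hjk D.j2
    have hX' : ∀ v, v ∈ swT ((M.S \ {e}) \ {k}) h t U T {y} ↔ v ∈ U ∧
        Odd ((if v ∈ T then 1 else 0) + ((if v = a then 1 else 0) + (if v = b then 1 else 0))) := by
      intro v
      rw [hX v, Finset.sum_singleton, D.cnt v]
    have hTsub : (T.erase a).erase b ⊆ swT ((M.S \ {e}) \ {k}) h t U T {y} := by
      intro v hv
      rw [Finset.mem_erase, Finset.mem_erase] at hv
      rw [hX', if_pos hv.2.2, if_neg hv.2.1, if_neg hv.1]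
      exact ⟨hg.sub hv.2.2, ⟨0, by norm_num⟩⟩
    have h5 := Finset.card_le_card hTsub
    have haT : a ∈ T := by
      by_contra haT
      have h6 : insert a (T.erase b) ⊆ swT ((M.S \ {e}) \ {k}) h t U T {y} := by
        intro v hv
        rw [Finset.mem_insert, Finset.mem_erase] at hv
        rcases hv with rfl | hv
        · rw [hX', if_neg haT, if_pos rfl, if_neg D.ab]
          exact ⟨D.aU, ⟨0, by norm_num⟩⟩
        · rw [hX', if_pos hv.2, if_neg (show ¬ v = a from fun h7 => haT (h7 ▸ hv.2)), if_neg hv.1]
          exact ⟨hg.sub hv.2, ⟨0, by norm_num⟩⟩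
      have h7 := Finset.card_le_card h6
      rw [Finset.card_insert_of_notMem (fun h8 => haT (Finset.mem_of_mem_erase h8))] at h7
      have h8 := Finset.pred_card_le_card_erase (s := T) (a := b)
      omega
    have hbT : b ∈ T := by
      by_contra hbT
      have h6 : insert b (T.erase a) ⊆ swT ((M.S \ {e}) \ {k}) h t U T {y} := by
        intro v hv
        rw [Finset.mem_insert, Finset.mem_erase] at hv
        rcases hv with rfl | hv
        · rw [hX', if_neg hbT, if_pos rfl, if_neg D.ab.symm]
          exact ⟨D.bU, ⟨0, by norm_num⟩⟩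
        · rw [hX', if_pos hv.2, if_neg hv.1, if_neg (show ¬ v = b from fun h7 => hbT (h7 ▸ hv.2))]
          exact ⟨hg.sub hv.2, ⟨0, by norm_num⟩⟩
      have h7 := Finset.card_le_card h6
      rw [Finset.card_insert_of_notMem (fun h8 => hbT (Finset.mem_of_mem_erase h8))] at h7
      have h8 := Finset.pred_card_le_card_erase (s := T) (a := a)
      omega
    have hc1 : ((T.erase a).erase b).card = T.card - 1 - 1 := by
      rw [Finset.card_erase_of_mem (Finset.mem_erase.2 ⟨D.ab.symm, hbT⟩),
        Finset.card_erase_of_mem haT]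
    have hyE : y ∈ (T.erase a).erase b :=
      Finset.mem_erase.2 ⟨D.bY.symm, Finset.mem_erase.2 ⟨D.ay.symm, hyT⟩⟩
    have hc2 : (((T.erase a).erase b).erase y).card = 1 := by
      rw [Finset.card_erase_of_mem hyE, hc1]
      omega
    obtain ⟨c, hc⟩ := Finset.card_eq_one.1 hc2
    have hcE : c ∈ ((T.erase a).erase b).erase y := by
      rw [hc]
      exact Finset.mem_singleton_self c
    simp only [Finset.mem_erase] at hcE
    obtain ⟨hcy, hcb, hca, hcT⟩ := hcE
    have hTe : T = {y, a, b, c} := by
      ext v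
      simp only [Finset.mem_insert, Finset.mem_singleton]
      constructor
      · intro hv
        by_contra hcon
        push Not at hcon
        obtain ⟨h6, h7, h8, h9⟩ := hcon
        have h10 : v ∈ ((T.erase a).erase b).erase y := by
          simp only [Finset.mem_erase]
          exact ⟨h6, h8, h7, hv⟩
        rw [hc, Finset.mem_singleton] at h10
        exact h9 h10
      · rintro (rfl | rfl | rfl | rfl)
        · exact hyT
        · exact haT
        · exact hbT
        · exact hcT
    exact ⟨g1, g2, y, a, b, c, d, hM, hTe ▸ hg, htc, D.ay.symm, D.bY.symm, hcy.symm, D.ab,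
      hca.symm, hcb.symm, hyd, had, hbd, hjk, D.j1, D.j2, D.st, hsc, hT⟩
  · right
    -- `SS` is the set of the two ends of `k`
    have hSne : SS.Nonempty := by
      rw [Finset.nonempty_iff_ne_empty]
      rintro rfl
      have h5 : T ⊆ swT ((M.S \ {e}) \ {k}) h t U T ∅ := by
        intro v hv
        rw [hX, if_pos hv, Finset.sum_empty]
        exact ⟨hg.sub hv, odd_one⟩
      have h6 := Finset.card_le_card h5
      omega
    have hSSe : SS = {h k, t k} := by
      obtain ⟨s, hs⟩ := hSne
      have h5 : ∃ s' ∈ SS, s' ≠ s := by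
        by_contra hcon
        push Not at hcon
        apply hone
        refine ⟨s, ?_⟩
        ext v
        rw [Finset.mem_singleton]
        constructor
        · exact hcon v
        · rintro rfl
          exact hs
      obtain ⟨s', hs', hne⟩ := h5
      have h6 := (hdata s hs).1
      have h7 := (hdata s' hs').1
      have h8 : h k ∈ SS ∧ t k ∈ SS := by
        rcases h6 with rfl | rfl <;> rcases h7 with rfl | rfl
        · exact absurd rfl hne
        · exact ⟨hs, hs'⟩
        · exact ⟨hs', hs⟩
        · exact absurd rfl hne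
      ext v
      simp only [Finset.mem_insert, Finset.mem_singleton]
      constructor
      · intro hv
        exact (hdata v hv).1
      · rintro (rfl | rfl)
        · exact h8.1
        · exact h8.2
    generalize hy : h k = y at *
    generalize hy' : t k = y' at *
    have hjk : Jn h t k y y' := Or.inl ⟨hy, hy'⟩
    have hjk' : Jn h t k y' y := Or.inr ⟨hy, hy'⟩
    have hyy : y ≠ y' := hkU.2.2
    have hyS : y ∈ SS := by rw [hSSe]; simp
    have hyS' : y' ∈ SS := by rw [hSSe]; simp
    have hyT : y ∈ T := hSST hyS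
    have hyT' : y' ∈ T := hSST hyS'
    obtain ⟨-, g1, g2, a, b, D, hoth⟩ := hdata y hyS
    obtain ⟨-, g3, g4, a', b', D', -⟩ := hdata y' hyS'
    have hay : a ≠ y' := by
      rintro rfl
      exact hpar g1 D.m1 D.k1 y a hjk D.j1
    have hby : b ≠ y' := by
      rintro rfl
      exact hpar g2 D.m2 D.k2 y b hjk D.j2
    have hay' : a' ≠ y := by
      rintro rfl
      exact hpar g3 D'.m1 D'.k1 y' a' hjk' D'.j1
    have hby' : b' ≠ y := by
      rintro rfl
      exact hpar g4 D'.m2 D'.k2 y' b' hjk' D'.j2
    have hX' : ∀ v, v ∈ swT ((M.S \ {e}) \ {k}) h t U T SS ↔ v ∈ U ∧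
        Odd ((if v ∈ T then 1 else 0) + (((if v = a then 1 else 0) + (if v = b then 1 else 0)) +
          ((if v = a' then 1 else 0) + (if v = b' then 1 else 0)))) := by
      intro v
      rw [hX v, hSSe, Finset.sum_pair hyy, D.cnt v, D'.cnt v]
    have hyX : y ∈ swT ((M.S \ {e}) \ {k}) h t U T SS := by
      rw [hX', if_pos hyT, if_neg D.ay.symm, if_neg D.bY.symm, if_neg hay'.symm,
        if_neg hby'.symm]
      exact ⟨hg.sub hyT, ⟨0, by norm_num⟩⟩
    have hyX' : y' ∈ swT ((M.S \ {e}) \ {k}) h t U T SS := by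
      rw [hX', if_pos hyT', if_neg hay.symm, if_neg hby.symm, if_neg D'.ay.symm,
        if_neg D'.bY.symm]
      exact ⟨hg.sub hyT', ⟨0, by norm_num⟩⟩
    have hnX : ∀ v, v ≠ y → v ≠ y' → v ∉ swT ((M.S \ {e}) \ {k}) h t U T SS := by
      intro v h5 h6 h7
      have h8 : ({v, y, y'} : Finset V) ⊆ swT ((M.S \ {e}) \ {k}) h t U T SS := by
        intro z hz
        simp only [Finset.mem_insert, Finset.mem_singleton] at hz
        rcases hz with rfl | rfl | rfl
        · exact h7
        · exact hyX
        · exact hyX'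
      have h9 := Finset.card_le_card h8
      rw [Finset.card_eq_three.2 ⟨v, y, y', h5, h6, hyy, rfl⟩] at h9
      omega
    have hTv : ∀ v ∈ U, v ≠ y → v ≠ y' → ¬ Odd ((if v ∈ T then 1 else 0) +
        (((if v = a then 1 else 0) + (if v = b then 1 else 0)) +
          ((if v = a' then 1 else 0) + (if v = b' then 1 else 0)))) := by
      intro v hv h5 h6 h7
      exact hnX v h5 h6 ((hX' v).2 ⟨hv, h7⟩)
    -- `{a, b} ≠ {a', b'}`
    have hm3 : g3 ∈ (M.S \ {e}) \ {k} := by
      rw [Finset.mem_sdiff, Finset.mem_singleton]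
      exact ⟨D'.m1, D'.k1⟩
    have hm4 : g4 ∈ (M.S \ {e}) \ {k} := by
      rw [Finset.mem_sdiff, Finset.mem_singleton]
      exact ⟨D'.m2, D'.k2⟩
    have hn1 : ¬ (a = a' ∧ b = b') := by
      rintro ⟨rfl, rfl⟩
      exact hoth y' hyS' hyy.symm g3 hm3 g4 hm4 D'.j1 D'.j2
    have hn2 : ¬ (a = b' ∧ b = a') := by
      rintro ⟨rfl, rfl⟩
      exact hoth y' hyS' hyy.symm g4 hm4 g3 hm3 D'.j2 D'.j1
    by_cases c1 : b = b'
    · right
      subst c1
      exact ⟨g1, g2, g3, g4, y, y', a, a', b,
        optM_B hg D D' hjk hyy hyT hyT' hay hby hay' (fun h5 => hn1 ⟨h5, rfl⟩) hTv⟩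
    · by_cases c2 : b = a'
      · right
        subst c2
        refine ⟨g1, g2, g4, g3, y, y', a, b', b,
          optM_B hg D D'.sw hjk hyy hyT hyT' hay hby hby' (fun h5 => hn2 ⟨h5, rfl⟩) ?_⟩
        intro v hv h5 h6
        rw [add_comm (if v = b' then 1 else 0) (if v = b then 1 else 0)]
        exact hTv v hv h5 h6
      · by_cases c3 : a = b'
        · right
          subst c3
          refine ⟨g2, g1, g3, g4, y, y', b, a', a,
            optM_B hg D.sw D' hjk hyy hyT hyT' hby hay hay' c2 ?_⟩
          intro v hv h5 h6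
          rw [add_comm (if v = b then 1 else 0) (if v = a then 1 else 0)]
          exact hTv v hv h5 h6
        · by_cases c4 : a = a'
          · right
            subst c4
            refine ⟨g2, g1, g4, g3, y, y', b, b', a,
              optM_B hg D.sw D'.sw hjk hyy hyT hyT' hby hay hby' c1 ?_⟩
            intro v hv h5 h6
            rw [add_comm (if v = b then 1 else 0) (if v = a then 1 else 0),
              add_comm (if v = b' then 1 else 0) (if v = a then 1 else 0)]
            exact hTv v hv h5 h6
          · left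
            refine ⟨g1, g2, g3, g4, y, y', a, b, a', b', ?_, ?_, hjk, D.j1, D.j2, D'.j1, D'.j2,
              D.st, D'.st⟩
            · have hTe : T = {y, y', a, b, a', b'} := by
                ext v
                simp only [Finset.mem_insert, Finset.mem_singleton]
                constructor
                · intro hv
                  by_contra hcon
                  push Not at hcon
                  obtain ⟨h5, h6, h7, h8, h9, h10⟩ := hcon
                  refine hTv v (hg.sub hv) h5 h6 ?_
                  rw [if_pos hv, if_neg h7, if_neg h8, if_neg h9, if_neg h10]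
                  exact ⟨0, by norm_num⟩
                · rintro (rfl | rfl | rfl | rfl | rfl | rfl)
                  · exact hyT
                  · exact hyT'
                  · by_contra hv
                    refine hTv v D.aU D.ay hay ?_
                    rw [if_neg hv, if_pos rfl, if_neg D.ab, if_neg c4, if_neg c3]
                    exact ⟨0, by norm_num⟩
                  · by_contra hv
                    refine hTv v D.bU D.bY hby ?_
                    rw [if_neg hv, if_neg D.ab.symm, if_pos rfl, if_neg c2, if_neg c1]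
                    exact ⟨0, by norm_num⟩
                  · by_contra hv
                    refine hTv v D'.aU hay' D'.ay ?_
                    rw [if_neg hv, if_neg (Ne.symm c4), if_neg (Ne.symm c2), if_pos rfl,
                      if_neg D'.ab]
                    exact ⟨0, by norm_num⟩
                  · by_contra hv
                    refine hTv v D'.bU hby' D'.bY ?_
                    rw [if_neg hv, if_neg (Ne.symm c3), if_neg (Ne.symm c1), if_neg D'.ab.symm,
                      if_pos rfl]
                    exact ⟨0, by norm_num⟩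
              exact hTe ▸ hg
            · simp only [List.nodup_cons, List.mem_cons, List.not_mem_nil, or_false, not_or,
                List.nodup_nil, and_true, not_false_eq_true]
              exact ⟨⟨hyy, D.ay.symm, D.bY.symm, hay'.symm, hby'.symm⟩,
                ⟨hay.symm, hby.symm, D'.ay.symm, D'.bY.symm⟩, ⟨D.ab, c4, c3⟩, ⟨c2, c1⟩, D'.ab⟩

end SEY
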