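import Pool.Agent.Helper25.SEY.T.SitH
import Pool.Agent.Helper71.SEYApi2

/-!
T3-OutO4: H' = (M.con {g2}).del {e,k} is isomorphic to the graph N0 given by `ends`.

phi : Fin m -> E the isomorphism (IsIso).  H' is a graph in two ways: on U' = U.erase y (`SitI.hp_gr`) and, through phi, with vertex
set Fin n and ends (ends j) for phi j (from hgr: the rows of ofRows (grRows ends) are the coboundaries).  `uniq` in both directions (H' is TC):
for every v in U' there is a vertex v0 of Fin n with the same star and conversely; the stars of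
different vertices are different (connected graph with more than two vertices).  So a bijection sigma : U' -> Fin n with phi j at v iff j at
sigma v.  Let phi f = g1 (in H' g1 joins a and b), so {sigma a, sigma b} = ends of f.  If sigma a = (ends f).1: column f -> g1,
column m -> g2; otherwise column f -> g2, column m -> g1 (g2 joins y b and sigma b = (ends f).1).  Other columns j -> phi j, column m+1 -> k,
column m+2 -> e; c' = sigma c, d' = sigma d.  Rows: M.R = {pi -> ...} by `IsGraft.rows` for pi on U (T = {y,a,b,c}); the rows of O4rows are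
the lifted stars of the vertices sigma v and y = n.  (i): row of vertex v0 = lifted star (`IsGraft.star_mem`).  (ii): f given by
pi: f = sum over v of pi(v) (row of v).
-/

namespace SEY

open Finset

variable {E : Type} [Fintype E] [DecidableEq E] {V : Type} [Fintype V] [DecidableEq V]

namespace OutO4

/-- The stars of different vertices of a 3-connected graph are different. -/
lemma star_inj {M : BM E} (hTC : M.TC) {U : Finset V} {h t : E → V}
    (hg : IsGr M U h t) {v w : V} (hv : v ∈ U) (_hw : w ∈ U)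
    (hs : star M.S h t v = star M.S h t w) : v = w := by
  by_contra hne
  have hmem : ∀ x ∈ M.S, ((h x = v ∨ t x = v) ↔ (h x = w ∨ t x = w)) := by
    intro x hx
    have h1 : x ∈ star M.S h t v ↔ x ∈ star M.S h t w := by rw [hs]
    simpa [star, hx] using h1
  have h0 : cob M.S h t (fun u => if u = v ∨ u = w then (1 : ZMod 2) else 0) = 0 := by
    funext x
    by_cases hx : x ∈ M.S
    · have h1 := hmem x hx
      have h2 := (hg.ends x hx).2.2
      simp only [cob, if_pos hx, Pi.zero_apply]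
      by_cases h3 : h x = v ∨ t x = v
      · have h4 := h1.1 h3
        have h5 : (h x = v ∧ t x = w) ∨ (h x = w ∧ t x = v) := by
          rcases h3 with h3 | h3 <;> rcases h4 with h4 | h4
          · exact absurd (h3.symm.trans h4) hne
          · exact Or.inl ⟨h3, h4⟩
          · exact Or.inr ⟨h4, h3⟩
          · exact absurd (h3.symm.trans h4) hne
        rcases h5 with ⟨h5, h6⟩ | ⟨h5, h6⟩
        · rw [if_pos (Or.inl h5), if_pos (Or.inr h6)]
          exact z_add_self 1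
        · rw [if_pos (Or.inr h5), if_pos (Or.inl h6)]
          exact z_add_self 1
      · have h4 : ¬ (h x = w ∨ t x = w) := fun h' => h3 (h1.2 h')
        rw [if_neg (fun h' => h'.elim (fun h'' => h3 (Or.inl h'')) (fun h'' => h4 (Or.inl h''))),
          if_neg (fun h' => h'.elim (fun h'' => h3 (Or.inr h'')) (fun h'' => h4 (Or.inr h''))),
          add_zero]
    · simp [cob, hx]
  have hU : ∀ u ∈ U, u = v ∨ u = w := by
    intro u hu
    have h1 := hg.conn _ h0 u hu v hv
    by_contra hcon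
    simp only [if_neg hcon, true_or, if_true] at h1
    exact zero_ne_one h1
  obtain ⟨x, hx, x', hx', hxx⟩ := Finset.one_lt_card.1 (show 1 < M.S.card by
    have := hTC.card
    omega)
  obtain ⟨f, hf, h1, h2⟩ := hTC.exists_row_ne hx hx' hxx
  obtain ⟨π, rfl⟩ := (hg.rows f).1 hf
  have key : ∀ z ∈ M.S, cob M.S h t π z = π v + π w := by
    intro z hz
    obtain ⟨e1, e2, e3⟩ := hg.ends z hz
    simp only [cob, if_pos hz]
    rcases hU _ e1 with h3 | h3 <;> rcases hU _ e2 with h4 | h4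
    · exact absurd (h3.trans h4.symm) e3
    · rw [h3, h4]
    · rw [h3, h4, add_comm]
    · exact absurd (h3.trans h4.symm) e3
  rw [key x hx] at h1
  rw [key x' hx', h1] at h2
  exact one_ne_zero h2

/-- Carry a graph through an isomorphism. -/
lemma transfer {r m : ℕ} {rows : Fin r → Fin m → ZMod 2} {N : BM E} {φ : Fin m → E}
    (hS : ∀ e, e ∈ N.S ↔ ∃ i, φ i = e)
    (h1 : ∀ i, ∃ f ∈ N.R, ∀ j, f (φ j) = rows i j)
    (h2 : ∀ f ∈ N.R, ∃ c : Fin r → ZMod 2, ∀ j, f (φ j) = ∑ i, c i * rows i j)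
    {U : Finset V} {h t : E → V} (hg : IsGr N U h t) :
    IsGr (ofRows rows) U (fun j => h (φ j)) (fun j => t (φ j)) := by
  have hm : ∀ j, φ j ∈ N.S := fun j => (hS _).2 ⟨j, rfl⟩
  refine ⟨fun j _ => hg.ends _ (hm j), fun f => ⟨fun hf => ?_, ?_⟩, fun π hπ => ?_, fun v hv => ?_⟩
  · have hex : ∃ g ∈ N.R, ∀ j, g (φ j) = f j := by
      have hf' : f ∈ Submodule.span (ZMod 2) (Set.range rows) := hf
      clear hf
      induction hf' using Submodule.span_induction with
      | mem x hx =>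
        obtain ⟨i, rfl⟩ := hx
        exact h1 i
      | zero => exact ⟨0, N.R.zero_mem, fun j => rfl⟩
      | add x y _ _ hx hy =>
        obtain ⟨g1, hg1, hx⟩ := hx
        obtain ⟨g2, hg2, hy⟩ := hy
        exact ⟨g1 + g2, N.R.add_mem hg1 hg2, fun j => by simp [hx, hy]⟩
      | smul a x _ hx =>
        obtain ⟨g1, hg1, hx⟩ := hx
        exact ⟨a • g1, N.R.smul_mem a hg1, fun j => by simp [hx]⟩
    obtain ⟨g, hgR, hgf⟩ := hex
    obtain ⟨π, rfl⟩ := (hg.rows g).1 hgR
    refine ⟨π, funext fun j => ?_⟩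
    rw [← hgf j]
    simp [cob, hm j, ofRows]
  · rintro ⟨π, rfl⟩
    obtain ⟨c, hc⟩ := h2 _ ((hg.rows _).2 ⟨π, rfl⟩)
    have heq : cob (ofRows rows).S (fun j => h (φ j)) (fun j => t (φ j)) π
        = ∑ i, c i • rows i := by
      funext j
      rw [Finset.sum_apply]
      simp only [Pi.smul_apply, smul_eq_mul]
      rw [← hc j]
      simp [cob, hm j, ofRows]
    rw [heq]
    exact Submodule.sum_mem _ (fun i _ => Submodule.smul_mem _ _ (Submodule.subset_span ⟨i, rfl⟩))
  · refine hg.conn π ?_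
    funext x
    by_cases hx : x ∈ N.S
    · obtain ⟨j, rfl⟩ := (hS x).1 hx
      have h3 := congrFun hπ j
      simpa [cob, hm j, ofRows] using h3
    · simp [cob, hx]
  · obtain ⟨x, hx, hx'⟩ := hg.ne v hv
    obtain ⟨j, rfl⟩ := (hS x).1 hx
    exact ⟨j, Finset.mem_univ j, hx'⟩

lemma sum_ind {n : ℕ} (p : Fin (n + 1) → ZMod 2) (x : Fin n) :
    ∑ v : Fin (n + 1), p v * (if (v : ℕ) = x then 1 else 0) = p x.castSucc := by
  rw [Finset.sum_eq_single x.castSucc]
  · simp
  · intro v _ hv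
    rw [if_neg (fun h' => hv (Fin.ext (by simpa using h'))), mul_zero]
  · intro h'
    exact absurd (Finset.mem_univ _) h'

lemma sum_last {n : ℕ} (p : Fin (n + 1) → ZMod 2) :
    ∑ v : Fin (n + 1), p v * (if (v : ℕ) = n then 1 else 0) = p (Fin.last n) := by
  rw [Finset.sum_eq_single (Fin.last n)]
  · simp
  · intro v _ hv
    rw [if_neg (fun h' => hv (Fin.ext (by simpa using h'))), mul_zero]
  · intro h'
    exact absurd (Finset.mem_univ _) h'

lemma sum_two {n : ℕ} (p : Fin (n + 1) → ZMod 2) (x y : Fin n) :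
    ∑ v : Fin (n + 1), p v * ((if (v : ℕ) = x then 1 else 0) + (if (v : ℕ) = y then 1 else 0))
      = p x.castSucc + p y.castSucc := by
  simp only [mul_add, Finset.sum_add_distrib]
  rw [sum_ind, sum_ind]

lemma sum_one {n : ℕ} (p : Fin (n + 1) → ZMod 2) (x : Fin n) :
    ∑ v : Fin (n + 1), p v * (if (v : ℕ) = x ∨ (v : ℕ) = n then 1 else 0)
      = p x.castSucc + p (Fin.last n) := by
  rw [← sum_ind p x, ← sum_last p, ← Finset.sum_add_distrib]
  refine Finset.sum_congr rfl (fun v _ => ?_)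
  rw [← mul_add]
  congr 1
  have hx := x.2
  by_cases h1 : (v : ℕ) = x
  · have h2 : ¬ (v : ℕ) = n := by omega
    simp [h1]
    omega
  · simp [h1]

lemma sum_four {n : ℕ} (p : Fin (n + 1) → ZMod 2) {x y z : Fin n} (hxy : x ≠ y) (hzx : z ≠ x)
    (hzy : z ≠ y) :
    ∑ v : Fin (n + 1), p v * (if (v : ℕ) = x ∨ (v : ℕ) = y ∨ (v : ℕ) = z ∨ (v : ℕ) = n
        then 1 else 0)
      = p x.castSucc + p y.castSucc + p z.castSucc + p (Fin.last n) := by
  rw [← sum_ind p x, ← sum_ind p y, ← sum_ind p z, ← sum_last p, ← Finset.sum_add_distrib,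
    ← Finset.sum_add_distrib, ← Finset.sum_add_distrib]
  refine Finset.sum_congr rfl (fun v _ => ?_)
  rw [← mul_add, ← mul_add, ← mul_add]
  congr 1
  have hx := x.2
  have hy := y.2
  have hz := z.2
  have a1 : (x : ℕ) ≠ y := fun h' => hxy (Fin.ext h')
  have a2 : (z : ℕ) ≠ x := fun h' => hzx (Fin.ext h')
  have a3 : (z : ℕ) ≠ y := fun h' => hzy (Fin.ext h')
  by_cases h1 : (v : ℕ) = x
  · rw [if_pos (Or.inl h1), if_pos h1, if_neg (by omega), if_neg (by omega), if_neg (by omega)]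
    rfl
  · by_cases h2 : (v : ℕ) = y
    · rw [if_pos (Or.inr (Or.inl h2)), if_neg h1, if_pos h2, if_neg (by omega),
        if_neg (by omega)]
      rfl
    · by_cases h3 : (v : ℕ) = z
      · rw [if_pos (Or.inr (Or.inr (Or.inl h3))), if_neg h1, if_neg h2, if_pos h3,
          if_neg (by omega)]
        rfl
      · by_cases h4 : (v : ℕ) = n
        · rw [if_pos (Or.inr (Or.inr (Or.inr h4))), if_neg h1, if_neg h2, if_neg h3, if_pos h4]
          rfl
        · rw [if_neg (by tauto), if_neg h1, if_neg h2, if_neg h3, if_neg h4]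
          rfl

/-- the map on the elements -/
def psi {m : ℕ} (φ : Fin m → E) (f : Fin m) (g g' k e : E) : Fin (m + 3) → E := fun j =>
  if hj : (j : ℕ) < m then (if (⟨j, hj⟩ : Fin m) = f then g else φ ⟨j, hj⟩)
  else if (j : ℕ) = m then g' else if (j : ℕ) = m + 1 then k else e

/-- a function on the vertices, as a function on `Fin (n + 1)` -/
def ex {n : ℕ} (τ : Fin n → V) (y : V) (π : V → ZMod 2) : Fin (n + 1) → ZMod 2 := fun w =>
  if hw : (w : ℕ) < n then π (τ ⟨w, hw⟩) else π y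

omit [Fintype V] [DecidableEq V] in
lemma ex_castSucc {n : ℕ} (τ : Fin n → V) (y : V) (π : V → ZMod 2) (x : Fin n) :
    ex τ y π x.castSucc = π (τ x) := by
  simp [ex]

omit [Fintype V] [DecidableEq V] in
lemma ex_last {n : ℕ} (τ : Fin n → V) (y : V) (π : V → ZMod 2) :
    ex τ y π (Fin.last n) = π y := by
  simp [ex]

lemma core {n m : ℕ} (ends : Fin m → Fin n × Fin n) {M : BM E} {h t : E → V} {e k g g' : E}
    {y s s' c d : V} {f : Fin m} {c' d' : Fin n}
    (hR : ∀ F, F ∈ M.R ↔ ∃ π : V → ZMod 2,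
      F = fun x => if x = e then π y + π s + π s' + π c else cob (M.S \ {e}) h t π x)
    (φ : Fin m → E) (hφ : Function.Injective φ)
    (hS : ∀ x, x ∈ M.S ↔ (∃ j, j ≠ f ∧ φ j = x) ∨ x = g ∨ x = g' ∨ x = k ∨ x = e)
    (hj : ∀ j, j ≠ f → φ j ≠ g ∧ φ j ≠ g' ∧ φ j ≠ k ∧ φ j ≠ e)
    (d1 : g ≠ g') (d2 : g ≠ k) (d3 : g ≠ e) (d4 : g' ≠ k) (d5 : g' ≠ e) (d6 : k ≠ e)
    (jg : Jn h t g y s) (jg' : Jn h t g' y s') (jk : Jn h t k y d)
    (τ : Fin n → V) (hτ : Function.Injective τ) (hτy : ∀ v, τ v ≠ y)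
    (hJ : ∀ j, j ≠ f → Jn h t (φ j) (τ (ends j).1) (τ (ends j).2))
    (h1 : τ (ends f).1 = s) (h2 : τ (ends f).2 = s') (h3 : τ c' = c) (h4 : τ d' = d)
    (h12 : (ends f).1 ≠ (ends f).2) (hc1 : c' ≠ (ends f).1) (hc2 : c' ≠ (ends f).2) :
    IsIso (O4rows ends f c' d') M := by
  have hcl : ∀ j : Fin (m + 3),
      (∃ i : Fin m, i ≠ f ∧ j = i.castAdd 3 ∧ psi φ f g g' k e j = φ i) ∨
      (j = f.castAdd 3 ∧ psi φ f g g' k e j = g) ∨
      ((j : ℕ) = m ∧ psi φ f g g' k e j = g') ∨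
      ((j : ℕ) = m + 1 ∧ psi φ f g g' k e j = k) ∨
      ((j : ℕ) = m + 2 ∧ psi φ f g g' k e j = e) := by
    intro j
    by_cases hjm : (j : ℕ) < m
    · by_cases hjf : (⟨j, hjm⟩ : Fin m) = f
      · right; left
        refine ⟨?_, ?_⟩
        · rw [← hjf]
          exact Fin.ext rfl
        · simp [psi, hjm, hjf]
      · left
        exact ⟨⟨j, hjm⟩, hjf, Fin.ext rfl, by simp [psi, hjm, hjf]⟩
    · by_cases hj1 : (j : ℕ) = m
      · right; right; left
        exact ⟨hj1, by simp [psi, hj1]⟩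
      · by_cases hj2 : (j : ℕ) = m + 1
        · right; right; right; left
          exact ⟨hj2, by simp [psi, hj2]⟩
        · right; right; right; right
          refine ⟨by omega, by simp [psi, hjm, hj1, hj2]⟩
  have hinj : Function.Injective (psi φ f g g' k e) := by
    intro i j hij
    rcases hcl i with ⟨i', i1, i2, i3⟩ | ⟨i2, i3⟩ | ⟨i2, i3⟩ | ⟨i2, i3⟩ | ⟨i2, i3⟩ <;>
    rcases hcl j with ⟨j', j1, j2, j3⟩ | ⟨j2, j3⟩ | ⟨j2, j3⟩ | ⟨j2, j3⟩ | ⟨j2, j3⟩ <;>
    rw [i3, j3] at hij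
    all_goals first
      | (rw [i2, j2]; done)
      | (rw [i2, j2, hφ hij]; done)
      | exact Fin.ext (by omega)
      | exact absurd hij (hj _ i1).1
      | exact absurd hij (hj _ i1).2.1
      | exact absurd hij (hj _ i1).2.2.1
      | exact absurd hij (hj _ i1).2.2.2
      | exact absurd hij.symm (hj _ j1).1
      | exact absurd hij.symm (hj _ j1).2.1
      | exact absurd hij.symm (hj _ j1).2.2.1
      | exact absurd hij.symm (hj _ j1).2.2.2
      | exact absurd hij d1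
      | exact absurd hij d2
      | exact absurd hij d3
      | exact absurd hij d4
      | exact absurd hij d5
      | exact absurd hij d6
      | exact absurd hij.symm d1
      | exact absurd hij.symm d2
      | exact absurd hij.symm d3
      | exact absurd hij.symm d4
      | exact absurd hij.symm d5
      | exact absurd hij.symm d6
  -- values
  have hv0 : ∀ i : Fin m, i ≠ f → psi φ f g g' k e (i.castAdd 3) = φ i := by
    intro i hi
    simp [psi, hi]
  have hv1 : psi φ f g g' k e (f.castAdd 3) = g := by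
    simp [psi]
  have hv2 : psi φ f g g' k e ⟨m, by omega⟩ = g' := by
    simp [psi]
  have hv3 : psi φ f g g' k e ⟨m + 1, by omega⟩ = k := by
    simp [psi]
  have hv4 : psi φ f g g' k e ⟨m + 2, by omega⟩ = e := by
    simp [psi]
  -- the rows
  have hC : ∀ π : V → ZMod 2, ∀ j,
      (if psi φ f g g' k e j = e then π y + π s + π s' + π c
        else cob (M.S \ {e}) h t π (psi φ f g g' k e j)) =
      ∑ w : Fin (n + 1), ex τ y π w * O4rows ends f c' d' w j := by
    intro π j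
    have hcobJ : ∀ x u v, x ∈ M.S → x ≠ e → Jn h t x u v →
        cob (M.S \ {e}) h t π x = π u + π v := by
      intro x u v hx hxe hJn
      have hx' : x ∈ M.S \ {e} := by simp [hx, hxe]
      simp only [cob, if_pos hx']
      rcases hJn with ⟨q1, q2⟩ | ⟨q1, q2⟩
      · rw [q1, q2]
      · rw [q1, q2, add_comm]
    have hP := ex_castSucc τ y π
    have hPl := ex_last τ y π
    rcases hcl j with ⟨i, i1, i2, i3⟩ | ⟨i2, i3⟩ | ⟨i2, i3⟩ | ⟨i2, i3⟩ | ⟨i2, i3⟩
    · rw [i3, if_neg (hj i i1).2.2.2,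
        hcobJ _ _ _ ((hS _).2 (Or.inl ⟨i, i1, rfl⟩)) (hj i i1).2.2.2 (hJ i i1)]
      have hO : ∀ w : Fin (n + 1), O4rows ends f c' d' w j =
          (if (w : ℕ) = (ends i).1 then 1 else 0) + (if (w : ℕ) = (ends i).2 then 1 else 0) := by
        intro w
        rw [i2]
        simp [O4rows, i1]
      simp only [hO]
      rw [sum_two, hP, hP]
    · rw [i3, if_neg d3, hcobJ _ _ _ ((hS _).2 (Or.inr (Or.inl rfl))) d3 jg]
      have hO : ∀ w : Fin (n + 1), O4rows ends f c' d' w j =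
          (if (w : ℕ) = (ends f).1 ∨ (w : ℕ) = n then 1 else 0) := by
        intro w
        rw [i2]
        simp [O4rows]
      simp only [hO]
      rw [sum_one, hP, hPl, h1, add_comm]
    · rw [i3, if_neg d5, hcobJ _ _ _ ((hS _).2 (Or.inr (Or.inr (Or.inl rfl)))) d5 jg']
      have hO : ∀ w : Fin (n + 1), O4rows ends f c' d' w j =
          (if (w : ℕ) = (ends f).2 ∨ (w : ℕ) = n then 1 else 0) := by
        intro w
        simp [O4rows, i2]
      simp only [hO]
      rw [sum_one, hP, hPl, h2, add_comm]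
    · rw [i3, if_neg d6, hcobJ _ _ _ ((hS _).2 (Or.inr (Or.inr (Or.inr (Or.inl rfl))))) d6 jk]
      have hO : ∀ w : Fin (n + 1), O4rows ends f c' d' w j =
          (if (w : ℕ) = d' ∨ (w : ℕ) = n then 1 else 0) := by
        intro w
        simp [O4rows, i2]
      simp only [hO]
      rw [sum_one, hP, hPl, h4, add_comm]
    · rw [i3, if_pos rfl]
      have hO : ∀ w : Fin (n + 1), O4rows ends f c' d' w j =
          (if (w : ℕ) = (ends f).1 ∨ (w : ℕ) = (ends f).2 ∨ (w : ℕ) = c' ∨ (w : ℕ) = n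
            then 1 else 0) := by
        intro w
        have q1 : ¬ (m + 2 < m) := by omega
        simp [O4rows, i2, q1]
      simp only [hO]
      rw [sum_four _ h12 hc1 hc2, hP, hP, hP, hPl, h1, h2, h3]
      ring
  refine ⟨psi φ f g g' k e, hinj, fun x => ⟨fun hx => ?_, ?_⟩, fun v => ?_, fun F hF => ?_⟩
  · rcases (hS x).1 hx with ⟨j, j1, rfl⟩ | rfl | rfl | rfl | rfl
    · exact ⟨_, hv0 j j1⟩
    · exact ⟨_, hv1⟩
    · exact ⟨_, hv2⟩
    · exact ⟨_, hv3⟩
    · exact ⟨_, hv4⟩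
  · rintro ⟨j, rfl⟩
    rw [hS]
    rcases hcl j with ⟨i, i1, i2, i3⟩ | ⟨i2, i3⟩ | ⟨i2, i3⟩ | ⟨i2, i3⟩ | ⟨i2, i3⟩
    · exact Or.inl ⟨i, i1, i3.symm⟩
    · exact Or.inr (Or.inl i3)
    · exact Or.inr (Or.inr (Or.inl i3))
    · exact Or.inr (Or.inr (Or.inr (Or.inl i3)))
    · exact Or.inr (Or.inr (Or.inr (Or.inr i3)))
  · obtain ⟨u, hu⟩ : ∃ u : V, ∀ w : Fin (n + 1),
        ex τ y (fun x => if x = u then (1 : ZMod 2) else 0) w = if w = v then 1 else 0 := by
      unfold ex
      beta_reduce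
      by_cases hv : (v : ℕ) < n
      · refine ⟨τ ⟨v, hv⟩, fun w => ?_⟩
        by_cases hw : (w : ℕ) < n
        · rw [dif_pos hw]
          by_cases hwv : w = v
          · subst hwv
            simp
          · rw [if_neg hwv, if_neg]
            intro h'
            have := hτ h'
            exact hwv (Fin.ext (by simpa using this))
        · rw [dif_neg hw, if_neg (hτy _).symm, if_neg]
          rintro rfl
          exact hw hv
      · refine ⟨y, fun w => ?_⟩
        by_cases hw : (w : ℕ) < n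
        · rw [dif_pos hw, if_neg (hτy _), if_neg]
          rintro rfl
          exact hv hw
        · rw [dif_neg hw, if_pos rfl, if_pos]
          exact Fin.ext (by omega)
    refine ⟨_, (hR _).2 ⟨fun x => if x = u then 1 else 0, rfl⟩, fun j => ?_⟩
    have h5 := hC (fun x => if x = u then 1 else 0) j
    refine h5.trans ?_
    simp only [hu]
    rw [Finset.sum_eq_single v]
    · simp
    · intro w _ hw
      rw [if_neg hw, zero_mul]
    · intro h'
      exact absurd (Finset.mem_univ _) h'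
  · obtain ⟨π, rfl⟩ := (hR F).1 hF
    exact ⟨_, fun j => hC π j⟩

end OutO4

theorem SitI.out_O4 {n m : ℕ} (ends : Fin m → Fin n × Fin n)
    (h0 : (ofRows (grRows ends)).TC)
    (hgr : IsGr (ofRows (grRows ends)) Finset.univ (fun j => (ends j).1) (fun j => (ends j).2))
    {M : BM E} {U : Finset V} {h t : E → V} {e k g1 g2 : E} {y a b c d : V}
    (S : SitI (grRows ends) M U h t e k g1 g2 y a b c d) (hcd : c ≠ d)
    (hd : 4 ≤ (star (M.S \ {e}) h t d).card)
    (hI : IsIso (grRows ends) ((M.con {g2}).del {e, k})) :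
    ∃ (f : Fin m) (c' d' : Fin n), c' ≠ d' ∧ c' ≠ (ends f).1 ∧ c' ≠ (ends f).2 ∧
      d' ≠ (ends f).1 ∧ d' ≠ (ends f).2 ∧ IsIso (O4rows ends f c' d') M := by
  classical
  -- the graph on `H'`
  have hg1 := S.hp_gr
  have htc := S.hp_tc hd
  obtain ⟨φ, hφ, hφS, hφ1, hφ2⟩ := hI
  have hgt := OutO4.transfer hφS hφ1 hφ2 hg1
  -- elements
  have hst := S.st
  have hmst : ∀ x, (x ∈ M.S \ {e} ∧ (h x = y ∨ t x = y)) ↔ (x = k ∨ x = g1 ∨ x = g2) := by
    intro x
    have h1 : x ∈ star (M.S \ {e}) h t y ↔ x ∈ ({k, g1, g2} : Finset E) := by rw [hst]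
    simpa [star] using h1
  have hk := (hmst k).2 (Or.inl rfl)
  have hg1' := (hmst g1).2 (Or.inr (Or.inl rfl))
  have hg2' := (hmst g2).2 (Or.inr (Or.inr rfl))
  have hkS : k ∈ M.S ∧ k ≠ e := by simpa using hk.1
  have hg1S : g1 ∈ M.S ∧ g1 ≠ e := by simpa using hg1'.1
  have hg2S : g2 ∈ M.S ∧ g2 ≠ e := by simpa using hg2'.1
  have hJne : ∀ {x x' : E} {u v u' : V}, Jn h t x u v → Jn h t x' u u' → u ≠ v → v ≠ u' →
      x ≠ x' := by
    rintro x x' u v u' j1 j2 n1 n2 rfl
    rcases j1 with ⟨q1, q2⟩ | ⟨q1, q2⟩ <;> rcases j2 with ⟨q3, q4⟩ | ⟨q3, q4⟩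
    · exact n2 (q2.symm.trans q4)
    · exact n1 (q4.symm.trans q2)
    · exact n1 (q3.symm.trans q1)
    · exact n2 (q1.symm.trans q3)
  have hg12 : g1 ≠ g2 := hJne S.j1 S.j2 S.ya S.ab
  have hg1k : g1 ≠ k := hJne S.j1 S.jk S.ya S.ad
  have hg2k : g2 ≠ k := hJne S.j2 S.jk S.yb S.bd
  have hU : y ∈ U ∧ a ∈ U ∧ b ∈ U ∧ c ∈ U := by
    have h1 := S.gr.sub
    refine ⟨h1 (by simp), h1 (by simp), h1 (by simp), h1 (by simp)⟩
  have hgr0 : IsGr (M.del {e}) U h t := S.gr.gr
  have hdU : d ∈ U := by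
    have h1 := hgr0.ends k (by simp [hkS])
    rcases S.jk with ⟨q1, q2⟩ | ⟨q1, q2⟩
    · rw [← q2]
      exact h1.2.1
    · rw [← q1]
      exact h1.1
  have hHS : ∀ x, x ∈ ((M.con {g2}).del {e, k}).S ↔ x ∈ M.S ∧ x ≠ g2 ∧ x ≠ e ∧ x ≠ k := by
    intro x
    simp only [BM.del_S, BM.con_S, Finset.mem_sdiff, Finset.mem_insert, Finset.mem_singleton,
      not_or]
    tauto
  have hφm : ∀ j, φ j ∈ M.S ∧ φ j ≠ g2 ∧ φ j ≠ e ∧ φ j ≠ k := fun j =>
    (hHS _).1 ((hφS _).2 ⟨j, rfl⟩)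
  obtain ⟨f, hf⟩ : ∃ f, φ f = g1 := (hφS _).1 ((hHS _).2 ⟨hg1S.1, hg12, hg1S.2, hg1k⟩)
  -- the map on the vertices
  have hu2 : ∀ v' : Fin n, ∃ v ∈ U.erase y,
      star (ofRows (grRows ends)).S (fun j => mg y b (h (φ j))) (fun j => mg y b (t (φ j))) v =
        star (ofRows (grRows ends)).S (fun j => (ends j).1) (fun j => (ends j).2) v' :=
    fun v' => uniq h0 hgr hgt v' (Finset.mem_univ _)
  have hu1 : ∀ v ∈ U.erase y, ∃ v' : Fin n,
      star (ofRows (grRows ends)).S (fun j => (ends j).1) (fun j => (ends j).2) v' =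
      star (ofRows (grRows ends)).S (fun j => mg y b (h (φ j))) (fun j => mg y b (t (φ j))) v := by
    intro v hv
    obtain ⟨v', -, hv'⟩ := uniq h0 hgt hgr v hv
    exact ⟨v', hv'⟩
  choose τ hτU hτs using hu2
  have hτi : Function.Injective τ := by
    intro v w hvw
    refine OutO4.star_inj h0 hgr (Finset.mem_univ v) (Finset.mem_univ w) ?_
    rw [← hτs v, ← hτs w, hvw]
  have hτsur : ∀ v ∈ U, v ≠ y → ∃ v', τ v' = v := by
    intro v hv hvy
    obtain ⟨v', hv'⟩ := hu1 v (Finset.mem_erase.2 ⟨hvy, hv⟩)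
    refine ⟨v', OutO4.star_inj h0 hgt (hτU v') (Finset.mem_erase.2 ⟨hvy, hv⟩) ?_⟩
    rw [hτs v', hv']
  have hτy : ∀ v, τ v ≠ y := fun v => (Finset.mem_erase.1 (hτU v)).1
  have hmemτ : ∀ j v', ((ends j).1 = v' ∨ (ends j).2 = v') →
      (mg y b (h (φ j)) = τ v' ∨ mg y b (t (φ j)) = τ v') := by
    intro j v' hjv
    have h1 : j ∈ star (ofRows (grRows ends)).S (fun j => (ends j).1) (fun j => (ends j).2) v' := by
      simpa [star, ofRows] using hjv
    rw [← hτs v'] at h1
    simpa [star, ofRows] using h1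
  have hne12 : ∀ j, (ends j).1 ≠ (ends j).2 := fun j =>
    (hgr.ends j (Finset.mem_univ j)).2.2
  have hJ' : ∀ j, Jn (fun j => mg y b (h (φ j))) (fun j => mg y b (t (φ j))) j
      (τ (ends j).1) (τ (ends j).2) := by
    intro j
    have h1 := hmemτ j (ends j).1 (Or.inl rfl)
    have h2 := hmemτ j (ends j).2 (Or.inr rfl)
    have h3 : τ (ends j).1 ≠ τ (ends j).2 := fun h' => hne12 j (hτi h')
    rcases h1 with h1 | h1 <;> rcases h2 with h2 | h2
    · exact absurd (h1.symm.trans h2) h3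
    · exact Or.inl ⟨h1, h2⟩
    · exact Or.inr ⟨h2, h1⟩
    · exact absurd (h1.symm.trans h2) h3
  have hmg : ∀ x, x ∈ M.S → x ≠ e → x ≠ k → x ≠ g1 → x ≠ g2 →
      mg y b (h x) = h x ∧ mg y b (t x) = t x := by
    intro x hx hxe hxk hx1 hx2
    have h1 : ¬ (h x = y ∨ t x = y) := by
      intro h'
      have h2 := (hmst x).1 ⟨by simp [hx, hxe], h'⟩
      rcases h2 with h2 | h2 | h2
      · exact hxk h2
      · exact hx1 h2
      · exact hx2 h2
    rw [not_or] at h1
    simp [mg, h1.1, h1.2]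
  have hJ : ∀ j, j ≠ f → Jn h t (φ j) (τ (ends j).1) (τ (ends j).2) := by
    intro j hjf
    obtain ⟨m1, m2, m3, m4⟩ := hφm j
    have m5 : φ j ≠ g1 := by
      rw [← hf]
      exact fun h' => hjf (hφ h')
    obtain ⟨e1, e2⟩ := hmg _ m1 m3 m4 m5 m2
    have h1 : (mg y b (h (φ j)) = τ (ends j).1 ∧ mg y b (t (φ j)) = τ (ends j).2) ∨
        (mg y b (h (φ j)) = τ (ends j).2 ∧ mg y b (t (φ j)) = τ (ends j).1) := hJ' j
    rw [e1, e2] at h1
    exact h1
  have hJf : (τ (ends f).1 = a ∧ τ (ends f).2 = b) ∨ (τ (ends f).1 = b ∧ τ (ends f).2 = a) := by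
    have h1 : (mg y b (h (φ f)) = τ (ends f).1 ∧ mg y b (t (φ f)) = τ (ends f).2) ∨
        (mg y b (h (φ f)) = τ (ends f).2 ∧ mg y b (t (φ f)) = τ (ends f).1) := hJ' f
    rw [hf] at h1
    have hya := S.ya
    have hmy : mg y b y = b := by simp [mg]
    have hma : mg y b a = a := by simp [mg, hya.symm]
    rcases S.j1 with ⟨q1, q2⟩ | ⟨q1, q2⟩
    · rw [q1, q2, hmy, hma] at h1
      rcases h1 with ⟨q3, q4⟩ | ⟨q3, q4⟩
      · exact Or.inr ⟨q3.symm, q4.symm⟩
      · exact Or.inl ⟨q4.symm, q3.symm⟩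
    · rw [q1, q2, hmy, hma] at h1
      rcases h1 with ⟨q3, q4⟩ | ⟨q3, q4⟩
      · exact Or.inl ⟨q3.symm, q4.symm⟩
      · exact Or.inr ⟨q4.symm, q3.symm⟩
  obtain ⟨c', hc'⟩ := hτsur c hU.2.2.2 S.yc.symm
  obtain ⟨d', hd'⟩ := hτsur d hdU S.yd.symm
  have hS : ∀ x, x ∈ M.S ↔ (∃ j, j ≠ f ∧ φ j = x) ∨ x = g1 ∨ x = g2 ∨ x = k ∨ x = e := by
    intro x
    constructor
    · intro hx
      by_cases x1 : x = g1
      · exact Or.inr (Or.inl x1)
      by_cases x2 : x = g2
      · exact Or.inr (Or.inr (Or.inl x2))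
      by_cases x3 : x = k
      · exact Or.inr (Or.inr (Or.inr (Or.inl x3)))
      by_cases x4 : x = e
      · exact Or.inr (Or.inr (Or.inr (Or.inr x4)))
      obtain ⟨j, hj⟩ := (hφS x).1 ((hHS x).2 ⟨hx, x2, x4, x3⟩)
      refine Or.inl ⟨j, ?_, hj⟩
      rintro rfl
      exact x1 (hj.symm.trans hf)
    · rintro (⟨j, -, rfl⟩ | rfl | rfl | rfl | rfl)
      · exact (hφm j).1
      · exact hg1S.1
      · exact hg2S.1
      · exact hkS.1
      · exact S.gr.mem
  have hsum : ∀ π : V → ZMod 2, ∑ v ∈ ({y, a, b, c} : Finset V), π v = π y + π a + π b + π c := by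
    intro π
    rw [Finset.sum_insert (by simp [S.ya, S.yb, S.yc]), Finset.sum_insert (by simp [S.ab, S.ac]),
      Finset.sum_insert (by simp [S.bc]), Finset.sum_singleton]
    ring
  have hR := S.gr.rows
  simp only [hsum] at hR
  have hjg : ∀ j, j ≠ f → φ j ≠ g1 ∧ φ j ≠ g2 ∧ φ j ≠ k ∧ φ j ≠ e := by
    intro j hjf
    obtain ⟨m1, m2, m3, m4⟩ := hφm j
    refine ⟨?_, m2, m4, m3⟩
    rw [← hf]
    exact fun h' => hjf (hφ h')
  have hcd' : c' ≠ d' := by
    rintro rfl
    exact hcd (hc'.symm.trans hd')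
  have nac : ∀ v, τ v = a → c' ≠ v ∧ d' ≠ v := by
    intro v hv
    refine ⟨?_, ?_⟩
    · rintro rfl
      exact S.ac (hv.symm.trans hc')
    · rintro rfl
      exact S.ad (hv.symm.trans hd')
  have nbc : ∀ v, τ v = b → c' ≠ v ∧ d' ≠ v := by
    intro v hv
    refine ⟨?_, ?_⟩
    · rintro rfl
      exact S.bc (hv.symm.trans hc')
    · rintro rfl
      exact S.bd (hv.symm.trans hd')
  rcases hJf with ⟨f1, f2⟩ | ⟨f1, f2⟩
  · refine ⟨f, c', d', hcd', (nac _ f1).1, (nbc _ f2).1, (nac _ f1).2, (nbc _ f2).2, ?_⟩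
    exact OutO4.core ends hR φ hφ hS hjg hg12 hg1k hg1S.2 hg2k hg2S.2 hkS.2 S.j1 S.j2 S.jk τ hτi
      hτy hJ f1 f2 hc' hd' (hne12 f) (nac _ f1).1 (nbc _ f2).1
  · refine ⟨f, c', d', hcd', (nbc _ f1).1, (nac _ f2).1, (nbc _ f1).2, (nac _ f2).2, ?_⟩
    refine OutO4.core ends (g := g2) (g' := g1) (s := b) (s' := a) ?_ φ hφ ?_ ?_ hg12.symm hg2k
      hg2S.2 hg1k hg1S.2 hkS.2 S.j2 S.j1 S.jk τ hτi hτy hJ f1 f2 hc' hd' (hne12 f)
      (nbc _ f1).1 (nac _ f2).1
    · intro F
      rw [hR F]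
      refine exists_congr (fun π => ?_)
      rw [show π y + π a + π b + π c = π y + π b + π a + π c by ring]
    · intro x
      rw [hS x]
      constructor
      · rintro (h' | h' | h' | h')
        · exact Or.inl h'
        · exact Or.inr (Or.inr (Or.inl h'))
        · exact Or.inr (Or.inl h')
        · exact Or.inr (Or.inr (Or.inr h'))
      · rintro (h' | h' | h' | h')
        · exact Or.inl h'
        · exact Or.inr (Or.inr (Or.inl h'))
        · exact Or.inr (Or.inl h')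
        · exact Or.inr (Or.inr (Or.inr h'))
    · intro j hjf
      obtain ⟨m1, m2, m3, m4⟩ := hjg j hjf
      exact ⟨m2, m1, m3, m4⟩

end SEY
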