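import Pool.Agent.Helper25.SEY.T.Minor

/-!
T3-RelD: relabelling by a permutation of E.
Everything (Z, r, lam, Ser, SC, Two, TC, HasT) is transported: f -> f o sigma is a linear
isomorphism of the row spaces and of the cycle spaces, supports are mapped by sigma.
-/

namespace SEY

open Finset

variable {E : Type} [Fintype E] [DecidableEq E] {V : Type} [Fintype V] [DecidableEq V]

/-- `M2` is obtained from `M1` by the permutation `σ` of the elements. -/
def Rel (σ : Equiv.Perm E) (M1 M2 : BM E) : Prop :=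
  (∀ x, x ∈ M1.S ↔ σ x ∈ M2.S) ∧ ∀ f : E → ZMod 2, f ∈ M2.R ↔ (fun x => f (σ x)) ∈ M1.R

/-- The preimage of a finite set under a permutation. -/
def RelD_pre (σ : Equiv.Perm E) (B : Finset E) : Finset E := univ.filter (fun x => σ x ∈ B)

theorem RelD_mem_pre (σ : Equiv.Perm E) (B : Finset E) (x : E) :
    x ∈ RelD_pre σ B ↔ σ x ∈ B := by
  simp [RelD_pre]

theorem RelD_card_pre (σ : Equiv.Perm E) (B : Finset E) : (RelD_pre σ B).card = B.card := by
  have h : RelD_pre σ B = B.map σ.symm.toEmbedding := by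
    ext x
    rw [RelD_mem_pre, Finset.mem_map]
    constructor
    · intro hx
      exact ⟨σ x, hx, by simp⟩
    · rintro ⟨y, hy, rfl⟩
      simpa using hy
  rw [h, Finset.card_map]

theorem RelD_pre_sdiff (σ : Equiv.Perm E) (B C : Finset E) :
    RelD_pre σ (B \ C) = RelD_pre σ B \ RelD_pre σ C := by
  ext x
  simp only [RelD_mem_pre, Finset.mem_sdiff]

theorem Rel.pre_S {σ : Equiv.Perm E} {M1 M2 : BM E} (h : Rel σ M1 M2) :
    RelD_pre σ M2.S = M1.S := by
  ext x
  rw [RelD_mem_pre]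
  exact (h.1 x).symm

theorem Rel.mem_Z {σ : Equiv.Perm E} {M1 M2 : BM E} (h : Rel σ M1 M2) (z : E → ZMod 2) :
    z ∈ M2.Z ↔ (fun x => z (σ x)) ∈ M1.Z := by
  have hdot : ∀ f g : E → ZMod 2, dot (fun x => f (σ x)) (fun x => g (σ x)) = dot f g := by
    intro f g
    exact Equiv.sum_comp σ (fun x => f x * g x)
  constructor
  · rintro ⟨h1, h2⟩
    refine ⟨?_, ?_⟩
    · intro e he
      exact h1 (σ e) (fun h' => he ((h.1 e).mpr h'))
    · intro f hf
      have hf2 : (fun x => f (σ.symm x)) ∈ M2.R := by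
        rw [h.2]
        simpa using hf
      have h3 := h2 _ hf2
      rw [← hdot] at h3
      simpa using h3
  · rintro ⟨h1, h2⟩
    refine ⟨?_, ?_⟩
    · intro e he
      have h3 := h1 (σ.symm e) (fun h' => he (by simpa using (h.1 _).mp h'))
      simpa using h3
    · intro f hf
      rw [← hdot]
      exact h2 _ ((h.2 f).mp hf)

theorem Rel.r_eq {σ : Equiv.Perm E} {M1 M2 : BM E} (h : Rel σ M1 M2) (B : Finset E) :
    M2.r B = M1.r (RelD_pre σ B) := by
  have h1 : (M2.R.map (mask B)).map (LinearEquiv.funCongrLeft (ZMod 2) (ZMod 2) σ).toLinearMap =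
      M1.R.map (mask (RelD_pre σ B)) := by
    ext g
    simp only [Submodule.mem_map]
    constructor
    · rintro ⟨_, ⟨f, hf, rfl⟩, rfl⟩
      refine ⟨fun x => f (σ x), (h.2 f).mp hf, ?_⟩
      funext x
      simp only [mask, LinearMap.coe_mk, AddHom.coe_mk, RelD_mem_pre]
      rfl
    · rintro ⟨f, hf, rfl⟩
      refine ⟨mask B (fun x => f (σ.symm x)), ⟨fun x => f (σ.symm x), ?_, rfl⟩, ?_⟩
      · rw [h.2]
        simpa using hf
      · funext x
        simp only [mask, LinearMap.coe_mk, AddHom.coe_mk, RelD_mem_pre]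
        show (if σ x ∈ B then f (σ.symm (σ x)) else 0) = _
        rw [Equiv.symm_apply_apply]
  unfold BM.r
  rw [← h1]
  exact (LinearEquiv.finrank_map_eq (LinearEquiv.funCongrLeft (ZMod 2) (ZMod 2) σ) _).symm

theorem Rel.lam_eq {σ : Equiv.Perm E} {M1 M2 : BM E} (h : Rel σ M1 M2) (B : Finset E) :
    M2.lam B = M1.lam (RelD_pre σ B) := by
  unfold BM.lam
  rw [h.r_eq B, h.r_eq (M2.S \ B), h.r_eq M2.S, RelD_pre_sdiff, h.pre_S]

theorem Rel.ser {σ : Equiv.Perm E} {M1 M2 : BM E} (h : Rel σ M1 M2) (e f : E) :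
    M2.Ser (σ e) (σ f) ↔ M1.Ser e f := by
  constructor
  · intro h1 z hz
    have hz2 : (fun x => z (σ.symm x)) ∈ M2.Z := by
      rw [h.mem_Z]
      simpa using hz
    have h2 := h1 _ hz2
    simpa using h2
  · intro h1 z hz
    exact h1 _ ((h.mem_Z z).mp hz)

theorem RelD_subset {σ : Equiv.Perm E} {M1 M2 : BM E} (h : Rel σ M1 M2) {A : Finset E}
    (hA : A ⊆ M2.S) : RelD_pre σ A ⊆ M1.S := by
  intro x hx
  rw [RelD_mem_pre] at hx
  exact (h.1 x).mpr (hA hx)

theorem RelD_ser_all {σ : Equiv.Perm E} {M1 M2 : BM E} (h : Rel σ M1 M2) {A : Finset E}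
    (hA : ∀ e ∈ RelD_pre σ A, ∀ f ∈ RelD_pre σ A, M1.Ser e f) :
    ∀ e ∈ A, ∀ f ∈ A, M2.Ser e f := by
  intro e he f hf
  have h1 := hA (σ.symm e) (by rw [RelD_mem_pre]; simpa using he) (σ.symm f)
    (by rw [RelD_mem_pre]; simpa using hf)
  have h2 := (h.ser _ _).mpr h1
  simpa using h2

theorem Rel.sc {σ : Equiv.Perm E} {M1 M2 : BM E} (h : Rel σ M1 M2) (h1 : M1.SC) : M2.SC := by
  obtain ⟨⟨s, hs1, hs2⟩, h2⟩ := h1
  refine ⟨⟨fun i => σ (s i), fun i => (h.1 _).mp (hs1 i), fun i j hij => ?_⟩, ?_⟩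
  · rw [h.ser]
    exact hs2 i j hij
  · intro A hA hl
    rw [h.lam_eq] at hl
    rcases h2 (RelD_pre σ A) (RelD_subset h hA) hl with h3 | h3
    · exact Or.inl (RelD_ser_all h h3)
    · refine Or.inr (RelD_ser_all h ?_)
      rw [RelD_pre_sdiff, h.pre_S]
      exact h3

theorem Rel.two {σ : Equiv.Perm E} {M1 M2 : BM E} (h : Rel σ M1 M2) (h1 : M1.Two) : M2.Two := by
  have hm : ∀ a ∈ M2.S, σ.symm a ∈ M1.S := by
    intro a ha
    rw [h.1]
    simpa using ha
  have hs : ∀ a b, M2.Ser a b → M1.Ser (σ.symm a) (σ.symm b) := by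
    intro a b hab
    rw [← h.ser]
    simpa using hab
  intro a ha b hb c hc hab hac
  have h2 := h1 _ (hm a ha) _ (hm b hb) _ (hm c hc) (hs a b hab) (hs a c hac)
  simpa using h2

theorem Rel.tc {σ : Equiv.Perm E} {M1 M2 : BM E} (h : Rel σ M1 M2) (h1 : M1.TC) : M2.TC := by
  obtain ⟨h4, h2⟩ := h1
  have hS : M2.S.card = M1.S.card := by
    rw [← h.pre_S, RelD_card_pre]
  refine ⟨by omega, ?_⟩
  intro A hA
  obtain ⟨ha, hb⟩ := h2 (RelD_pre σ A) (RelD_subset h hA)
  have hinj : ∀ B C : Finset E, RelD_pre σ B = RelD_pre σ C → B = C := by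
    intro B C hBC
    ext x
    have h5 : σ.symm x ∈ RelD_pre σ B ↔ σ.symm x ∈ RelD_pre σ C := by rw [hBC]
    rw [RelD_mem_pre, RelD_mem_pre] at h5
    simpa using h5
  rw [h.lam_eq]
  refine ⟨fun h0 => ?_, fun h0 => ?_⟩
  · rcases ha h0 with h3 | h3
    · left
      rw [← Finset.card_eq_zero, ← RelD_card_pre σ, h3, Finset.card_empty]
    · right
      apply hinj
      rw [h3, h.pre_S]
  · have hc : (M2.S \ A).card = (M1.S \ RelD_pre σ A).card := by
      rw [← RelD_card_pre σ, RelD_pre_sdiff, h.pre_S]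
    rw [← RelD_card_pre σ A, hc]
    exact hb h0

theorem Rel.hasT {r l : ℕ} {rows : Fin r → Fin l → ZMod 2} {σ : Equiv.Perm E} {M1 M2 : BM E}
    (h : Rel σ M1 M2) (h1 : HasT rows M1) : HasT rows M2 := by
  obtain ⟨A, π, h1, h2, h3⟩ := h1
  refine ⟨RelD_pre σ.symm A, fun e => π (σ.symm e), ?_, ?_, ?_⟩
  · intro x hx
    rw [RelD_mem_pre] at hx
    have h4 := (h.1 _).mp (h1 hx)
    simpa using h4
  · intro i
    obtain ⟨e, he, hei⟩ := h2 i
    refine ⟨σ e, ?_, ?_⟩
    · rw [RelD_mem_pre]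
      simpa using he
    · simpa using hei
  · intro z hz
    rw [h.mem_Z]
    have h4 : ∀ e, e ∉ A → (fun x => z (σ x)) e = 0 := by
      intro e he
      apply hz
      rw [RelD_mem_pre]
      simpa using he
    rw [h3 _ h4]
    constructor
    · rintro ⟨w, hw1, hw2⟩
      refine ⟨w, hw1, ?_⟩
      intro e he
      rw [RelD_mem_pre] at he
      have h5 := hw2 _ he
      simpa using h5
    · rintro ⟨w, hw1, hw2⟩
      refine ⟨w, hw1, ?_⟩
      intro e he
      have h5 := hw2 (σ e) (by rw [RelD_mem_pre]; simpa using he)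
      simpa using h5

end SEY
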