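import Pool.Agent.Helper25.SEY.T.RelD

/-!
T3-RelGr: two graphs with corresponding edges.
Rows of M1: coboundaries of potentials pi with the ends h1, t1; f (sigma x) = pi (h1 x) + pi (t1 x); outside of the ground sets
all rows vanish.
-/

namespace SEY

open Finset

variable {E : Type} [Fintype E] [DecidableEq E] {V : Type} [Fintype V] [DecidableEq V]

omit [Fintype E] [Fintype V] [DecidableEq V] in
theorem RelGr_cob {σ : Equiv.Perm E} {S1 S2 : Finset E} {h1 t1 h2 t2 : E → V}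
    (hS : ∀ x, x ∈ S1 ↔ σ x ∈ S2) (hj : ∀ x ∈ S1, Jn h2 t2 (σ x) (h1 x) (t1 x))
    (π : V → ZMod 2) : (fun x => cob S2 h2 t2 π (σ x)) = cob S1 h1 t1 π := by
  funext x
  by_cases hx : x ∈ S1
  · have hx2 := (hS x).mp hx
    simp only [cob, if_pos hx, if_pos hx2]
    rcases hj x hx with ⟨ha, hb⟩ | ⟨ha, hb⟩
    · rw [ha, hb]
    · rw [ha, hb, add_comm]
  · have hx2 : σ x ∉ S2 := fun h' => hx ((hS x).mpr h')
    simp only [cob, if_neg hx, if_neg hx2]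

theorem Rel.of_gr {σ : Equiv.Perm E} {M1 M2 : BM E} {U U' : Finset V} {h1 t1 h2 t2 : E → V}
    (hg1 : IsGr M1 U h1 t1) (hg2 : IsGr M2 U' h2 t2) (hS : ∀ x, x ∈ M1.S ↔ σ x ∈ M2.S)
    (hj : ∀ x ∈ M1.S, Jn h2 t2 (σ x) (h1 x) (t1 x)) : Rel σ M1 M2 := by
  refine ⟨hS, fun f => ?_⟩
  rw [hg2.rows, hg1.rows]
  constructor
  · rintro ⟨π, rfl⟩
    exact ⟨π, RelGr_cob hS hj π⟩
  · rintro ⟨π, hπ⟩
    refine ⟨π, ?_⟩
    rw [← RelGr_cob hS hj π] at hπ
    funext y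
    have h3 := congrFun hπ (σ.symm y)
    simpa using h3

end SEY
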