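import Pool.Agent.Helper25.SEY.T.Minor

/-!
T3-SitC.
* `SitI.c_ne_d`: if c = d then q := ![e, g1, g2, k] is a cycle (f e = pi y + pi a + pi b + pi c, f g1 = pi y + pi a,
  f g2 = pi y + pi b, f k = pi y + pi c: sum 0) and the lifted star of y (`IsGraft.star_mem`): `quad_F7`; |M.S| >= 8: hypothesis h8.
  Contradiction with NoF.
* `SitI.symm_ab`: exchange the roles of a and b.
-/

namespace SEY

open Finset

variable {E : Type} [Fintype E] [DecidableEq E] {V : Type} [Fintype V] [DecidableEq V]
variable {r l : ℕ} {rows : Fin r → Fin l → ZMod 2} {M : BM E} {U : Finset V} {h t : E → V}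
  {e k g1 g2 : E} {y a b c d : V}

private theorem SitC_Jn_uniq {x : E} {y a b : V} (h1 : Jn h t x y a) (h2 : Jn h t x y b)
    (hya : y ≠ a) (hyb : y ≠ b) : a = b := by
  rcases h1 with ⟨h1, h1'⟩ | ⟨h1, h1'⟩ <;> rcases h2 with ⟨h2, h2'⟩ | ⟨h2, h2'⟩
  · exact h1'.symm.trans h2'
  · exact absurd (h1.symm.trans h2) hyb
  · exact absurd (h1'.symm.trans h2') hyb
  · exact h1.symm.trans h2

private theorem SitC_cob {S : Finset E} {x : E} {u v : V} (hx : x ∈ S) (hj : Jn h t x u v)
    (π : V → ZMod 2) : cob S h t π x = π u + π v := by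
  unfold cob
  rw [if_pos hx]
  rcases hj with ⟨h1, h2⟩ | ⟨h1, h2⟩
  · rw [h1, h2]
  · rw [h1, h2, add_comm]

theorem SitI.c_ne_d (h8 : 8 ≤ M.S.card) (S : SitI rows M U h t e k g1 g2 y a b c d) : c ≠ d := by
  intro hcd
  subst hcd
  have hstar : ∀ x ∈ star (M.S \ {e}) h t y, x ∈ M.S \ {e} := fun x hx =>
    (Finset.mem_filter.mp hx).1
  have hk : k ∈ M.S \ {e} := hstar k (by rw [S.st]; simp)
  have hg1 : g1 ∈ M.S \ {e} := hstar g1 (by rw [S.st]; simp)
  have hg2 : g2 ∈ M.S \ {e} := hstar g2 (by rw [S.st]; simp)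
  have hk' := Finset.mem_sdiff.mp hk
  have hg1' := Finset.mem_sdiff.mp hg1
  have hg2' := Finset.mem_sdiff.mp hg2
  have nke : k ≠ e := fun h => hk'.2 (by rw [h]; exact Finset.mem_singleton_self e)
  have ng1e : g1 ≠ e := fun h => hg1'.2 (by rw [h]; exact Finset.mem_singleton_self e)
  have ng2e : g2 ≠ e := fun h => hg2'.2 (by rw [h]; exact Finset.mem_singleton_self e)
  have n12 : g1 ≠ g2 := by
    intro h
    exact S.ab (SitC_Jn_uniq S.j1 (h ▸ S.j2) S.ya S.yb)
  have n1k : g1 ≠ k := by
    intro h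
    exact S.ad (SitC_Jn_uniq S.j1 (h ▸ S.jk) S.ya S.yd)
  have n2k : g2 ≠ k := by
    intro h
    exact S.bd (SitC_Jn_uniq S.j2 (h ▸ S.jk) S.yb S.yd)
  apply S.cx.nof.1
  refine quad_F7 M S.cx.tc ![e, g1, g2, k] ?_ ?_ ?_ ?_ h8
  · intro i j hij
    fin_cases i <;> fin_cases j <;>
      first
        | rfl
        | (exfalso
           simp only [Fin.zero_eta, Fin.mk_one, Fin.reduceFinMk, Matrix.cons_val_zero,
             Matrix.cons_val_one, Matrix.cons_val] at hij
           first
             | exact ng1e hij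
             | exact ng1e hij.symm
             | exact ng2e hij
             | exact ng2e hij.symm
             | exact nke hij
             | exact nke hij.symm
             | exact n12 hij
             | exact n12 hij.symm
             | exact n1k hij
             | exact n1k hij.symm
             | exact n2k hij
             | exact n2k hij.symm)
  · intro i
    fin_cases i
    · exact S.gr.mem
    · exact hg1'.1
    · exact hg2'.1
    · exact hk'.1
  · intro f hf
    obtain ⟨π, rfl⟩ := (S.gr.rows f).mp hf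
    have h2 : (2 : ZMod 2) = 0 := by decide
    simp only [Fin.sum_univ_four, Matrix.cons_val_zero, Matrix.cons_val_one, Matrix.cons_val,
      if_true, if_neg nke, if_neg ng1e, if_neg ng2e, SitC_cob hk S.jk, SitC_cob hg1 S.j1,
      SitC_cob hg2 S.j2]
    rw [Finset.sum_insert (by simp [S.ya, S.yb, S.yc]), Finset.sum_insert (by simp [S.ab, S.ac]),
      Finset.sum_insert (by simp [S.bc]), Finset.sum_singleton]
    linear_combination (2 * π y + π a + π b + π c) * h2
  · have h3 := S.gr.star_mem (S.gr.sub (by simp : y ∈ ({y, a, b, c} : Finset V)))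
    rw [if_pos (by simp), S.st] at h3
    have h4 : Finset.univ.image ![e, g1, g2, k] = insert e ({k, g1, g2} : Finset E) := by
      ext x
      simp only [Finset.mem_image, Finset.mem_univ, true_and, Finset.mem_insert,
        Finset.mem_singleton]
      constructor
      · rintro ⟨i, rfl⟩
        fin_cases i <;> simp
      · rintro (h | h | h | h)
        · exact ⟨0, h.symm⟩
        · exact ⟨3, h.symm⟩
        · exact ⟨1, h.symm⟩
        · exact ⟨2, h.symm⟩
    rw [h4]
    exact h3

theorem SitI.symm_ab (S : SitI rows M U h t e k g1 g2 y a b c d) :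
    SitI rows M U h t e k g2 g1 y b a c d := by
  refine ⟨S.cx, ?_, S.tc, S.yb, S.ya, S.yc, S.ab.symm, S.bc, S.ac, S.yd, S.bd, S.ad, S.jk, S.j2,
    S.j1, ?_, S.sc, S.hasT⟩
  · have h1 : ({y, b, a, c} : Finset V) = {y, a, b, c} := by
      rw [Finset.insert_comm b a]
    rw [h1]
    exact S.gr
  · rw [S.st, Finset.pair_comm]

end SEY
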