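import Pool.Agent.Helper25.SEY.T.MinCx
import Pool.Agent.Helper25.SEY.T.Subdiv
import Pool.Agent.Helper25.SEY.T.Gext

/-!
T3-SitD.
* `SitI.deg_d`: deg_H(d) >= 4.  deg >= 3 by `TC.three_le_deg`.  Suppose star d = {k, x1, x2}, x_i joins d w_i.
  Claim w_i in {a,b}.  Suppose w_1 not in {a,b}.  Contract x1, merging d into w1: in H del k, d has degree 2 with star {x1,x2}; (M.con
  {x1}).del {e,k} is SC, Two (`con_two`), HasT (`HasT_con`).  Add k = (y,w1): `gext`: not parallel: the
  other edges at y are g1, g2 to a, b /= w1.  No vertex s /= y, w1 of degree 2 (those of H del k are y, d only).  So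
  (M.con {x1}).del {e} is SC, Two; degrees >= 3: y has k,g1,g2 again, others unchanged or larger
  (w1 gets deg(w1) + 1 - ... : w1 had degree >= 3, loses x1 and k is moved to it, gains x2: fine): TC.
  T = {y,a,b,c}, d not in T (d /= y,a,b and d /= c by the first part): `IsGraft.con` gives T itself (if w1 = c too); 4 elements:
  `MinCx.false_of_graft`.  So w1, w2 in {a,b}, w1 /= w2.  Then {y,d} has all neighbours in {a,b}: `IsGr.sep` with X = {y,d}, Y = U -
  {y,d,a,b} (contains c): the set A of the 5 edges at y or d has lam(A) <= 1, the complement contains the >= 3 edges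
  at c (none of them is at y or d), contradiction to TC.
-/

namespace SEY

open Finset

variable {E : Type} [Fintype E] [DecidableEq E] {V : Type} [Fintype V] [DecidableEq V]
variable {r l : ℕ} {rows : Fin r → Fin l → ZMod 2} {M : BM E} {U : Finset V} {h t : E → V}
  {e k g1 g2 : E} {y a b c d : V}

omit [Fintype E] [DecidableEq E] [Fintype V] in
private lemma sitD_mem_star (S : Finset E) (h t : E → V) (v : V) (x : E) :
    x ∈ star S h t v ↔ x ∈ S ∧ (h x = v ∨ t x = v) := Finset.mem_filter

omit [Fintype E] [DecidableEq E] [Fintype V] [DecidableEq V] in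
private lemma sitD_Jn_end {h t : E → V} {x : E} {u v w : V} (hj : Jn h t x u v)
    (hw : h x = w ∨ t x = w) : w = u ∨ w = v := by
  rcases hj with ⟨q1, q2⟩ | ⟨q1, q2⟩ <;> rcases hw with hw | hw
  · exact Or.inl (hw.symm.trans q1)
  · exact Or.inr (hw.symm.trans q2)
  · exact Or.inr (hw.symm.trans q1)
  · exact Or.inl (hw.symm.trans q2)

omit [Fintype E] [DecidableEq E] [Fintype V] [DecidableEq V] in
private lemma sitD_Jn_left {h t : E → V} {x : E} {u v : V} (hj : Jn h t x u v) :
    h x = u ∨ t x = u := by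
  rcases hj with ⟨q1, _⟩ | ⟨_, q2⟩
  · exact Or.inl q1
  · exact Or.inr q2

omit [Fintype E] [DecidableEq E] [Fintype V] [DecidableEq V] in
private lemma sitD_Jn_right {h t : E → V} {x : E} {u v : V} (hj : Jn h t x u v) :
    h x = v ∨ t x = v := by
  rcases hj with ⟨_, q2⟩ | ⟨q1, _⟩
  · exact Or.inr q2
  · exact Or.inl q1

omit [Fintype V] in
private lemma sitD_mg_ne {u v w s : V} (hs : s ≠ v) (hm : mg u v w = s) : w = s := by
  unfold mg at hm
  by_cases hw : w = u
  · rw [if_pos hw] at hm
    exact absurd hm.symm hs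
  · rwa [if_neg hw] at hm

omit [Fintype V] in
private lemma sitD_mg_of_ne {u v w : V} (hw : w ≠ u) : mg u v w = w := if_neg hw

omit [Fintype V] in
private lemma sitD_mg_self (u v : V) : mg u v u = v := if_pos rfl

private lemma sitD_key (h0 : (ofRows rows).TC) (S : SitI rows M U h t e k g1 g2 y a b c d)
    (hcd : c ≠ d) {x1 x2 : E} {w : V} (hst : star (M.S \ {e}) h t d = {k, x1, x2})
    (h12 : x1 ≠ x2) (h1k : x1 ≠ k) (h2k : x2 ≠ k) (hj : Jn h t x1 d w) (hwa : w ≠ a)
    (hwb : w ≠ b) : False := by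
  have hya := S.ya
  have hyb := S.yb
  have hyc := S.yc
  have hyd := S.yd
  have hab := S.ab
  have hac := S.ac
  have hbc := S.bc
  have had := S.ad
  have hbd := S.bd
  have heS : e ∈ M.S := S.gr.mem
  have hkst : k ∈ star (M.S \ {e}) h t y := by rw [S.st]; simp
  have hg1st : g1 ∈ star (M.S \ {e}) h t y := by rw [S.st]; simp
  have hg2st : g2 ∈ star (M.S \ {e}) h t y := by rw [S.st]; simp
  have hx1st : x1 ∈ star (M.S \ {e}) h t d := by rw [hst]; simp
  have hx2st : x2 ∈ star (M.S \ {e}) h t d := by rw [hst]; simp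
  have hkS : k ∈ M.S \ {e} := ((sitD_mem_star _ _ _ _ _).1 hkst).1
  have hg1S : g1 ∈ M.S \ {e} := ((sitD_mem_star _ _ _ _ _).1 hg1st).1
  have hg2S : g2 ∈ M.S \ {e} := ((sitD_mem_star _ _ _ _ _).1 hg2st).1
  have hx1S : x1 ∈ M.S \ {e} := ((sitD_mem_star _ _ _ _ _).1 hx1st).1
  have hx2S : x2 ∈ M.S \ {e} := ((sitD_mem_star _ _ _ _ _).1 hx2st).1
  have hHsc : (M.del {e}).SC := ((TC_iff_SC _).1 S.tc).1
  have hends := S.gr.gr.ends
  have hwd : w ≠ d := by
    rintro rfl
    have h3 := (hends x1 hx1S).2.2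
    rcases hj with ⟨q1, q2⟩ | ⟨q1, q2⟩
    · exact h3 (q1.trans q2.symm)
    · exact h3 (q1.trans q2.symm)
  have hwy : w ≠ y := by
    rintro rfl
    have hj' : Jn h t k d w := by
      rcases S.jk with ⟨q1, q2⟩ | ⟨q1, q2⟩
      · exact Or.inr ⟨q1, q2⟩
      · exact Or.inl ⟨q1, q2⟩
    exact h1k (S.gr.gr.no_par hHsc hx1S hkS hj hj')
  have hx1g1 : g1 ≠ x1 := by
    rintro rfl
    rcases sitD_Jn_end hj (sitD_Jn_left S.j1) with q | q
    · exact hyd q
    · exact hwy q.symm
  have hx1g2 : g2 ≠ x1 := by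
    rintro rfl
    rcases sitD_Jn_end hj (sitD_Jn_left S.j2) with q | q
    · exact hyd q
    · exact hwy q.symm
  have hg1k : g1 ≠ k := by
    rintro rfl
    rcases sitD_Jn_end S.j1 (sitD_Jn_right S.jk) with q | q
    · exact hyd q.symm
    · exact had q.symm
  have hg2k : g2 ≠ k := by
    rintro rfl
    rcases sitD_Jn_end S.j2 (sitD_Jn_right S.jk) with q | q
    · exact hyd q.symm
    · exact hbd q.symm
  have hg12 : g1 ≠ g2 := by
    rintro rfl
    rcases sitD_Jn_end S.j1 (sitD_Jn_right S.j2) with q | q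
    · exact hyb q.symm
    · exact hab q.symm
  rw [Finset.mem_sdiff, Finset.mem_singleton] at hkS hg1S hg2S hx1S hx2S
  have hdU : d ∈ U := by
    have h3 := hends k (by simp [hkS.1, hkS.2])
    rcases S.jk with ⟨q1, q2⟩ | ⟨q1, q2⟩
    · rw [← q2]; exact h3.2.1
    · rw [← q1]; exact h3.1
  -- the graph `H0 = M.del {e, k}`
  have hdd : (M.del {e}).del {k} = M.del {e, k} := by
    rw [del_del]
    congr 1
  have hkS' : k ∈ (M.del {e}).S := by
    show k ∈ M.S \ {e}
    simp [hkS.1, hkS.2]
  have hgr0 : IsGr (M.del {e, k}) U h t := by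
    rw [← hdd]
    exact S.gr.gr.del hkS' (BM.TC.exists_cycle S.tc hkS')
  have htwo0 : (M.del {e, k}).Two := by
    rw [← hdd]
    exact TC.del_two S.tc hkS'
  have hx1H : x1 ∈ (M.del {e, k}).S := by
    show x1 ∈ M.S \ {e, k}
    simp [hx1S.1, hx1S.2, h1k]
  have hx2H : x2 ∈ (M.del {e, k}).S := by
    show x2 ∈ M.S \ {e, k}
    simp [hx2S.1, hx2S.2, h2k]
  have hst0 : star (M.del {e, k}).S h t d = {x2, x1} := by
    show star (M.S \ {e, k}) h t d = {x2, x1}
    ext x
    have h3 : x ∈ star (M.S \ {e}) h t d ↔ x ∈ ({k, x1, x2} : Finset E) := by rw [hst]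
    rw [sitD_mem_star] at h3
    rw [sitD_mem_star]
    simp only [Finset.mem_sdiff, Finset.mem_insert, Finset.mem_singleton] at h3 ⊢
    constructor
    · rintro ⟨⟨hx, hx2⟩, hx3⟩
      rw [not_or] at hx2
      rcases h3.1 ⟨⟨hx, hx2.1⟩, hx3⟩ with h4 | h4 | h4
      · exact absurd h4 hx2.2
      · exact Or.inr h4
      · exact Or.inl h4
    · intro h4
      have h5 : (x ∈ M.S ∧ ¬x = e) ∧ (h x = d ∨ t x = d) := h3.2 (by tauto)
      refine ⟨⟨h5.1.1, ?_⟩, h5.2⟩
      rintro (h6 | h6)
      · exact h5.1.2 h6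
      · rcases h4 with h4 | h4
        · exact h2k (h4.symm.trans h6)
        · exact h1k (h4.symm.trans h6)
  have hser : (M.del {e, k}).Ser x1 x2 :=
    (hgr0.star2 S.sc htwo0 hx1H hx2H h12).2 ⟨d, hdU, by rw [hst0, Finset.pair_comm]⟩
  have hcon := con_two hgr0 hdU hst0 h12.symm S.sc htwo0
  have hTcon : HasT rows ((M.del {e, k}).con {x1}) := HasT_con h0 hx1H hx2H h12 hser S.hasT
  have hcard : 4 ≤ M.S.card := S.cx.tc.1
  -- no parallel edges to `x1`
  have hnop : ∀ x ∈ M.S, x ≠ e → x ≠ x1 → ¬ Jn h t x d w := by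
    intro x hx hxe hxx hjx
    exact hxx (S.gr.gr.no_par hHsc (by show x ∈ M.S \ {e}; simp [hx, hxe])
      (by show x1 ∈ M.S \ {e}; simp [hx1S.1, hx1S.2]) hjx hj)
  have hgraft0 := S.gr.con hx1S.1 hx1S.2 hj hnop (by omega)
  have hdT : d ∉ ({y, a, b, c} : Finset V) := by
    simp [hyd.symm, had.symm, hbd.symm, hcd.symm]
  rw [if_neg hdT] at hgraft0
  have hgN : IsGr ((M.con {x1}).del {e}) (U.erase d) (fun z => mg d w (h z))
      (fun z => mg d w (t z)) := hgraft0.gr
  -- deleting `k`
  have hNk : ((M.con {x1}).del {e}).del {k} = (M.del {e, k}).con {x1} := by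
    rw [del_del, con_del_comm M {x1} {e, k}]
    · rfl
    · rw [Finset.disjoint_singleton_left]
      simp [hx1S.2, h1k]
  have hkN : k ∈ ((M.con {x1}).del {e}).S := by
    show k ∈ (M.S \ {x1}) \ {e}
    simp [hkS.1, hkS.2, h1k.symm]
  have hgNk : IsGr (((M.con {x1}).del {e}).del {k}) (U.erase d) (fun z => mg d w (h z))
      (fun z => mg d w (t z)) := by
    rw [hNk]
    refine hgr0.con hx1H hj ?_ ?_
    · intro x hx hxx hjx
      have hx' : x ∈ M.S \ {e, k} := hx
      rw [Finset.mem_sdiff, Finset.mem_insert, Finset.mem_singleton, not_or] at hx'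
      exact hnop x hx'.1 hx'.2.1 hxx hjx
    · have h5 : ({x1, x2} : Finset E) ⊆ (M.del {e, k}).S := by
        intro x hx
        rw [Finset.mem_insert, Finset.mem_singleton] at hx
        rcases hx with rfl | rfl
        · exact hx1H
        · exact hx2H
      have h6 := Finset.card_le_card h5
      rw [Finset.card_pair h12] at h6
      exact h6
  have hscNk : (((M.con {x1}).del {e}).del {k}).SC := by rw [hNk]; exact hcon.1
  have htwoNk : (((M.con {x1}).del {e}).del {k}).Two := by rw [hNk]; exact hcon.2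
  -- edges at `y`
  have hxy : ∀ x ∈ M.S, x ≠ e → x ≠ k → (h x = y ∨ t x = y) → x = g1 ∨ x = g2 := by
    intro x hx h1 h2 h5
    have h6 : x ∈ star (M.S \ {e}) h t y := by
      rw [sitD_mem_star, Finset.mem_sdiff, Finset.mem_singleton]
      exact ⟨⟨hx, h1⟩, h5⟩
    rw [S.st, Finset.mem_insert, Finset.mem_insert, Finset.mem_singleton] at h6
    exact h6.resolve_left h2
  -- degrees
  have hdegs : ∀ s ∈ U, s ≠ d → s ≠ w → s ≠ y →
      3 ≤ (star (M.S \ {e, k, x1}) (fun z => mg d w (h z)) (fun z => mg d w (t z)) s).card := by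
    intro s hs hsd hsw hsy
    have h3 : 3 ≤ (star (M.S \ {e}) h t s).card := TC.three_le_deg S.tc S.gr.gr hs
    refine h3.trans (Finset.card_le_card ?_)
    intro x hx
    rw [sitD_mem_star, Finset.mem_sdiff, Finset.mem_singleton] at hx
    rw [sitD_mem_star, Finset.mem_sdiff, Finset.mem_insert, Finset.mem_insert,
      Finset.mem_singleton]
    refine ⟨⟨hx.1.1, ?_⟩, ?_⟩
    · rintro (h4 | h4 | h4)
      · exact hx.1.2 h4
      · subst h4
        rcases sitD_Jn_end S.jk hx.2 with q | q
        · exact hsy q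
        · exact hsd q
      · subst h4
        rcases sitD_Jn_end hj hx.2 with q | q
        · exact hsd q
        · exact hsw q
    · rcases hx.2 with q | q
      · left
        show mg d w (h x) = s
        rw [q, sitD_mg_of_ne hsd]
      · right
        show mg d w (t x) = s
        rw [q, sitD_mg_of_ne hsd]
  have hjk' : Jn (fun z => mg d w (h z)) (fun z => mg d w (t z)) k y w := by
    rcases S.jk with ⟨q1, q2⟩ | ⟨q1, q2⟩
    · left
      constructor
      · show mg d w (h k) = y
        rw [q1, sitD_mg_of_ne hyd]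
      · show mg d w (t k) = w
        rw [q2, sitD_mg_self]
    · right
      constructor
      · show mg d w (h k) = w
        rw [q1, sitD_mg_self]
      · show mg d w (t k) = y
        rw [q2, sitD_mg_of_ne hyd]
  have hgx := gext hkN hgN hgNk hscNk htwoNk hjk' (by
      intro x hx hxk hjx
      have hx' : x ∈ (M.S \ {x1}) \ {e} := hx
      rw [Finset.mem_sdiff, Finset.mem_sdiff, Finset.mem_singleton, Finset.mem_singleton] at hx'
      have hy1 : h x = y ∨ t x = y := by
        rcases sitD_Jn_left hjx with q | q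
        · exact Or.inl (sitD_mg_ne hwy.symm q)
        · exact Or.inr (sitD_mg_ne hwy.symm q)
      have hw1 : mg d w (h x) = w ∨ mg d w (t x) = w := sitD_Jn_right hjx
      rcases hxy x hx'.1.1 hx'.2 hxk hy1 with h4 | h4
      · subst h4
        rcases S.j1 with ⟨q1, q2⟩ | ⟨q1, q2⟩
        · rw [q1, q2, sitD_mg_of_ne hyd, sitD_mg_of_ne had] at hw1
          exact hw1.elim (fun q => hwy q.symm) (fun q => hwa q.symm)
        · rw [q1, q2, sitD_mg_of_ne hyd, sitD_mg_of_ne had] at hw1
          exact hw1.elim (fun q => hwa q.symm) (fun q => hwy q.symm)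
      · subst h4
        rcases S.j2 with ⟨q1, q2⟩ | ⟨q1, q2⟩
        · rw [q1, q2, sitD_mg_of_ne hyd, sitD_mg_of_ne hbd] at hw1
          exact hw1.elim (fun q => hwy q.symm) (fun q => hwb q.symm)
        · rw [q1, q2, sitD_mg_of_ne hyd, sitD_mg_of_ne hbd] at hw1
          exact hw1.elim (fun q => hwb q.symm) (fun q => hwy q.symm)) (by
      intro s hs hsy hsw p _ q _ hst' _ _
      have hs' := Finset.mem_erase.1 hs
      have h3 := hdegs s hs'.2 hs'.1 hsw hsy
      have h4 : ((M.con {x1}).del {e}).S \ {k} = M.S \ {e, k, x1} := by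
        show ((M.S \ {x1}) \ {e}) \ {k} = M.S \ {e, k, x1}
        ext x
        simp only [Finset.mem_sdiff, Finset.mem_singleton, Finset.mem_insert]
        tauto
      rw [← h4, hst'] at h3
      have h5 := Finset.card_le_two (a := p) (b := q)
      omega)
  have htc : ((M.con {x1}).del {e}).TC := by
    refine hgN.tc_of_deg hgx.1 hgx.2 ?_
    intro v hv
    have hv' := Finset.mem_erase.1 hv
    show 3 ≤ (star ((M.S \ {x1}) \ {e}) (fun z => mg d w (h z)) (fun z => mg d w (t z)) v).card
    by_cases hvy : v = y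
    · subst hvy
      have h5 : ({k, g1, g2} : Finset E) ⊆
          star ((M.S \ {x1}) \ {e}) (fun z => mg d w (h z)) (fun z => mg d w (t z)) v := by
        have aux : ∀ x, x ∈ M.S → x ≠ e → x ≠ x1 → (h x = v ∨ t x = v) →
            x ∈ star ((M.S \ {x1}) \ {e}) (fun z => mg d w (h z)) (fun z => mg d w (t z)) v := by
          intro x hx1 hx2 hx3 hx4
          rw [sitD_mem_star, Finset.mem_sdiff, Finset.mem_sdiff, Finset.mem_singleton,
            Finset.mem_singleton]
          refine ⟨⟨⟨hx1, hx3⟩, hx2⟩, ?_⟩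
          rcases hx4 with q | q
          · left
            show mg d w (h x) = v
            rw [q, sitD_mg_of_ne hyd]
          · right
            show mg d w (t x) = v
            rw [q, sitD_mg_of_ne hyd]
        intro x hx
        rw [Finset.mem_insert, Finset.mem_insert, Finset.mem_singleton] at hx
        rcases hx with rfl | rfl | rfl
        · exact aux _ hkS.1 hkS.2 h1k.symm (sitD_Jn_left S.jk)
        · exact aux _ hg1S.1 hg1S.2 hx1g1 (sitD_Jn_left S.j1)
        · exact aux _ hg2S.1 hg2S.2 hx1g2 (sitD_Jn_left S.j2)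
      have h6 := Finset.card_le_card h5
      rw [Finset.card_insert_of_notMem (by simp [hg1k.symm, hg2k.symm]),
        Finset.card_pair hg12] at h6
      exact h6
    · by_cases hvw : v = w
      · subst hvw
        have h3 : 3 ≤ (star (M.S \ {e}) h t v).card := TC.three_le_deg S.tc S.gr.gr hv'.2
        have h5 : insert k ((star (M.S \ {e}) h t v).erase x1) ⊆
            star ((M.S \ {x1}) \ {e}) (fun z => mg d v (h z)) (fun z => mg d v (t z)) v := by
          intro x hx
          rw [Finset.mem_insert, Finset.mem_erase, sitD_mem_star, Finset.mem_sdiff,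
            Finset.mem_singleton] at hx
          rw [sitD_mem_star, Finset.mem_sdiff, Finset.mem_sdiff, Finset.mem_singleton,
            Finset.mem_singleton]
          rcases hx with rfl | hx
          · exact ⟨⟨⟨hkS.1, h1k.symm⟩, hkS.2⟩, sitD_Jn_right hjk'⟩
          · refine ⟨⟨⟨hx.2.1.1, hx.1⟩, hx.2.1.2⟩, ?_⟩
            rcases hx.2.2 with q | q
            · left
              show mg d v (h x) = v
              rw [q, sitD_mg_of_ne hwd]
            · right
              show mg d v (t x) = v
              rw [q, sitD_mg_of_ne hwd]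
        have h6 := Finset.card_le_card h5
        have hknot : k ∉ (star (M.S \ {e}) h t v).erase x1 := by
          intro hk'
          have h7 := (sitD_mem_star _ _ _ _ _).1 (Finset.mem_erase.1 hk').2
          rcases sitD_Jn_end S.jk h7.2 with q | q
          · exact hwy q
          · exact hwd q
        rw [Finset.card_insert_of_notMem hknot] at h6
        have h8 := Finset.pred_card_le_card_erase (s := star (M.S \ {e}) h t v) (a := x1)
        omega
      · refine (hdegs v hv'.2 hv'.1 hvw hvy).trans (Finset.card_le_card ?_)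
        intro x hx
        rw [sitD_mem_star, Finset.mem_sdiff, Finset.mem_insert, Finset.mem_insert,
          Finset.mem_singleton] at hx
        rw [sitD_mem_star, Finset.mem_sdiff, Finset.mem_sdiff, Finset.mem_singleton,
          Finset.mem_singleton]
        exact ⟨⟨⟨hx.1.1, fun q => hx.1.2 (Or.inr (Or.inr q))⟩, fun q => hx.1.2 (Or.inl q)⟩, hx.2⟩
  have hT : HasT rows ((M.con {x1}).del {e}) := by
    refine HasT_of_del (D := {k}) ?_
    rw [hNk]
    exact hTcon
  have hlt : (M.con {x1}).S.card < M.S.card := by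
    show (M.S \ {x1}).card < M.S.card
    refine Finset.card_lt_card (Finset.ssubset_iff_subset_ne.2 ⟨Finset.sdiff_subset, ?_⟩)
    intro heq
    have h1 : x1 ∈ M.S \ {x1} := by rw [heq]; exact hx1S.1
    exact (Finset.mem_sdiff.1 h1).2 (Finset.mem_singleton_self x1)
  have h4 : 4 ≤ ({y, a, b, c} : Finset V).card := by
    rw [Finset.card_insert_of_notMem (by simp [hya, hyb, hyc]),
      Finset.card_insert_of_notMem (by simp [hab, hac]), Finset.card_pair hbc]
  exact S.cx.false_of_graft h0 (M.con {x1}) (Minor_con M {x1}) hlt hgraft0 htc hT h4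

theorem SitI.deg_d (h0 : (ofRows rows).TC) (S : SitI rows M U h t e k g1 g2 y a b c d)
    (hcd : c ≠ d) : 4 ≤ (star (M.S \ {e}) h t d).card := by
  by_contra hlt
  have hya := S.ya
  have hyb := S.yb
  have hyc := S.yc
  have hyd := S.yd
  have hab := S.ab
  have hac := S.ac
  have hbc := S.bc
  have had := S.ad
  have hbd := S.bd
  have hends := S.gr.gr.ends
  have hkst : k ∈ star (M.S \ {e}) h t y := by rw [S.st]; simp
  have hg1st : g1 ∈ star (M.S \ {e}) h t y := by rw [S.st]; simp
  have hg2st : g2 ∈ star (M.S \ {e}) h t y := by rw [S.st]; simp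
  have hkS : k ∈ M.S \ {e} := ((sitD_mem_star _ _ _ _ _).1 hkst).1
  have hdU : d ∈ U := by
    have h3 := hends k hkS
    rcases S.jk with ⟨q1, q2⟩ | ⟨q1, q2⟩
    · rw [← q2]; exact h3.2.1
    · rw [← q1]; exact h3.1
  have hyU : y ∈ U := by
    have h3 := hends k hkS
    rcases S.jk with ⟨q1, q2⟩ | ⟨q1, q2⟩
    · rw [← q1]; exact h3.1
    · rw [← q2]; exact h3.2.1
  have hcU : c ∈ U := S.gr.sub (by simp)
  have hkd : k ∈ star (M.S \ {e}) h t d := by
    rw [sitD_mem_star]
    exact ⟨hkS, sitD_Jn_right S.jk⟩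
  have h3 : 3 ≤ (star (M.S \ {e}) h t d).card := TC.three_le_deg S.tc S.gr.gr hdU
  have hcard : ((star (M.S \ {e}) h t d).erase k).card = 2 := by
    rw [Finset.card_erase_of_mem hkd]
    omega
  obtain ⟨x1, x2, h12, hx12⟩ := Finset.card_eq_two.1 hcard
  have hst : star (M.S \ {e}) h t d = {k, x1, x2} := by
    rw [← Finset.insert_erase hkd, hx12]
  have hx1 : x1 ∈ (star (M.S \ {e}) h t d).erase k := by rw [hx12]; simp
  have hx2 : x2 ∈ (star (M.S \ {e}) h t d).erase k := by rw [hx12]; simp
  have h1k := (Finset.mem_erase.1 hx1).1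
  have h2k := (Finset.mem_erase.1 hx2).1
  have hother : ∀ x, x ∈ star (M.S \ {e}) h t d → ∃ w, Jn h t x d w := by
    intro x hx
    rcases ((sitD_mem_star _ _ _ _ _).1 hx).2 with q | q
    · exact ⟨t x, Or.inl ⟨q, rfl⟩⟩
    · exact ⟨h x, Or.inr ⟨rfl, q⟩⟩
  obtain ⟨w1, hw1⟩ := hother x1 (Finset.mem_erase.1 hx1).2
  obtain ⟨w2, hw2⟩ := hother x2 (Finset.mem_erase.1 hx2).2
  have hw1ab : w1 = a ∨ w1 = b := by
    by_contra hcon
    rw [not_or] at hcon
    exact sitD_key h0 S hcd hst h12 h1k h2k hw1 hcon.1 hcon.2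
  have hw2ab : w2 = a ∨ w2 = b := by
    by_contra hcon
    rw [not_or] at hcon
    have hst' : star (M.S \ {e}) h t d = {k, x2, x1} := by
      rw [hst, Finset.pair_comm]
    exact sitD_key h0 S hcd hst' h12.symm h2k h1k hw2 hcon.1 hcon.2
  -- the separation
  have hno : ∀ x ∈ (M.del {e}).S, ∀ u ∈ ({y, d} : Finset V), ∀ v ∈ U \ {y, d, a, b},
      ¬ Jn h t x u v := by
    intro x hx u hu v hv hj
    have hx' : x ∈ M.S \ {e} := hx
    rw [Finset.mem_sdiff] at hv
    simp only [Finset.mem_insert, Finset.mem_singleton, not_or] at hv hu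
    obtain ⟨hvU, hvy, hvd, hva, hvb⟩ := hv
    rcases hu with rfl | rfl
    · have h6 : x ∈ star (M.S \ {e}) h t u := by
        rw [sitD_mem_star]
        exact ⟨hx', sitD_Jn_left hj⟩
      rw [S.st, Finset.mem_insert, Finset.mem_insert, Finset.mem_singleton] at h6
      rcases h6 with rfl | rfl | rfl
      · rcases sitD_Jn_end S.jk (sitD_Jn_right hj) with q | q
        · exact hvy q
        · exact hvd q
      · rcases sitD_Jn_end S.j1 (sitD_Jn_right hj) with q | q
        · exact hvy q
        · exact hva q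
      · rcases sitD_Jn_end S.j2 (sitD_Jn_right hj) with q | q
        · exact hvy q
        · exact hvb q
    · have h6 : x ∈ star (M.S \ {e}) h t u := by
        rw [sitD_mem_star]
        exact ⟨hx', sitD_Jn_left hj⟩
      rw [hst, Finset.mem_insert, Finset.mem_insert, Finset.mem_singleton] at h6
      rcases h6 with rfl | rfl | rfl
      · rcases sitD_Jn_end S.jk (sitD_Jn_right hj) with q | q
        · exact hvy q
        · exact hvd q
      · rcases sitD_Jn_end hw1 (sitD_Jn_right hj) with q | q
        · exact hvd q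
        · rcases hw1ab with q' | q'
          · exact hva (q.trans q')
          · exact hvb (q.trans q')
      · rcases sitD_Jn_end hw2 (sitD_Jn_right hj) with q | q
        · exact hvd q
        · rcases hw2ab with q' | q'
          · exact hva (q.trans q')
          · exact hvb (q.trans q')
  have hXU : ({y, d} : Finset V) ⊆ U := by
    intro v hv
    rw [Finset.mem_insert, Finset.mem_singleton] at hv
    rcases hv with rfl | rfl
    · exact hyU
    · exact hdU
  have hdisj : Disjoint ({y, d} : Finset V) (U \ {y, d, a, b}) := by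
    rw [Finset.disjoint_left]
    intro v hv hv2
    rw [Finset.mem_sdiff] at hv2
    simp only [Finset.mem_insert, Finset.mem_singleton, not_or] at hv hv2
    rcases hv with q | q
    · exact hv2.2.1 q
    · exact hv2.2.2.1 q
  have hcY : c ∈ U \ {y, d, a, b} := by
    rw [Finset.mem_sdiff]
    simp only [Finset.mem_insert, Finset.mem_singleton, not_or]
    exact ⟨hcU, hyc.symm, hcd, hac.symm, hbc.symm⟩
  have hsep := S.gr.gr.sep {y, d} (U \ {y, d, a, b}) hXU Finset.sdiff_subset hdisj
    ⟨y, by simp⟩ ⟨c, hcY⟩ hno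
  have hle2 : (U \ ({y, d} ∪ (U \ {y, d, a, b}))).card ≤ 2 := by
    refine (Finset.card_le_card (t := {a, b}) ?_).trans Finset.card_le_two
    intro v hv
    simp only [Finset.mem_sdiff, Finset.mem_union, Finset.mem_insert, Finset.mem_singleton] at hv ⊢
    tauto
  have hlam : (M.del {e}).lam ((M.del {e}).S.filter
      (fun x => h x ∈ ({y, d} : Finset V) ∨ t x ∈ ({y, d} : Finset V))) ≤ 1 := by omega
  have hsub : ((M.del {e}).S.filter
      (fun x => h x ∈ ({y, d} : Finset V) ∨ t x ∈ ({y, d} : Finset V))) ⊆ (M.del {e}).S :=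
    Finset.filter_subset _ _
  rcases (S.tc.2 _ hsub).2 hlam with hA | hA
  · have h5 : star (M.S \ {e}) h t d ⊆ ((M.del {e}).S.filter
        (fun x => h x ∈ ({y, d} : Finset V) ∨ t x ∈ ({y, d} : Finset V))) := by
      intro x hx
      rw [sitD_mem_star] at hx
      rw [Finset.mem_filter]
      refine ⟨hx.1, ?_⟩
      rcases hx.2 with q | q
      · left; rw [q]; simp
      · right; rw [q]; simp
    have h6 := Finset.card_le_card h5
    omega
  · have h5 : star (M.S \ {e}) h t c ⊆ (M.del {e}).S \ ((M.del {e}).S.filter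
        (fun x => h x ∈ ({y, d} : Finset V) ∨ t x ∈ ({y, d} : Finset V))) := by
      intro x hx
      rw [sitD_mem_star] at hx
      rw [Finset.mem_sdiff, Finset.mem_filter, not_and_or]
      refine ⟨hx.1, Or.inr ?_⟩
      rintro (q | q)
      · rcases hx.2 with q' | q'
        · rw [q'] at q
          exact (Finset.disjoint_left.1 hdisj q) hcY
        · exact hno x hx.1 (h x) q c hcY (Or.inl ⟨rfl, q'⟩)
      · rcases hx.2 with q' | q'
        · exact hno x hx.1 (t x) q c hcY (Or.inr ⟨q', rfl⟩)
        · rw [q'] at q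
          exact (Finset.disjoint_left.1 hdisj q) hcY
    have h6 := Finset.card_le_card h5
    have h7 : 3 ≤ (star (M.S \ {e}) h t c).card := TC.three_le_deg S.tc S.gr.gr hcU
    omega

end SEY
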