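import Pool.Agent.Helper25.SEY.T.Exch
import Pool.Agent.Helper25.SEY.T.Gext

/-!
T3-SitE.
T3-Sit2 (SYMMETRY e <-> k).  `exchange` at s = y, n1 = a, n2 = b, w = c, q = d, p1 = g1, p2 = g2: M is the graft of M del k
with graft set {y,d,a,b} for k; in the new graph g1 joins y b, g2 joins y a, e joins y c.
New situation: SitI M U h' t' k e g2 g1 y a b d c.
tc: (M.del {k}) is the graph (H del k) + e; H del k = M.del {e,k} is SC, Two, the same with the new ends (`IsGr.congr`-like:
swapped ends at y is again a graph of M.del {e,k}: IsGraft M k ..., delete e); `gext` with x = e = (y,c): not parallel (the other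
edges at y go to a, b), vertices of degree 2 of H del k: only y (d has degree >= 4 in H); y is an end of e.
Degrees >= 3: y has e,g1,g2; d has >= 3.  So TC by `IsGr.tc_of_deg`.
sc, hasT: M.del {k,e} = M.del {e,k}.
-/

namespace SEY

open Finset

variable {E : Type} [Fintype E] [DecidableEq E] {V : Type} [Fintype V] [DecidableEq V]
variable {r l : ℕ} {rows : Fin r → Fin l → ZMod 2} {M : BM E} {U : Finset V} {h t : E → V}
  {e k g1 g2 : E} {y a b c d : V}

omit [Fintype E] [DecidableEq E] [Fintype V] in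
private lemma sitE_mem_star (S : Finset E) (h t : E → V) (v : V) (x : E) :
    x ∈ star S h t v ↔ x ∈ S ∧ (h x = v ∨ t x = v) := Finset.mem_filter

/-- A cycle through `e` avoiding `k`. -/
private lemma sitE_cycle {M : BM E} (hM : M.TC) {e k : E} (he : e ∈ M.S) (hk : k ∈ M.S)
    (hek : e ≠ k) : ∃ z ∈ M.Z, z e = 1 ∧ z k = 0 := by
  obtain ⟨z1, hz1, h1⟩ := BM.TC.exists_cycle hM he
  have hns : ¬ M.Ser e k := BM.TC.not_ser hM he hk hek
  rcases zcases (z1 k) with h2 | h2
  · exact ⟨z1, hz1, h1, h2⟩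
  · unfold BM.Ser at hns
    push Not at hns
    obtain ⟨z2, hz2, h3⟩ := hns
    rcases zcases (z2 e) with h4 | h4 <;> rcases zcases (z2 k) with h5 | h5
    · rw [h4, h5] at h3
      exact absurd rfl h3
    · refine ⟨z1 + z2, M.Z.add_mem hz1 hz2, ?_, ?_⟩
      · rw [Pi.add_apply, h1, h4, add_zero]
      · rw [Pi.add_apply, h2, h5]
        exact z_add_self 1
    · exact ⟨z2, hz2, h4, h5⟩
    · rw [h4, h5] at h3
      exact absurd rfl h3

theorem SitI.symm_ek (S : SitI rows M U h t e k g1 g2 y a b c d) (hcd : c ≠ d)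
    (hd : 4 ≤ (star (M.S \ {e}) h t d).card) :
    SitI rows M U (exH h e g1 g2 y) (exT t e g1 g2 a b c) k e g2 g1 y a b d c := by
  have heS : e ∈ M.S := S.gr.mem
  have hkst : k ∈ star (M.S \ {e}) h t y := by rw [S.st]; simp
  have hg1st : g1 ∈ star (M.S \ {e}) h t y := by rw [S.st]; simp
  have hg2st : g2 ∈ star (M.S \ {e}) h t y := by rw [S.st]; simp
  have hkS : k ∈ M.S \ {e} := ((sitE_mem_star _ _ _ _ _).1 hkst).1
  have hg1S : g1 ∈ M.S \ {e} := ((sitE_mem_star _ _ _ _ _).1 hg1st).1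
  have hg2S : g2 ∈ M.S \ {e} := ((sitE_mem_star _ _ _ _ _).1 hg2st).1
  rw [Finset.mem_sdiff, Finset.mem_singleton] at hkS hg1S hg2S
  have hke : k ≠ e := hkS.2
  have hg1e : g1 ≠ e := hg1S.2
  have hg2e : g2 ≠ e := hg2S.2
  -- distinctness of the three edges at `y`
  have hya := S.ya
  have hyb := S.yb
  have hyc := S.yc
  have hyd := S.yd
  have hab := S.ab
  have hac := S.ac
  have hbc := S.bc
  have had := S.ad
  have hbd := S.bd
  have h12 : g1 ≠ g2 := by
    rintro rfl
    rcases S.j1 with ⟨p1, p2⟩ | ⟨p1, p2⟩ <;> rcases S.j2 with ⟨q1, q2⟩ | ⟨q1, q2⟩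
    · exact hab (p2.symm.trans q2)
    · exact hyb (p1.symm.trans q1)
    · exact hya (q1.symm.trans p1)
    · exact hab (p1.symm.trans q1)
  have hk1 : g1 ≠ k := by
    rintro rfl
    rcases S.j1 with ⟨p1, p2⟩ | ⟨p1, p2⟩ <;> rcases S.jk with ⟨q1, q2⟩ | ⟨q1, q2⟩
    · exact had (p2.symm.trans q2)
    · exact hyd (p1.symm.trans q1)
    · exact hya (q1.symm.trans p1)
    · exact had (p1.symm.trans q1)
  have hk2 : g2 ≠ k := by
    rintro rfl
    rcases S.j2 with ⟨p1, p2⟩ | ⟨p1, p2⟩ <;> rcases S.jk with ⟨q1, q2⟩ | ⟨q1, q2⟩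
    · exact hbd (p2.symm.trans q2)
    · exact hyd (p1.symm.trans q1)
    · exact hyb (q1.symm.trans p1)
    · exact hbd (p1.symm.trans q1)
  -- the graph of `M.del {e, k}`
  have hdd : (M.del {e}).del {k} = M.del {e, k} := by
    rw [del_del]
    congr 1
  have hdd' : (M.del {k}).del {e} = M.del {e, k} := by
    rw [del_del]
    congr 1
    ext x
    simp [or_comm]
  have hkS' : k ∈ (M.del {e}).S := by
    show k ∈ M.S \ {e}
    simp [hkS.1, hke]
  have hgr0 : IsGr (M.del {e, k}) U h t := by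
    rw [← hdd]
    exact S.gr.gr.del hkS' (BM.TC.exists_cycle S.tc hkS')
  have hex := exchange S.gr ⟨hya, hyb, hyc, hab, hac, hbc, hyd.symm, had.symm, hbd.symm⟩ S.st
    S.jk S.j1 S.j2 hgr0
  have hTeq : ({y, d, a, b} : Finset V) = {y, a, b, d} := by
    ext x
    simp only [Finset.mem_insert, Finset.mem_singleton]
    tauto
  rw [hTeq] at hex
  -- values of the new ends
  have hH : ∀ x, x ≠ e → x ≠ g1 → x ≠ g2 → exH h e g1 g2 y x = h x := by
    intro x h1 h2 h3
    simp [exH, h1, h2, h3]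
  have hT : ∀ x, x ≠ e → x ≠ g1 → x ≠ g2 → exT t e g1 g2 a b c x = t x := by
    intro x h1 h2 h3
    simp [exT, h1, h2, h3]
  have hHe : exH h e g1 g2 y e = y := by simp [exH]
  have hH1 : exH h e g1 g2 y g1 = y := by simp [exH]
  have hH2 : exH h e g1 g2 y g2 = y := by simp [exH]
  have hTe : exT t e g1 g2 a b c e = c := by simp [exT]
  have hT1 : exT t e g1 g2 a b c g1 = b := by simp [exT, hg1e]
  have hT2 : exT t e g1 g2 a b c g2 = a := by simp [exT, hg2e, h12.symm]
  -- cycles
  have hcyc : ∃ z ∈ (M.del {k}).Z, z e = 1 := by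
    obtain ⟨z, hz, h1, h2⟩ := sitE_cycle S.cx.tc heS hkS.1 hke.symm
    refine ⟨z, (M.mem_Z_del).2 ⟨hz, ?_⟩, h1⟩
    intro x hx
    rw [Finset.mem_singleton.1 hx]
    exact h2
  have heS' : e ∈ (M.del {k}).S := by
    show e ∈ M.S \ {k}
    simp [heS, hke.symm]
  have hgk : IsGr (M.del {k}) U (exH h e g1 g2 y) (exT t e g1 g2 a b c) := hex.gr
  have hgke : IsGr ((M.del {k}).del {e}) U (exH h e g1 g2 y) (exT t e g1 g2 a b c) :=
    hgk.del heS' hcyc
  have hsc : ((M.del {k}).del {e}).SC := by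
    rw [hdd']
    exact S.sc
  have htwo : ((M.del {k}).del {e}).Two := by
    rw [hdd', ← hdd]
    exact TC.del_two S.tc hkS'
  -- degrees in `M.del {e, k}` with the old ends
  have hdeg0 : ∀ s ∈ U, s ≠ y → 3 ≤ (star (M.S \ {e, k}) h t s).card := by
    intro s hs hsy
    have h3 : 3 ≤ (star (M.S \ {e}) h t s).card := TC.three_le_deg S.tc S.gr.gr hs
    have hsub : (star (M.S \ {e}) h t s).erase k ⊆ star (M.S \ {e, k}) h t s := by
      intro x hx
      rw [Finset.mem_erase, sitE_mem_star, Finset.mem_sdiff, Finset.mem_singleton] at hx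
      rw [sitE_mem_star, Finset.mem_sdiff, Finset.mem_insert, Finset.mem_singleton]
      exact ⟨⟨hx.2.1.1, fun h => h.elim hx.2.1.2 hx.1⟩, hx.2.2⟩
    have hcard := Finset.card_le_card hsub
    by_cases hsd : s = d
    · subst hsd
      have h4 := Finset.pred_card_le_card_erase (s := star (M.S \ {e}) h t s) (a := k)
      omega
    · have hknot : k ∉ star (M.S \ {e}) h t s := by
        intro hk'
        have h5 := ((sitE_mem_star _ _ _ _ _).1 hk').2
        rcases S.jk with ⟨q1, q2⟩ | ⟨q1, q2⟩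
        · rw [q1, q2] at h5
          exact h5.elim (fun h => hsy h.symm) (fun h => hsd h.symm)
        · rw [q1, q2] at h5
          exact h5.elim (fun h => hsd h.symm) (fun h => hsy h.symm)
      rw [Finset.erase_eq_of_notMem hknot] at hcard
      omega
  -- degrees in `M.del {e, k}` with the new ends
  have hdeg1 : ∀ s ∈ U, s ≠ y →
      3 ≤ (star (M.S \ {e, k}) (exH h e g1 g2 y) (exT t e g1 g2 a b c) s).card := by
    intro s hs hsy
    refine (hdeg0 s hs hsy).trans ?_
    refine Finset.card_le_card_of_injOn (Equiv.swap g1 g2) ?_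
      (fun x _ y _ hxy => (Equiv.swap g1 g2).injective hxy)
    intro x hx
    have hx' := (sitE_mem_star _ _ _ _ _).1 (Finset.mem_coe.1 hx)
    have hx1 := hx'.1
    rw [Finset.mem_sdiff, Finset.mem_insert, Finset.mem_singleton, not_or] at hx1
    rw [Finset.mem_coe, sitE_mem_star, Finset.mem_sdiff, Finset.mem_insert,
      Finset.mem_singleton, not_or]
    by_cases hx2 : x = g1
    · subst hx2
      rw [Equiv.swap_apply_left]
      refine ⟨⟨hg2S.1, hg2e, hk2⟩, ?_⟩
      rw [hH2, hT2]
      rcases S.j1 with ⟨q1, q2⟩ | ⟨q1, q2⟩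
      · rw [q1, q2] at hx'
        exact hx'.2
      · rw [q1, q2] at hx'
        exact hx'.2.symm
    · by_cases hx3 : x = g2
      · subst hx3
        rw [Equiv.swap_apply_right]
        refine ⟨⟨hg1S.1, hg1e, hk1⟩, ?_⟩
        rw [hH1, hT1]
        rcases S.j2 with ⟨q1, q2⟩ | ⟨q1, q2⟩
        · rw [q1, q2] at hx'
          exact hx'.2
        · rw [q1, q2] at hx'
          exact hx'.2.symm
      · rw [Equiv.swap_apply_of_ne_of_ne hx2 hx3, hH x hx1.2.1 hx2 hx3, hT x hx1.2.1 hx2 hx3]
        exact ⟨hx1, hx'.2⟩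
  have hxy : ∀ x ∈ M.S, x ≠ e → x ≠ k → x ≠ g1 → x ≠ g2 → ¬ (h x = y ∨ t x = y) := by
    intro x hx h1 h2 h3 h4 h5
    have h6 : x ∈ star (M.S \ {e}) h t y := by
      rw [sitE_mem_star, Finset.mem_sdiff, Finset.mem_singleton]
      exact ⟨⟨hx, h1⟩, h5⟩
    rw [S.st, Finset.mem_insert, Finset.mem_insert, Finset.mem_singleton] at h6
    rcases h6 with h6 | h6 | h6
    · exact h2 h6
    · exact h3 h6
    · exact h4 h6
  have hgx := gext heS' hgk hgke hsc htwo (u := y) (v := c) (Or.inl ⟨hHe, hTe⟩) (by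
      intro x hx hxe hj
      have hx' : x ∈ M.S \ {k} := hx
      rw [Finset.mem_sdiff, Finset.mem_singleton] at hx'
      by_cases hx2 : x = g1
      · subst hx2
        rcases hj with ⟨-, q⟩ | ⟨q, -⟩
        · rw [hT1] at q
          exact hbc q
        · rw [hH1] at q
          exact hyc q
      · by_cases hx3 : x = g2
        · subst hx3
          rcases hj with ⟨-, q⟩ | ⟨q, -⟩
          · rw [hT2] at q
            exact hac q
          · rw [hH2] at q
            exact hyc q
        · refine hxy x hx'.1 hxe hx'.2 hx2 hx3 ?_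
          rcases hj with ⟨q, -⟩ | ⟨-, q⟩
          · rw [hH x hxe hx2 hx3] at q
            exact Or.inl q
          · rw [hT x hxe hx2 hx3] at q
            exact Or.inr q) (by
      intro s hs hsy _ p _ q _ hst _ _
      have h3 := hdeg1 s hs hsy
      have h4 : (M.del {k}).S \ {e} = M.S \ {e, k} := by
        show (M.S \ {k}) \ {e} = M.S \ {e, k}
        ext x
        simp only [Finset.mem_sdiff, Finset.mem_singleton, Finset.mem_insert]
        tauto
      rw [← h4, hst] at h3
      have h5 := Finset.card_le_two (a := p) (b := q)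
      omega)
  have hstar : star (M.S \ {k}) (exH h e g1 g2 y) (exT t e g1 g2 a b c) y = {e, g2, g1} := by
    ext x
    rw [sitE_mem_star, Finset.mem_sdiff, Finset.mem_singleton, Finset.mem_insert,
      Finset.mem_insert, Finset.mem_singleton]
    constructor
    · rintro ⟨⟨hx, hxk⟩, hx2⟩
      by_contra hcon
      rw [not_or, not_or] at hcon
      rw [hH x hcon.1 hcon.2.2 hcon.2.1, hT x hcon.1 hcon.2.2 hcon.2.1] at hx2
      exact hxy x hx hcon.1 hxk hcon.2.2 hcon.2.1 hx2
    · rintro (rfl | rfl | rfl)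
      · exact ⟨⟨heS, hke.symm⟩, Or.inl hHe⟩
      · exact ⟨⟨hg2S.1, hk2⟩, Or.inl hH2⟩
      · exact ⟨⟨hg1S.1, hk1⟩, Or.inl hH1⟩
  have htc : (M.del {k}).TC := by
    refine hgk.tc_of_deg hgx.1 hgx.2 ?_
    intro v hv
    show 3 ≤ (star (M.S \ {k}) (exH h e g1 g2 y) (exT t e g1 g2 a b c) v).card
    by_cases hvy : v = y
    · subst hvy
      rw [hstar, Finset.card_insert_of_notMem, Finset.card_pair h12.symm]
      simp [hg1e.symm, hg2e.symm]
    · refine (hdeg1 v hv hvy).trans (Finset.card_le_card ?_)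
      intro x hx
      rw [sitE_mem_star, Finset.mem_sdiff, Finset.mem_insert, Finset.mem_singleton] at hx
      rw [sitE_mem_star, Finset.mem_sdiff, Finset.mem_singleton]
      exact ⟨⟨hx.1.1, fun h => hx.1.2 (Or.inr h)⟩, hx.2⟩
  have hpc : M.del {k, e} = M.del {e, k} := by rw [Finset.pair_comm]
  exact
    { cx := S.cx
      gr := hex
      tc := htc
      ya := hya
      yb := hyb
      yc := hyd
      ab := hab
      ac := had
      bc := hbd
      yd := hyc
      ad := hac
      bd := hbc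
      jk := Or.inl ⟨hHe, hTe⟩
      j1 := Or.inl ⟨hH2, hT2⟩
      j2 := Or.inl ⟨hH1, hT1⟩
      st := hstar
      sc := by
        rw [hpc]
        exact S.sc
      hasT := by
        rw [hpc]
        exact S.hasT }

end SEY
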