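import Pool.Agent.Helper25.SEY.T.Subdiv
import Pool.Agent.Helper25.SEY.T.Gext

/-!
T3-SitH.
* `SitI.hp_gr`, `SitI.hp_tc`, `SitI.hp_T`: H' := (M.con {g2}).del {e,k}.  H del k is SC with the only vertex of degree 2
  being y (d has degree >= 3 in H del k, other vertices are not ends of k), star y = {g1,g2}.  Contract g2 (merge y
  into b): `con_two`, all degrees >= 3 (b keeps its degree: loses g2, gains g1), so TC.  IsGr by `IsGr.con`.
-/

namespace SEY

open Finset

variable {E : Type} [Fintype E] [DecidableEq E] {V : Type} [Fintype V] [DecidableEq V]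
variable {r l : ℕ} {rows : Fin r → Fin l → ZMod 2} {M : BM E} {U : Finset V} {h t : E → V}
  {e k g1 g2 : E} {y a b c d : V}

private lemma SitH_mem (S : SitI rows M U h t e k g1 g2 y a b c d) :
    (k ∈ M.S ∧ k ≠ e) ∧ (g1 ∈ M.S ∧ g1 ≠ e) ∧ (g2 ∈ M.S ∧ g2 ≠ e) := by
  have key : ∀ x ∈ ({k, g1, g2} : Finset E), x ∈ M.S ∧ x ≠ e := by
    intro x hx
    rw [← S.st] at hx
    have := (Finset.mem_filter.1 hx).1
    rw [Finset.mem_sdiff, Finset.mem_singleton] at this
    exact this
  exact ⟨key k (by simp), key g1 (by simp), key g2 (by simp)⟩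

private lemma SitH_Jn_inj {x : E} {u v w : V} (h1 : Jn h t x u v) (h2 : Jn h t x u w) :
    v = w := by
  rcases h1 with ⟨p1, p2⟩ | ⟨p1, p2⟩ <;> rcases h2 with ⟨q1, q2⟩ | ⟨q1, q2⟩
  · rw [← p2, ← q2]
  · rw [← p2, q2, ← p1, q1]
  · rw [← p1, q1, ← p2, q2]
  · rw [← p1, ← q1]

private lemma SitH_ne (S : SitI rows M U h t e k g1 g2 y a b c d) :
    k ≠ g1 ∧ k ≠ g2 ∧ g1 ≠ g2 := by
  refine ⟨?_, ?_, ?_⟩
  · rintro rfl
    exact S.ad (SitH_Jn_inj S.j1 S.jk)
  · rintro rfl
    exact S.bd (SitH_Jn_inj S.j2 S.jk)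
  · rintro rfl
    exact S.ab (SitH_Jn_inj S.j1 S.j2)

private lemma SitH_eq (M : BM E) {e k g2 : E} (h1 : g2 ≠ e) (h2 : k ≠ g2) :
    (M.del {e, k}).con {g2} = (M.con {g2}).del {e, k} := by
  refine con_del_comm M {g2} {e, k} ?_
  rw [Finset.disjoint_singleton_left]
  simp only [Finset.mem_insert, Finset.mem_singleton, not_or]
  exact ⟨h1, Ne.symm h2⟩

private lemma SitH_grk (S : SitI rows M U h t e k g1 g2 y a b c d) :
    IsGr (M.del {e, k}) U h t := by
  obtain ⟨⟨hk, hke⟩, -, -⟩ := SitH_mem S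
  have hk' : k ∈ (M.del {e}).S :=
    Finset.mem_sdiff.2 ⟨hk, by rw [Finset.mem_singleton]; exact hke⟩
  have h1 := S.gr.gr.del hk' (BM.TC.exists_cycle S.tc hk')
  rw [del_del] at h1
  exact h1

private lemma SitH_two (S : SitI rows M U h t e k g1 g2 y a b c d) :
    (M.del {e, k}).Two := by
  obtain ⟨⟨hk, hke⟩, -, -⟩ := SitH_mem S
  have hk' : k ∈ (M.del {e}).S :=
    Finset.mem_sdiff.2 ⟨hk, by rw [Finset.mem_singleton]; exact hke⟩
  have h1 := TC.del_two S.tc hk'
  rw [del_del] at h1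
  exact h1

private lemma SitH_yU (S : SitI rows M U h t e k g1 g2 y a b c d) : y ∈ U :=
  S.gr.sub (by simp)

private lemma SitH_star (S : SitI rows M U h t e k g1 g2 y a b c d) :
    star (M.del {e, k}).S h t y = {g1, g2} := by
  obtain ⟨n1, n2, n3⟩ := SitH_ne S
  have h1 : star (M.del {e, k}).S h t y = star (M.S \ {e}) h t y \ {k} := by
    ext x
    show x ∈ (M.S \ {e, k}).filter _ ↔ x ∈ (M.S \ {e}).filter _ \ {k}
    simp only [Finset.mem_filter, Finset.mem_sdiff, Finset.mem_insert, Finset.mem_singleton]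
    tauto
  rw [h1, S.st]
  ext x
  simp only [Finset.mem_sdiff, Finset.mem_insert, Finset.mem_singleton]
  constructor
  · rintro ⟨h1 | h1, h2⟩
    · exact absurd h1 h2
    · exact h1
  · rintro (rfl | rfl)
    · exact ⟨Or.inr (Or.inl rfl), Ne.symm n1⟩
    · exact ⟨Or.inr (Or.inr rfl), Ne.symm n2⟩

private lemma SitH_g (S : SitI rows M U h t e k g1 g2 y a b c d) :
    g1 ∈ (M.del {e, k}).S ∧ g2 ∈ (M.del {e, k}).S := by
  have h1 : ∀ x ∈ star (M.del {e, k}).S h t y, x ∈ (M.del {e, k}).S :=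
    fun x hx => (Finset.mem_filter.1 hx).1
  rw [SitH_star S] at h1
  exact ⟨h1 g1 (by simp), h1 g2 (by simp)⟩

theorem SitI.hp_gr (S : SitI rows M U h t e k g1 g2 y a b c d) :
    IsGr ((M.con {g2}).del {e, k}) (U.erase y) (fun x => mg y b (h x)) (fun x => mg y b (t x)) := by
  obtain ⟨-, -, ⟨hg2, hg2e⟩⟩ := SitH_mem S
  obtain ⟨n1, n2, n3⟩ := SitH_ne S
  have h1 := SitH_grk S
  obtain ⟨m1, m2⟩ := SitH_g S
  have h2 := h1.con m2 S.j2
    (fun x hx hxg hj => hxg (h1.no_par S.sc hx m2 hj S.j2)) (by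
      have h3 : ({g1, g2} : Finset E) ⊆ (M.del {e, k}).S := by
        intro x hx
        simp only [Finset.mem_insert, Finset.mem_singleton] at hx
        rcases hx with rfl | rfl
        · exact m1
        · exact m2
      have h4 := Finset.card_le_card h3
      rwa [Finset.card_pair n3] at h4)
  rwa [SitH_eq M hg2e n2] at h2

theorem SitI.hp_tc (S : SitI rows M U h t e k g1 g2 y a b c d)
    (hd : 4 ≤ (star (M.S \ {e}) h t d).card) : ((M.con {g2}).del {e, k}).TC := by
  obtain ⟨⟨hk, hke⟩, ⟨hg1, hg1e⟩, ⟨hg2, hg2e⟩⟩ := SitH_mem S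
  obtain ⟨n1, n2, n3⟩ := SitH_ne S
  have h1 := SitH_grk S
  have h2 := con_two h1 (SitH_yU S) (SitH_star S) n3 S.sc (SitH_two S)
  rw [SitH_eq M hg2e n2] at h2
  refine S.hp_gr.tc_of_deg h2.1 h2.2 ?_
  intro v hv
  rw [Finset.mem_erase] at hv
  obtain ⟨hvy, hvU⟩ := hv
  have h3 : 3 ≤ (star (M.S \ {e}) h t v).card := TC.three_le_deg S.tc S.gr.gr hvU
  -- the new star contains the old one without `k` and `g2`
  have hsub : ∀ x, x ∈ star (M.S \ {e}) h t v → x ≠ k → x ≠ g2 →
      x ∈ star ((M.con {g2}).del {e, k}).S (fun x => mg y b (h x)) (fun x => mg y b (t x)) v := by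
    intro x hx hxk hxg
    rw [star, Finset.mem_filter, Finset.mem_sdiff, Finset.mem_singleton] at hx
    obtain ⟨⟨hxS, hxe⟩, hxv⟩ := hx
    rw [star, Finset.mem_filter]
    refine ⟨?_, ?_⟩
    · show x ∈ (M.S \ {g2}) \ {e, k}
      simp only [Finset.mem_sdiff, Finset.mem_insert, Finset.mem_singleton, not_or]
      exact ⟨⟨hxS, hxg⟩, hxe, hxk⟩
    · rcases hxv with hxv | hxv
      · left
        show mg y b (h x) = v
        rw [hxv, mg, if_neg hvy]
      · right
        show mg y b (t x) = v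
        rw [hxv, mg, if_neg hvy]
  have hk_star : k ∈ star (M.S \ {e}) h t v → v = d := by
    intro hx
    rw [star, Finset.mem_filter] at hx
    rcases S.jk with ⟨p1, p2⟩ | ⟨p1, p2⟩ <;> rcases hx.2 with hx | hx
    · exact absurd (hx.symm.trans p1) hvy
    · exact hx.symm.trans p2
    · exact hx.symm.trans p1
    · exact absurd (hx.symm.trans p2) hvy
  have hg_star : g2 ∈ star (M.S \ {e}) h t v → v = b := by
    intro hx
    rw [star, Finset.mem_filter] at hx
    rcases S.j2 with ⟨p1, p2⟩ | ⟨p1, p2⟩ <;> rcases hx.2 with hx | hx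
    · exact absurd (hx.symm.trans p1) hvy
    · exact hx.symm.trans p2
    · exact hx.symm.trans p1
    · exact absurd (hx.symm.trans p2) hvy
  by_cases hvb : v = b
  · -- `b` loses `g2` and gains `g1`
    have hg1_star : g1 ∉ star (M.S \ {e}) h t v := by
      intro hx
      rw [star, Finset.mem_filter] at hx
      have hva : v ≠ a := by rw [hvb]; exact Ne.symm S.ab
      rcases S.j1 with ⟨p1, p2⟩ | ⟨p1, p2⟩ <;> rcases hx.2 with hx | hx
      · exact absurd (hx.symm.trans p1) hvy
      · exact hva (hx.symm.trans p2)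
      · exact hva (hx.symm.trans p1)
      · exact absurd (hx.symm.trans p2) hvy
    have h4 : insert g1 ((star (M.S \ {e}) h t v).erase g2) ⊆
        star ((M.con {g2}).del {e, k}).S (fun x => mg y b (h x)) (fun x => mg y b (t x)) v := by
      intro x hx
      rw [Finset.mem_insert] at hx
      rcases hx with rfl | hx
      · rw [star, Finset.mem_filter]
        refine ⟨?_, ?_⟩
        · show x ∈ (M.S \ {g2}) \ {e, k}
          simp only [Finset.mem_sdiff, Finset.mem_insert, Finset.mem_singleton, not_or]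
          exact ⟨⟨hg1, n3⟩, hg1e, Ne.symm n1⟩
        · rcases S.j1 with ⟨p1, p2⟩ | ⟨p1, p2⟩
          · left
            show mg y b (h x) = v
            rw [p1, mg, if_pos rfl, hvb]
          · right
            show mg y b (t x) = v
            rw [p2, mg, if_pos rfl, hvb]
      · rw [Finset.mem_erase] at hx
        refine hsub x hx.2 ?_ hx.1
        rintro rfl
        exact S.bd (hvb.symm.trans (hk_star hx.2))
    have h5 := Finset.card_le_card h4
    rw [Finset.card_insert_of_notMem (fun hx => hg1_star (Finset.mem_of_mem_erase hx))] at h5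
    have h6 : (star (M.S \ {e}) h t v).card ≤ ((star (M.S \ {e}) h t v).erase g2).card + 1 :=
      by
      have := Finset.pred_card_le_card_erase (s := star (M.S \ {e}) h t v) (a := g2)
      omega
    omega
  · by_cases hvd : v = d
    · have h4 : (star (M.S \ {e}) h t v).erase k ⊆
          star ((M.con {g2}).del {e, k}).S (fun x => mg y b (h x)) (fun x => mg y b (t x)) v := by
        intro x hx
        rw [Finset.mem_erase] at hx
        refine hsub x hx.2 hx.1 ?_
        rintro rfl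
        exact hvb (hg_star hx.2)
      have h5 := Finset.card_le_card h4
      have h6 : (star (M.S \ {e}) h t v).card ≤ ((star (M.S \ {e}) h t v).erase k).card + 1 :=
        by
        have := Finset.pred_card_le_card_erase (s := star (M.S \ {e}) h t v) (a := k)
        omega
      rw [← hvd] at hd
      omega
    · refine le_trans h3 (Finset.card_le_card ?_)
      intro x hx
      refine hsub x hx ?_ ?_
      · rintro rfl
        exact hvd (hk_star hx)
      · rintro rfl
        exact hvb (hg_star hx)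

theorem SitI.hp_T (h0 : (ofRows rows).TC) (S : SitI rows M U h t e k g1 g2 y a b c d) :
    HasT rows ((M.con {g2}).del {e, k}) := by
  obtain ⟨-, -, ⟨hg2, hg2e⟩⟩ := SitH_mem S
  obtain ⟨n1, n2, n3⟩ := SitH_ne S
  obtain ⟨m1, m2⟩ := SitH_g S
  have hs : (M.del {e, k}).Ser g2 g1 := by
    rw [(SitH_grk S).star2 S.sc (SitH_two S) m2 m1 (Ne.symm n3)]
    refine ⟨y, SitH_yU S, ?_⟩
    rw [SitH_star S, Finset.pair_comm]
  have h1 := HasT_con h0 m2 m1 (Ne.symm n3) hs S.hasT
  rwa [SitH_eq M hg2e n2] at h1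

end SEY
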