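import Pool.Agent.Helper25.SEY.T.MinCx
import Pool.Agent.Helper25.SEY.T.Triad

/-!
T3-Step0c.
T3-Step0.  See STEP 0 in /team-store/helper25_SEY.md.

`IsGraft.swap_set`: swapping at all vertices of SS (SS inside T, all of degree 2 in the SC graph M.del {e}, Two): repeated
`IsGraft.swap`; the vertices of SS are pairwise not adjacent (`IsGr.deg2`: the neighbours have degree >= 3), so
the swaps do not interfere: the final graft set is swT (M.S - e) h t U T SS.
`step0_T`: each vertex s of degree 2 in M.del {e} is in T: its star {p,q} is a row of M.del {e}; if s is not in T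
then {p,q} is a row of M (`IsGraft.star_mem`): a series pair in a 3-connected matroid.
`step0_con`: for a vertex s of degree 2 (in M.del {e}, star {p,q}, p joins s u, q joins s w): contract p (merge s into u):
(M.con {p}) del {e} is SC, Two, HasT; graft set (T - s) + {u} (s in T); `MinCx.graft_graphic`: M.con {p} graphic; `crit`: SS inside the new
graft set, all of degree 2 in (M.del {e}).con {p}: these are the other vertices of degree 2 of M.del {e} (degrees of other
vertices do not change: u loses p and gains q); conclusion in terms of the OLD graph: the set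
swT (M.S - e) h t U (symmDiff (T.erase s) {u}) SS has at most 2 elements, where SS is a set of vertices of
degree 2, s not in SS (the neighbours of s' in SS are the same in the old and in the new graph: s is not adjacent to s').
-/

namespace SEY

open Finset

variable {E : Type} [Fintype E] [DecidableEq E] {V : Type} [Fintype V] [DecidableEq V]

lemma step0c_Jn_unique {h t : E → V} {x : E} {s u u' : V} (h1 : Jn h t x s u)
    (h2 : Jn h t x s u') : u = u' := by
  rcases h1 with ⟨a, b⟩ | ⟨a, b⟩ <;> rcases h2 with ⟨c, d⟩ | ⟨c, d⟩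
  · rw [← b, ← d]
  · rw [← b, d, ← a, c]
  · rw [← a, c, ← b, d]
  · rw [← a, ← c]

lemma step0c_mg_eq {s u v y : V} (hvs : v ≠ s) (hvu : v ≠ u) : mg s u y = v ↔ y = v := by
  unfold mg
  by_cases h : y = s
  · rw [if_pos h]
    constructor
    · intro h1; exact absurd h1.symm hvu
    · intro h1; exact absurd (h1.symm.trans h) hvs
  · rw [if_neg h]

lemma step0c_mg_u {s u y : V} : mg s u y = u ↔ y = u ∨ y = s := by
  unfold mg
  by_cases h : y = s
  · rw [if_pos h]; simp [h]
  · rw [if_neg h]; simp [h]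

theorem step0_T {M : BM E} (hTC : M.TC) {e : E} {U : Finset V} {h t : E → V} {T : Finset V}
    (hg : IsGraft M e U h t T) {s : V} (hs : s ∈ U) (hd : (star (M.S \ {e}) h t s).card = 2) :
    s ∈ T := by
  by_contra hsT
  have h1 := hg.star_mem hs
  rw [if_neg hsT] at h1
  have h2 : (ind (star (M.S \ {e}) h t s) : E → ZMod 2) ≠ 0 := by
    rw [Ne, ind_eq_zero]
    intro h0
    rw [h0] at hd
    simp at hd
  have h3 := hTC.row_weight h1 h2
  rw [spt_ind] at h3
  omega

theorem step0_con {r l : ℕ} {rows : Fin r → Fin l → ZMod 2} (h0 : (ofRows rows).TC)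
    {M : BM E} (hM : MinCx rows M) {e : E} {U : Finset V} {h t : E → V} {T : Finset V}
    (hg : IsGraft M e U h t T) (hsc : (M.del {e}).SC) (hT : HasT rows (M.del {e}))
    {s u w : V} {p q : E} (hs : s ∈ U) (hst : star (M.S \ {e}) h t s = {p, q}) (hpq : p ≠ q)
    (hp : Jn h t p s u) (hq : Jn h t q s w) :
    ∃ SS : Finset V, s ∉ SS ∧ SS ⊆ U ∧ (∀ s' ∈ SS, (star (M.S \ {e}) h t s').card = 2) ∧
      (swT (M.S \ {e}) h t U (symmDiff (T.erase s) {u}) SS).card ≤ 2 := by
  have he : e ∈ M.S := hg.mem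
  have htwo : (M.del {e}).Two := TC.del_two hM.tc he
  have hcard2 : (star (M.S \ {e}) h t s).card = 2 := by rw [hst]; exact Finset.card_pair hpq
  have hsT : s ∈ T := step0_T hM.tc hg hs hcard2
  have hpm : p ∈ star (M.S \ {e}) h t s := by rw [hst]; simp
  have hqm : q ∈ star (M.S \ {e}) h t s := by rw [hst]; simp
  have hpS' : p ∈ M.S \ {e} := (Finset.mem_filter.1 hpm).1
  have hqS' : q ∈ M.S \ {e} := (Finset.mem_filter.1 hqm).1
  have hpS : p ∈ M.S := (Finset.mem_sdiff.1 hpS').1
  have hpe : p ≠ e := by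
    intro h'
    exact (Finset.mem_sdiff.1 hpS').2 (Finset.mem_singleton.2 h')
  have hqS : q ∈ M.S := (Finset.mem_sdiff.1 hqS').1
  have hqe : q ≠ e := by
    intro h'
    exact (Finset.mem_sdiff.1 hqS').2 (Finset.mem_singleton.2 h')
  -- the neighbours
  obtain ⟨hws, hus, huw, hdu, hdw⟩ : w ≠ s ∧ u ≠ s ∧ u ≠ w ∧
      3 ≤ (star (M.S \ {e}) h t u).card ∧ 3 ≤ (star (M.S \ {e}) h t w).card := by
    obtain ⟨a, b, u', w', ha, hb, hab, hst', hja, hjb, -, -, huw', hus', hws', hdu', hdw', -, -⟩ :=
      hg.gr.deg2 hsc htwo hs hcard2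
    have hst2 : ({a, b} : Finset E) = {p, q} := by
      rw [← hst]; exact hst'.symm
    have ha' : a = p ∨ a = q := by
      have : a ∈ ({p, q} : Finset E) := by rw [← hst2]; simp
      simpa using this
    have hb' : b = p ∨ b = q := by
      have : b ∈ ({p, q} : Finset E) := by rw [← hst2]; simp
      simpa using this
    rcases ha' with rfl | rfl
    · rcases hb' with rfl | rfl
      · exact absurd rfl hab
      · have e1 : u' = u := step0c_Jn_unique hja hp
        have e2 : w' = w := step0c_Jn_unique hjb hq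
        subst e1; subst e2
        exact ⟨hws', hus', huw', hdu', hdw'⟩
    · rcases hb' with rfl | rfl
      · have e1 : u' = w := step0c_Jn_unique hja hq
        have e2 : w' = u := step0c_Jn_unique hjb hp
        subst e1; subst e2
        exact ⟨hus', hws', huw'.symm, hdw', hdu'⟩
      · exact absurd rfl hab
  -- edges at s
  have hats : ∀ x ∈ M.S \ {e}, (h x = s ∨ t x = s) → x = p ∨ x = q := by
    intro x hx hx'
    have : x ∈ star (M.S \ {e}) h t s := Finset.mem_filter.2 ⟨hx, hx'⟩
    rw [hst] at this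
    simpa using this
  have hser : (M.del {e}).Ser p q :=
    (hg.gr.star2 hsc htwo hpS' hqS' hpq).2 ⟨s, hs, hst⟩
  have h3 : 3 ≤ M.S.card := by
    have h4 := hM.tc.1
    omega
  have hg' := hg.con (x := p) (u := s) (v := u) hpS hpe hp (by
    intro y hy hye hyp hj
    have hy' : y ∈ M.S \ {e} := Finset.mem_sdiff.2 ⟨hy, by simpa using hye⟩
    rcases hats y hy' (by rcases hj with ⟨a, b⟩ | ⟨a, b⟩; exact Or.inl a; exact Or.inr b) with
      h' | h'
    · exact hyp h'
    · subst h'
      exact huw (step0c_Jn_unique hj hq)) h3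
  rw [if_pos hsT] at hg'
  have hcomm : (M.con {p}).del {e} = (M.del {e}).con {p} := by
    rw [BM.del_con]
    rw [Finset.disjoint_singleton]
    exact hpe.symm
  obtain ⟨hsc1, hsc2⟩ := SC_con (M.del {e}) hsc p q hpS' hqS' hpq hser
  have hsc' : ((M.con {p}).del {e}).SC := by rw [hcomm]; exact hsc1
  have htwo' : ((M.con {p}).del {e}).Two := by
    rw [hcomm]
    intro a ha b hb c hc hab hac
    have ha1 : a ∈ (M.del {e}).S := (Finset.mem_sdiff.1 ha).1
    have hb1 : b ∈ (M.del {e}).S := (Finset.mem_sdiff.1 hb).1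
    have hc1 : c ∈ (M.del {e}).S := (Finset.mem_sdiff.1 hc).1
    have ha2 : a ≠ p := fun h' => (Finset.mem_sdiff.1 ha).2 (Finset.mem_singleton.2 h')
    have hb2 : b ≠ p := fun h' => (Finset.mem_sdiff.1 hb).2 (Finset.mem_singleton.2 h')
    have hc2 : c ≠ p := fun h' => (Finset.mem_sdiff.1 hc).2 (Finset.mem_singleton.2 h')
    exact htwo a ha1 b hb1 c hc1 ((hsc2 a ha1 ha2 b hb1 hb2).1 hab)
      ((hsc2 a ha1 ha2 c hc1 hc2).1 hac)
  have hT' : HasT rows ((M.con {p}).del {e}) := by
    rw [hcomm]; exact HasT_con h0 hpS' hqS' hpq hser hT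
  have hlt : (M.con {p}).S.card < M.S.card := by
    refine Finset.card_lt_card (Finset.ssubset_iff_subset_ne.2 ⟨Finset.sdiff_subset, ?_⟩)
    intro heq
    have h1 : p ∈ (M.con {p}).S := by rw [heq]; exact hpS
    exact (Finset.mem_sdiff.1 h1).2 (Finset.mem_singleton_self p)
  have hG : Graphic (M.con {p}) :=
    hM.graft_graphic h0 _ (Minor_con M {p}) hlt hg' hsc' htwo' hT'
  obtain ⟨SS, hSS, hst', hcard'⟩ := crit hg' hsc' htwo' hG
  have hset : (M.con {p}).S \ {e} = (M.S \ {e}).erase p := by
    ext x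
    simp only [BM.con_S, Finset.mem_sdiff, Finset.mem_singleton, Finset.mem_erase]
    tauto
  rw [hset] at hst' hcard'
  have hSSU : ∀ x ∈ SS, x ≠ s ∧ x ∈ U := by
    intro x hx
    have h1 := hg'.sub (hSS hx)
    exact Finset.mem_erase.1 h1
  -- stars
  have hstar1 : ∀ x, x ≠ s → x ≠ u →
      star ((M.S \ {e}).erase p) (fun y => mg s u (h y)) (fun y => mg s u (t y)) x =
        star (M.S \ {e}) h t x := by
    intro x hxs hxu
    ext y
    simp only [star, Finset.mem_filter, Finset.mem_erase, step0c_mg_eq hxs hxu]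
    constructor
    · rintro ⟨⟨h1, h2⟩, h4⟩
      exact ⟨h2, h4⟩
    · rintro ⟨h2, h4⟩
      refine ⟨⟨?_, h2⟩, h4⟩
      rintro rfl
      rcases hp with ⟨a, b⟩ | ⟨a, b⟩
      · rcases h4 with h4 | h4
        · exact hxs (h4.symm.trans a)
        · exact hxu (h4.symm.trans b)
      · rcases h4 with h4 | h4
        · exact hxu (h4.symm.trans a)
        · exact hxs (h4.symm.trans b)
  have hqu : q ∉ star (M.S \ {e}) h t u := by
    intro h'
    have h1 := (Finset.mem_filter.1 h').2
    rcases hq with ⟨a, b⟩ | ⟨a, b⟩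
    · rcases h1 with h1 | h1
      · exact hus (h1.symm.trans a)
      · exact huw (h1.symm.trans b)
    · rcases h1 with h1 | h1
      · exact huw (h1.symm.trans a)
      · exact hus (h1.symm.trans b)
  have hpu : p ∈ star (M.S \ {e}) h t u := by
    refine Finset.mem_filter.2 ⟨hpS', ?_⟩
    rcases hp with ⟨a, b⟩ | ⟨a, b⟩
    · exact Or.inr b
    · exact Or.inl a
  have hstar2 : star ((M.S \ {e}).erase p) (fun y => mg s u (h y)) (fun y => mg s u (t y)) u =
        insert q ((star (M.S \ {e}) h t u).erase p) := by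
    ext y
    simp only [star, Finset.mem_filter, Finset.mem_erase, step0c_mg_u, Finset.mem_insert]
    constructor
    · rintro ⟨⟨h1, h2⟩, h4⟩
      by_cases hyq : y = q
      · exact Or.inl hyq
      · right
        have h5 : ¬ (h y = s ∨ t y = s) := fun h' => by
          rcases hats y h2 h' with h6 | h6
          · exact h1 h6
          · exact hyq h6
        refine ⟨h1, h2, ?_⟩
        tauto
    · rintro (rfl | ⟨h1, h2, h4⟩)
      · refine ⟨⟨hpq.symm, hqS'⟩, ?_⟩
        rcases hq with ⟨a, b⟩ | ⟨a, b⟩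
        · exact Or.inl (Or.inr a)
        · exact Or.inr (Or.inr b)
      · exact ⟨⟨h1, h2⟩, by tauto⟩
  have hSSu : ∀ x ∈ SS, x ≠ u := by
    rintro x hx rfl
    have h1 := hst' x hx
    rw [hstar2, Finset.card_insert_of_notMem (fun h' => hqu (Finset.mem_erase.1 h').2),
      Finset.card_erase_of_mem hpu] at h1
    omega
  have hSSd : ∀ x ∈ SS, (star (M.S \ {e}) h t x).card = 2 := by
    intro x hx
    rw [← hstar1 x (hSSU x hx).1 (hSSu x hx)]
    exact hst' x hx
  have hSSw : ∀ x ∈ SS, x ≠ w := by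
    rintro x hx rfl
    have h1 := hSSd x hx
    omega
  -- no edge joins s to SS
  have hnoS : ∀ x ∈ SS, ∀ y ∈ M.S \ {e}, ¬ Jn h t y x s := by
    intro x hx y hy hj
    have hj' : Jn h t y s x := by
      rcases hj with ⟨a, b⟩ | ⟨a, b⟩
      · exact Or.inr ⟨a, b⟩
      · exact Or.inl ⟨a, b⟩
    rcases hats y hy (by rcases hj' with ⟨a, b⟩ | ⟨a, b⟩; exact Or.inl a; exact Or.inr b) with
      h' | h'
    · subst h'
      exact hSSu x hx (step0c_Jn_unique hj' hp)
    · subst h'
      exact hSSw x hx (step0c_Jn_unique hj' hq)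
  have hfil : ∀ x ∈ SS, ∀ v, v ≠ s →
      ((M.S \ {e}).erase p).filter
        (fun y => Jn (fun y => mg s u (h y)) (fun y => mg s u (t y)) y x v) =
      (M.S \ {e}).filter (fun y => Jn h t y x v) := by
    intro x hx v hvs
    have hxs := (hSSU x hx).1
    have hxu := hSSu x hx
    ext y
    simp only [Finset.mem_filter, Finset.mem_erase]
    by_cases hvu : v = u
    · subst hvu
      constructor
      · rintro ⟨⟨h1, h2⟩, h4⟩
        refine ⟨h2, ?_⟩
        have h5 := hnoS x hx y h2
        unfold Jn at h4 h5 ⊢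
        rw [step0c_mg_eq hxs hxu, step0c_mg_eq hxs hxu, step0c_mg_u, step0c_mg_u] at h4
        tauto
      · rintro ⟨h2, h4⟩
        refine ⟨⟨?_, h2⟩, ?_⟩
        · rintro rfl
          have h6 : Jn h t y v x := by
            rcases h4 with ⟨a, b⟩ | ⟨a, b⟩
            · exact Or.inr ⟨a, b⟩
            · exact Or.inl ⟨a, b⟩
          have h7 : Jn h t y v s := by
            rcases hp with ⟨a, b⟩ | ⟨a, b⟩
            · exact Or.inr ⟨a, b⟩
            · exact Or.inl ⟨a, b⟩
          exact hxs (step0c_Jn_unique h6 h7)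
        · unfold Jn at h4 ⊢
          rw [step0c_mg_eq hxs hxu, step0c_mg_eq hxs hxu, step0c_mg_u, step0c_mg_u]
          tauto
    · constructor
      · rintro ⟨⟨h1, h2⟩, h4⟩
        refine ⟨h2, ?_⟩
        unfold Jn at h4 ⊢
        rw [step0c_mg_eq hxs hxu, step0c_mg_eq hxs hxu, step0c_mg_eq hvs hvu,
          step0c_mg_eq hvs hvu] at h4
        exact h4
      · rintro ⟨h2, h4⟩
        refine ⟨⟨?_, h2⟩, ?_⟩
        · rintro rfl
          rcases hp with ⟨a, b⟩ | ⟨a, b⟩
          · rcases h4 with ⟨c, d⟩ | ⟨c, d⟩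
            · exact hxs (c.symm.trans a)
            · exact hvs (c.symm.trans a)
          · rcases h4 with ⟨c, d⟩ | ⟨c, d⟩
            · exact hxu (c.symm.trans a)
            · exact hxs (d.symm.trans b)
        · unfold Jn at h4 ⊢
          rw [step0c_mg_eq hxs hxu, step0c_mg_eq hxs hxu, step0c_mg_eq hvs hvu,
            step0c_mg_eq hvs hvu]
          exact h4
  refine ⟨SS, fun h' => (hSSU s h').1 rfl, fun x hx => (hSSU x hx).2, hSSd, ?_⟩
  refine le_trans (Finset.card_le_card ?_) hcard'
  intro v hv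
  rw [swT, Finset.mem_filter] at hv ⊢
  obtain ⟨hvU, hodd⟩ := hv
  have hvs : v ≠ s := by
    rintro rfl
    have h1 : v ∉ symmDiff (T.erase v) {u} := by
      rw [Finset.mem_symmDiff]
      rintro (⟨h2, -⟩ | ⟨h2, -⟩)
      · exact Finset.notMem_erase v T h2
      · exact hus (Finset.mem_singleton.1 h2).symm
    rw [if_neg h1, zero_add, Finset.sum_eq_zero] at hodd
    · exact absurd hodd (by decide)
    · intro x hx
      rw [Finset.card_eq_zero, Finset.filter_eq_empty_iff]
      intro y hy
      exact hnoS x hx y hy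
  refine ⟨Finset.mem_erase.2 ⟨hvs, hvU⟩, ?_⟩
  have h1 : ∑ x ∈ SS, (((M.S \ {e}).erase p).filter
        (fun y => Jn (fun y => mg s u (h y)) (fun y => mg s u (t y)) y x v)).card =
      ∑ x ∈ SS, ((M.S \ {e}).filter (fun y => Jn h t y x v)).card :=
    Finset.sum_congr rfl (fun x hx => by rw [hfil x hx v hvs])
  rw [h1]
  exact hodd

end SEY
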