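import Pool.Agent.Helper25.SEY.T.Triad

/-!
T3-Step0t.
T3-Step0F: STEP 0, conclusion.

`step0_tri`: the triangle type.  M.del {e} has exactly the three vertices z 0, z 1, z 2 of degree 2; star (z i) = {p i, q i}; c 0, c 1, c 2 are three different
vertices, z i is adjacent to the two c j with j /= i; T is the disjoint union of {z 0,z 1,z 2} and an odd subset T0 of {c 0,c 1,c 2}
(T0 = {c j} or all).  Choose for every i one x i in {c j : j /= i} with x 0 + x 1 + x 2 = T0 (mod 2): T0 = {c0,c1,c2}: x i = c (i+1); T0 = {c 0}: x = (c 1, c 0, c 1)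
[x 0 in {c1,c2}, x 1 in {c0,c2}, x 2 in {c0,c1}], and similarly for T0 = {c 1}: (c 1, c 0, c 0), T0 = {c 2}: (c 1, c 2, c 1).
Let a i be the edge z i - x i, b i the other edge at z i.  Then f e = sum over T = sum of the z i + sum of the x i (mod 2) = sum f (a i); for b: the other
neighbours x' i satisfy sum x i + sum x' i = sum over i of p_i = 2 (c0+c1+c2) = 0, so the same holds.  Rows {e, a i, b i}: lifted star of z i
(z i in T).  (M.del {e}).con {b 0,b 1,b 2}: contraction in three different 2-classes: SC with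
singleton classes: TC (`SC_con` three times, `con_del_comm`, `con_con`); HasT by `HasT_con`.
`step0`: take e from `bg_has` (M is not iso to N0, as N0 is graphic: `Graphic_of_IsIso`), N = M.del {e} SC, HasT, graphic by
`MinCx.sc_graphic`, Two by `TC.del_two`; `exists_IsGr`, `exists_graft` (e is no coloop of the TC matroid M).  Let Z2 = {z i : i < m} be the
vertices of degree 2 (enumerated), u i, w i, from `IsGr.deg2`; T0 v = 1 iff v in T and v not in Z2.  Z2 is inside T (`step0_T`).  Translate: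
for I a set of indices, SS = z '' I: (swT ... T SS).card = wt (T0 + sum_I p) + m (z i stays: its neighbours are not in Z2; the vertices
outside Z2 are changed by the p i): (N) from `IsGraft.swap_set` and `MinCx.four_le`; (A), (B) from `step0_con` (for T.erase (z i) + {u i}:
m - 1 vertices of Z2 are left; the SS there is z '' I with i not in I).  `comb`: m = 0: no vertex of degree 2:
N is TC (`IsGr.tc_of_deg`, `IsGr.two_le_deg`); or m = 3: `step0_tri`.
-/

namespace SEY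

open Finset

variable {E : Type} [Fintype E] [DecidableEq E] {V : Type} [Fintype V] [DecidableEq V]

/-- The choice of one neighbour of every degree 2 vertex. -/
private theorem step0t_choice (p : Fin 3 → Prop) (hp : (∃ j, ∀ i, p i ↔ i = j) ∨ ∀ i, p i) :
    ∃ σ τ : Fin 3 → Fin 3, (∀ i, σ i ≠ i ∧ τ i ≠ i ∧ σ i ≠ τ i) ∧
      ∃ w : Fin 3 → ZMod 2, (∀ i, p i → w i = 1) ∧ (∀ i, ¬ p i → w i = 0) ∧
      (∀ q : Fin 3 → ZMod 2, ∑ i, q (σ i) = ∑ i, w i * q i) ∧
      ∀ q : Fin 3 → ZMod 2, ∑ i, q (τ i) = ∑ i, w i * q i := by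
  rcases hp with ⟨j, hj⟩ | hall
  · have hw1 : ∀ i, p i → (fun i => if i = j then (1 : ZMod 2) else 0) i = 1 := by
      intro i hi
      show (if i = j then (1 : ZMod 2) else 0) = 1
      rw [if_pos ((hj i).1 hi)]
    have hw0 : ∀ i, ¬ p i → (fun i => if i = j then (1 : ZMod 2) else 0) i = 0 := by
      intro i hi
      show (if i = j then (1 : ZMod 2) else 0) = 0
      rw [if_neg (fun h => hi ((hj i).2 h))]
    have h3 : ∀ j : Fin 3, j = 0 ∨ j = 1 ∨ j = 2 := by decide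
    rcases h3 j with h | h | h
    · subst h
      exact ⟨![1, 0, 1], ![2, 2, 0], by decide, _, hw1, hw0, by decide, by decide⟩
    · subst h
      exact ⟨![1, 0, 0], ![2, 2, 1], by decide, _, hw1, hw0, by decide, by decide⟩
    · subst h
      exact ⟨![1, 2, 1], ![2, 0, 0], by decide, _, hw1, hw0, by decide, by decide⟩
  · exact ⟨![1, 2, 0], ![2, 0, 1], by decide, fun _ => 1, fun _ _ => rfl,
      fun i hi => absurd (hall i) hi, by decide, by decide⟩

omit [Fintype E] [DecidableEq E] [Fintype V] [DecidableEq V] in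
private theorem step0t_Jn_inj {h t : E → V} {x : E} {s u v : V} (hu : Jn h t x s u)
    (hv : Jn h t x s v) : u = v := by
  rcases hu with ⟨h1, h2⟩ | ⟨h1, h2⟩ <;> rcases hv with ⟨h3, h4⟩ | ⟨h3, h4⟩
  · rw [← h2, ← h4]
  · rw [← h2, h4, ← h3, h1]
  · rw [← h1, h3, ← h4, h2]
  · rw [← h1, ← h3]

omit [Fintype E] [DecidableEq E] [Fintype V] in
private theorem step0t_mem_star {S : Finset E} {h t : E → V} {x : E} {s u : V} (hx : x ∈ S)
    (hu : Jn h t x s u) : x ∈ star S h t s := by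
  refine Finset.mem_filter.2 ⟨hx, ?_⟩
  rcases hu with ⟨h1, -⟩ | ⟨-, h2⟩
  · exact Or.inl h1
  · exact Or.inr h2

theorem step0_tri {r l : ℕ} {rows : Fin r → Fin l → ZMod 2} (h0 : (ofRows rows).TC)
    {M : BM E} (hTC : M.TC) {e : E} {U : Finset V} {h t : E → V} {T : Finset V}
    (hg : IsGraft M e U h t T) (hsc : (M.del {e}).SC) (hT : HasT rows (M.del {e}))
    (z c : Fin 3 → V) (hz : Function.Injective z) (hc : Function.Injective c)
    (hz2 : ∀ s ∈ U, (star (M.S \ {e}) h t s).card = 2 ↔ ∃ i, z i = s) (hzU : ∀ i, z i ∈ U)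
    (hadj : ∀ i j, i ≠ j → ∃ x ∈ M.S \ {e}, Jn h t x (z i) (c j))
    (hzT : ∀ i, z i ∈ T) (hTT : ∀ v ∈ T, (∃ i, z i = v) ∨ ∃ i, c i = v)
    (hcT : (∃ j, ∀ i, c i ∈ T ↔ i = j) ∨ ∀ i, c i ∈ T) :
    ∃ a b : Fin 3 → E, TriT rows M e a b := by
  have htwo : (M.del {e}).Two := TC.del_two hTC hg.mem
  have hgr : IsGr (M.del {e}) U h t := hg.gr
  choose X0 hX0 using hadj
  -- the third index
  have hX : ∀ i j, ∃ x, i ≠ j → x ∈ M.S \ {e} ∧ Jn h t x (z i) (c j) := by
    intro i j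
    by_cases hij : i = j
    · exact ⟨e, fun h => absurd hij h⟩
    · exact ⟨X0 i j hij, fun _ => hX0 i j hij⟩
  choose X hX using hX
  have hcz : ∀ j k, c j ≠ z k := by
    intro j k hjk
    have hex : ∀ j : Fin 3, ∃ i : Fin 3, i ≠ j := by decide
    obtain ⟨i, hij⟩ := hex j
    obtain ⟨a, b, u, w, ha, hb, hab, hst, hJa, hJb, hu, hw, huw, hus, hws, h3u, h3w, -, -⟩ :=
      hgr.deg2 hsc htwo (hzU i) ((hz2 (z i) (hzU i)).2 ⟨i, rfl⟩)
    have hmem : X i j ∈ star (M.del {e}).S h t (z i) := step0t_mem_star (hX i j hij).1 (hX i j hij).2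
    have hJ := (hX i j hij).2
    rw [hst, Finset.mem_insert, Finset.mem_singleton] at hmem
    have h2 : (star (M.S \ {e}) h t (z k)).card = 2 := (hz2 (z k) (hzU k)).2 ⟨k, rfl⟩
    rcases hmem with hm | hm
    · rw [hm] at hJ
      have hcu := step0t_Jn_inj hJ hJa
      rw [← hcu, hjk] at h3u
      have h3u' : 3 ≤ (star (M.S \ {e}) h t (z k)).card := h3u
      omega
    · rw [hm] at hJ
      have hcw := step0t_Jn_inj hJ hJb
      rw [← hcw, hjk] at h3w
      have h3w' : 3 ≤ (star (M.S \ {e}) h t (z k)).card := h3w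
      omega
  -- an edge determines the indices
  have hXinj : ∀ i j i' j', i ≠ j → i' ≠ j' → X i j = X i' j' → i = i' ∧ j = j' := by
    intro i j i' j' hij hij' heq
    have h1 := (hX i j hij).2
    have h2 := (hX i' j' hij').2
    rw [heq] at h1
    rcases h1 with ⟨h3, h4⟩ | ⟨h3, h4⟩ <;> rcases h2 with ⟨h5, h6⟩ | ⟨h5, h6⟩
    · exact ⟨hz (h3.symm.trans h5), hc (h4.symm.trans h6)⟩
    · exact absurd (h5.symm.trans h3) (hcz _ _)
    · exact absurd (h3.symm.trans h5) (hcz _ _)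
    · exact ⟨hz (h4.symm.trans h6), hc (h3.symm.trans h5)⟩
  have hst : ∀ i j k, j ≠ i → k ≠ i → j ≠ k →
      star (M.S \ {e}) h t (z i) = {X i j, X i k} := by
    intro i j k hji hki hjk
    symm
    apply Finset.eq_of_subset_of_card_le
    · intro x hx
      rw [Finset.mem_insert, Finset.mem_singleton] at hx
      rcases hx with rfl | rfl
      · exact step0t_mem_star (hX i j hji.symm).1 (hX i j hji.symm).2
      · exact step0t_mem_star (hX i k hki.symm).1 (hX i k hki.symm).2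
    · rw [(hz2 (z i) (hzU i)).2 ⟨i, rfl⟩, Finset.card_pair]
      intro heq
      exact hjk (hXinj i j i k hji.symm hki.symm heq).2
  obtain ⟨σ, τ, hστ, w, hw1, hw0, hσ, hτ⟩ := step0t_choice (fun i => c i ∈ T) hcT
  -- the sum over `T`
  have hsumT : ∀ π : V → ZMod 2, ∑ v ∈ T, π v = ∑ i, π (z i) + ∑ i, w i * π (c i) := by
    intro π
    have hT' : T = Finset.univ.image z ∪ (Finset.univ.filter fun i => c i ∈ T).image c := by
      ext v
      rw [Finset.mem_union, Finset.mem_image, Finset.mem_image]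
      constructor
      · intro hv
        rcases hTT v hv with ⟨i, hi⟩ | ⟨i, hi⟩
        · exact Or.inl ⟨i, Finset.mem_univ _, hi⟩
        · exact Or.inr ⟨i, Finset.mem_filter.2 ⟨Finset.mem_univ _, by rw [hi]; exact hv⟩, hi⟩
      · rintro (⟨i, -, rfl⟩ | ⟨i, hi, rfl⟩)
        · exact hzT i
        · exact (Finset.mem_filter.1 hi).2
    have hdis : Disjoint (Finset.univ.image z)
        ((Finset.univ.filter fun i => c i ∈ T).image c) := by
      rw [Finset.disjoint_left]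
      intro v hv hv'
      obtain ⟨i, -, rfl⟩ := Finset.mem_image.1 hv
      obtain ⟨j, -, hj⟩ := Finset.mem_image.1 hv'
      exact hcz j i hj
    have h1 : ∑ v ∈ T, π v = ∑ v ∈ Finset.univ.image z ∪
        (Finset.univ.filter fun i => c i ∈ T).image c, π v := by
      rw [← hT']
    rw [h1, Finset.sum_union hdis, Finset.sum_image (fun a _ b _ hab => hz hab),
      Finset.sum_image (fun a _ b _ hab => hc hab), Finset.sum_filter]
    congr 1
    refine Finset.sum_congr rfl fun i _ => ?_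
    by_cases hi : c i ∈ T
    · rw [if_pos hi, hw1 i hi, one_mul]
    · rw [if_neg hi, hw0 i hi, zero_mul]
  have hne : ∀ i j, i ≠ j → X i j ≠ e := by
    intro i j hij heq
    have h1 := (Finset.mem_sdiff.1 (hX i j hij).1).2
    rw [heq] at h1
    exact h1 (Finset.mem_singleton_self e)
  have hcyc : ∀ ρ : Fin 3 → Fin 3, (∀ i, ρ i ≠ i) →
      (∀ q : Fin 3 → ZMod 2, ∑ i, q (ρ i) = ∑ i, w i * q i) →
      ∀ f ∈ M.R, f e + f (X 0 (ρ 0)) + f (X 1 (ρ 1)) + f (X 2 (ρ 2)) = 0 := by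
    intro ρ hρ hq f hf
    obtain ⟨π, rfl⟩ := (hg.rows f).1 hf
    have hval : ∀ i, (fun x => if x = e then ∑ v ∈ T, π v else cob (M.S \ {e}) h t π x)
        (X i (ρ i)) = π (z i) + π (c (ρ i)) := by
      intro i
      show (if X i (ρ i) = e then ∑ v ∈ T, π v else cob (M.S \ {e}) h t π (X i (ρ i))) = _
      rw [if_neg (hne i (ρ i) (hρ i).symm)]
      unfold cob
      rw [if_pos (hX i (ρ i) (hρ i).symm).1]
      rcases (hX i (ρ i) (hρ i).symm).2 with ⟨h1, h2⟩ | ⟨h1, h2⟩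
      · rw [h1, h2]
      · rw [h1, h2, add_comm]
    have hvale : (fun x => if x = e then ∑ v ∈ T, π v else cob (M.S \ {e}) h t π x) e =
        ∑ i, π (z i) + ∑ i, π (c (ρ i)) := by
      show (if e = e then ∑ v ∈ T, π v else cob (M.S \ {e}) h t π e) = _
      rw [if_pos rfl, hsumT π, hq (fun i => π (c i))]
    rw [hval 0, hval 1, hval 2, hvale, Fin.sum_univ_three, Fin.sum_univ_three]
    have h2 := z_add_self (π (z 0) + π (z 1) + π (z 2) + (π (c (ρ 0)) + π (c (ρ 1)) + π (c (ρ 2))))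
    rw [← h2]
    ring
  -- series classes of `M.del {e}`
  have hser : ∀ i, (M.del {e}).Ser (X i (τ i)) (X i (σ i)) := by
    intro i
    have hxy : X i (τ i) ≠ X i (σ i) := by
      intro heq
      exact (hστ i).2.2 (hXinj i (τ i) i (σ i) (hστ i).2.1.symm (hστ i).1.symm heq).2.symm
    refine (hgr.star2 hsc htwo (hX i (τ i) (hστ i).2.1.symm).1 (hX i (σ i) (hστ i).1.symm).1 hxy).2
      ⟨z i, hzU i, ?_⟩
    exact hst i (τ i) (σ i) (hστ i).2.1 (hστ i).1 (hστ i).2.2.symm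
  have hcls : ∀ x ∈ M.S \ {e}, ∀ y ∈ M.S \ {e}, (M.del {e}).Ser x y → x ≠ y →
      ∃ i, x = X i (τ i) ∨ y = X i (τ i) := by
    intro x hx y hy hs hxy
    obtain ⟨s, hsU, hs2⟩ := (hgr.star2 hsc htwo hx hy hxy).1 hs
    have hs2' : star (M.S \ {e}) h t s = {x, y} := hs2
    have hcard : (star (M.S \ {e}) h t s).card = 2 := by
      rw [hs2', Finset.card_pair hxy]
    obtain ⟨i, rfl⟩ := (hz2 s hsU).1 hcard
    refine ⟨i, ?_⟩
    have hmem : X i (τ i) ∈ star (M.S \ {e}) h t (z i) :=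
      step0t_mem_star (hX i (τ i) (hστ i).2.1.symm).1 (hX i (τ i) (hστ i).2.1.symm).2
    rw [hs2', Finset.mem_insert, Finset.mem_singleton] at hmem
    rcases hmem with h | h
    · exact Or.inl h.symm
    · exact Or.inr h.symm
  have hbS : ∀ i, X i (τ i) ∈ (M.del {e}).S := fun i => (hX i (τ i) (hστ i).2.1.symm).1
  have haS : ∀ i, X i (σ i) ∈ (M.del {e}).S := fun i => (hX i (σ i) (hστ i).1.symm).1
  have hbb : ∀ i j, i ≠ j → X i (τ i) ≠ X j (τ j) := fun i j hij heq =>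
    hij (hXinj i (τ i) j (τ j) (hστ i).2.1.symm (hστ j).2.1.symm heq).1
  have hab : ∀ i j, X i (σ i) ≠ X j (τ j) := by
    intro i j heq
    obtain ⟨h1, h2⟩ := hXinj i (σ i) j (τ j) (hστ i).1.symm (hστ j).2.1.symm heq
    subst h1
    exact (hστ i).2.2 h2
  have hb0 : ∀ {A : Finset E} {x y : E}, x ∈ A → x ≠ y → x ∈ A \ {y} := by
    intro A x y hx hxy
    exact Finset.mem_sdiff.2 ⟨hx, fun h => hxy (Finset.mem_singleton.1 h)⟩
  -- three contractions
  set b : Fin 3 → E := fun i => X i (τ i) with hb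
  set a : Fin 3 → E := fun i => X i (σ i) with ha
  have hB01 : b 0 ≠ b 1 := hbb 0 1 (by decide)
  have hB02 : b 0 ≠ b 2 := hbb 0 2 (by decide)
  have hB12 : b 1 ≠ b 2 := hbb 1 2 (by decide)
  have hN1 := SC_con (M.del {e}) hsc (b 0) (a 0) (hbS 0) (haS 0) (hab 0 0).symm (hser 0)
  have hT1 : HasT rows ((M.del {e}).con {b 0}) :=
    HasT_con h0 (hbS 0) (haS 0) (hab 0 0).symm (hser 0) hT
  have m1b1 : b 1 ∈ ((M.del {e}).con {b 0}).S := hb0 (hbS 1) hB01.symm
  have m1a1 : a 1 ∈ ((M.del {e}).con {b 0}).S := hb0 (haS 1) (hab 1 0)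
  have s1 : ((M.del {e}).con {b 0}).Ser (b 1) (a 1) :=
    (hN1.2 (b 1) (hbS 1) hB01.symm (a 1) (haS 1) (hab 1 0)).2 (hser 1)
  have hN2 := SC_con ((M.del {e}).con {b 0}) hN1.1 (b 1) (a 1) m1b1 m1a1 (hab 1 1).symm s1
  have hT2 : HasT rows (((M.del {e}).con {b 0}).con {b 1}) :=
    HasT_con h0 m1b1 m1a1 (hab 1 1).symm s1 hT1
  have m1b2 : b 2 ∈ ((M.del {e}).con {b 0}).S := hb0 (hbS 2) hB02.symm
  have m1a2 : a 2 ∈ ((M.del {e}).con {b 0}).S := hb0 (haS 2) (hab 2 0)
  have m2b2 : b 2 ∈ (((M.del {e}).con {b 0}).con {b 1}).S := hb0 m1b2 hB12.symm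
  have m2a2 : a 2 ∈ (((M.del {e}).con {b 0}).con {b 1}).S := hb0 m1a2 (hab 2 1)
  have s2 : (((M.del {e}).con {b 0}).con {b 1}).Ser (b 2) (a 2) :=
    (hN2.2 (b 2) m1b2 hB12.symm (a 2) m1a2 (hab 2 1)).2
      ((hN1.2 (b 2) (hbS 2) hB02.symm (a 2) (haS 2) (hab 2 0)).2 (hser 2))
  have hN3 := SC_con (((M.del {e}).con {b 0}).con {b 1}) hN2.1 (b 2) (a 2) m2b2 m2a2
    (hab 2 2).symm s2
  have hT3 : HasT rows ((((M.del {e}).con {b 0}).con {b 1}).con {b 2}) :=
    HasT_con h0 m2b2 m2a2 (hab 2 2).symm s2 hT2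
  have hccc : (((M.del {e}).con {b 0}).con {b 1}).con {b 2} =
      (M.del {e}).con {b 0, b 1, b 2} := by
    rw [BM.con_con, BM.con_con]
    congr 1
  refine ⟨a, b, ?_⟩
  constructor
  · exact ⟨hg.mem, fun i => (Finset.mem_sdiff.1 (haS i)).1, fun i => (Finset.mem_sdiff.1 (hbS i)).1⟩
  · refine ⟨?_, ?_, hab, fun i => (hne i (σ i) (hστ i).1.symm).symm,
      fun i => (hne i (τ i) (hστ i).2.1.symm).symm⟩
    · intro i j hij
      exact (hXinj i (σ i) j (σ j) (hστ i).1.symm (hστ j).1.symm hij).1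
    · intro i j hij
      exact (hXinj i (τ i) j (τ j) (hστ i).2.1.symm (hστ j).2.1.symm hij).1
  · intro i
    have h1 := hg.star_mem (hzU i)
    rw [if_pos (hzT i), hst i (σ i) (τ i) (hστ i).1 (hστ i).2.1 (hστ i).2.2] at h1
    exact h1
  · exact hcyc σ (fun i => (hστ i).1) hσ
  · exact hcyc τ (fun i => (hστ i).2.1) hτ
  · rw [← hccc, TC_iff_SC]
    refine ⟨hN3.1, ?_⟩
    intro x hx y hy hs
    have hx2 : x ∈ (((M.del {e}).con {b 0}).con {b 1}).S := (Finset.mem_sdiff.1 hx).1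
    have hxb2 : x ≠ b 2 := fun h => (Finset.mem_sdiff.1 hx).2 (Finset.mem_singleton.2 h)
    have hx1 : x ∈ ((M.del {e}).con {b 0}).S := (Finset.mem_sdiff.1 hx2).1
    have hxb1 : x ≠ b 1 := fun h => (Finset.mem_sdiff.1 hx2).2 (Finset.mem_singleton.2 h)
    have hx0 : x ∈ (M.del {e}).S := (Finset.mem_sdiff.1 hx1).1
    have hxb0 : x ≠ b 0 := fun h => (Finset.mem_sdiff.1 hx1).2 (Finset.mem_singleton.2 h)
    have hy2 : y ∈ (((M.del {e}).con {b 0}).con {b 1}).S := (Finset.mem_sdiff.1 hy).1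
    have hyb2 : y ≠ b 2 := fun h => (Finset.mem_sdiff.1 hy).2 (Finset.mem_singleton.2 h)
    have hy1 : y ∈ ((M.del {e}).con {b 0}).S := (Finset.mem_sdiff.1 hy2).1
    have hyb1 : y ≠ b 1 := fun h => (Finset.mem_sdiff.1 hy2).2 (Finset.mem_singleton.2 h)
    have hy0 : y ∈ (M.del {e}).S := (Finset.mem_sdiff.1 hy1).1
    have hyb0 : y ≠ b 0 := fun h => (Finset.mem_sdiff.1 hy1).2 (Finset.mem_singleton.2 h)
    have hsN : (M.del {e}).Ser x y :=
      (hN1.2 x hx0 hxb0 y hy0 hyb0).1 ((hN2.2 x hx1 hxb1 y hy1 hyb1).1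
        ((hN3.2 x hx2 hxb2 y hy2 hyb2).1 hs))
    by_contra hxy
    obtain ⟨i, hi⟩ := hcls x hx0 y hy0 hsN hxy
    have h3 : ∀ i : Fin 3, i = 0 ∨ i = 1 ∨ i = 2 := by decide
    rcases h3 i with rfl | rfl | rfl <;> rcases hi with hi | hi
    · exact hxb0 hi
    · exact hyb0 hi
    · exact hxb1 hi
    · exact hyb1 hi
    · exact hxb2 hi
    · exact hyb2 hi
  · rw [← hccc]
    exact hT3

end SEY
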