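import Pool.Agent.Helper25.SEY.T.Def

/-!
T3-Swap.
T3-Step0.  See STEP 0 in /team-store/helper25_SEY.md.

`IsGraft.swap_set`: swapping at all vertices of SS (SS inside T, all of degree 2 in the SC graph M.del {e}, Two): repeated
`IsGraft.swap`; the vertices of SS are pairwise not adjacent (`IsGr.deg2`: the neighbours have degree >= 3), so
the swaps do not interfere: the final graft set is swT (M.S - e) h t U T SS.
`step0_T`: each vertex s of degree 2 in M.del {e} is in T: its star {p,q} is a row of M.del {e}; if s is not in T
then {p,q} is a row of M (`IsGraft.star_mem`): a series pair in a 3-connected matroid.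
`step0_con`: for a vertex s of degree 2 (in M.del {e}, star {p,q}, p joins s u, q joins s w): contract p (merge s into u):
(M.con {p}) del {e} is SC, Two, HasT; graft set (T - s) + {u} (s in T); `MinCx.graft_graphic`: M.con {p} graphic; `crit`: SS inside the new
graft set, all of degree 2 in (M.del {e}).con {p}: these are the other vertices of degree 2 of M.del {e} (degrees of other
vertices do not change: u loses p and gains q); conclusion in terms of the OLD graph: the set
swT (M.S - e) h t U (symmDiff (T.erase s) {u}) SS has at most 2 elements, where SS is a set of vertices of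
degree 2, s not in SS (the neighbours of s' in SS are the same in the old and in the new graph: s is not adjacent to s').
-/

namespace SEY

open Finset

variable {E : Type} [Fintype E] [DecidableEq E] {V : Type} [Fintype V] [DecidableEq V]

theorem Swap_mem_star {S : Finset E} {h t : E → V} {v : V} {x : E} :
    x ∈ star S h t v ↔ x ∈ S ∧ (h x = v ∨ t x = v) := by
  unfold star
  rw [Finset.mem_filter]

/-- Two vertices of degree two are not adjacent. -/
theorem Swap_nonadj {N : BM E} {U : Finset V} {h t : E → V} (hg : IsGr N U h t)
    (hsc : N.SC) (h2 : N.Two) {s s' : V} (hs : s ∈ U) (hss : s ≠ s')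
    (hd : (star N.S h t s).card = 2) (hd' : (star N.S h t s').card = 2) {x : E}
    (hx : x ∈ star N.S h t s) (hx' : x ∈ star N.S h t s') : False := by
  obtain ⟨a, b, u, w, -, -, -, hst, ja, jb, -, -, -, -, -, du, dw, -, -⟩ :=
    hg.deg2 hsc h2 hs hd
  have hu : u ≠ s' := by
    intro h0
    rw [h0] at du
    omega
  have hw : w ≠ s' := by
    intro h0
    rw [h0] at dw
    omega
  rw [hst, Finset.mem_insert, Finset.mem_singleton] at hx
  rw [Swap_mem_star] at hx'
  rcases hx with rfl | rfl
  · rcases ja with ⟨j1, j2⟩ | ⟨j1, j2⟩ <;> rcases hx'.2 with k | k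
    · exact hss (j1.symm.trans k)
    · exact hu (j2.symm.trans k)
    · exact hu (j1.symm.trans k)
    · exact hss (j2.symm.trans k)
  · rcases jb with ⟨j1, j2⟩ | ⟨j1, j2⟩ <;> rcases hx'.2 with k | k
    · exact hss (j1.symm.trans k)
    · exact hw (j2.symm.trans k)
    · exact hw (j1.symm.trans k)
    · exact hss (j2.symm.trans k)

theorem Swap_jn_unique {h t : E → V} {x : E} {s u v : V} (hus : u ≠ s) (hj : Jn h t x s u)
    (hj' : Jn h t x s v) : v = u := by
  rcases hj with ⟨j1, j2⟩ | ⟨j1, j2⟩ <;> rcases hj' with ⟨k1, k2⟩ | ⟨k1, k2⟩
  · exact k2.symm.trans j2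
  · exact absurd (j2.symm.trans k2) hus
  · exact absurd (j1.symm.trans k1) hus
  · exact k1.symm.trans j1

theorem Swap_aux {M : BM E} {e : E} {U : Finset V} {h t : E → V} {T : Finset V}
    (hg : IsGraft M e U h t T) (hsc : (M.del {e}).SC) (h2 : (M.del {e}).Two) (SS : Finset V) :
    SS ⊆ T → (∀ s ∈ SS, (star (M.S \ {e}) h t s).card = 2) →
    ∃ h' t' : E → V, IsGraft M e U h' t' (swT (M.S \ {e}) h t U T SS) ∧
      (∀ x ∈ M.S \ {e}, (∀ s ∈ SS, x ∉ star (M.S \ {e}) h t s) → h' x = h x ∧ t' x = t x) ∧
      (∀ s0, s0 ∉ SS → (star (M.S \ {e}) h t s0).card = 2 → ∀ x ∈ M.S \ {e},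
        (h' x = s0 ∨ t' x = s0) → (h x = s0 ∨ t x = s0)) := by
  induction SS using Finset.induction_on with
  | empty =>
    intro _ _
    refine ⟨h, t, ?_, fun x _ _ => ⟨rfl, rfl⟩, fun s0 _ _ x _ hx => hx⟩
    have : swT (M.S \ {e}) h t U T ∅ = T := by
      unfold swT
      ext v
      rw [Finset.mem_filter, Finset.sum_empty, add_zero]
      by_cases hv : v ∈ T
      · simp [hv, hg.sub hv]
      · simp [hv]
    rw [this]
    exact hg
  | insert s SS hsS ih =>
    intro hSS hd
    obtain ⟨h', t', i1, i2, i3⟩ := ih (fun x hx => hSS (Finset.mem_insert_of_mem hx))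
      (fun x hx => hd x (Finset.mem_insert_of_mem hx))
    have hsT : s ∈ T := hSS (Finset.mem_insert_self s SS)
    have hsU : s ∈ U := hg.sub hsT
    have hds : (star (M.S \ {e}) h t s).card = 2 := hd s (Finset.mem_insert_self s SS)
    obtain ⟨a, b, u, w, ha, hb, hab, hst, ja, jb, huU, hwU, huw, hus, hws, du, dw, -, -⟩ :=
      hg.gr.deg2 hsc h2 hsU hds
    have haS : a ∈ M.S \ {e} := ha
    have hbS : b ∈ M.S \ {e} := hb
    have hst' : star (M.S \ {e}) h t s = {a, b} := hst
    have du' : 3 ≤ (star (M.S \ {e}) h t u).card := du
    have dw' : 3 ≤ (star (M.S \ {e}) h t w).card := dw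
    have na : ∀ x ∈ star (M.S \ {e}) h t s, ∀ s' ∈ SS, x ∉ star (M.S \ {e}) h t s' := by
      intro x hx s' hs' hx'
      have hne : s ≠ s' := by
        intro h0
        exact hsS (h0 ▸ hs')
      exact Swap_nonadj hg.gr hsc h2 hsU hne hds (hd s' (Finset.mem_insert_of_mem hs')) hx hx'
    have ea := i2 a haS (na a (by rw [hst']; simp))
    have eb := i2 b hbS (na b (by rw [hst']; simp))
    have ja' : Jn h' t' a s u := by
      unfold Jn at ja ⊢
      rw [ea.1, ea.2]
      exact ja
    have jb' : Jn h' t' b s w := by
      unfold Jn at jb ⊢
      rw [eb.1, eb.2]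
      exact jb
    have hstar : star (M.S \ {e}) h' t' s = {a, b} := by
      rw [← hst']
      ext x
      rw [Swap_mem_star, Swap_mem_star]
      constructor
      · rintro ⟨hx, hx'⟩
        exact ⟨hx, i3 s hsS hds x hx hx'⟩
      · rintro ⟨hx, hx'⟩
        have := i2 x hx (na x (Swap_mem_star.2 ⟨hx, hx'⟩))
        rw [this.1, this.2]
        exact ⟨hx, hx'⟩
    have key := i1.swap hsU hstar hab ja' jb' huw
    have hsT' : s ∈ swT (M.S \ {e}) h t U T SS := by
      unfold swT
      rw [Finset.mem_filter]
      refine ⟨hsU, ?_⟩
      have h0 : ∑ s' ∈ SS, ((M.S \ {e}).filter (fun x => Jn h t x s' s)).card = 0 := by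
        apply Finset.sum_eq_zero
        intro s' hs'
        rw [Finset.card_eq_zero, Finset.filter_eq_empty_iff]
        intro x hx hj
        have h1 : x ∈ star (M.S \ {e}) h t s := by
          rw [Swap_mem_star]
          rcases hj with ⟨j1, j2⟩ | ⟨j1, j2⟩
          · exact ⟨hx, Or.inr j2⟩
          · exact ⟨hx, Or.inl j1⟩
        have h3 : x ∈ star (M.S \ {e}) h t s' := by
          rw [Swap_mem_star]
          rcases hj with ⟨j1, j2⟩ | ⟨j1, j2⟩
          · exact ⟨hx, Or.inl j1⟩
          · exact ⟨hx, Or.inr j2⟩
        exact na x h1 s' hs' h3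
      rw [h0, if_pos hsT]
      simp
    rw [if_pos hsT'] at key
    have hT : symmDiff (swT (M.S \ {e}) h t U T SS) {u, w} =
        swT (M.S \ {e}) h t U T (insert s SS) := by
      ext v
      have hcount : ((M.S \ {e}).filter (fun x => Jn h t x s v)).card =
          if v = u ∨ v = w then 1 else 0 := by
        have hsub : (M.S \ {e}).filter (fun x => Jn h t x s v) ⊆ {a, b} := by
          intro x hx
          rw [Finset.mem_filter] at hx
          rw [← hst', Swap_mem_star]
          rcases hx.2 with ⟨j1, j2⟩ | ⟨j1, j2⟩
          · exact ⟨hx.1, Or.inl j1⟩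
          · exact ⟨hx.1, Or.inr j2⟩
        by_cases hvu : v = u
        · subst hvu
          have : (M.S \ {e}).filter (fun x => Jn h t x s v) = {a} := by
            ext x
            rw [Finset.mem_filter, Finset.mem_singleton]
            constructor
            · intro hx
              have h1 := hsub (Finset.mem_filter.2 hx)
              rw [Finset.mem_insert, Finset.mem_singleton] at h1
              rcases h1 with h1 | h1
              · exact h1
              · subst h1
                exact absurd (Swap_jn_unique hws jb hx.2) huw
            · rintro rfl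
              exact ⟨haS, ja⟩
          rw [this, if_pos (Or.inl rfl)]
          simp
        · by_cases hvw : v = w
          · subst hvw
            have : (M.S \ {e}).filter (fun x => Jn h t x s v) = {b} := by
              ext x
              rw [Finset.mem_filter, Finset.mem_singleton]
              constructor
              · intro hx
                have h1 := hsub (Finset.mem_filter.2 hx)
                rw [Finset.mem_insert, Finset.mem_singleton] at h1
                rcases h1 with h1 | h1
                · subst h1
                  exact absurd (Swap_jn_unique hus ja hx.2) hvu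
                · exact h1
              · rintro rfl
                exact ⟨hbS, jb⟩
            rw [this, if_pos (Or.inr rfl)]
            simp
          · rw [if_neg (by tauto), Finset.card_eq_zero]
            rw [Finset.eq_empty_iff_forall_notMem]
            intro x hx
            have h1 := hsub hx
            rw [Finset.mem_filter] at hx
            rw [Finset.mem_insert, Finset.mem_singleton] at h1
            rcases h1 with h1 | h1
            · subst h1
              exact hvu (Swap_jn_unique hus ja hx.2)
            · subst h1
              exact hvw (Swap_jn_unique hws jb hx.2)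
      rw [Finset.mem_symmDiff]
      unfold swT
      rw [Finset.mem_filter, Finset.mem_filter, Finset.sum_insert hsS, hcount,
        Finset.mem_insert, Finset.mem_singleton]
      set m := ∑ s ∈ SS, ((M.S \ {e}).filter (fun x => Jn h t x s v)).card with hm
      set c := (if v ∈ T then 1 else 0) with hc
      by_cases hvuw : v = u ∨ v = w
      · have hvU : v ∈ U := by
          rcases hvuw with h0 | h0
          · rw [h0]; exact huU
          · rw [h0]; exact hwU
        rw [if_pos hvuw]
        have hpar : Odd (c + (1 + m)) ↔ ¬ Odd (c + m) := by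
          rw [show c + (1 + m) = (c + m) + 1 by ring, Nat.odd_add_one]
        rw [hpar]
        tauto
      · rw [if_neg hvuw, zero_add]
        tauto
    rw [hT] at key
    refine ⟨_, _, key, ?_, ?_⟩
    · intro x hx hx'
      have hxs := hx' s (Finset.mem_insert_self s SS)
      rw [hst', Finset.mem_insert, Finset.mem_singleton, not_or] at hxs
      have h3 := i2 x hx (fun s' hs' => hx' s' (Finset.mem_insert_of_mem hs'))
      simp only [hxs.1, hxs.2, or_self, if_false]
      exact h3
    · intro s0 hs0 hd0 x hx hx'
      rw [Finset.mem_insert, not_or] at hs0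
      have hu0 : u ≠ s0 := by
        intro h0
        rw [h0] at du'
        omega
      have hw0 : w ≠ s0 := by
        intro h0
        rw [h0] at dw'
        omega
      by_cases hxa : x = a
      · subst hxa
        simp only [true_or, if_true] at hx'
        rcases hx' with h0 | h0
        · exact absurd h0.symm hs0.1
        · exact absurd h0 hw0
      · by_cases hxb : x = b
        · subst hxb
          simp only [hxa, or_true, if_true, if_false] at hx'
          rcases hx' with h0 | h0
          · exact absurd h0.symm hs0.1
          · exact absurd h0 hu0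
        · simp only [hxa, hxb, or_self, if_false] at hx'
          exact i3 s0 hs0.2 hd0 x hx hx'

theorem IsGraft.swap_set {M : BM E} {e : E} {U : Finset V} {h t : E → V} {T : Finset V}
    (hg : IsGraft M e U h t T) (hsc : (M.del {e}).SC) (h2 : (M.del {e}).Two) (SS : Finset V)
    (hSS : SS ⊆ T) (hd : ∀ s ∈ SS, (star (M.S \ {e}) h t s).card = 2) :
    ∃ h' t' : E → V, IsGraft M e U h' t' (swT (M.S \ {e}) h t U T SS) := by
  obtain ⟨h', t', hh, -⟩ := Swap_aux hg hsc h2 SS hSS hd
  exact ⟨h', t', hh⟩

end SEY
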