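import Pool.Agent.Helper25.SEY.T.Comb
import Pool.Agent.Helper25.SEY.T.Swap
import Pool.Agent.Helper25.SEY.T.Step0c
import Pool.Agent.Helper25.SEY.T.Step0t

/-!
T3-Step0F.
T3-Step0F: STEP 0, conclusion.

`step0_tri`: the triangle type.  M.del {e} has exactly the three vertices z 0, z 1, z 2 of degree 2; star (z i) = {p i, q i}; c 0, c 1, c 2 are three different
vertices, z i is adjacent to the two c j with j /= i; T is the disjoint union of {z 0,z 1,z 2} and an odd subset T0 of {c 0,c 1,c 2}
(T0 = {c j} or all).  Choose for every i one x i in {c j : j /= i} with x 0 + x 1 + x 2 = T0 (mod 2): T0 = {c0,c1,c2}: x i = c (i+1); T0 = {c 0}: x = (c 1, c 0, c 1)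
[x 0 in {c1,c2}, x 1 in {c0,c2}, x 2 in {c0,c1}], and similarly for T0 = {c 1}: (c 1, c 0, c 0), T0 = {c 2}: (c 1, c 2, c 1).
Let a i be the edge z i - x i, b i the other edge at z i.  Then f e = sum over T = sum of the z i + sum of the x i (mod 2) = sum f (a i); for b: the other
neighbours x' i satisfy sum x i + sum x' i = sum over i of p_i = 2 (c0+c1+c2) = 0, so the same holds.  Rows {e, a i, b i}: lifted star of z i
(z i in T).  (M.del {e}).con {b 0,b 1,b 2}: contraction in three different 2-classes: SC with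
singleton classes: TC (`SC_con` three times, `con_del_comm`, `con_con`); HasT by `HasT_con`.
`step0`: take e from `bg_has` (M is not iso to N0, as N0 is graphic: `Graphic_of_IsIso`), N = M.del {e} SC, HasT, graphic by
`MinCx.sc_graphic`, Two by `TC.del_two`; `exists_IsGr`, `exists_graft` (e is no coloop of the TC matroid M).  Let Z2 = {z i : i < m} be the
vertices of degree 2 (enumerated), u i, w i, from `IsGr.deg2`; T0 v = 1 iff v in T and v not in Z2.  Z2 is inside T (`step0_T`).  Translate: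
for I a set of indices, SS = z '' I: (swT ... T SS).card = wt (T0 + sum_I p) + m (z i stays: its neighbours are not in Z2; the vertices
outside Z2 are changed by the p i): (N) from `IsGraft.swap_set` and `MinCx.four_le`; (A), (B) from `step0_con` (for T.erase (z i) + {u i}:
m - 1 vertices of Z2 are left; the SS there is z '' I with i not in I).  `comb`: m = 0: no vertex of degree 2:
N is TC (`IsGr.tc_of_deg`, `IsGr.two_le_deg`); or m = 3: `step0_tri`.
-/

namespace SEY

open Finset

variable {E : Type} [Fintype E] [DecidableEq E] {V : Type} [Fintype V] [DecidableEq V]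

omit [Fintype E] [DecidableEq E] [Fintype V] [DecidableEq V] in
theorem step0F_jn {h t : E → V} {x : E} {s u v : V} (h1 : Jn h t x s u) (h2 : Jn h t x s v) :
    u = v := by
  rcases h1 with ⟨h3, h4⟩ | ⟨h3, h4⟩ <;> rcases h2 with ⟨h5, h6⟩ | ⟨h5, h6⟩
  · exact h4.symm.trans h6
  · exact (h4.symm.trans h6).trans (h3.symm.trans h5)
  · exact (h3.symm.trans h5).trans (h4.symm.trans h6)
  · exact h3.symm.trans h5

omit [Fintype E] [Fintype V] in
/-- The number of edges between a vertex of degree two and another vertex. -/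
theorem step0F_count {S : Finset E} {h t : E → V} {s u w : V} {a b : E}
    (hst : star S h t s = {a, b}) (ha : Jn h t a s u) (hb : Jn h t b s w)
    (huw : u ≠ w) (v : V) :
    (((S.filter (fun x => Jn h t x s v)).card : ℕ) : ZMod 2) =
      (Pi.single u 1 + Pi.single w 1 : V → ZMod 2) v := by
  have hmem : ∀ x, x ∈ S.filter (fun x => Jn h t x s v) ↔ (x = a ∧ v = u) ∨ (x = b ∧ v = w) := by
    intro x
    rw [mem_filter]
    constructor
    · rintro ⟨hx, hj⟩
      have h1 : x ∈ star S h t s := by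
        rw [star, mem_filter]
        refine ⟨hx, ?_⟩
        rcases hj with ⟨h3, -⟩ | ⟨-, h4⟩
        · exact Or.inl h3
        · exact Or.inr h4
      rw [hst, mem_insert, mem_singleton] at h1
      rcases h1 with rfl | rfl
      · exact Or.inl ⟨rfl, step0F_jn hj ha⟩
      · exact Or.inr ⟨rfl, step0F_jn hj hb⟩
    · have ha' : a ∈ S := by
        have h1 : a ∈ star S h t s := by rw [hst]; simp
        exact (mem_filter.1 h1).1
      have hb' : b ∈ S := by
        have h1 : b ∈ star S h t s := by rw [hst]; simp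
        exact (mem_filter.1 h1).1
      rintro (⟨rfl, rfl⟩ | ⟨rfl, rfl⟩)
      · exact ⟨ha', ha⟩
      · exact ⟨hb', hb⟩
  by_cases hvu : v = u
  · have h1 : S.filter (fun x => Jn h t x s v) = {a} := by
      ext x
      rw [hmem, mem_singleton]
      constructor
      · rintro (⟨h1, -⟩ | ⟨-, h1⟩)
        · exact h1
        · exact absurd (hvu.symm.trans h1) huw
      · exact fun h1 => Or.inl ⟨h1, hvu⟩
    rw [h1, card_singleton, Pi.add_apply, hvu, Pi.single_eq_same, Pi.single_eq_of_ne huw]
    rfl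
  · by_cases hvw : v = w
    · have h1 : S.filter (fun x => Jn h t x s v) = {b} := by
        ext x
        rw [hmem, mem_singleton]
        constructor
        · rintro (⟨-, h1⟩ | ⟨h1, -⟩)
          · exact absurd h1 hvu
          · exact h1
        · exact fun h1 => Or.inr ⟨h1, hvw⟩
      rw [h1, card_singleton, Pi.add_apply, hvw, Pi.single_eq_same,
        Pi.single_eq_of_ne (Ne.symm huw)]
      rfl
    · have h1 : S.filter (fun x => Jn h t x s v) = ∅ := by
        rw [eq_empty_iff_forall_notMem]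
        intro x hx
        rw [hmem] at hx
        tauto
      rw [h1, card_empty, Pi.add_apply, Pi.single_eq_of_ne hvu, Pi.single_eq_of_ne hvw]
      rfl

omit [Fintype E] [Fintype V] in
/-- The set after swapping, as a support. -/
theorem step0F_swT {S : Finset E} {h t : E → V} {m : ℕ} {z u w : Fin m → V}
    {a b : Fin m → E} (hz : Function.Injective z)
    (hst : ∀ i, star S h t (z i) = {a i, b i}) (ha : ∀ i, Jn h t (a i) (z i) (u i))
    (hb : ∀ i, Jn h t (b i) (z i) (w i)) (huw : ∀ i, u i ≠ w i)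
    (U T : Finset V) (I : Finset (Fin m)) :
    swT S h t U T (I.image z) = U.filter (fun v => ((if v ∈ T then 1 else 0 : ZMod 2) +
      (∑ i ∈ I, (Pi.single (u i) 1 + Pi.single (w i) 1 : V → ZMod 2)) v) ≠ 0) := by
  unfold swT
  refine filter_congr fun v _ => ?_
  rw [← ZMod.natCast_ne_zero_iff_odd]
  push_cast
  rw [sum_image (fun i _ j _ hij => hz hij), Finset.sum_apply]
  have h1 : ∀ i ∈ I, (((S.filter (fun x => Jn h t x (z i) v)).card : ℕ) : ZMod 2) =
      (Pi.single (u i) 1 + Pi.single (w i) 1 : V → ZMod 2) v := fun i _ =>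
    step0F_count (hst i) (ha i) (hb i) (huw i) v
  rw [sum_congr rfl h1]

/-- Counting the support. -/
theorem step0F_card {g : V → ZMod 2} {W U : Finset V} (hW : W ⊆ U)
    (hgs : ∀ v, g v ≠ 0 → v ∈ U ∧ v ∉ W) :
    (U.filter (fun v => g v + (if v ∈ W then 1 else 0 : ZMod 2) ≠ 0)).card =
      wt g + W.card := by
  have h1 : U.filter (fun v => g v + (if v ∈ W then 1 else 0 : ZMod 2) ≠ 0) =
      (Finset.univ.filter (fun v => g v ≠ 0)) ∪ W := by
    ext v
    rw [mem_filter, mem_union, mem_filter]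
    by_cases hv : v ∈ W
    · have h0 : g v = 0 := by
        by_contra hne
        exact (hgs v hne).2 hv
      rw [if_pos hv, h0]
      simp only [zero_add]
      constructor
      · exact fun _ => Or.inr hv
      · exact fun _ => ⟨hW hv, one_ne_zero⟩
    · rw [if_neg hv, add_zero]
      constructor
      · rintro ⟨-, h2⟩
        exact Or.inl ⟨mem_univ _, h2⟩
      · rintro (⟨-, h2⟩ | h2)
        · exact ⟨(hgs v h2).1, h2⟩
        · exact absurd h2 hv
  rw [h1, card_union_of_disjoint]
  · rfl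
  · rw [Finset.disjoint_left]
    intro v hv hv'
    exact (hgs v (mem_filter.1 hv).2).2 hv'

theorem step0F_p {V : Type} [DecidableEq V] {u w u' w' : V} (huw : u ≠ w)
    (h : (Pi.single u 1 + Pi.single w 1 : V → ZMod 2) = Pi.single u' 1 + Pi.single w' 1) :
    (u = u' ∧ w = w') ∨ (u = w' ∧ w = u') := by
  have h1 : (Pi.single u 1 + Pi.single w 1 : V → ZMod 2) u = 1 := by
    rw [Pi.add_apply, Pi.single_eq_same, Pi.single_eq_of_ne huw, add_zero]
  have h2 : (Pi.single u 1 + Pi.single w 1 : V → ZMod 2) w = 1 := by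
    rw [Pi.add_apply, Pi.single_eq_same, Pi.single_eq_of_ne huw.symm, zero_add]
  rw [h] at h1 h2
  rw [Pi.add_apply] at h1 h2
  by_cases ha : u = u'
  · by_cases hb : w = w'
    · exact Or.inl ⟨ha, hb⟩
    · rw [Pi.single_eq_of_ne hb, add_zero] at h2
      by_cases hc : w = u'
      · exact absurd (ha.trans hc.symm) huw
      · rw [Pi.single_eq_of_ne hc] at h2
        exact absurd h2 zero_ne_one
  · rw [Pi.single_eq_of_ne ha, zero_add] at h1
    by_cases hb : u = w'
    · by_cases hc : w = u'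
      · exact Or.inr ⟨hb, hc⟩
      · rw [Pi.single_eq_of_ne hc, zero_add] at h2
        by_cases hd : w = w'
        · exact absurd (hb.trans hd.symm) huw
        · rw [Pi.single_eq_of_ne hd] at h2
          exact absurd h2 zero_ne_one
    · rw [Pi.single_eq_of_ne hb] at h1
      exact absurd h1 zero_ne_one

theorem step0F_main {r l : ℕ} {rows : Fin r → Fin l → ZMod 2} (h0 : (ofRows rows).TC)
    {M : BM E} (hM : MinCx rows M) {e : E} {U : Finset V} {h t : E → V} {T : Finset V}
    (hg : IsGraft M e U h t T) (hsc : (M.del {e}).SC) (hT : HasT rows (M.del {e})) :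
    (∃ a b : Fin 3 → E, TriT rows M e a b) ∨ (M.del {e}).TC := by
  have h2 : (M.del {e}).Two := TC.del_two hM.tc hg.mem
  obtain ⟨Z2, hZ2⟩ : ∃ Z2 : Finset V, Z2 = U.filter
    (fun s => (star (M.S \ {e}) h t s).card = 2) := ⟨_, rfl⟩
  have hmemZ : ∀ s, s ∈ Z2 ↔ s ∈ U ∧ (star (M.S \ {e}) h t s).card = 2 := by
    intro s; rw [hZ2, mem_filter]
  obtain ⟨m, hm⟩ : ∃ m, m = Z2.card := ⟨_, rfl⟩
  obtain ⟨z, hzinj, hzmem, hzsurj⟩ : ∃ z : Fin m → V, Function.Injective z ∧ (∀ i, z i ∈ Z2) ∧
      ∀ s ∈ Z2, ∃ i, z i = s := by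
    subst hm
    refine ⟨fun i => (Z2.equivFin.symm i).1,
      Subtype.val_injective.comp Z2.equivFin.symm.injective,
      fun i => (Z2.equivFin.symm i).2, fun s hs => ⟨Z2.equivFin ⟨s, hs⟩, ?_⟩⟩
    simp
  have hzU : ∀ i, z i ∈ U := fun i => ((hmemZ _).1 (hzmem i)).1
  have hz2 : ∀ i, (star (M.S \ {e}) h t (z i)).card = 2 := fun i => ((hmemZ _).1 (hzmem i)).2
  have hzT : ∀ i, z i ∈ T := fun i => step0_T hM.tc hg (hzU i) (hz2 i)
  have hZT : Z2 ⊆ T := by
    intro s hs
    obtain ⟨i, rfl⟩ := hzsurj s hs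
    exact hzT i
  have hZU : Z2 ⊆ U := hZT.trans hg.sub
  have hdeg : ∀ i, ∃ (a b : E) (u w : V), a ∈ (M.del {e}).S ∧ b ∈ (M.del {e}).S ∧ a ≠ b ∧
      star (M.del {e}).S h t (z i) = {a, b} ∧ Jn h t a (z i) u ∧
      Jn h t b (z i) w ∧ u ∈ U ∧ w ∈ U ∧ u ≠ w ∧ u ≠ z i ∧ w ≠ z i ∧
      3 ≤ (star (M.del {e}).S h t u).card ∧ 3 ≤ (star (M.del {e}).S h t w).card ∧
      (∀ x ∈ (M.del {e}).S, ¬ Jn h t x u w) ∧
      (∀ s' ∈ U, s' ≠ z i → (star (M.del {e}).S h t s').card = 2 →
        ∀ x ∈ (M.del {e}).S, ∀ y ∈ (M.del {e}).S,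
        Jn h t x s' u → ¬ Jn h t y s' w) :=
    fun i => hg.gr.deg2 hsc h2 (hzU i) (hz2 i)
  choose a b u w ha hb hab hst hja hjb huU hwU huw huz hwz hud hwd hnuw hsep using hdeg
  have huZ : ∀ i, u i ∉ Z2 := by
    intro i hi
    have h3 := ((hmemZ _).1 hi).2
    have h4 : 3 ≤ (star (M.S \ {e}) h t (u i)).card := hud i
    omega
  have hwZ : ∀ i, w i ∉ Z2 := by
    intro i hi
    have h3 := ((hmemZ _).1 hi).2
    have h4 : 3 ≤ (star (M.S \ {e}) h t (w i)).card := hwd i
    omega
  obtain ⟨T0, hT0⟩ : ∃ T0 : V → ZMod 2, T0 = fun v => if v ∈ T ∧ v ∉ Z2 then 1 else 0 :=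
    ⟨_, rfl⟩
  have hT0a : ∀ v, T0 v ≠ 0 → v ∈ T ∧ v ∉ Z2 := by
    intro v hv
    by_contra hn
    apply hv
    rw [hT0]
    exact if_neg hn
  have hTsplit : ∀ v, (if v ∈ T then 1 else 0 : ZMod 2) = T0 v + (if v ∈ Z2 then 1 else 0) := by
    intro v
    rw [hT0]
    by_cases h1 : v ∈ T
    · by_cases h3 : v ∈ Z2
      · simp [h1, h3]
      · simp [h1, h3]
    · have h3 : v ∉ Z2 := fun h3 => h1 (hZT h3)
      simp [h1, h3]
  -- the support of `T0 + c + ∑ p`
  have hpsupp : ∀ (I : Finset (Fin m)) v,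
      (∑ i ∈ I, (Pi.single (u i) 1 + Pi.single (w i) 1 : V → ZMod 2)) v ≠ 0 →
      v ∈ U ∧ v ∉ Z2 := by
    intro I v hv
    rw [Finset.sum_apply] at hv
    obtain ⟨i, -, hi⟩ := exists_ne_zero_of_sum_ne_zero hv
    rw [Pi.add_apply] at hi
    by_cases h3 : v = u i
    · rw [h3]; exact ⟨huU i, huZ i⟩
    · by_cases h4 : v = w i
      · rw [h4]; exact ⟨hwU i, hwZ i⟩
      · rw [Pi.single_eq_of_ne h3, Pi.single_eq_of_ne h4, add_zero] at hi
        exact absurd rfl hi
  -- the neutral count
  have hcountN : ∀ I : Finset (Fin m), (swT (M.S \ {e}) h t U T (I.image z)).card =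
      wt (T0 + ∑ i ∈ I, (Pi.single (u i) 1 + Pi.single (w i) 1 : V → ZMod 2)) + m := by
    intro I
    have hsupp : ∀ v, (T0 + ∑ i ∈ I, (Pi.single (u i) 1 + Pi.single (w i) 1 : V → ZMod 2)) v ≠ 0 →
        v ∈ U ∧ v ∉ Z2 := by
      intro v hv
      rw [Pi.add_apply] at hv
      by_cases h3 : T0 v = 0
      · rw [h3, zero_add] at hv
        exact hpsupp I v hv
      · exact ⟨hg.sub (hT0a v h3).1, (hT0a v h3).2⟩
    have key := step0F_card hZU hsupp
    rw [← hm] at key
    rw [step0F_swT (S := M.S \ {e}) hzinj hst hja hjb huw U T I, ← key]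
    congr 1
    refine filter_congr fun v _ => ?_
    rw [hTsplit v, Pi.add_apply]
    have h3 : T0 v + (if v ∈ Z2 then 1 else 0) +
        (∑ i ∈ I, (Pi.single (u i) 1 + Pi.single (w i) 1 : V → ZMod 2)) v =
        T0 v + (∑ i ∈ I, (Pi.single (u i) 1 + Pi.single (w i) 1 : V → ZMod 2)) v +
        (if v ∈ Z2 then 1 else 0) := by ring
    rw [h3]
  -- the count with one vertex removed
  have hcountA : ∀ (I : Finset (Fin m)) (i : Fin m) (c : V), c ∈ U → c ∉ Z2 →
      (swT (M.S \ {e}) h t U (symmDiff (T.erase (z i)) {c}) (I.image z)).card =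
      wt (T0 + Pi.single c 1 +
        ∑ j ∈ I, (Pi.single (u j) 1 + Pi.single (w j) 1 : V → ZMod 2)) + (m - 1) := by
    intro I i c hcU hcZ
    have hsupp : ∀ v, (T0 + (Pi.single c 1 : V → ZMod 2) +
        ∑ j ∈ I, (Pi.single (u j) 1 + Pi.single (w j) 1 : V → ZMod 2)) v ≠ 0 →
        v ∈ U ∧ v ∉ Z2.erase (z i) := by
      intro v hv
      have h3 : v ∈ U ∧ v ∉ Z2 := by
        rw [Pi.add_apply, Pi.add_apply] at hv
        by_cases h3 : T0 v = 0
        · by_cases h4 : v = c
          · rw [h4]; exact ⟨hcU, hcZ⟩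
          · rw [h3, Pi.single_eq_of_ne h4, zero_add, zero_add] at hv
            exact hpsupp I v hv
        · exact ⟨hg.sub (hT0a v h3).1, (hT0a v h3).2⟩
      exact ⟨h3.1, fun h4 => h3.2 (mem_of_mem_erase h4)⟩
    have key := step0F_card ((erase_subset (z i) Z2).trans hZU) hsupp
    rw [card_erase_of_mem (hzmem i), ← hm] at key
    rw [step0F_swT (S := M.S \ {e}) hzinj hst hja hjb huw U _ I, ← key]
    congr 1
    refine filter_congr fun v _ => ?_
    have h3 : (if v ∈ symmDiff (T.erase (z i)) {c} then 1 else 0 : ZMod 2) =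
        T0 v + (Pi.single c 1 : V → ZMod 2) v + (if v ∈ Z2.erase (z i) then 1 else 0) := by
      have h4 : (if v ∈ symmDiff (T.erase (z i)) {c} then 1 else 0 : ZMod 2) =
          (if v ∈ T.erase (z i) then 1 else 0) + (Pi.single c 1 : V → ZMod 2) v := by
        by_cases h5 : v = c
        · have h6 : (Pi.single c 1 : V → ZMod 2) v = 1 := by
            rw [h5, Pi.single_eq_same]
          rw [h6]
          by_cases h7 : v ∈ T.erase (z i)
          · rw [if_pos h7, if_neg]
            · decide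
            · rw [mem_symmDiff, mem_singleton]
              tauto
          · rw [if_neg h7, if_pos]
            · decide
            · rw [mem_symmDiff, mem_singleton]
              tauto
        · rw [Pi.single_eq_of_ne h5, add_zero]
          by_cases h7 : v ∈ T.erase (z i)
          · rw [if_pos h7, if_pos]
            rw [mem_symmDiff, mem_singleton]
            tauto
          · rw [if_neg h7, if_neg]
            rw [mem_symmDiff, mem_singleton]
            tauto
      rw [h4]
      have h5 : (if v ∈ T.erase (z i) then 1 else 0 : ZMod 2) =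
          T0 v + (if v ∈ Z2.erase (z i) then 1 else 0) := by
        by_cases h6 : v = z i
        · have h7 : T0 v = 0 := by
            by_contra h8
            exact (hT0a v h8).2 (h6 ▸ hzmem i)
          rw [h7, if_neg, if_neg, add_zero]
          · rw [h6]; exact notMem_erase _ _
          · rw [h6]; exact notMem_erase _ _
        · have h7 := hTsplit v
          have h8 : v ∈ T.erase (z i) ↔ v ∈ T := by
            rw [mem_erase]; exact ⟨fun h => h.2, fun h => ⟨h6, h⟩⟩
          have h9 : v ∈ Z2.erase (z i) ↔ v ∈ Z2 := by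
            rw [mem_erase]; exact ⟨fun h => h.2, fun h => ⟨h6, h⟩⟩
          simp only [h8, h9]
          exact h7
      rw [h5]
      ring
    rw [h3, Pi.add_apply, Pi.add_apply]
    have h4 : T0 v + (Pi.single c 1 : V → ZMod 2) v + (if v ∈ Z2.erase (z i) then 1 else 0) +
        (∑ i ∈ I, (Pi.single (u i) 1 + Pi.single (w i) 1 : V → ZMod 2)) v =
        T0 v + (Pi.single c 1 : V → ZMod 2) v +
        (∑ i ∈ I, (Pi.single (u i) 1 + Pi.single (w i) 1 : V → ZMod 2)) v +
        (if v ∈ Z2.erase (z i) then 1 else 0) := by ring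
    rw [h4]
  -- sets of vertices of degree two are images
  have himg : ∀ SS : Finset V, SS ⊆ U → (∀ s' ∈ SS, (star (M.S \ {e}) h t s').card = 2) →
      SS = (Finset.univ.filter (fun i => z i ∈ SS)).image z := by
    intro SS hSU hS2
    ext s
    rw [mem_image]
    constructor
    · intro hs
      obtain ⟨i, hi⟩ := hzsurj s ((hmemZ s).2 ⟨hSU hs, hS2 s hs⟩)
      exact ⟨i, mem_filter.2 ⟨mem_univ _, hi ▸ hs⟩, hi⟩
    · rintro ⟨i, hi, rfl⟩
      exact (mem_filter.1 hi).2
  have hNN : ∀ I : Finset (Fin m),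
      4 ≤ wt (T0 + ∑ i ∈ I, (Pi.single (u i) 1 + Pi.single (w i) 1 : V → ZMod 2)) + m := by
    intro I
    rw [← hcountN I]
    have hsub : I.image z ⊆ T := by
      intro s hs
      obtain ⟨i, -, rfl⟩ := mem_image.1 hs
      exact hzT i
    have hd : ∀ s ∈ I.image z, (star (M.S \ {e}) h t s).card = 2 := by
      intro s hs
      obtain ⟨i, -, rfl⟩ := mem_image.1 hs
      exact hz2 i
    obtain ⟨h', t', hg'⟩ := hg.swap_set hsc h2 (I.image z) hsub hd
    exact hM.four_le hg'
  have hAA : ∀ i, ∃ I : Finset (Fin m), i ∉ I ∧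
      wt (T0 + Pi.single (u i) 1 +
        ∑ j ∈ I, (Pi.single (u j) 1 + Pi.single (w j) 1 : V → ZMod 2)) + (m - 1) ≤ 2 := by
    intro i
    obtain ⟨SS, h3, h4, h5, h6⟩ := step0_con h0 hM hg hsc hT (hzU i) (hst i) (hab i) (hja i)
      (hjb i)
    refine ⟨Finset.univ.filter (fun i => z i ∈ SS), fun h7 => h3 (mem_filter.1 h7).2, ?_⟩
    rw [← hcountA _ i (u i) (huU i) (huZ i), ← himg SS h4 h5]
    exact h6
  have hBB : ∀ i, ∃ I : Finset (Fin m), i ∉ I ∧
      wt (T0 + Pi.single (w i) 1 +
        ∑ j ∈ I, (Pi.single (u j) 1 + Pi.single (w j) 1 : V → ZMod 2)) + (m - 1) ≤ 2 := by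
    intro i
    obtain ⟨SS, h3, h4, h5, h6⟩ := step0_con h0 hM hg hsc hT (hzU i)
      ((hst i).trans (pair_comm _ _)) (hab i).symm (hjb i) (hja i)
    refine ⟨Finset.univ.filter (fun i => z i ∈ SS), fun h7 => h3 (mem_filter.1 h7).2, ?_⟩
    rw [← hcountA _ i (w i) (hwU i) (hwZ i), ← himg SS h4 h5]
    exact h6
  have hev : Even (wt T0 + m) := by
    have h3 := hcountN ∅
    rw [sum_empty, add_zero, image_empty] at h3
    rw [← h3]
    have h4 : swT (M.S \ {e}) h t U T ∅ = T := by
      ext v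
      simp only [swT, Finset.mem_filter, Finset.sum_empty, add_zero]
      constructor
      · rintro ⟨-, hodd⟩
        by_contra hv
        rw [if_neg hv] at hodd
        exact absurd hodd (by decide)
      · intro hv
        refine ⟨hg.sub hv, ?_⟩
        rw [if_pos hv]
        exact odd_one
    rw [h4]
    exact hg.even
  have hdd : ∀ i j, i ≠ j → (Pi.single (u i) 1 + Pi.single (w i) 1 : V → ZMod 2) ≠
      Pi.single (u j) 1 + Pi.single (w j) 1 := by
    intro i j hij heq
    have hzz : z j ≠ z i := fun h3 => hij (hzinj h3).symm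
    rcases step0F_p (huw i) heq with ⟨h3, h4⟩ | ⟨h3, h4⟩
    · refine hsep i (z j) (hzU j) hzz (hz2 j) (a j) (ha j) (b j) (hb j) ?_ ?_
      · rw [h3]; exact hja j
      · rw [h4]; exact hjb j
    · refine hsep i (z j) (hzU j) hzz (hz2 j) (b j) (hb j) (a j) (ha j) ?_ ?_
      · rw [h3]; exact hjb j
      · rw [h4]; exact hja j
  rcases comb m u w huw (fun i => Pi.single (u i) 1 + Pi.single (w i) 1) (fun i => rfl) hdd T0
    hev hNN hAA hBB with hm0 | ⟨hm3, c, hcinj, hpc, hTc⟩
  · right
    refine hg.gr.tc_of_deg hsc h2 fun v hv => ?_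
    have h3 := hg.gr.two_le_deg hsc hv
    by_contra h4
    have h5 : (star (M.S \ {e}) h t v).card = 2 := by
      have h6 : 2 ≤ (star (M.S \ {e}) h t v).card := h3
      have h7 : ¬ 3 ≤ (star (M.S \ {e}) h t v).card := h4
      omega
    have h6 : v ∈ Z2 := (hmemZ v).2 ⟨hv, h5⟩
    have h7 : 0 < Z2.card := card_pos.2 ⟨v, h6⟩
    omega
  · left
    subst hm3
    simp only [Fin.cast_eq_self] at hpc
    have hcj : ∀ i j : Fin 3, j ≠ i → (c j = u i ∨ c j = w i) := by
      intro i j hji
      have h3 := congrFun (hpc i) (c j)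
      rw [Pi.sub_apply, Finset.sum_apply, Pi.single_eq_of_ne (fun h4 => hji (hcinj h4)),
        sub_zero] at h3
      have h4 : ∑ k, (Pi.single (c k) (1 : ZMod 2) : V → ZMod 2) (c j) = 1 := by
        rw [sum_eq_single j]
        · exact Pi.single_eq_same _ _
        · intro k _ hk
          exact Pi.single_eq_of_ne (fun h5 => hk (hcinj h5).symm) _
        · intro h5; exact absurd (mem_univ _) h5
      rw [h4, Pi.add_apply] at h3
      by_contra hn
      push Not at hn
      rw [Pi.single_eq_of_ne hn.1, Pi.single_eq_of_ne hn.2, add_zero] at h3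
      exact absurd h3 zero_ne_one
    have hcZ : ∀ j, c j ∉ Z2 := by
      intro j
      obtain ⟨i, hi⟩ : ∃ i : Fin 3, j ≠ i := by
        revert j; decide
      rcases hcj i j hi with h3 | h3
      · rw [h3]; exact huZ i
      · rw [h3]; exact hwZ i
    have hcT0 : ∀ i, c i ∈ T ↔ T0 (c i) = 1 := by
      intro i
      rw [hT0]
      by_cases h3 : c i ∈ T
      · simp [h3, hcZ i]
      · simp [h3]
    refine step0_tri h0 hM.tc hg hsc hT z c hzinj hcinj ?_ hzU ?_ hzT ?_ ?_
    · intro s hs
      constructor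
      · intro h3
        exact hzsurj s ((hmemZ s).2 ⟨hs, h3⟩)
      · rintro ⟨i, rfl⟩
        exact hz2 i
    · intro i j hij
      rcases hcj i j (Ne.symm hij) with h3 | h3
      · exact ⟨a i, ha i, h3 ▸ hja i⟩
      · exact ⟨b i, hb i, h3 ▸ hjb i⟩
    · intro v hv
      by_cases h3 : v ∈ Z2
      · exact Or.inl (hzsurj v h3)
      · right
        have h4 : T0 v = 1 := by
          rw [hT0]
          exact if_pos ⟨hv, h3⟩
        by_contra hn
        push Not at hn
        rcases hTc with ⟨j, hj⟩ | hj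
        · rw [hj, Pi.single_eq_of_ne (hn j).symm] at h4
          exact absurd h4 zero_ne_one
        · rw [hj, Finset.sum_apply] at h4
          rw [sum_eq_zero (fun k _ => Pi.single_eq_of_ne (hn k).symm _)] at h4
          exact absurd h4 zero_ne_one
    · rcases hTc with ⟨j, hj⟩ | hj
      · left
        refine ⟨j, fun i => ?_⟩
        rw [hcT0, hj]
        constructor
        · intro h3
          by_contra hn
          rw [Pi.single_eq_of_ne (fun h4 => hn (hcinj h4))] at h3
          exact absurd h3 zero_ne_one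
        · rintro rfl
          exact Pi.single_eq_same _ _
      · right
        intro i
        rw [hcT0, hj, Finset.sum_apply, sum_eq_single i]
        · exact Pi.single_eq_same _ _
        · intro k _ hk
          exact Pi.single_eq_of_ne (fun h5 => hk (hcinj h5).symm) _
        · intro h5; exact absurd (mem_univ _) h5

theorem step0 {n m : ℕ} (ends : Fin m → Fin n × Fin n) (h0 : (ofRows (grRows ends)).TC)
    {M : BM E} (hM : MinCx (grRows ends) M) :
    ∃ e ∈ M.S, (M.del {e}).SC ∧ HasT (grRows ends) (M.del {e}) ∧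
      ((∃ a b : Fin 3 → E, TriT (grRows ends) M e a b) ∨ (M.del {e}).TC) := by
  obtain ⟨e, he, hsc, hT⟩ := bg_has (grRows ends) h0 M hM.tc hM.hasT
    (fun h1 => hM.ng (Graphic_of_IsIso ends h1))
  refine ⟨e, he, hsc, hT, ?_⟩
  have hlt : (M.del {e}).S.card < M.S.card := by
    show (M.S \ {e}).card < M.S.card
    refine Finset.card_lt_card (Finset.ssubset_iff_subset_ne.2 ⟨Finset.sdiff_subset, ?_⟩)
    intro heq
    have h1 : e ∈ M.S \ {e} := by rw [heq]; exact he
    exact (Finset.mem_sdiff.1 h1).2 (Finset.mem_singleton_self e)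
  have hgr : Graphic (M.del {e}) :=
    hM.sc_graphic h0 (M.del {e}) (Minor_del M {e}) hlt hsc hT
  obtain ⟨V, _, _, U, h, t, hG⟩ := exists_IsGr hsc hgr
  obtain ⟨T, hg⟩ := exists_graft he hG
    (SC_not_coloop M ((TC_iff_SC M).1 hM.tc).1 e he)
  exact step0F_main h0 hM hg hsc hT

end SEY
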