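import Pool.Agent.Helper25.SEY.T.SitH
import Pool.Agent.Helper25.SEY.T.MinCx
import Pool.Agent.Helper71.SEYApi2

/-!
T3-Step3a.
T3-Step3 (k2 = f).  H' del f = M.del {e,k,g1,g2} (as in M.del {e,g1,g2} the element k is a pendant
edge at y: deleting = contracting) is assumed to be SC and HasT.

* `step3_crit`: M1 := (M.con {k}).del {g1,g2}, a minor of M.  From `IsGraft.con` (k = y d, merge y into d; no parallel: y is adjacent to a,b,d only;
  y in T, d not in T: T becomes {a,b,c,d}) and `IsGraft.del` twice: M1 is a graft for e over (H' del f) =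
  M1.del {e} = M.del {e,k,g1,g2} (equal as BM: k is a coloop of M.del {e,g1,g2}).  Two: H' is TC, H' del f Two
  (`TC.del_two` for H' = (M.con {g2}).del {e,k} and the element g1; (H' del g1) = M.del {e,k,g1,g2} since g2 is a coloop of M.del {e,k,g1}).
  `MinCx.graft_graphic`: M1 graphic, `crit`: SS inside {a,b,c,d}, |star| = 2 in H' del f, so SS is inside {a,b} (other vertices keep their
  degree >= 3 of H').  SS is not empty as |T| = 4.
  SS = {a}: star_H a = {g1,p1,p2}, neighbours n1, n2 (not b: a,b not adjacent in H since H' has no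
  parallel edges): |{a,b,c,d} + {n1,n2}| <= 2: {n1,n2} = {c,d}: Good.  SS = {b}: same.  SS = {a,b}: N(a) = {n1,n2}, N(b) = {n3,n4}
  (besides y), {n1,n2} /= {n3,n4} (`IsGr.deg2`), none is a or b; T + {n1,n2} + {n3,n4} contains a, b, so {n1,n2}+{n3,n4} = {c,d}:
  they share one vertex m and the others are c and d.
-/

namespace SEY

open Finset

variable {E : Type} [Fintype E] [DecidableEq E] {V : Type} [Fintype V] [DecidableEq V]
variable {r l : ℕ} {rows : Fin r → Fin l → ZMod 2} {M : BM E} {U : Finset V} {h t : E → V}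
  {e k g1 g2 : E} {y a b c d : V}

/-- The bad case of STEP 3. -/
def Bad3 (M : BM E) (h t : E → V) (e g1 g2 : E) (a b c d : V) : Prop :=
  ∃ (p1 p2 p3 p4 : E) (m : V), m ≠ c ∧ m ≠ d ∧ star (M.S \ {e}) h t a = {g1, p1, p2} ∧
    star (M.S \ {e}) h t b = {g2, p3, p4} ∧ Jn h t p1 a c ∧ Jn h t p2 a m ∧ Jn h t p3 b d ∧
    Jn h t p4 b m

theorem step3a_con_del {M : BM E} {D : Finset E} {x : E} (hx : x ∈ D) (hD : ind D ∈ M.R) :
    (M.con {x}).del D = M.del D := by
  have hS : (M.S \ {x}) \ D = M.S \ D := by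
    ext z
    simp only [Finset.mem_sdiff, Finset.mem_singleton]
    constructor
    · rintro ⟨⟨h1, h2⟩, h3⟩
      exact ⟨h1, h3⟩
    · rintro ⟨h1, h3⟩
      exact ⟨⟨h1, fun h => h3 (h ▸ hx)⟩, h3⟩
  refine BM.ext' hS (fun f => ?_)
  rw [BM.mem_del, BM.mem_del, BM.con_S, hS]
  constructor
  · rintro ⟨g, hg, rfl⟩
    exact ⟨g, (BM.mem_con M).1 hg |>.1, rfl⟩
  · rintro ⟨g, hg, rfl⟩
    rcases zcases (g x) with h0 | h1
    · refine ⟨g, (BM.mem_con M).2 ⟨hg, ?_⟩, rfl⟩
      intro z hz
      rw [Finset.mem_singleton] at hz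
      rw [hz, h0]
    · refine ⟨g + ind D, (BM.mem_con M).2 ⟨M.R.add_mem hg hD, ?_⟩, ?_⟩
      · intro z hz
        rw [Finset.mem_singleton] at hz
        rw [hz, Pi.add_apply, h1, ind_of_mem hx, z_add_self]
      · ext z
        rw [mask_apply, mask_apply]
        by_cases hz : z ∈ M.S \ D
        · rw [if_pos hz, if_pos hz, Pi.add_apply,
            ind_of_notMem (Finset.mem_sdiff.1 hz).2, add_zero]
        · rw [if_neg hz, if_neg hz]

theorem step3a_jn_inj {h t : E → V} {x : E} {s u v : V} (hu : u ≠ s) (h1 : Jn h t x s u)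
    (h2 : Jn h t x s v) : v = u := by
  rcases h1 with ⟨a1, a2⟩ | ⟨a1, a2⟩ <;> rcases h2 with ⟨b1, b2⟩ | ⟨b1, b2⟩
  · rw [← a2, ← b2]
  · exact absurd (a2.symm.trans b2) hu
  · exact absurd (a1.symm.trans b1) hu
  · rw [← a1, ← b1]

theorem step3a_jn_star {S : Finset E} {h t : E → V} {x : E} {s v : V} (hx : x ∈ S)
    (h1 : Jn h t x s v) : x ∈ star S h t s := by
  rw [star, Finset.mem_filter]
  refine ⟨hx, ?_⟩
  rcases h1 with ⟨a1, _⟩ | ⟨_, a2⟩
  · exact Or.inl a1
  · exact Or.inr a2

theorem step3a_count {S : Finset E} {h t : E → V} {p q : E} {s u w : V} (hp : p ∈ S)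
    (hq : q ∈ S) (hst : star S h t s = {p, q}) (h1 : Jn h t p s u) (h2 : Jn h t q s w)
    (huw : u ≠ w) (hus : u ≠ s) (hws : w ≠ s) (v : V) :
    (S.filter (fun x => Jn h t x s v)).card = (if v = u then 1 else 0) +
      (if v = w then 1 else 0) := by
  have key : S.filter (fun x => Jn h t x s v) =
      (if v = u then {p} else ∅) ∪ (if v = w then {q} else ∅) := by
    ext x
    rw [Finset.mem_filter, Finset.mem_union]
    constructor
    · rintro ⟨hx, hj⟩
      have h3 : x ∈ ({p, q} : Finset E) := hst ▸ step3a_jn_star hx hj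
      rw [Finset.mem_insert, Finset.mem_singleton] at h3
      rcases h3 with rfl | rfl
      · left
        rw [if_pos (step3a_jn_inj hus h1 hj)]
        exact Finset.mem_singleton_self _
      · right
        rw [if_pos (step3a_jn_inj hws h2 hj)]
        exact Finset.mem_singleton_self _
    · rintro (h3 | h3)
      · by_cases hv : v = u
        · rw [if_pos hv, Finset.mem_singleton] at h3
          rw [h3, hv]
          exact ⟨hp, h1⟩
        · rw [if_neg hv] at h3
          simp at h3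
      · by_cases hv : v = w
        · rw [if_pos hv, Finset.mem_singleton] at h3
          rw [h3, hv]
          exact ⟨hq, h2⟩
        · rw [if_neg hv] at h3
          simp at h3
  rw [key]
  by_cases hv : v = u
  · rw [if_pos hv, if_pos hv, if_neg (fun h3 => huw (hv.symm.trans h3)),
      if_neg (fun h3 => huw (hv.symm.trans h3))]
    simp
  · rw [if_neg hv, if_neg hv]
    by_cases hv' : v = w
    · rw [if_pos hv', if_pos hv']
      simp
    · rw [if_neg hv', if_neg hv']
      simp

theorem step3a_three {X : Finset V} {a b v : V} (ha : a ∈ X) (hb : b ∈ X) (hv : v ∈ X)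
    (hab : a ≠ b) (hva : v ≠ a) (hvb : v ≠ b) (hX : X.card ≤ 2) : False := by
  have h1 : ({v, a, b} : Finset V) ⊆ X := by
    intro z hz
    simp only [Finset.mem_insert, Finset.mem_singleton] at hz
    rcases hz with rfl | rfl | rfl
    · exact hv
    · exact ha
    · exact hb
  have h2 := Finset.card_le_card h1
  rw [Finset.card_eq_three.2 ⟨v, a, b, hva, hvb, hab, rfl⟩] at h2
  omega

theorem SitI.step3_crit (h0 : (ofRows rows).TC) (S : SitI rows M U h t e k g1 g2 y a b c d)
    (hcd : c ≠ d) (hd : 4 ≤ (star (M.S \ {e}) h t d).card)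
    (hsc : (M.del {e, k, g1, g2}).SC) (hT : HasT rows (M.del {e, k, g1, g2})) :
    Good M h t e g1 a c d ∨ Good M h t e g2 b c d ∨ Bad3 M h t e g1 g2 a b c d ∨
      Bad3 M h t e g2 g1 b a c d := by
  have hgr := S.gr
  have hH := S.gr.gr
  have htc := S.tc
  -- membership of the edges at `y`
  have hmem : ∀ x ∈ ({k, g1, g2} : Finset E), x ∈ M.S ∧ x ≠ e := by
    intro x hx
    rw [← S.st] at hx
    have h1 := (Finset.mem_filter.1 hx).1
    rw [Finset.mem_sdiff, Finset.mem_singleton] at h1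
    exact h1
  have hkS := hmem k (by simp)
  have hg1S := hmem g1 (by simp)
  have hg2S := hmem g2 (by simp)
  have hyU : y ∈ U := S.gr.sub (by simp)
  have haU : a ∈ U := S.gr.sub (by simp)
  have hbU : b ∈ U := S.gr.sub (by simp)
  have hcU : c ∈ U := S.gr.sub (by simp)
  have hdU : d ∈ U := by
    have h1 := hH.ends k (by simp [hkS.1, hkS.2])
    rcases S.jk with ⟨h2, h3⟩ | ⟨h2, h3⟩
    · rw [← h3]; exact h1.2.1
    · rw [← h2]; exact h1.1
  have hnj : ∀ x ∈ M.S, x ≠ e → ∀ v, Jn h t x y v → x = k ∨ x = g1 ∨ x = g2 := by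
    intro x hx hxe v hj
    have h1 : x ∈ star (M.S \ {e}) h t y := step3a_jn_star (by simp [hx, hxe]) hj
    rw [S.st] at h1
    simpa using h1
  have hkg1 : k ≠ g1 := by
    intro hk
    have := step3a_jn_inj S.yd.symm S.jk (hk ▸ S.j1)
    exact S.ad this
  have hkg2 : k ≠ g2 := by
    intro hk
    have := step3a_jn_inj S.yd.symm S.jk (hk ▸ S.j2)
    exact S.bd this
  have hg12 : g1 ≠ g2 := by
    intro hk
    have := step3a_jn_inj S.ya.symm S.j1 (hk ▸ S.j2)
    exact S.ab this.symm
  -- the row at `y`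
  have hrow : ind ({e, k, g1, g2} : Finset E) ∈ M.R := by
    have h1 := S.gr.star_mem hyU
    rw [if_pos (by simp), S.st] at h1
    exact h1
  have hM1 : (((M.con {k}).del {g1}).del {g2}).del {e} = M.del {e, k, g1, g2} := by
    rw [BM.del_del, BM.del_del]
    have h1 := step3a_con_del (x := k) (by simp) hrow
    rw [← h1, ← BM.con_del_sdiff M {k} {e, k, g1, g2}]
    congr 1
    ext x
    simp only [Finset.mem_union, Finset.mem_singleton, Finset.mem_sdiff, Finset.mem_insert]
    constructor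
    · rintro (rfl | rfl | rfl)
      · exact ⟨Or.inr (Or.inr (Or.inl rfl)), hkg1.symm⟩
      · exact ⟨Or.inr (Or.inr (Or.inr rfl)), hkg2.symm⟩
      · exact ⟨Or.inl rfl, hkS.2.symm⟩
    · rintro ⟨h2 | h2 | h2 | h2, h3⟩
      · exact Or.inr (Or.inr h2)
      · exact absurd h2 h3
      · exact Or.inl h2
      · exact Or.inr (Or.inl h2)
  -- the graft
  have hgc : IsGraft (M.con {k}) e (U.erase y) (fun x => mg y d (h x)) (fun x => mg y d (t x))
      {a, b, c, d} := by
    have h1 := S.gr.con hkS.1 hkS.2 S.jk (by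
      intro x hx hxe hxk hj
      rcases hnj x hx hxe d hj with h2 | h2 | h2
      · exact hxk h2
      · rw [h2] at hj
        exact S.ad (step3a_jn_inj S.ya.symm S.j1 hj).symm
      · rw [h2] at hj
        exact S.bd (step3a_jn_inj S.yb.symm S.j2 hj).symm) (by
      have h3 : ({k, g1, g2} : Finset E) ⊆ M.S := fun x hx => (hmem x hx).1
      have h4 := Finset.card_le_card h3
      rw [Finset.card_eq_three.2 ⟨k, g1, g2, hkg1, hkg2, hg12, rfl⟩] at h4
      exact h4)
    rw [if_pos (by simp)] at h1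
    convert h1 using 1
    ext x
    simp only [Finset.mem_insert, Finset.mem_singleton, Finset.mem_symmDiff, Finset.mem_erase]
    constructor
    · rintro (rfl | rfl | rfl | rfl)
      · exact Or.inl ⟨⟨S.ya.symm, Or.inr (Or.inl rfl)⟩, S.ad⟩
      · exact Or.inl ⟨⟨S.yb.symm, Or.inr (Or.inr (Or.inl rfl))⟩, S.bd⟩
      · exact Or.inl ⟨⟨S.yc.symm, Or.inr (Or.inr (Or.inr rfl))⟩, hcd⟩
      · refine Or.inr ⟨rfl, ?_⟩
        rintro ⟨h2, h3 | h3 | h3 | h3⟩
        · exact h2 h3
        · exact S.ad h3.symm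
        · exact S.bd h3.symm
        · exact hcd h3.symm
    · rintro (⟨⟨h2, h3 | h3 | h3 | h3⟩, h4⟩ | ⟨h2, h3⟩)
      · exact absurd h3 h2
      · exact Or.inl h3
      · exact Or.inr (Or.inl h3)
      · exact Or.inr (Or.inr (Or.inl h3))
      · exact Or.inr (Or.inr (Or.inr h2))
  have hg1 : IsGraft ((M.con {k}).del {g1}) e (U.erase y) (fun x => mg y d (h x))
      (fun x => mg y d (t x)) {a, b, c, d} := by
    refine hgc.del (by simp [hg1S.1, hkg1.symm]) hg1S.2 ?_
    obtain ⟨z, hz, hz1⟩ := htc.exists_cycle (e := g1) (by simp [hg1S.1, hg1S.2])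
    rw [BM.mem_Z_del] at hz
    refine ⟨mask (M.S \ {k}) z, ?_, ?_⟩
    · rw [BM.mem_Z_del]
      refine ⟨(BM.mem_Z_con M).2 ⟨z, hz.1, rfl⟩, ?_⟩
      intro x hx
      rw [Finset.mem_singleton] at hx
      rw [mask_apply, hx, hz.2 e (by simp), ite_self]
    · rw [mask_apply, if_pos (by simp [hg1S.1, hkg1.symm]), hz1]
  have hg2 : IsGraft (((M.con {k}).del {g1}).del {g2}) e (U.erase y) (fun x => mg y d (h x))
      (fun x => mg y d (t x)) {a, b, c, d} := by
    refine hg1.del (by simp [hg2S.1, hkg2.symm, hg12.symm]) hg2S.2 ?_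
    obtain ⟨z, hz, hz1, hz2⟩ := htc.exists_cycle_ne (e := g2) (e' := g1)
      (by simp [hg2S.1, hg2S.2]) (by simp [hg1S.1, hg1S.2]) hg12.symm
    rw [BM.mem_Z_del] at hz
    refine ⟨mask (M.S \ {k}) z, ?_, ?_⟩
    · rw [BM.mem_Z_del, BM.mem_Z_del]
      refine ⟨⟨(BM.mem_Z_con M).2 ⟨z, hz.1, rfl⟩, ?_⟩, ?_⟩
      · intro x hx
        rw [Finset.mem_singleton] at hx
        rw [mask_apply, hx, hz2, ite_self]
      · intro x hx
        rw [Finset.mem_singleton] at hx
        rw [mask_apply, hx, hz.2 e (by simp), ite_self]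
    · rw [mask_apply, if_pos (by simp [hg2S.1, hkg2.symm]), hz1]
  have hgf : IsGraft (((M.con {k}).del {g1}).del {g2}) e (U.erase y) h t {a, b, c, d} := by
    refine hg2.congr ?_
    intro x hx hxe
    have hx' : x ∈ M.S ∧ x ≠ k ∧ x ≠ g1 ∧ x ≠ g2 := by
      simp only [BM.del_S, BM.con_S, Finset.mem_sdiff, Finset.mem_singleton] at hx
      exact ⟨hx.1.1.1, hx.1.1.2, hx.1.2, hx.2⟩
    have h1 : h x ≠ y := by
      intro h2
      rcases hnj x hx'.1 hxe (t x) (Or.inl ⟨h2, rfl⟩) with h3 | h3 | h3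
      · exact hx'.2.1 h3
      · exact hx'.2.2.1 h3
      · exact hx'.2.2.2 h3
    have h2 : t x ≠ y := by
      intro h2
      rcases hnj x hx'.1 hxe (h x) (Or.inr ⟨rfl, h2⟩) with h3 | h3 | h3
      · exact hx'.2.1 h3
      · exact hx'.2.2.1 h3
      · exact hx'.2.2.2 h3
    left
    constructor
    · show mg y d (h x) = h x
      rw [mg, if_neg h1]
    · show mg y d (t x) = t x
      rw [mg, if_neg h2]
  -- the graph `H'`
  have hp := S.hp_gr
  have hptc := S.hp_tc hd
  have htwo : (M.del {e, k, g1, g2}).Two := by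
    have h1 := TC.del_two hptc (e := g1) (by simp [hg1S.1, hg1S.2, hkg1.symm, hg12])
    rw [BM.del_del] at h1
    have h2 := step3a_con_del (x := g2) (by simp) hrow
    rw [← h2, ← BM.con_del_sdiff M {g2} {e, k, g1, g2}]
    have h3 : ({e, k, g1, g2} : Finset E) \ {g2} = {e, k} ∪ {g1} := by
      ext x
      simp only [Finset.mem_union, Finset.mem_singleton, Finset.mem_sdiff, Finset.mem_insert]
      constructor
      · rintro ⟨h2 | h2 | h2 | h2, h3⟩
        · exact Or.inl (Or.inl h2)
        · exact Or.inl (Or.inr h2)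
        · exact Or.inr h2
        · exact absurd h2 h3
      · rintro ((rfl | rfl) | rfl)
        · exact ⟨Or.inl rfl, hg2S.2.symm⟩
        · exact ⟨Or.inr (Or.inl rfl), hkg2⟩
        · exact ⟨Or.inr (Or.inr (Or.inl rfl)), hg12⟩
    rw [h3]
    exact h1
  have hpsc : ((M.con {g2}).del {e, k}).SC := ((TC_iff_SC _).1 hptc).1
  have hnab : ∀ x ∈ M.S, x ≠ e → ¬ Jn h t x a b := by
    intro x hx hxe hj
    have hxk : x ≠ k := by
      intro h1
      rw [h1] at hj
      rcases hj with ⟨h2, h3⟩ | ⟨h2, h3⟩ <;> rcases S.jk with ⟨h4, h5⟩ | ⟨h4, h5⟩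
      · exact S.ya (h4.symm.trans h2)
      · exact S.yb (h5.symm.trans h3)
      · exact S.yb (h4.symm.trans h2)
      · exact S.ya (h5.symm.trans h3)
    have hxg1 : x ≠ g1 := by
      intro h1
      rw [h1] at hj
      rcases hj with ⟨h2, h3⟩ | ⟨h2, h3⟩ <;> rcases S.j1 with ⟨h4, h5⟩ | ⟨h4, h5⟩
      · exact S.ya (h4.symm.trans h2)
      · exact S.yb (h5.symm.trans h3)
      · exact S.yb (h4.symm.trans h2)
      · exact S.ya (h5.symm.trans h3)
    have hxg2 : x ≠ g2 := by
      intro h1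
      rw [h1] at hj
      rcases hj with ⟨h2, h3⟩ | ⟨h2, h3⟩ <;> rcases S.j2 with ⟨h4, h5⟩ | ⟨h4, h5⟩
      · exact S.ya (h4.symm.trans h2)
      · exact S.yb (h5.symm.trans h3)
      · exact S.yb (h4.symm.trans h2)
      · exact S.ya (h5.symm.trans h3)
    have hma : mg y b a = a := by rw [mg, if_neg S.ya.symm]
    have hmb : mg y b b = b := by rw [mg, if_neg S.yb.symm]
    have hmy : mg y b y = b := by rw [mg, if_pos rfl]
    have h1 : Jn (fun x => mg y b (h x)) (fun x => mg y b (t x)) x a b := by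
      rcases hj with ⟨h2, h3⟩ | ⟨h2, h3⟩
      · left
        constructor
        · show mg y b (h x) = a
          rw [h2, hma]
        · show mg y b (t x) = b
          rw [h3, hmb]
      · right
        constructor
        · show mg y b (h x) = b
          rw [h2, hmb]
        · show mg y b (t x) = a
          rw [h3, hma]
    have h2 : Jn (fun x => mg y b (h x)) (fun x => mg y b (t x)) g1 a b := by
      rcases S.j1 with ⟨h2, h3⟩ | ⟨h2, h3⟩
      · right
        constructor
        · show mg y b (h g1) = b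
          rw [h2, hmy]
        · show mg y b (t g1) = a
          rw [h3, hma]
      · left
        constructor
        · show mg y b (h g1) = a
          rw [h2, hma]
        · show mg y b (t g1) = b
          rw [h3, hmy]
    exact hxg1 (hp.no_par hpsc (by simp [hx, hxe, hxk, hxg2])
      (by simp [hg1S.1, hg1S.2, hkg1.symm, hg12]) h1 h2)
  -- graphic
  have hsc1 : ((((M.con {k}).del {g1}).del {g2}).del {e}).SC := by rw [hM1]; exact hsc
  have htwo1 : ((((M.con {k}).del {g1}).del {g2}).del {e}).Two := by rw [hM1]; exact htwo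
  have hT1 : HasT rows ((((M.con {k}).del {g1}).del {g2}).del {e}) := by rw [hM1]; exact hT
  have hS1 : (((M.con {k}).del {g1}).del {g2}).S \ {e} = M.S \ {e, k, g1, g2} := by
    have h1 := congrArg BM.S hM1
    simpa using h1
  have hG : Graphic (((M.con {k}).del {g1}).del {g2}) := by
    refine S.cx.graft_graphic h0 _ ?_ ?_ hgf hsc1 htwo1 hT1
    · exact (minor_del _ _).trans ((minor_del _ _).trans (minor_con _ _))
    · refine Finset.card_lt_card ?_
      rw [Finset.ssubset_iff_of_subset (by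
        intro x hx
        simp only [BM.del_S, BM.con_S, Finset.mem_sdiff, Finset.mem_singleton] at hx
        exact hx.1.1.1)]
      exact ⟨k, hkS.1, by simp⟩
  obtain ⟨SS, hSS, hS2, hcard⟩ := crit hgf hsc1 htwo1 hG
  rw [hS1] at hS2 hcard
  have hgr4 : IsGr (M.del {e, k, g1, g2}) (U.erase y) h t := by
    have := hgf.gr
    rwa [hM1] at this
  -- stars
  have hst : ∀ v, star (M.S \ {e, k, g1, g2}) h t v = star (M.S \ {e}) h t v \ {k, g1, g2} := by
    intro v
    ext x
    simp only [star, Finset.mem_filter, Finset.mem_sdiff, Finset.mem_insert,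
      Finset.mem_singleton]
    tauto
  have hend : ∀ x u v w, Jn h t x u v → w ≠ u → w ≠ v → x ∉ star (M.S \ {e}) h t w := by
    intro x u v w hj h1 h2 hx
    rcases (Finset.mem_filter.1 hx).2 with h3 | h3 <;> rcases hj with ⟨h4, h5⟩ | ⟨h4, h5⟩
    · exact h1 (h3.symm.trans h4)
    · exact h2 (h3.symm.trans h4)
    · exact h2 (h3.symm.trans h5)
    · exact h1 (h3.symm.trans h5)
  have hcnot : c ∉ SS := by
    intro hc
    have h1 := hS2 c hc
    rw [hst, Finset.sdiff_eq_self_of_disjoint] at h1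
    · have h2 := TC.three_le_deg htc hH hcU
      rw [BM.del_S] at h2
      omega
    · rw [Finset.disjoint_right]
      intro x hx
      simp only [Finset.mem_insert, Finset.mem_singleton] at hx
      rcases hx with rfl | rfl | rfl
      · exact hend _ _ _ _ S.jk S.yc.symm hcd
      · exact hend _ _ _ _ S.j1 S.yc.symm S.ac.symm
      · exact hend _ _ _ _ S.j2 S.yc.symm S.bc.symm
  have hdnot : d ∉ SS := by
    intro hc
    have h1 := hS2 d hc
    have h2 : star (M.S \ {e}) h t d \ {k} ⊆ star (M.S \ {e, k, g1, g2}) h t d := by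
      rw [hst]
      intro x hx
      rw [Finset.mem_sdiff] at hx ⊢
      refine ⟨hx.1, ?_⟩
      simp only [Finset.mem_insert, Finset.mem_singleton, not_or]
      refine ⟨fun h3 => hx.2 (by simp [h3]), ?_, ?_⟩
      · rintro rfl
        exact hend _ _ _ _ S.j1 S.yd.symm S.ad.symm hx.1
      · rintro rfl
        exact hend _ _ _ _ S.j2 S.yd.symm S.bd.symm hx.1
    have h3 := Finset.card_le_card h2
    have h4 := Finset.le_card_sdiff {k} (star (M.S \ {e}) h t d)
    rw [Finset.card_singleton] at h4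
    omega
  have hSab : ∀ s ∈ SS, s = a ∨ s = b := by
    intro s hs
    have h1 := hSS hs
    simp only [Finset.mem_insert, Finset.mem_singleton] at h1
    rcases h1 with h1 | h1 | h1 | h1
    · exact Or.inl h1
    · exact Or.inr h1
    · rw [h1] at hs
      exact absurd hs hcnot
    · rw [h1] at hs
      exact absurd hs hdnot
  have haU' : a ∈ U.erase y := Finset.mem_erase.2 ⟨S.ya.symm, haU⟩
  have hbU' : b ∈ U.erase y := Finset.mem_erase.2 ⟨S.yb.symm, hbU⟩
  have hcU' : c ∈ U.erase y := Finset.mem_erase.2 ⟨S.yc.symm, hcU⟩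
  have hdU' : d ∈ U.erase y := Finset.mem_erase.2 ⟨S.yd.symm, hdU⟩
  -- the data at `a` and at `b`
  have hdata : ∀ s, (s = a ∨ s = b) → s ∈ SS → ∃ u w, u ≠ w ∧ u ≠ a ∧ u ≠ b ∧ w ≠ a ∧ w ≠ b ∧
      u ∈ U.erase y ∧ w ∈ U.erase y ∧
      (∀ v, ((M.S \ {e, k, g1, g2}).filter (fun x => Jn h t x s v)).card =
        if v = u ∨ v = w then 1 else 0) ∧
      ∃ p q, star (M.S \ {e, k, g1, g2}) h t s = {p, q} ∧ Jn h t p s u ∧ Jn h t q s w := by
    intro s hs hsS
    have hsU : s ∈ U.erase y := by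
      rcases hs with rfl | rfl
      · exact haU'
      · exact hbU'
    obtain ⟨p, q, u, w, hp1, hq1, hpq, hst1, hj1, hj2, huU, hwU, huw, hus, hws, -, -, -, -⟩ :=
      hgr4.deg2 hsc htwo hsU (hS2 s hsS)
    have hpS : p ∈ M.S ∧ p ≠ e := by
      simp only [BM.del_S, Finset.mem_sdiff, Finset.mem_insert, not_or] at hp1
      exact ⟨hp1.1, hp1.2.1⟩
    have hqS : q ∈ M.S ∧ q ≠ e := by
      simp only [BM.del_S, Finset.mem_sdiff, Finset.mem_insert, not_or] at hq1
      exact ⟨hq1.1, hq1.2.1⟩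
    have hnab' : ∀ x, x ∈ M.S ∧ x ≠ e → ∀ v, Jn h t x s v → v ≠ s → v ≠ a ∧ v ≠ b := by
      intro x hx v hj hvs
      rcases hs with rfl | rfl
      · refine ⟨hvs, ?_⟩
        rintro rfl
        exact hnab x hx.1 hx.2 hj
      · refine ⟨?_, hvs⟩
        rintro rfl
        exact hnab x hx.1 hx.2 hj.symm
    obtain ⟨h1, h2⟩ := hnab' p hpS u hj1 hus
    obtain ⟨h3, h4⟩ := hnab' q hqS w hj2 hws
    refine ⟨u, w, huw, h1, h2, h3, h4, huU, hwU, ?_, p, q, hst1, hj1, hj2⟩
    intro v
    have hcnt := step3a_count hp1 hq1 hst1 hj1 hj2 huw hus hws v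
    rw [BM.del_S] at hcnt
    rw [hcnt]
    by_cases hv : v = u
    · rw [if_pos hv, if_neg (fun h3 => huw (hv.symm.trans h3)), if_pos (Or.inl hv)]
    · rw [if_neg hv]
      by_cases hv' : v = w
      · rw [if_pos hv', if_pos (Or.inr hv')]
      · rw [if_neg hv', if_neg (fun h3 => h3.elim hv hv')]
  -- ordered version
  have hord : ∀ s x, (s = a ∨ s = b) → s ∈ SS →
      ((M.S \ {e, k, g1, g2}).filter (fun z => Jn h t z s x)).card = 1 →
      ∃ p q m, star (M.S \ {e, k, g1, g2}) h t s = {p, q} ∧ Jn h t p s x ∧ Jn h t q s m ∧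
        m ≠ x ∧ m ≠ a ∧ m ≠ b ∧ m ∈ U.erase y ∧
        ∀ v, ((M.S \ {e, k, g1, g2}).filter (fun z => Jn h t z s v)).card =
          if v = x ∨ v = m then 1 else 0 := by
    intro s x hs hsS hx
    obtain ⟨u, w, huw, hua, hub, hwa, hwb, huU, hwU, hN, p, q, hst1, hj1, hj2⟩ := hdata s hs hsS
    rw [hN x] at hx
    have hx' : x = u ∨ x = w := by
      by_contra h1
      rw [if_neg h1] at hx
      exact absurd hx (by norm_num)
    rcases hx' with rfl | rfl
    · exact ⟨p, q, w, hst1, hj1, hj2, huw.symm, hwa, hwb, hwU, hN⟩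
    · refine ⟨q, p, u, ?_, hj2, hj1, huw, hua, hub, huU, ?_⟩
      · rw [hst1, Finset.pair_comm]
      · intro v
        rw [hN v]
        simp only [or_comm]
  -- full stars
  have hfulla : ∀ p q, star (M.S \ {e, k, g1, g2}) h t a = {p, q} →
      star (M.S \ {e}) h t a = {g1, p, q} := by
    intro p q h1
    rw [hst] at h1
    ext x
    rw [Finset.mem_insert, ← h1, Finset.mem_sdiff]
    constructor
    · intro hx
      by_cases hx1 : x = g1
      · exact Or.inl hx1
      · refine Or.inr ⟨hx, ?_⟩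
        simp only [Finset.mem_insert, Finset.mem_singleton, not_or]
        refine ⟨?_, hx1, ?_⟩
        · rintro rfl
          exact hend _ _ _ _ S.jk S.ya.symm S.ad hx
        · rintro rfl
          exact hend _ _ _ _ S.j2 S.ya.symm S.ab hx
    · rintro (hx | hx)
      · rw [hx]
        exact step3a_jn_star (by simp [hg1S.1, hg1S.2]) (S.j1.symm.imp (fun h => h) (fun h => h))
      · exact hx.1
  have hfullb : ∀ p q, star (M.S \ {e, k, g1, g2}) h t b = {p, q} →
      star (M.S \ {e}) h t b = {g2, p, q} := by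
    intro p q h1
    rw [hst] at h1
    ext x
    rw [Finset.mem_insert, ← h1, Finset.mem_sdiff]
    constructor
    · intro hx
      by_cases hx1 : x = g2
      · exact Or.inl hx1
      · refine Or.inr ⟨hx, ?_⟩
        simp only [Finset.mem_insert, Finset.mem_singleton, not_or]
        refine ⟨?_, ?_, hx1⟩
        · rintro rfl
          exact hend _ _ _ _ S.jk S.yb.symm S.bd hx
        · rintro rfl
          exact hend _ _ _ _ S.j1 S.yb.symm S.ab.symm hx
    · rintro (hx | hx)
      · rw [hx]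
        exact step3a_jn_star (by simp [hg2S.1, hg2S.2]) (S.j2.symm.imp (fun h => h) (fun h => h))
      · exact hx.1
  have hsum : ∀ f : V → ℕ, ∑ s ∈ SS, f s =
      (if a ∈ SS then f a else 0) + (if b ∈ SS then f b else 0) := by
    intro f
    have h1 : ({a, b} : Finset V) ∩ SS = SS := Finset.inter_eq_right.2 (by
      intro s hs
      rcases hSab s hs with h2 | h2
      · simp [h2]
      · simp [h2])
    calc ∑ s ∈ SS, f s = ∑ s ∈ ({a, b} : Finset V) ∩ SS, f s := by rw [h1]
      _ = ∑ s ∈ ({a, b} : Finset V), if s ∈ SS then f s else 0 := (Finset.sum_ite_mem _ _ _).symm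
      _ = _ := Finset.sum_pair S.ab
  obtain ⟨X, hX⟩ : ∃ X, X = swT (M.S \ {e, k, g1, g2}) h t (U.erase y) {a, b, c, d} SS :=
    ⟨_, rfl⟩
  rw [← hX] at hcard
  have hsw : ∀ v, v ∈ X ↔
      v ∈ U.erase y ∧ Odd ((if v ∈ ({a, b, c, d} : Finset V) then 1 else 0) +
        ((if a ∈ SS then ((M.S \ {e, k, g1, g2}).filter (fun x => Jn h t x a v)).card else 0) +
        (if b ∈ SS then ((M.S \ {e, k, g1, g2}).filter (fun x => Jn h t x b v)).card else 0))) := by
    intro v
    rw [hX, swT, Finset.mem_filter, hsum]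
  have hno : ∀ v, v ≠ a → v ≠ b → a ∈ X → b ∈ X → v ∉ X := by
    intro v hva hvb haX hbX hvX
    exact step3a_three haX hbX hvX S.ab hva hvb hcard
  have haT : a ∈ ({a, b, c, d} : Finset V) := by simp
  have hbT : b ∈ ({a, b, c, d} : Finset V) := by simp
  have hcT : c ∈ ({a, b, c, d} : Finset V) := by simp
  have hdT : d ∈ ({a, b, c, d} : Finset V) := by simp
  have hnT : ∀ v, v ≠ a → v ≠ b → v ≠ c → v ≠ d → v ∉ ({a, b, c, d} : Finset V) := by
    intro v h1 h2 h3 h4
    simp [h1, h2, h3, h4]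
  -- the edges between `s` and `a`, `b`
  have hNa : ∀ s, (s = a ∨ s = b) → s ∈ SS →
      ((M.S \ {e, k, g1, g2}).filter (fun x => Jn h t x s a)).card = 0 ∧
      ((M.S \ {e, k, g1, g2}).filter (fun x => Jn h t x s b)).card = 0 := by
    intro s hs hsS
    obtain ⟨u, w, huw, hua, hub, hwa, hwb, huU, hwU, hN, -⟩ := hdata s hs hsS
    rw [hN a, hN b, if_neg (fun h1 => h1.elim (fun h2 => hua h2.symm) (fun h2 => hwa h2.symm)),
      if_neg (fun h1 => h1.elim (fun h2 => hub h2.symm) (fun h2 => hwb h2.symm))]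
    exact ⟨rfl, rfl⟩
  have haX : a ∈ X := by
    rw [hsw, if_pos haT]
    refine ⟨haU', ?_⟩
    have h1 : (if a ∈ SS then ((M.S \ {e, k, g1, g2}).filter (fun x => Jn h t x a a)).card
        else 0) = 0 := by
      by_cases ha : a ∈ SS
      · rw [if_pos ha]
        exact (hNa a (Or.inl rfl) ha).1
      · rw [if_neg ha]
    have h2 : (if b ∈ SS then ((M.S \ {e, k, g1, g2}).filter (fun x => Jn h t x b a)).card
        else 0) = 0 := by
      by_cases hb : b ∈ SS
      · rw [if_pos hb]
        exact (hNa b (Or.inr rfl) hb).1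
      · rw [if_neg hb]
    rw [h1, h2]
    exact odd_one
  have hbX : b ∈ X := by
    rw [hsw, if_pos hbT]
    refine ⟨hbU', ?_⟩
    have h1 : (if a ∈ SS then ((M.S \ {e, k, g1, g2}).filter (fun x => Jn h t x a b)).card
        else 0) = 0 := by
      by_cases ha : a ∈ SS
      · rw [if_pos ha]
        exact (hNa a (Or.inl rfl) ha).2
      · rw [if_neg ha]
    have h2 : (if b ∈ SS then ((M.S \ {e, k, g1, g2}).filter (fun x => Jn h t x b b)).card
        else 0) = 0 := by
      by_cases hb : b ∈ SS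
      · rw [if_pos hb]
        exact (hNa b (Or.inr rfl) hb).2
      · rw [if_neg hb]
    rw [h1, h2]
    exact odd_one
  have hcX : c ∉ X := hno c S.ac.symm S.bc.symm haX hbX
  have hdX : d ∉ X := hno d S.ad.symm S.bd.symm haX hbX
  have h01 : ∀ s, (s = a ∨ s = b) → s ∈ SS → ∀ v,
      ((M.S \ {e, k, g1, g2}).filter (fun x => Jn h t x s v)).card = 0 ∨
      ((M.S \ {e, k, g1, g2}).filter (fun x => Jn h t x s v)).card = 1 := by
    intro s hs hsS v
    obtain ⟨u, w, huw, hua, hub, hwa, hwb, huU, hwU, hN, -⟩ := hdata s hs hsS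
    rw [hN v]
    by_cases h1 : v = u ∨ v = w
    · rw [if_pos h1]; exact Or.inr rfl
    · rw [if_neg h1]; exact Or.inl rfl
  by_cases ha : a ∈ SS
  · by_cases hb : b ∈ SS
    · -- both
      have hsw2 : ∀ v ∈ U.erase y, v ∉ X →
          ¬ Odd ((if v ∈ ({a, b, c, d} : Finset V) then 1 else 0) +
          (((M.S \ {e, k, g1, g2}).filter (fun x => Jn h t x a v)).card +
            ((M.S \ {e, k, g1, g2}).filter (fun x => Jn h t x b v)).card)) := by
        intro v hvU hv hodd
        apply hv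
        rw [hsw, if_pos ha, if_pos hb]
        exact ⟨hvU, hodd⟩
      have hfin : ∀ (s1 s2 : V) (x1 x2 : V), ((s1 = a ∧ s2 = b) ∨ (s1 = b ∧ s2 = a)) →
          ((x1 = c ∧ x2 = d) ∨ (x1 = d ∧ x2 = c)) →
          ((M.S \ {e, k, g1, g2}).filter (fun x => Jn h t x s1 x1)).card = 1 →
          ((M.S \ {e, k, g1, g2}).filter (fun x => Jn h t x s2 x2)).card = 1 →
          ∃ p1 p2 p3 p4 m, m ≠ c ∧ m ≠ d ∧ star (M.S \ {e, k, g1, g2}) h t s1 = {p1, p2} ∧
            star (M.S \ {e, k, g1, g2}) h t s2 = {p3, p4} ∧ Jn h t p1 s1 x1 ∧ Jn h t p2 s1 m ∧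
            Jn h t p3 s2 x2 ∧ Jn h t p4 s2 m := by
        intro s1 s2 x1 x2 hs hx h1 h2
        have hs1 : (s1 = a ∨ s1 = b) ∧ s1 ∈ SS := by
          rcases hs with ⟨rfl, rfl⟩ | ⟨rfl, rfl⟩
          · exact ⟨Or.inl rfl, ha⟩
          · exact ⟨Or.inr rfl, hb⟩
        have hs2 : (s2 = a ∨ s2 = b) ∧ s2 ∈ SS := by
          rcases hs with ⟨rfl, rfl⟩ | ⟨rfl, rfl⟩
          · exact ⟨Or.inr rfl, hb⟩
          · exact ⟨Or.inl rfl, ha⟩
        have hsw3 : ∀ v ∈ U.erase y, v ∉ X →
            ¬ Odd ((if v ∈ ({a, b, c, d} : Finset V) then 1 else 0) +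
            (((M.S \ {e, k, g1, g2}).filter (fun x => Jn h t x s1 v)).card +
              ((M.S \ {e, k, g1, g2}).filter (fun x => Jn h t x s2 v)).card)) := by
          intro v hvU hv
          rcases hs with ⟨rfl, rfl⟩ | ⟨rfl, rfl⟩
          · exact hsw2 v hvU hv
          · rw [add_comm (Finset.card _) (Finset.card _)]
            exact hsw2 v hvU hv
        have hx1 : x1 ∈ U.erase y ∧ x1 ∉ X ∧ x1 ∈ ({a, b, c, d} : Finset V) := by
          rcases hx with ⟨rfl, rfl⟩ | ⟨rfl, rfl⟩
          · exact ⟨hcU', hcX, hcT⟩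
          · exact ⟨hdU', hdX, hdT⟩
        have hx2 : x2 ∈ U.erase y ∧ x2 ∉ X ∧ x2 ∈ ({a, b, c, d} : Finset V) := by
          rcases hx with ⟨rfl, rfl⟩ | ⟨rfl, rfl⟩
          · exact ⟨hdU', hdX, hdT⟩
          · exact ⟨hcU', hcX, hcT⟩
        have hx12 : x1 ≠ x2 := by
          rcases hx with ⟨rfl, rfl⟩ | ⟨rfl, rfl⟩
          · exact hcd
          · exact hcd.symm
        obtain ⟨p1, p2, m, hst1, hj1, hj2, hmx, hma, hmb, hmU, hN1⟩ := hord s1 x1 hs1.1 hs1.2 h1
        obtain ⟨p3, p4, m', hst2, hj3, hj4, hmx', hma', hmb', hmU', hN2⟩ :=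
          hord s2 x2 hs2.1 hs2.2 h2
        have hm2 : m ≠ x2 := by
          intro h3
          have h4 := hsw3 x2 hx2.1 hx2.2.1
          rw [if_pos hx2.2.2, hN1 x2, hN2 x2, if_pos (Or.inr h3.symm), if_pos (Or.inl rfl)] at h4
          exact h4 ⟨1, by norm_num⟩
        have hmX : m ∉ X := hno m hma hmb haX hbX
        have hmT : m ∉ ({a, b, c, d} : Finset V) := by
          rcases hx with ⟨rfl, rfl⟩ | ⟨rfl, rfl⟩
          · exact hnT m hma hmb hmx hm2
          · exact hnT m hma hmb hm2 hmx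
        have hmm : m = m' := by
          by_contra h3
          have h4 := hsw3 m hmU hmX
          rw [if_neg hmT, hN1 m, hN2 m, if_pos (Or.inr rfl),
            if_neg (fun h5 => h5.elim hm2 h3)] at h4
          exact h4 ⟨0, by norm_num⟩
        rw [← hmm] at hj4
        refine ⟨p1, p2, p3, p4, m, ?_, ?_, hst1, hst2, hj1, hj2, hj3, hj4⟩
        · rcases hx with ⟨rfl, rfl⟩ | ⟨rfl, rfl⟩
          · exact hmx
          · exact hm2
        · rcases hx with ⟨rfl, rfl⟩ | ⟨rfl, rfl⟩
          · exact hm2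
          · exact hmx
      -- not both `c` and `d` at the same vertex
      have hnot : ∀ (s1 s2 : V), ((s1 = a ∧ s2 = b) ∨ (s1 = b ∧ s2 = a)) →
          ((M.S \ {e, k, g1, g2}).filter (fun x => Jn h t x s1 c)).card = 1 →
          ((M.S \ {e, k, g1, g2}).filter (fun x => Jn h t x s1 d)).card = 1 →
          ((M.S \ {e, k, g1, g2}).filter (fun x => Jn h t x s2 c)).card = 0 →
          ((M.S \ {e, k, g1, g2}).filter (fun x => Jn h t x s2 d)).card = 0 → False := by
        intro s1 s2 hs h1 h2 h3 h4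
        have hs1 : (s1 = a ∨ s1 = b) ∧ s1 ∈ SS := by
          rcases hs with ⟨rfl, rfl⟩ | ⟨rfl, rfl⟩
          · exact ⟨Or.inl rfl, ha⟩
          · exact ⟨Or.inr rfl, hb⟩
        have hs2 : (s2 = a ∨ s2 = b) ∧ s2 ∈ SS := by
          rcases hs with ⟨rfl, rfl⟩ | ⟨rfl, rfl⟩
          · exact ⟨Or.inr rfl, hb⟩
          · exact ⟨Or.inl rfl, ha⟩
        have hsw3 : ∀ v ∈ U.erase y, v ∉ X →
            ¬ Odd ((if v ∈ ({a, b, c, d} : Finset V) then 1 else 0) +
            (((M.S \ {e, k, g1, g2}).filter (fun x => Jn h t x s1 v)).card +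
              ((M.S \ {e, k, g1, g2}).filter (fun x => Jn h t x s2 v)).card)) := by
          intro v hvU hv
          rcases hs with ⟨rfl, rfl⟩ | ⟨rfl, rfl⟩
          · exact hsw2 v hvU hv
          · rw [add_comm (Finset.card _) (Finset.card _)]
            exact hsw2 v hvU hv
        obtain ⟨p1, p2, m, hst1, hj1, hj2, hmx, hma, hmb, hmU, hN1⟩ := hord s1 c hs1.1 hs1.2 h1
        have hdm : d = m := by
          by_contra h5
          rw [hN1 d, if_neg (fun h6 => h6.elim (fun h7 => hcd h7.symm) h5)] at h2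
          exact absurd h2 (by norm_num)
        obtain ⟨u, w, huw, hua, hub, hwa, hwb, huU, hwU, hN2, -⟩ := hdata s2 hs2.1 hs2.2
        have huc : u ≠ c := by
          intro h5
          rw [hN2 c, if_pos (Or.inl h5.symm)] at h3
          exact absurd h3 (by norm_num)
        have hud : u ≠ d := by
          intro h5
          rw [hN2 d, if_pos (Or.inl h5.symm)] at h4
          exact absurd h4 (by norm_num)
        have h5 := hsw3 u huU (hno u hua hub haX hbX)
        rw [if_neg (hnT u hua hub huc hud), hN1 u, hN2 u,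
          if_neg (fun h6 => h6.elim huc (fun h7 => hud (h7.trans hdm.symm))),
          if_pos (Or.inl rfl)] at h5
        exact h5 ⟨0, by norm_num⟩
      have hpc := hsw2 c hcU' hcX
      have hpd := hsw2 d hdU' hdX
      rw [if_pos hcT] at hpc
      rw [if_pos hdT] at hpd
      rcases h01 a (Or.inl rfl) ha c with hac | hac <;>
        rcases h01 b (Or.inr rfl) hb c with hbc | hbc
      · rw [hac, hbc] at hpc
        exact absurd odd_one hpc
      · rcases h01 a (Or.inl rfl) ha d with had | had <;>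
          rcases h01 b (Or.inr rfl) hb d with hbd | hbd
        · rw [had, hbd] at hpd
          exact absurd odd_one hpd
        · exact (hnot b a (Or.inr ⟨rfl, rfl⟩) hbc hbd hac had).elim
        · obtain ⟨p1, p2, p3, p4, m, h1, h2, h3, h4, h5, h6, h7, h8⟩ :=
            hfin b a c d (Or.inr ⟨rfl, rfl⟩) (Or.inl ⟨rfl, rfl⟩) hbc had
          exact Or.inr (Or.inr (Or.inr ⟨p1, p2, p3, p4, m, h1, h2, hfullb _ _ h3, hfulla _ _ h4,
            h5, h6, h7, h8⟩))
        · rw [had, hbd] at hpd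
          exact absurd ⟨1, by norm_num⟩ hpd
      · rcases h01 a (Or.inl rfl) ha d with had | had <;>
          rcases h01 b (Or.inr rfl) hb d with hbd | hbd
        · rw [had, hbd] at hpd
          exact absurd odd_one hpd
        · obtain ⟨p1, p2, p3, p4, m, h1, h2, h3, h4, h5, h6, h7, h8⟩ :=
            hfin a b c d (Or.inl ⟨rfl, rfl⟩) (Or.inl ⟨rfl, rfl⟩) hac hbd
          exact Or.inr (Or.inr (Or.inl ⟨p1, p2, p3, p4, m, h1, h2, hfulla _ _ h3, hfullb _ _ h4,
            h5, h6, h7, h8⟩))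
        · exact (hnot a b (Or.inl ⟨rfl, rfl⟩) hac had hbc hbd).elim
        · rw [had, hbd] at hpd
          exact absurd ⟨1, by norm_num⟩ hpd
      · rw [hac, hbc] at hpc
        exact absurd ⟨1, by norm_num⟩ hpc
    · -- only `a`
      left
      have hv1 : ∀ v ∈ U.erase y, v ∉ X → v ∈ ({a, b, c, d} : Finset V) →
          ((M.S \ {e, k, g1, g2}).filter (fun x => Jn h t x a v)).card = 1 := by
        intro v hvU hvX hvT
        rcases h01 a (Or.inl rfl) ha v with h1 | h1
        · exfalso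
          apply hvX
          rw [hsw, if_pos ha, if_neg hb, if_pos hvT, h1]
          exact ⟨hvU, odd_one⟩
        · exact h1
      obtain ⟨p, q, m, hst1, hj1, hj2, hmx, hma, hmb, hmU, hN1⟩ :=
        hord a c (Or.inl rfl) ha (hv1 c hcU' hcX hcT)
      have hdm : d = m := by
        by_contra h5
        have h2 := hv1 d hdU' hdX hdT
        rw [hN1 d, if_neg (fun h6 => h6.elim (fun h7 => hcd h7.symm) h5)] at h2
        exact absurd h2 (by norm_num)
      rw [← hdm] at hj2
      exact ⟨p, q, hfulla _ _ hst1, hj1, hj2⟩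
  · by_cases hb : b ∈ SS
    · right
      left
      have hv1 : ∀ v ∈ U.erase y, v ∉ X → v ∈ ({a, b, c, d} : Finset V) →
          ((M.S \ {e, k, g1, g2}).filter (fun x => Jn h t x b v)).card = 1 := by
        intro v hvU hvX hvT
        rcases h01 b (Or.inr rfl) hb v with h1 | h1
        · exfalso
          apply hvX
          rw [hsw, if_neg ha, if_pos hb, if_pos hvT, h1]
          exact ⟨hvU, odd_one⟩
        · exact h1
      obtain ⟨p, q, m, hst1, hj1, hj2, hmx, hma, hmb, hmU, hN1⟩ :=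
        hord b c (Or.inr rfl) hb (hv1 c hcU' hcX hcT)
      have hdm : d = m := by
        by_contra h5
        have h2 := hv1 d hdU' hdX hdT
        rw [hN1 d, if_neg (fun h6 => h6.elim (fun h7 => hcd h7.symm) h5)] at h2
        exact absurd h2 (by norm_num)
      rw [← hdm] at hj2
      exact ⟨p, q, hfullb _ _ hst1, hj1, hj2⟩
    · exfalso
      apply hcX
      rw [hsw, if_neg ha, if_neg hb, if_pos hcT]
      exact ⟨hcU', odd_one⟩

end SEY
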