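import Pool.Agent.Helper25.SEY.T.SitH
import Pool.Agent.Helper25.SEY.T.MinCx
import Pool.Agent.Helper25.SEY.T.Exch
import Pool.Agent.Helper25.SEY.T.RelGr
import Pool.Agent.Helper71.SEYApi2

/-!
T3-Step4b.
T3-Step4 (k2 /= f).  k2 is an element of H' = (M.con {g2}).del {e,k}, k2 /= g1, with M.del {e,k,k2} SC and HasT
(this is H' del k2 with the edge f = ab subdivided by y).  F := (M.con {g2}).del {e,k,k2} = H' del k2 is SC (`SC_con`, g1,g2
in series in M.del {e,k,k2}: star y = {g1,g2}), Two (`TC.del_two` for H'), graph on U - y with ends mg y b (g1 joins a, b).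
Facts used everywhere: no edge of H joins a and b, none joins y to something else than a, b, d; H' has
no parallel edges.

* `step4_b`: star_H a = {g1,xc,k2}, xc = ac, k2 = aq, q /= d.  `exchange` (s = a, n1 = y, n2 = c, w = b): M is the graft for k2 of the graph
  M.del {k2} with g1 = ac, xc = ay, e = ab, graft set {a,q,y,c}.  N2 := (M.con {k}).del {g2}: `IsGraft.con` (k = y d,
  merge y into d, graft set {a,q,c,d}), `IsGraft.del`.  N2.del {k2} del {xc} is a relabelling of F: g1 (= ab in F) -> e,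
  xc (= ac in F) -> g1, other elements fixed (`Rel.of_gr`, the permutation g1 -> e -> xc -> g1): SC, Two, HasT.  Add
  xc = (a,d) (in N2): `gext`: the other edges at a are e (to b) and g1 (to c), not to d; a vertex s of degree 2 adjacent to
  a is b or c, but deg_F b, deg_F c >= 3 (k2 = aq, q /= b, c).  So N2.del {k2} is SC, Two, HasT; `MinCx.graft_graphic`: N2 graphic;
  `crit`: SS inside {a,q,c,d} nonempty, degree 2 in N2.del {k2}: a has degree 3, c, d have degree >= 3; so SS = {q}, q has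
  degree 3 in H and its two other neighbours n1,n2 are in {a,c,d}, not a: {c,d}.
-/

namespace SEY

open Finset

variable {E : Type} [Fintype E] [DecidableEq E] {V : Type} [Fintype V] [DecidableEq V]

omit [Fintype E] [DecidableEq E] [Fintype V] in
lemma Step4b_mem_star {S : Finset E} {h t : E → V} {v : V} {x : E} :
    x ∈ star S h t v ↔ x ∈ S ∧ (h x = v ∨ t x = v) := by
  simp [star]

omit [Fintype E] [DecidableEq E] [Fintype V] [DecidableEq V] in
lemma Step4b_pair {h t : E → V} {x : E} {u v u' v' : V} (h1 : Jn h t x u v)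
    (h2 : Jn h t x u' v') : (u = u' ∧ v = v') ∨ (u = v' ∧ v = u') := by
  rcases h1 with ⟨a1, a2⟩ | ⟨a1, a2⟩ <;> rcases h2 with ⟨b1, b2⟩ | ⟨b1, b2⟩
  · exact Or.inl ⟨a1.symm.trans b1, a2.symm.trans b2⟩
  · exact Or.inr ⟨a1.symm.trans b1, a2.symm.trans b2⟩
  · exact Or.inr ⟨a2.symm.trans b2, a1.symm.trans b1⟩
  · exact Or.inl ⟨a2.symm.trans b2, a1.symm.trans b1⟩

omit [Fintype E] [DecidableEq E] [Fintype V] [DecidableEq V] in
lemma Step4b_end {h t : E → V} {x : E} {u v w : V} (h1 : Jn h t x u v)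
    (h2 : h x = w ∨ t x = w) : w = u ∨ w = v := by
  rcases h1 with ⟨a1, a2⟩ | ⟨a1, a2⟩ <;> rcases h2 with b | b
  · exact Or.inl (b.symm.trans a1)
  · exact Or.inr (b.symm.trans a2)
  · exact Or.inr (b.symm.trans a1)
  · exact Or.inl (b.symm.trans a2)

omit [Fintype E] [DecidableEq E] [Fintype V] [DecidableEq V] in
lemma Step4b_left {h t : E → V} {x : E} {u v : V} (h1 : Jn h t x u v) : h x = u ∨ t x = u := by
  rcases h1 with ⟨a1, a2⟩ | ⟨a1, a2⟩
  · exact Or.inl a1
  · exact Or.inr a2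

omit [Fintype E] [DecidableEq E] [Fintype V] [DecidableEq V] in
lemma Step4b_right {h t : E → V} {x : E} {u v : V} (h1 : Jn h t x u v) : h x = v ∨ t x = v := by
  rcases h1 with ⟨a1, a2⟩ | ⟨a1, a2⟩
  · exact Or.inr a2
  · exact Or.inl a1

omit [Fintype E] [Fintype V] in
/-- The final count: a degree two vertex `q` whose swap leaves at most two vertices. -/
lemma Step4b_sw {S : Finset E} {h t : E → V} {U : Finset V} {a q c d : V}
    (hU : a ∈ U ∧ q ∈ U ∧ c ∈ U ∧ d ∈ U) (hac : a ≠ c) (had : a ≠ d) (haq : a ≠ q) (hqc : q ≠ c)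
    (hqd : q ≠ d) (hcd : c ≠ d) (hloop : ∀ x ∈ S, h x ≠ t x) (h2 : (star S h t q).card = 2)
    (hqa : ∀ x ∈ S, ¬ Jn h t x q a) (hsw : (swT S h t U {a, q, c, d} {q}).card ≤ 2) :
    ∃ x1 x2, star S h t q = {x1, x2} ∧ Jn h t x1 q c ∧ Jn h t x2 q d := by
  classical
  have hmem : ∀ v, v ∈ swT S h t U {a, q, c, d} {q} ↔ v ∈ U ∧
      Odd ((if v ∈ ({a, q, c, d} : Finset V) then 1 else 0) +
        (S.filter (fun x => Jn h t x q v)).card) := by
    intro v
    simp [swT]
  have ha : a ∈ swT S h t U {a, q, c, d} {q} := by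
    rw [hmem]
    refine ⟨hU.1, ?_⟩
    rw [if_pos (by simp), Finset.filter_eq_empty_iff.2 (fun {x} hx => hqa x hx)]
    simp
  have hq : q ∈ swT S h t U {a, q, c, d} {q} := by
    rw [hmem]
    refine ⟨hU.2.1, ?_⟩
    rw [if_pos (by simp), Finset.filter_eq_empty_iff.2 (fun {x} hx hj => by
      rcases hj with ⟨b1, b2⟩ | ⟨b1, b2⟩ <;> exact hloop x hx (b1.trans b2.symm))]
    simp
  have key : ∀ v ∈ U, v ∈ ({a, q, c, d} : Finset V) → v ≠ a → v ≠ q →
      ∃ x ∈ S, Jn h t x q v := by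
    intro v hv hv' hva hvq
    by_contra hcon
    push Not at hcon
    have hvs : v ∈ swT S h t U {a, q, c, d} {q} := by
      rw [hmem]
      refine ⟨hv, ?_⟩
      rw [if_pos hv', Finset.filter_eq_empty_iff.2 (fun {x} hx => hcon x hx)]
      simp
    have h3 : ({a, q, v} : Finset V) ⊆ swT S h t U {a, q, c, d} {q} := by
      intro w hw
      simp only [Finset.mem_insert, Finset.mem_singleton] at hw
      rcases hw with rfl | rfl | rfl
      · exact ha
      · exact hq
      · exact hvs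
    have h4 := Finset.card_le_card h3
    rw [Finset.card_eq_three.2 ⟨a, q, v, haq, hva.symm, hvq.symm, rfl⟩] at h4
    omega
  obtain ⟨x1, hx1, hj1⟩ := key c hU.2.2.1 (by simp) hac.symm hqc.symm
  obtain ⟨x2, hx2, hj2⟩ := key d hU.2.2.2 (by simp) had.symm hqd.symm
  refine ⟨x1, x2, ?_, hj1, hj2⟩
  have hne : x1 ≠ x2 := by
    rintro rfl
    rcases Step4b_pair hj1 hj2 with ⟨-, b⟩ | ⟨b, -⟩
    · exact hcd b
    · exact hqd b
  symm
  apply Finset.eq_of_subset_of_card_le
  · intro x hx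
    simp only [Finset.mem_insert, Finset.mem_singleton] at hx
    rcases hx with rfl | rfl
    · exact Step4b_mem_star.2 ⟨hx1, Step4b_left hj1⟩
    · exact Step4b_mem_star.2 ⟨hx2, Step4b_left hj2⟩
  · rw [h2, Finset.card_pair hne]

/-- `{x1, x2, x3}` is a row of a `TC` matroid, then `M del {g2, k2}` has a cycle through `xc`. -/
lemma Step4b_cyc {M : BM E} {e g1 g2 k2 xc : E} (hH : (M.del {e}).TC)
    (hxS : xc ∈ M.S) (hxe : xc ≠ e) (h1S : g1 ∈ M.S) (h1e : g1 ≠ e)
    (hx1 : xc ≠ g1) (hx2 : xc ≠ g2) (hxk : xc ≠ k2) (h12 : g1 ≠ g2) (h1k : g1 ≠ k2)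
    (ha : ind {g1, xc, k2} ∈ (M.del {e}).R) :
    ∃ z ∈ M.Z, z g2 = 0 ∧ z k2 = 0 ∧ z xc = 1 := by
  classical
  by_contra hcon
  push Not at hcon
  have h1 : ind {xc} ∈ (M.del {g2, k2}).R := by
    rw [BM.mem_R_iff]
    constructor
    · intro x hx
      rw [ind_of_notMem]
      simp only [Finset.mem_singleton]
      rintro rfl
      apply hx
      simp [hxS, hx2, hxk]
    · intro z hz
      rw [BM.mem_Z_del] at hz
      rw [ind_dot, Finset.sum_singleton]
      exact z_ne_one.1 (hcon z hz.1 (hz.2 g2 (by simp)) (hz.2 k2 (by simp)))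
  rw [BM.mem_del'] at h1
  obtain ⟨-, g, hg, hg1⟩ := h1
  have hgx : g xc = 1 := by
    rw [hg1 xc (by simp [hxS, hx2, hxk])]
    simp
  have hgo : ∀ x, x ≠ xc → x ≠ g2 → x ≠ k2 → g x = 0 := by
    intro x h3 h4 h5
    by_cases hx : x ∈ M.S
    · rw [hg1 x (by simp [hx, h4, h5])]
      simp [h3]
    · exact M.supp g hg x hx
  -- the row of `H`
  have hmg : mask (M.S \ {e}) g ∈ (M.del {e}).R := by
    rw [BM.mem_del]
    exact ⟨g, hg, rfl⟩
  by_cases hk : g k2 = 0
  · have h3 := BM.TC.row_weight hH hmg (by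
      intro h0
      have := congrFun h0 xc
      rw [mask_apply, if_pos (by simp [hxS, hxe]), hgx] at this
      exact one_ne_zero this)
    have h4 : spt (mask (M.S \ {e}) g) ⊆ {xc, g2} := by
      rw [spt_subset]
      intro x hx
      simp only [Finset.mem_insert, Finset.mem_singleton, not_or] at hx
      rw [mask_apply]
      split_ifs
      · by_cases hxk2 : x = k2
        · rw [hxk2, hk]
        · exact hgo x hx.1 hx.2 hxk2
      · rfl
    have h5 := Finset.card_le_card h4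
    have h6 := Finset.card_le_two (a := xc) (b := g2)
    omega
  · have hf : mask (M.S \ {e}) g + ind {g1, xc, k2} ∈ (M.del {e}).R :=
      Submodule.add_mem _ hmg ha
    have h3 := BM.TC.row_weight hH hf (by
      intro h0
      have := congrFun h0 g1
      rw [Pi.add_apply, mask_apply, if_pos (by simp [h1S, h1e]),
        hgo g1 (Ne.symm hx1) h12 h1k] at this
      simp at this)
    have hk1 : g k2 = 1 := z_ne_zero.1 hk
    have h4 : spt (mask (M.S \ {e}) g + ind {g1, xc, k2}) ⊆ {g1, g2} := by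
      rw [spt_subset]
      intro x hx
      simp only [Finset.mem_insert, Finset.mem_singleton, not_or] at hx
      rw [Pi.add_apply]
      by_cases hx3 : x = xc
      · rw [hx3, mask_apply, if_pos (by simp [hxS, hxe]), hgx, ind_of_mem (by simp)]
        exact z_add_self 1
      by_cases hx4 : x = k2
      · rw [hx4, ind_of_mem (by simp)]
        have hkS : k2 ∈ M.S \ {e} := by
          have := (M.del {e}).supp _ ha k2
          by_contra hcon2
          have h7 := this hcon2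
          rw [ind_of_mem (by simp)] at h7
          exact one_ne_zero h7
        rw [mask_apply, if_pos hkS, hk1]
        exact z_add_self 1
      · rw [ind_of_notMem (by simp [hx.1, hx3, hx4]), mask_apply, add_zero]
        split_ifs
        · exact hgo x hx3 hx.2 hx4
        · rfl
    have h5 := Finset.card_le_card h4
    have h6 := Finset.card_le_two (a := g1) (b := g2)
    omega

/-! ### The new ends -/

/-- First ends of the graph of `N2`. -/
def Step4b_H (h : E → V) (e g1 xc : E) (y a d : V) : E → V :=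
  fun x => mg y d (exH h e g1 xc a x)

/-- Second ends of the graph of `N2`. -/
def Step4b_T (t : E → V) (e g1 xc : E) (y b c d : V) : E → V :=
  fun x => mg y d (exT t e g1 xc y c b x)

omit [Fintype E] [Fintype V] in
lemma Step4b_ends {h t : E → V} {e g1 xc : E} {y a b c d : V} (ya : y ≠ a) (yb : y ≠ b)
    (yc : y ≠ c) (h1e : g1 ≠ e) (hxe : xc ≠ e) (hx1 : xc ≠ g1) :
    (Step4b_H h e g1 xc y a d e = a ∧ Step4b_T t e g1 xc y b c d e = b) ∧
    (Step4b_H h e g1 xc y a d g1 = a ∧ Step4b_T t e g1 xc y b c d g1 = c) ∧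
    (Step4b_H h e g1 xc y a d xc = a ∧ Step4b_T t e g1 xc y b c d xc = d) ∧
    (∀ x, x ≠ e → x ≠ g1 → x ≠ xc → h x ≠ y → t x ≠ y →
      Step4b_H h e g1 xc y a d x = h x ∧ Step4b_T t e g1 xc y b c d x = t x) := by
  refine ⟨⟨?_, ?_⟩, ⟨?_, ?_⟩, ⟨?_, ?_⟩, ?_⟩
  · simp [Step4b_H, exH, mg, ya.symm]
  · simp [Step4b_T, exT, mg, yb.symm]
  · simp [Step4b_H, exH, mg, ya.symm]
  · simp [Step4b_T, exT, mg, yc.symm, h1e]
  · simp [Step4b_H, exH, mg, ya.symm]
  · simp [Step4b_T, exT, mg, hxe, hx1]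
  · intro x h1 h2 h3 h4 h5
    constructor
    · simp [Step4b_H, exH, mg, h1, h2, h3, h4]
    · simp [Step4b_T, exT, mg, h1, h2, h3, h5]

variable {r l : ℕ} {rows : Fin r → Fin l → ZMod 2} {M : BM E} {U : Finset V} {h t : E → V}
  {e k g1 g2 : E} {y a b c d : V}

/-- The basic facts. -/
structure Step4b_Ctx (M : BM E) (U : Finset V) (h t : E → V) (e k g1 g2 k2 xc : E)
    (y a b c d q : V) : Prop where
  he : e ∈ M.S
  hkS : k ∈ M.S
  h1S : g1 ∈ M.S
  h2S : g2 ∈ M.S
  hxS : xc ∈ M.S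
  hk2S : k2 ∈ M.S
  hke : k ≠ e
  h1e : g1 ≠ e
  h2e : g2 ≠ e
  hxe : xc ≠ e
  hk2e : k2 ≠ e
  hk1 : k ≠ g1
  hk2 : k ≠ g2
  hkx : k ≠ xc
  hkk : k ≠ k2
  h12 : g1 ≠ g2
  h1x : g1 ≠ xc
  h1k : g1 ≠ k2
  h2x : g2 ≠ xc
  h2k : g2 ≠ k2
  hxk : xc ≠ k2
  yU : y ∈ U
  aU : a ∈ U
  bU : b ∈ U
  cU : c ∈ U
  dU : d ∈ U
  qU : q ∈ U
  ya : y ≠ a
  yb : y ≠ b
  yc : y ≠ c
  yd : y ≠ d
  yq : y ≠ q
  ab : a ≠ b
  ac : a ≠ c
  ad : a ≠ d
  aq : a ≠ q
  bc : b ≠ c
  bd : b ≠ d
  bq : b ≠ q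
  cd : c ≠ d
  cq : c ≠ q
  dq : d ≠ q
  jk : Jn h t k y d
  j1 : Jn h t g1 y a
  j2 : Jn h t g2 y b
  jx : Jn h t xc a c
  jq : Jn h t k2 a q
  ny : ∀ x ∈ M.S, x ≠ e → x ≠ k → x ≠ g1 → x ≠ g2 → h x ≠ y ∧ t x ≠ y
  na : ∀ x ∈ M.S, x ≠ e → x ≠ g1 → x ≠ xc → x ≠ k2 → h x ≠ a ∧ t x ≠ a

theorem Step4b_ctx (S : SitI rows M U h t e k g1 g2 y a b c d)
    (hcd : c ≠ d) (hd : 4 ≤ (star (M.S \ {e}) h t d).card) {k2 : E}
    (hk : k2 ∈ M.S) (hke : k2 ≠ e) (hkk : k2 ≠ k) (hk1 : k2 ≠ g1) (hk2 : k2 ≠ g2)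
    {xc : E} {q : V}
    (hst : star (M.S \ {e}) h t a = {g1, xc, k2}) (hjc : Jn h t xc a c) (hjq : Jn h t k2 a q)
    (hq : q ≠ d) : Step4b_Ctx M U h t e k g1 g2 k2 xc y a b c d q := by
  classical
  have hH := S.gr.gr
  have hSC : (M.del {e}).SC := ((TC_iff_SC _).1 S.tc).1
  have hms : ∀ {x : E} {v : V}, x ∈ star (M.S \ {e}) h t v ↔
      (x ∈ M.S ∧ x ≠ e) ∧ (h x = v ∨ t x = v) := by
    intro x v; simp [star]
  have hky : k ∈ star (M.S \ {e}) h t y := by rw [S.st]; simp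
  have h1y : g1 ∈ star (M.S \ {e}) h t y := by rw [S.st]; simp
  have h2y : g2 ∈ star (M.S \ {e}) h t y := by rw [S.st]; simp
  have hxa : xc ∈ star (M.S \ {e}) h t a := by rw [hst]; simp
  have hy : y ∈ U := S.gr.sub (by simp)
  have ha : a ∈ U := S.gr.sub (by simp)
  have hb : b ∈ U := S.gr.sub (by simp)
  have hc : c ∈ U := S.gr.sub (by simp)
  obtain ⟨⟨hkS, hke'⟩, -⟩ := hms.1 hky
  obtain ⟨⟨h1S, h1e⟩, -⟩ := hms.1 h1y
  obtain ⟨⟨h2S, h2e⟩, -⟩ := hms.1 h2y
  obtain ⟨⟨hxS, hxe⟩, -⟩ := hms.1 hxa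
  have hends : ∀ x ∈ M.S, x ≠ e → h x ∈ U ∧ t x ∈ U ∧ h x ≠ t x := by
    intro x hx hxe
    exact hH.ends x (by simp [hx, hxe])
  have hjU : ∀ {x : E} {u v : V}, x ∈ M.S → x ≠ e → Jn h t x u v → u ∈ U ∧ v ∈ U ∧ u ≠ v := by
    intro x u v hx hxe hj
    obtain ⟨a1, a2, a3⟩ := hends x hx hxe
    rcases hj with ⟨b1, b2⟩ | ⟨b1, b2⟩
    · rw [b1] at a1 a3; rw [b2] at a2 a3; exact ⟨a1, a2, a3⟩
    · rw [b1] at a1 a3; rw [b2] at a2 a3; exact ⟨a2, a1, a3.symm⟩
  have hnp : ∀ {x x' : E} {u v : V}, x ∈ M.S → x ≠ e → x' ∈ M.S → x' ≠ e → Jn h t x u v →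
      Jn h t x' u v → x = x' := by
    intro x x' u v h1 h2 h3 h4 h5 h6
    exact hH.no_par hSC (by simp [h1, h2]) (by simp [h3, h4]) h5 h6
  have ny : ∀ x ∈ M.S, x ≠ e → x ≠ k → x ≠ g1 → x ≠ g2 → h x ≠ y ∧ t x ≠ y := by
    intro x hx h1 h2 h3 h4
    by_contra hcon
    rw [not_and_or, not_not, not_not] at hcon
    have h5 : x ∈ star (M.S \ {e}) h t y := hms.2 ⟨⟨hx, h1⟩, hcon⟩
    rw [S.st] at h5
    simp only [Finset.mem_insert, Finset.mem_singleton] at h5
    tauto
  have na : ∀ x ∈ M.S, x ≠ e → x ≠ g1 → x ≠ xc → x ≠ k2 → h x ≠ a ∧ t x ≠ a := by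
    intro x hx h1 h2 h3 h4
    by_contra hcon
    rw [not_and_or, not_not, not_not] at hcon
    have h5 : x ∈ star (M.S \ {e}) h t a := hms.2 ⟨⟨hx, h1⟩, hcon⟩
    rw [hst] at h5
    simp only [Finset.mem_insert, Finset.mem_singleton] at h5
    tauto
  have hxk2 : xc ≠ k2 := by
    intro hh
    have h3 := TC.three_le_deg S.tc hH ha
    have h4 : star (M.del {e}).S h t a = star (M.S \ {e}) h t a := rfl
    rw [h4, hst, hh] at h3
    have h5 : ({g1, k2, k2} : Finset E) = {g1, k2} := by ext x; simp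
    rw [h5] at h3
    have h6 := Finset.card_le_two (a := g1) (b := k2)
    omega
  have hkn : k ≠ g1 := by
    rintro rfl
    rcases Step4b_pair S.jk S.j1 with ⟨-, h5⟩ | ⟨h5, -⟩
    · exact S.ad h5.symm
    · exact S.ya h5
  have hkn2 : k ≠ g2 := by
    rintro rfl
    rcases Step4b_pair S.jk S.j2 with ⟨-, h5⟩ | ⟨h5, -⟩
    · exact S.bd h5.symm
    · exact S.yb h5
  have h12 : g1 ≠ g2 := by
    rintro rfl
    rcases Step4b_pair S.j1 S.j2 with ⟨-, h5⟩ | ⟨h5, -⟩
    · exact S.ab h5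
    · exact S.yb h5
  have hkx : k ≠ xc := by
    rintro rfl
    rcases Step4b_pair S.jk hjc with ⟨h5, -⟩ | ⟨h5, -⟩
    · exact S.ya h5
    · exact S.yc h5
  have h1x : g1 ≠ xc := by
    rintro rfl
    rcases Step4b_pair S.j1 hjc with ⟨h5, -⟩ | ⟨h5, -⟩
    · exact S.ya h5
    · exact S.yc h5
  have h2x : g2 ≠ xc := by
    rintro rfl
    rcases Step4b_pair S.j2 hjc with ⟨h5, -⟩ | ⟨h5, -⟩
    · exact S.ya h5
    · exact S.yc h5
  have hqU := hjU hk hke hjq
  have hyq : y ≠ q := by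
    rintro rfl
    have := ny k2 hk hke hkk hk1 hk2
    rcases Step4b_right hjq with h5 | h5
    · exact this.1 h5
    · exact this.2 h5
  have hcq : c ≠ q := by
    rintro rfl
    exact hxk2 (hnp hxS hxe hk hke hjc hjq)
  have hbq : b ≠ q := by
    rintro rfl
    have hP := S.hp_gr
    have hPS : ((M.con {g2}).del {e, k}).SC := ((TC_iff_SC _).1 (S.hp_tc hd)).1
    have h5 : g1 = k2 := by
      refine hP.no_par hPS (u := a) (v := b) ?_ ?_ ?_ ?_
      · simp [h1S, h12, h1e, hkn.symm]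
      · simp [hk, hk2, hke, hkk]
      · rcases S.j1 with ⟨b1, b2⟩ | ⟨b1, b2⟩
        · right; simp [mg, b1, b2, S.ya.symm]
        · left; simp [mg, b1, b2, S.ya.symm]
      · rcases hjq with ⟨b1, b2⟩ | ⟨b1, b2⟩
        · left; simp [mg, b1, b2, S.ya.symm, S.yb.symm]
        · right; simp [mg, b1, b2, S.ya.symm, S.yb.symm]
    exact hk1 h5.symm
  exact
    { he := S.gr.mem
      hkS := hkS
      h1S := h1S
      h2S := h2S
      hxS := hxS
      hk2S := hk
      hke := hke'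
      h1e := h1e
      h2e := h2e
      hxe := hxe
      hk2e := hke
      hk1 := hkn
      hk2 := hkn2
      hkx := hkx
      hkk := hkk.symm
      h12 := h12
      h1x := h1x
      h1k := hk1.symm
      h2x := h2x
      h2k := hk2.symm
      hxk := hxk2
      yU := hy
      aU := ha
      bU := hb
      cU := hc
      dU := (hjU hkS hke' S.jk).2.1
      qU := hqU.2.1
      ya := S.ya
      yb := S.yb
      yc := S.yc
      yd := S.yd
      yq := hyq
      ab := S.ab
      ac := S.ac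
      ad := S.ad
      aq := hqU.2.2
      bc := S.bc
      bd := S.bd
      bq := hbq
      cd := hcd
      cq := hcq
      dq := hq.symm
      jk := S.jk
      j1 := S.j1
      j2 := S.j2
      jx := hjc
      jq := hjq
      ny := ny
      na := na }


omit [Fintype V] in
theorem Step4b_ends' {k2 xc : E} {q : V} (C : Step4b_Ctx M U h t e k g1 g2 k2 xc y a b c d q) :
    (Step4b_H h e g1 xc y a d e = a ∧ Step4b_T t e g1 xc y b c d e = b) ∧
    (Step4b_H h e g1 xc y a d g1 = a ∧ Step4b_T t e g1 xc y b c d g1 = c) ∧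
    (Step4b_H h e g1 xc y a d xc = a ∧ Step4b_T t e g1 xc y b c d xc = d) ∧
    (∀ x ∈ M.S, x ≠ e → x ≠ k → x ≠ g1 → x ≠ g2 → x ≠ xc →
      Step4b_H h e g1 xc y a d x = h x ∧ Step4b_T t e g1 xc y b c d x = t x) := by
  obtain ⟨h1, h2, h3, h4⟩ := Step4b_ends (h := h) (t := t) (e := e) (g1 := g1) (xc := xc)
    (d := d) C.ya C.yb C.yc C.h1e C.hxe C.h1x.symm
  refine ⟨h1, h2, h3, ?_⟩
  intro x hx a1 a2 a3 a4 a5
  have h5 := C.ny x hx a1 a2 a3 a4
  exact h4 x a1 a3 a5 h5.1 h5.2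

/-- `N2` is a graft. -/
theorem Step4b_graft (S : SitI rows M U h t e k g1 g2 y a b c d) {k2 xc : E} {q : V}
    (C : Step4b_Ctx M U h t e k g1 g2 k2 xc y a b c d q)
    (hst : star (M.S \ {e}) h t a = {g1, xc, k2}) (hsc' : (M.del {e, k2}).SC) :
    IsGraft ((M.con {k}).del {g2}) k2 (U.erase y) (Step4b_H h e g1 xc y a d)
      (Step4b_T t e g1 xc y b c d) {a, q, c, d} := by
  classical
  have hH := S.gr.gr
  have hSC : (M.del {e}).SC := ((TC_iff_SC _).1 S.tc).1
  have hG1 : IsGraft M k2 U (exH h e g1 xc a) (exT t e g1 xc y c b) {a, q, y, c} := by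
    refine exchange (s := a) (n1 := y) (n2 := c) (w := b) (q := q) ?_
      ⟨C.ya.symm, C.ac, C.ab, C.yc, C.yb, C.bc.symm, C.aq.symm, C.yq.symm, C.cq.symm⟩ ?_
      C.jq ?_ C.jx ?_
    · have h1 := S.gr
      have h2 : ({y, a, b, c} : Finset V) = {a, y, c, b} := by ext v; simp; tauto
      rwa [h2] at h1
    · rw [hst]; ext x; simp; tauto
    · exact C.j1.symm
    · obtain ⟨z, hz, hz1⟩ := SC_not_coloop _ hSC k2 (by simp [C.hk2S, C.hk2e])
      have h1 := hH.del (x := k2) (by simp [C.hk2S, C.hk2e]) ⟨z, hz, hz1⟩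
      rw [BM.del_del] at h1
      have h2 : ({e} ∪ {k2} : Finset E) = {e, k2} := by ext x; simp
      rwa [h2] at h1
  have hc4 : 3 ≤ M.S.card := by
    have h1 := S.tc.1
    have h2 : (M.del {e}).S.card ≤ M.S.card := Finset.card_le_card (by simp)
    omega
  have hG2 := hG1.con (x := k) (u := y) (v := d) C.hkS C.hkk ?_ ?_ hc4
  · have h1 : (if y ∈ ({a, q, y, c} : Finset V) then
        symmDiff (({a, q, y, c} : Finset V).erase y) {d} else ({a, q, y, c} : Finset V)) =
        {a, q, c, d} := by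
      rw [if_pos (by simp)]
      ext v
      have h2 := C.ya
      have h3 := C.yq
      have h4 := C.yc
      have h5 := C.ad
      have h6 := C.dq
      have h7 := C.cd
      simp only [Finset.mem_symmDiff, Finset.mem_erase, Finset.mem_insert, Finset.mem_singleton]
      constructor
      · rintro (⟨⟨_, h8⟩, _⟩ | ⟨h8, _⟩) <;> tauto
      · rintro (rfl | rfl | rfl | rfl)
        · exact Or.inl ⟨⟨h2.symm, Or.inl rfl⟩, h5⟩
        · exact Or.inl ⟨⟨h3.symm, Or.inr (Or.inl rfl)⟩, h6.symm⟩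
        · exact Or.inl ⟨⟨h4.symm, Or.inr (Or.inr (Or.inr rfl))⟩, h7⟩
        · refine Or.inr ⟨rfl, ?_⟩
          rintro ⟨h8, h9⟩
          rcases h9 with h9 | h9 | h9 | h9
          · exact h5 h9.symm
          · exact h6 h9
          · exact h8 h9
          · exact h7 h9.symm
    rw [h1] at hG2
    refine hG2.del (x := g2) (by simp [C.h2S, C.hk2.symm]) C.h2k ?_
    obtain ⟨z, hz, hz1⟩ := SC_not_coloop _ hsc' g2 (by simp [C.h2S, C.h2e, C.h2k])
    rw [BM.mem_Z_del] at hz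
    refine ⟨mask (M.S \ {k}) z, ?_, ?_⟩
    · rw [BM.mem_Z_del, BM.mem_Z_con]
      refine ⟨⟨z, hz.1, rfl⟩, ?_⟩
      intro x hx
      rw [Finset.mem_singleton] at hx
      rw [hx, mask_apply, hz.2 k2 (by simp)]
      simp
    · rw [mask_apply, if_pos (by simp [C.h2S, C.hk2.symm]), hz1]
  · have h1 : exH h e g1 xc a k = h k := by simp [exH, C.hke, C.hk1, C.hkx]
    have h2 : exT t e g1 xc y c b k = t k := by simp [exT, C.hke, C.hk1, C.hkx]
    unfold Jn
    rw [h1, h2]
    exact C.jk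
  · intro x hx hxk2 hxk hj
    by_cases hxe : x = e
    · subst hxe
      have h1 : Jn (exH h x g1 xc a) (exT t x g1 xc y c b) x a b := by
        left; simp [exH, exT]
      rcases Step4b_pair hj h1 with ⟨h2, -⟩ | ⟨h2, -⟩
      · exact C.ya h2
      · exact C.yb h2
    by_cases hx1 : x = g1
    · subst hx1
      have h1 : Jn (exH h e x xc a) (exT t e x xc y c b) x a c := by
        left; simp [exH, exT, C.h1e]
      rcases Step4b_pair hj h1 with ⟨h2, -⟩ | ⟨h2, -⟩
      · exact C.ya h2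
      · exact C.yc h2
    by_cases hxx : x = xc
    · subst hxx
      have h1 : Jn (exH h e g1 x a) (exT t e g1 x y c b) x a y := by
        left; simp [exH, exT, C.hxe, C.h1x.symm]
      rcases Step4b_pair hj h1 with ⟨h2, -⟩ | ⟨-, h2⟩
      · exact C.ya h2
      · exact C.ad h2.symm
    · have h1 : exH h e g1 xc a x = h x := by simp [exH, hxe, hx1, hxx]
      have h2 : exT t e g1 xc y c b x = t x := by simp [exT, hxe, hx1, hxx]
      have h3 : Jn h t x y d := by
        unfold Jn at hj ⊢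
        rwa [h1, h2] at hj
      exact hxk (hH.no_par hSC (by simp [hx, hxe]) (by simp [C.hkS, C.hke]) h3 C.jk)

/-- The permutation. -/
def Step4b_perm (e g1 xc : E) : Equiv.Perm E := Equiv.swap e xc * Equiv.swap g1 xc

omit [Fintype E] in
lemma Step4b_perm_spec {e g1 xc : E} (h1e : g1 ≠ e) (hxe : xc ≠ e) (h1x : g1 ≠ xc) :
    Step4b_perm e g1 xc g1 = e ∧ Step4b_perm e g1 xc e = xc ∧ Step4b_perm e g1 xc xc = g1 ∧
      ∀ x, x ≠ e → x ≠ g1 → x ≠ xc → Step4b_perm e g1 xc x = x := by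
  refine ⟨?_, ?_, ?_, ?_⟩
  · simp [Step4b_perm]
  · simp only [Step4b_perm, Equiv.Perm.mul_apply]
    rw [Equiv.swap_apply_of_ne_of_ne h1e.symm hxe.symm, Equiv.swap_apply_left]
  · simp only [Step4b_perm, Equiv.Perm.mul_apply]
    rw [Equiv.swap_apply_right, Equiv.swap_apply_of_ne_of_ne h1e h1x]
  · intro x h1 h2 h3
    simp only [Step4b_perm, Equiv.Perm.mul_apply]
    rw [Equiv.swap_apply_of_ne_of_ne h2 h3, Equiv.swap_apply_of_ne_of_ne h1 h3]


/-- `F` is `SC`, `Two`, has the topological minor and is a graph. -/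
theorem Step4b_F (h0 : (ofRows rows).TC) (S : SitI rows M U h t e k g1 g2 y a b c d)
    (hd : 4 ≤ (star (M.S \ {e}) h t d).card) {k2 xc : E} {q : V}
    (C : Step4b_Ctx M U h t e k g1 g2 k2 xc y a b c d q)
    (hsc : (M.del {e, k, k2}).SC) (hT : HasT rows (M.del {e, k, k2})) :
    (((M.con {g2}).del {e, k}).del {k2}).SC ∧ (((M.con {g2}).del {e, k}).del {k2}).Two ∧
      HasT rows (((M.con {g2}).del {e, k}).del {k2}) ∧
      IsGr (((M.con {g2}).del {e, k}).del {k2}) (U.erase y) (fun x => mg y b (h x))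
        (fun x => mg y b (t x)) := by
  classical
  have hP := S.hp_tc hd
  have hk2P : k2 ∈ ((M.con {g2}).del {e, k}).S := by
    simp [C.hk2S, C.h2k.symm, C.hk2e, C.hkk.symm]
  have heq : (M.del {e, k, k2}).con {g2} = ((M.con {g2}).del {e, k}).del {k2} := by
    rw [BM.del_del, BM.del_con]
    · congr 1
      ext x
      simp only [Finset.mem_union, Finset.mem_insert, Finset.mem_singleton]
      tauto
    · rw [Finset.disjoint_singleton_right]
      simp [C.h2e, C.hk2.symm, C.h2k]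
  have hg1S : g1 ∈ (M.del {e, k, k2}).S := by
    simp [C.h1S, C.h1e, C.hk1.symm, C.h1k]
  have hg2S : g2 ∈ (M.del {e, k, k2}).S := by
    simp [C.h2S, C.h2e, C.hk2.symm, C.h2k]
  have hser : (M.del {e, k, k2}).Ser g2 g1 := by
    intro z hz
    rw [BM.mem_Z_del] at hz
    have h1 := S.gr.gr.star_mem C.yU
    have h2 : star (M.del {e}).S h t y = {k, g1, g2} := S.st
    rw [h2] at h1
    have h3 : z ∈ (M.del {e}).Z := by
      rw [BM.mem_Z_del]
      exact ⟨hz.1, fun x hx => hz.2 x (by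
        rw [Finset.mem_singleton] at hx
        simp [hx])⟩
    have h4 := BM.dot_eq_zero _ h1 h3
    rw [ind_dot, Finset.sum_insert (by simp [C.hk1, C.hk2]), Finset.sum_pair C.h12,
      hz.2 k (by simp), zero_add] at h4
    exact (z_add_eq_zero.1 h4).symm
  have h1 := SC_con _ hsc g2 g1 hg2S hg1S C.h12.symm hser
  have h2 := HasT_con h0 hg2S hg1S C.h12.symm hser hT
  rw [heq] at h1 h2
  refine ⟨h1.1, TC.del_two hP hk2P, h2, ?_⟩
  exact S.hp_gr.del hk2P (BM.TC.exists_cycle hP hk2P)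

/-- The relabelled graph. -/
theorem Step4b_F' (h0 : (ofRows rows).TC) (S : SitI rows M U h t e k g1 g2 y a b c d)
    (hd : 4 ≤ (star (M.S \ {e}) h t d).card) {k2 xc : E} {q : V}
    (C : Step4b_Ctx M U h t e k g1 g2 k2 xc y a b c d q)
    (hst : star (M.S \ {e}) h t a = {g1, xc, k2})
    (hsc : (M.del {e, k, k2}).SC) (hT : HasT rows (M.del {e, k, k2}))
    (hG : IsGraft ((M.con {k}).del {g2}) k2 (U.erase y) (Step4b_H h e g1 xc y a d)
      (Step4b_T t e g1 xc y b c d) {a, q, c, d}) :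
    IsGr ((((M.con {k}).del {g2}).del {k2}).del {xc}) (U.erase y) (Step4b_H h e g1 xc y a d)
      (Step4b_T t e g1 xc y b c d) ∧
    ((((M.con {k}).del {g2}).del {k2}).del {xc}).SC ∧
    ((((M.con {k}).del {g2}).del {k2}).del {xc}).Two ∧
    HasT rows ((((M.con {k}).del {g2}).del {k2}).del {xc}) := by
  classical
  obtain ⟨F1, F2, F3, F4⟩ := Step4b_F h0 S hd C hsc hT
  have hxN : xc ∈ (((M.con {k}).del {g2}).del {k2}).S := by
    simp [C.hxS, C.hkx.symm, C.h2x.symm, C.hxk]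
  have hgr : IsGr ((((M.con {k}).del {g2}).del {k2}).del {xc}) (U.erase y)
      (Step4b_H h e g1 xc y a d) (Step4b_T t e g1 xc y b c d) := by
    refine hG.gr.del hxN ?_
    have h1 := S.gr.gr.star_mem C.aU
    have h2 : star (M.del {e}).S h t a = {g1, xc, k2} := hst
    rw [h2] at h1
    obtain ⟨z, hz, hz1, hz2, hz3⟩ := Step4b_cyc (g2 := g2) S.tc C.hxS C.hxe C.h1S C.h1e
      C.h1x.symm C.h2x.symm C.hxk C.h12 C.h1k h1
    refine ⟨mask (M.S \ {k}) z, ?_, ?_⟩
    · rw [BM.mem_Z_del, BM.mem_Z_del, BM.mem_Z_con]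
      refine ⟨⟨⟨z, hz, rfl⟩, ?_⟩, ?_⟩
      · intro x hx
        rw [Finset.mem_singleton] at hx
        rw [hx, mask_apply, hz1]
        simp
      · intro x hx
        rw [Finset.mem_singleton] at hx
        rw [hx, mask_apply, hz2]
        simp
    · rw [mask_apply, if_pos (by simp [C.hxS, C.hkx.symm]), hz3]
  obtain ⟨p1, p2, p3, p4⟩ := Step4b_perm_spec C.h1e C.hxe C.h1x
  obtain ⟨e1, e2, e3, e4⟩ := Step4b_ends' C
  have hrel : Rel (Step4b_perm e g1 xc) (((M.con {g2}).del {e, k}).del {k2})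
      ((((M.con {k}).del {g2}).del {k2}).del {xc}) := by
    refine Rel.of_gr F4 hgr ?_ ?_
    · intro x
      by_cases hx1 : x = g1
      · subst hx1
        rw [p1]
        simp [C.h1S, C.h1e, C.h12, C.hk1.symm, C.h1k, C.he, C.hke.symm, C.h2e.symm, C.hk2e.symm,
          C.hxe.symm]
      by_cases hxe : x = e
      · subst hxe
        rw [p2]
        simp
      by_cases hxx : x = xc
      · subst hxx
        rw [p3]
        simp [C.hxS, C.hxe, C.h2x.symm, C.hkx.symm, C.hxk, C.h1S, C.hk1.symm, C.h12, C.h1k, C.h1x]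
      · rw [p4 x hxe hx1 hxx]
        simp [hxe, hxx]
        tauto
    · intro x hx
      have hx' : x ∈ M.S ∧ x ≠ g2 ∧ x ≠ e ∧ x ≠ k ∧ x ≠ k2 := by
        simp at hx; tauto
      obtain ⟨hxS, hx2, hxe, hxk, hxk2⟩ := hx'
      by_cases hx1 : x = g1
      · subst hx1
        rw [p1]
        unfold Jn
        rw [e1.1, e1.2]
        rcases C.j1 with ⟨b1, b2⟩ | ⟨b1, b2⟩
        · right; simp [mg, b1, b2, C.ya.symm]
        · left; simp [mg, b1, b2, C.ya.symm]
      by_cases hxx : x = xc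
      · subst hxx
        rw [p3]
        unfold Jn
        rw [e2.1, e2.2]
        rcases C.jx with ⟨b1, b2⟩ | ⟨b1, b2⟩
        · left; simp [mg, b1, b2, C.ya.symm, C.yc.symm]
        · right; simp [mg, b1, b2, C.ya.symm, C.yc.symm]
      · rw [p4 x hxe hx1 hxx]
        obtain ⟨b1, b2⟩ := e4 x hxS hxe hxk hx1 hx2 hxx
        obtain ⟨b3, b4⟩ := C.ny x hxS hxe hxk hx1 hx2
        unfold Jn
        rw [b1, b2]
        left
        simp [mg, b3, b4]
  exact ⟨hgr, hrel.sc F1, hrel.two F2, hrel.hasT F3⟩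

/-- degrees of `b`, `c`, `d` -/
theorem Step4b_deg (S : SitI rows M U h t e k g1 g2 y a b c d)
    (hd : 4 ≤ (star (M.S \ {e}) h t d).card) {k2 xc : E} {q : V}
    (C : Step4b_Ctx M U h t e k g1 g2 k2 xc y a b c d q) (v : V)
    (hv : v = b ∨ v = c ∨ v = d) :
    3 ≤ (star ((((M.con {k}).del {g2}).del {k2}).S \ {xc}) (Step4b_H h e g1 xc y a d)
      (Step4b_T t e g1 xc y b c d) v).card := by
  classical
  obtain ⟨e1, e2, e3, e4⟩ := Step4b_ends' C
  have hmem : ∀ x : E, x ∈ (((M.con {k}).del {g2}).del {k2}).S \ {xc} ↔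
      x ∈ M.S ∧ x ≠ k ∧ x ≠ g2 ∧ x ≠ k2 ∧ x ≠ xc := by
    intro x; simp; tauto
  have hdeg : ∀ v ∈ U, 3 ≤ (star (M.S \ {e}) h t v).card := fun v hv =>
    TC.three_le_deg S.tc S.gr.gr hv
  have hms : ∀ {x : E} {v : V}, x ∈ star (M.S \ {e}) h t v ↔
      (x ∈ M.S ∧ x ≠ e) ∧ (h x = v ∨ t x = v) := by
    intro x v; simp [star]
  -- the general step
  have key : ∀ (v : V) (x : E), x ∈ star (M.S \ {e}) h t v → x ≠ k → x ≠ g1 → x ≠ g2 →
      x ≠ xc → x ≠ k2 → x ∈ star ((((M.con {k}).del {g2}).del {k2}).S \ {xc})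
        (Step4b_H h e g1 xc y a d) (Step4b_T t e g1 xc y b c d) v := by
    intro v x hx h1 h2 h3 h4 h5
    obtain ⟨⟨hxS, hxe⟩, hx3⟩ := hms.1 hx
    obtain ⟨b1, b2⟩ := e4 x hxS hxe h1 h2 h3 h4
    rw [Step4b_mem_star, hmem, b1, b2]
    exact ⟨⟨hxS, h1, h3, h5, h4⟩, hx3⟩
  have nk : ∀ (v : V) (x : E), x ∈ star (M.S \ {e}) h t v → v ≠ y → v ≠ d → x ≠ k := by
    rintro v x hx h1 h2 rfl
    rcases Step4b_end C.jk (hms.1 hx).2 with h3 | h3
    · exact h1 h3
    · exact h2 h3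
  have n1 : ∀ (v : V) (x : E), x ∈ star (M.S \ {e}) h t v → v ≠ y → v ≠ a → x ≠ g1 := by
    rintro v x hx h1 h2 rfl
    rcases Step4b_end C.j1 (hms.1 hx).2 with h3 | h3
    · exact h1 h3
    · exact h2 h3
  have n2 : ∀ (v : V) (x : E), x ∈ star (M.S \ {e}) h t v → v ≠ y → v ≠ b → x ≠ g2 := by
    rintro v x hx h1 h2 rfl
    rcases Step4b_end C.j2 (hms.1 hx).2 with h3 | h3
    · exact h1 h3
    · exact h2 h3
  have nx : ∀ (v : V) (x : E), x ∈ star (M.S \ {e}) h t v → v ≠ a → v ≠ c → x ≠ xc := by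
    rintro v x hx h1 h2 rfl
    rcases Step4b_end C.jx (hms.1 hx).2 with h3 | h3
    · exact h1 h3
    · exact h2 h3
  have nq : ∀ (v : V) (x : E), x ∈ star (M.S \ {e}) h t v → v ≠ a → v ≠ q → x ≠ k2 := by
    rintro v x hx h1 h2 rfl
    rcases Step4b_end C.jq (hms.1 hx).2 with h3 | h3
    · exact h1 h3
    · exact h2 h3
  rcases hv with rfl | rfl | rfl
  · -- b
    have h1 : insert e ((star (M.S \ {e}) h t v).erase g2) ⊆
        star ((((M.con {k}).del {g2}).del {k2}).S \ {xc})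
          (Step4b_H h e g1 xc y a d) (Step4b_T t e g1 xc y v c d) v := by
      intro x hx
      rw [Finset.mem_insert, Finset.mem_erase] at hx
      rcases hx with rfl | ⟨h2, h3⟩
      · rw [Step4b_mem_star, hmem]
        exact ⟨⟨C.he, C.hke.symm, C.h2e.symm, C.hk2e.symm, C.hxe.symm⟩, Or.inr e1.2⟩
      · exact key v x h3 (nk v x h3 C.yb.symm C.bd) (n1 v x h3 C.yb.symm C.ab.symm) h2
          (nx v x h3 C.ab.symm C.bc) (nq v x h3 C.ab.symm C.bq)
    have h2 := Finset.card_le_card h1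
    rw [Finset.card_insert_of_notMem (by simp [star])] at h2
    have h3 := Finset.pred_card_le_card_erase (s := star (M.S \ {e}) h t v) (a := g2)
    have h4 := hdeg v C.bU
    omega
  · -- c
    have h1 : insert g1 ((star (M.S \ {e}) h t v).erase xc) ⊆
        star ((((M.con {k}).del {g2}).del {k2}).S \ {xc})
          (Step4b_H h e g1 xc y a d) (Step4b_T t e g1 xc y b v d) v := by
      intro x hx
      rw [Finset.mem_insert, Finset.mem_erase] at hx
      rcases hx with rfl | ⟨h2, h3⟩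
      · rw [Step4b_mem_star, hmem]
        exact ⟨⟨C.h1S, C.hk1.symm, C.h12, C.h1k, C.h1x⟩, Or.inr e2.2⟩
      · exact key v x h3 (nk v x h3 C.yc.symm C.cd) (n1 v x h3 C.yc.symm C.ac.symm)
          (n2 v x h3 C.yc.symm C.bc.symm) h2 (nq v x h3 C.ac.symm C.cq)
    have h2 := Finset.card_le_card h1
    rw [Finset.card_insert_of_notMem (by
      rw [Finset.mem_erase]
      rintro ⟨-, h3⟩
      exact n1 v g1 h3 C.yc.symm C.ac.symm rfl)] at h2
    have h3 := Finset.pred_card_le_card_erase (s := star (M.S \ {e}) h t v) (a := xc)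
    have h4 := hdeg v C.cU
    omega
  · -- d
    have h1 : (star (M.S \ {e}) h t v).erase k ⊆
        star ((((M.con {k}).del {g2}).del {k2}).S \ {xc})
          (Step4b_H h e g1 xc y a v) (Step4b_T t e g1 xc y b c v) v := by
      intro x hx
      rw [Finset.mem_erase] at hx
      obtain ⟨h2, h3⟩ := hx
      exact key v x h3 h2 (n1 v x h3 C.yd.symm C.ad.symm)
        (n2 v x h3 C.yd.symm C.bd.symm) (nx v x h3 C.ad.symm C.cd.symm)
        (nq v x h3 C.ad.symm C.dq)
    have h2 := Finset.card_le_card h1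
    have h3 := Finset.pred_card_le_card_erase (s := star (M.S \ {e}) h t v) (a := k)
    omega


theorem SitI.step4_b (h0 : (ofRows rows).TC) (S : SitI rows M U h t e k g1 g2 y a b c d)
    (hcd : c ≠ d) (hd : 4 ≤ (star (M.S \ {e}) h t d).card) {k2 : E}
    (hk : k2 ∈ M.S) (hke : k2 ≠ e) (hkk : k2 ≠ k) (hk1 : k2 ≠ g1) (hk2 : k2 ≠ g2)
    (hsc : (M.del {e, k, k2}).SC) (hT : HasT rows (M.del {e, k, k2}))
    (hsc' : (M.del {e, k2}).SC) {xc : E} {q : V}
    (hst : star (M.S \ {e}) h t a = {g1, xc, k2}) (hjc : Jn h t xc a c) (hjq : Jn h t k2 a q)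
    (hq : q ≠ d) :
    ∃ x1 x2, star (M.S \ {e}) h t q = {k2, x1, x2} ∧ Jn h t x1 q c ∧ Jn h t x2 q d := by
  classical
  have C := Step4b_ctx S hcd hd hk hke hkk hk1 hk2 hst hjc hjq hq
  have hG := Step4b_graft S C hst hsc'
  obtain ⟨G1, G2, G3, G4⟩ := Step4b_F' h0 S hd C hst hsc hT hG
  obtain ⟨e1, e2, e3, e4⟩ := Step4b_ends' C
  have hdeg := Step4b_deg S hd C
  have hmem : ∀ x : E, x ∈ (((M.con {k}).del {g2}).del {k2}).S ↔
      x ∈ M.S ∧ x ≠ k ∧ x ≠ g2 ∧ x ≠ k2 := by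
    intro x; simp; tauto
  have hxN : xc ∈ (((M.con {k}).del {g2}).del {k2}).S :=
    (hmem xc).2 ⟨C.hxS, C.hkx.symm, C.h2x.symm, C.hxk⟩
  -- ends of the ordinary edges
  have hord : ∀ x ∈ (((M.con {k}).del {g2}).del {k2}).S, x ≠ e → x ≠ g1 → x ≠ xc →
      (Step4b_H h e g1 xc y a d x = h x ∧ Step4b_T t e g1 xc y b c d x = t x) ∧
        h x ≠ a ∧ t x ≠ a ∧ h x ≠ y ∧ t x ≠ y := by
    intro x hx h1 h2 h3
    obtain ⟨hxS, hxk, hx2, hxk2⟩ := (hmem x).1 hx
    obtain ⟨b1, b2⟩ := C.na x hxS h1 h2 h3 hxk2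
    obtain ⟨b3, b4⟩ := C.ny x hxS h1 hxk h2 hx2
    exact ⟨e4 x hxS h1 hxk h2 hx2 h3, b1, b2, b3, b4⟩
  have je : Jn (Step4b_H h e g1 xc y a d) (Step4b_T t e g1 xc y b c d) e a b := Or.inl e1
  have jg : Jn (Step4b_H h e g1 xc y a d) (Step4b_T t e g1 xc y b c d) g1 a c := Or.inl e2
  have jx : Jn (Step4b_H h e g1 xc y a d) (Step4b_T t e g1 xc y b c d) xc a d := Or.inl e3
  -- edges at `a`
  have hata : ∀ x ∈ (((M.con {k}).del {g2}).del {k2}).S,
      (Step4b_H h e g1 xc y a d x = a ∨ Step4b_T t e g1 xc y b c d x = a) →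
        x = e ∨ x = g1 ∨ x = xc := by
    intro x hx hxa
    by_contra hcon
    push Not at hcon
    obtain ⟨⟨b1, b2⟩, b3, b4, -⟩ := hord x hx hcon.1 hcon.2.1 hcon.2.2
    rw [b1, b2] at hxa
    exact hxa.elim b3 b4
  have hext := gext (M := ((M.con {k}).del {g2}).del {k2}) (x := xc) (u := a) (v := d) hxN
    hG.gr G1 G2 G3 jx (by
      intro x hx hxx hj
      rcases hata x hx (Step4b_left hj) with rfl | rfl | rfl
      · rcases Step4b_pair hj je with ⟨-, h1⟩ | ⟨h1, -⟩
        · exact C.bd h1.symm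
        · exact C.ab h1
      · rcases Step4b_pair hj jg with ⟨-, h1⟩ | ⟨h1, -⟩
        · exact C.cd h1.symm
        · exact C.ac h1
      · exact hxx rfl) (by
      intro s hs hsa hsd p hp q' hq' hst' hjp _
      have hp' : p ∈ star ((((M.con {k}).del {g2}).del {k2}).S \ {xc})
          (Step4b_H h e g1 xc y a d) (Step4b_T t e g1 xc y b c d) s := by
        rw [hst']; simp
      have hpx : p ≠ xc := by
        have h1 := (Step4b_mem_star.1 hp').1
        simp only [Finset.mem_sdiff, Finset.mem_singleton] at h1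
        exact h1.2
      have hbc : s = b ∨ s = c ∨ s = d := by
        rcases hata p hp (Step4b_right hjp) with rfl | rfl | rfl
        · rcases Step4b_pair hjp je with ⟨h1, -⟩ | ⟨h1, -⟩
          · exact absurd h1 hsa
          · exact Or.inl h1
        · rcases Step4b_pair hjp jg with ⟨h1, -⟩ | ⟨h1, -⟩
          · exact absurd h1 hsa
          · exact Or.inr (Or.inl h1)
        · exact absurd rfl hpx
      have h3 := hdeg s hbc
      rw [hst'] at h3
      have h4 := Finset.card_le_two (a := p) (b := q')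
      omega)
  -- `N2` is graphic
  have hmin : Minor ((M.con {k}).del {g2}) M := ⟨{k}, {g2}, rfl⟩
  have hcard : ((M.con {k}).del {g2}).S.card < M.S.card := by
    apply Finset.card_lt_card
    rw [Finset.ssubset_iff_of_subset (by
      intro x hx
      simp at hx
      exact hx.1.1)]
    exact ⟨k, C.hkS, by simp⟩
  have hgra := S.cx.graft_graphic h0 _ hmin hcard hG hext.1 hext.2 (HasT_of_del G4)
  obtain ⟨SS, hSS, hS2, hsw⟩ := crit hG hext.1 hext.2 hgra
  have hSeq : ((M.con {k}).del {g2}).S \ {k2} = (((M.con {k}).del {g2}).del {k2}).S := rfl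
  rw [hSeq] at hS2 hsw
  -- `a`, `c`, `d` are not in `SS`
  have haS : a ∉ SS := by
    intro ha
    have h1 := hS2 a ha
    have h2 : ({e, g1, xc} : Finset E) ⊆ star (((M.con {k}).del {g2}).del {k2}).S
        (Step4b_H h e g1 xc y a d) (Step4b_T t e g1 xc y b c d) a := by
      intro x hx
      simp only [Finset.mem_insert, Finset.mem_singleton] at hx
      rcases hx with rfl | rfl | rfl
      · exact Step4b_mem_star.2 ⟨(hmem _).2 ⟨C.he, C.hke.symm, C.h2e.symm, C.hk2e.symm⟩,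
          Or.inl e1.1⟩
      · exact Step4b_mem_star.2 ⟨(hmem _).2 ⟨C.h1S, C.hk1.symm, C.h12, C.h1k⟩, Or.inl e2.1⟩
      · exact Step4b_mem_star.2 ⟨hxN, Or.inl e3.1⟩
    have h3 := Finset.card_le_card h2
    rw [Finset.card_eq_three.2 ⟨e, g1, xc, C.h1e.symm, C.hxe.symm, C.h1x, rfl⟩] at h3
    omega
  have hnS : ∀ v, v = b ∨ v = c ∨ v = d → v ∉ SS := by
    intro v hv hvS
    have h1 := hS2 v hvS
    have h2 := hdeg v hv
    have h3 : star ((((M.con {k}).del {g2}).del {k2}).S \ {xc}) (Step4b_H h e g1 xc y a d)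
        (Step4b_T t e g1 xc y b c d) v ⊆ star (((M.con {k}).del {g2}).del {k2}).S
        (Step4b_H h e g1 xc y a d) (Step4b_T t e g1 xc y b c d) v := by
      intro x hx
      rw [Step4b_mem_star] at hx ⊢
      exact ⟨(Finset.mem_sdiff.1 hx.1).1, hx.2⟩
    have h4 := Finset.card_le_card h3
    omega
  have hyU : ∀ v ∈ U, v ≠ y → v ∈ U.erase y := fun v h1 h2 => Finset.mem_erase.2 ⟨h2, h1⟩
  have haU := hyU a C.aU C.ya.symm
  have hqU := hyU q C.qU C.yq.symm
  have hcU := hyU c C.cU C.yc.symm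
  have hdU := hyU d C.dU C.yd.symm
  have hSSq : SS = {q} := by
    have hsub : SS ⊆ {q} := by
      intro v hv
      have h1 := hSS hv
      simp only [Finset.mem_insert, Finset.mem_singleton] at h1
      rcases h1 with rfl | rfl | rfl | rfl
      · exact absurd hv haS
      · simp
      · exact absurd hv (hnS _ (Or.inr (Or.inl rfl)))
      · exact absurd hv (hnS _ (Or.inr (Or.inr rfl)))
    rcases Finset.subset_singleton_iff.1 hsub with h1 | h1
    · exfalso
      rw [h1] at hsw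
      have h2 : ({a, q, c} : Finset V) ⊆ swT (((M.con {k}).del {g2}).del {k2}).S
          (Step4b_H h e g1 xc y a d) (Step4b_T t e g1 xc y b c d) (U.erase y) {a, q, c, d} ∅ := by
        intro v hv
        have h3 : v ∈ ({a, q, c, d} : Finset V) := by
          simp only [Finset.mem_insert, Finset.mem_singleton] at hv ⊢
          tauto
        simp only [swT, Finset.mem_filter, Finset.sum_empty, add_zero, if_pos h3]
        refine ⟨?_, odd_one⟩
        simp only [Finset.mem_insert, Finset.mem_singleton] at hv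
        rcases hv with rfl | rfl | rfl
        · exact haU
        · exact hqU
        · exact hcU
      have h3 := Finset.card_le_card h2
      rw [Finset.card_eq_three.2 ⟨a, q, c, C.aq, C.ac, C.cq.symm, rfl⟩] at h3
      omega
    · exact h1
  rw [hSSq] at hsw hS2
  obtain ⟨x1, x2, hs, hj1, hj2⟩ := Step4b_sw ⟨haU, hqU, hcU, hdU⟩ C.ac C.ad C.aq C.cq.symm
    C.dq.symm C.cd (fun x hx => (hG.gr.ends x hx).2.2) (hS2 q (by simp)) (by
      intro x hx hj
      rcases hata x hx (Step4b_right hj) with rfl | rfl | rfl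
      · rcases Step4b_pair hj je with ⟨h1, -⟩ | ⟨h1, -⟩
        · exact C.aq h1.symm
        · exact C.bq h1.symm
      · rcases Step4b_pair hj jg with ⟨h1, -⟩ | ⟨h1, -⟩
        · exact C.aq h1.symm
        · exact C.cq h1.symm
      · rcases Step4b_pair hj jx with ⟨h1, -⟩ | ⟨h1, -⟩
        · exact C.aq h1.symm
        · exact C.dq h1.symm) hsw
  -- the star of `q` in `N2` consists of ordinary edges
  have hqord : ∀ x ∈ star (((M.con {k}).del {g2}).del {k2}).S (Step4b_H h e g1 xc y a d)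
      (Step4b_T t e g1 xc y b c d) q, x ≠ e ∧ x ≠ g1 ∧ x ≠ xc := by
    intro x hx
    have h1 := (Step4b_mem_star.1 hx).2
    refine ⟨?_, ?_, ?_⟩
    · rintro rfl
      rcases Step4b_end je h1 with h2 | h2
      · exact C.aq h2.symm
      · exact C.bq h2.symm
    · rintro rfl
      rcases Step4b_end jg h1 with h2 | h2
      · exact C.aq h2.symm
      · exact C.cq h2.symm
    · rintro rfl
      rcases Step4b_end jx h1 with h2 | h2
      · exact C.aq h2.symm
      · exact C.dq h2.symm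
  have hx1 : x1 ∈ star (((M.con {k}).del {g2}).del {k2}).S (Step4b_H h e g1 xc y a d)
      (Step4b_T t e g1 xc y b c d) q := by rw [hs]; simp
  have hx2 : x2 ∈ star (((M.con {k}).del {g2}).del {k2}).S (Step4b_H h e g1 xc y a d)
      (Step4b_T t e g1 xc y b c d) q := by rw [hs]; simp
  have hjn : ∀ x ∈ star (((M.con {k}).del {g2}).del {k2}).S (Step4b_H h e g1 xc y a d)
      (Step4b_T t e g1 xc y b c d) q, ∀ v, Jn (Step4b_H h e g1 xc y a d)
      (Step4b_T t e g1 xc y b c d) x q v → Jn h t x q v := by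
    intro x hx v hj
    obtain ⟨h1, h2, h3⟩ := hqord x hx
    obtain ⟨⟨b1, b2⟩, -⟩ := hord x (Step4b_mem_star.1 hx).1 h1 h2 h3
    unfold Jn at hj ⊢
    rwa [b1, b2] at hj
  refine ⟨x1, x2, ?_, hjn x1 hx1 c hj1, hjn x2 hx2 d hj2⟩
  rw [← hs]
  ext x
  rw [Finset.mem_insert, Step4b_mem_star, Step4b_mem_star]
  constructor
  · rintro ⟨h1, h2⟩
    rw [Finset.mem_sdiff, Finset.mem_singleton] at h1
    obtain ⟨hxS, hxe⟩ := h1
    by_cases hxk2 : x = k2
    · exact Or.inl hxk2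
    right
    have hxk : x ≠ k := by
      rintro rfl
      rcases Step4b_end C.jk h2 with h3 | h3
      · exact C.yq h3.symm
      · exact C.dq h3.symm
    have hx1 : x ≠ g1 := by
      rintro rfl
      rcases Step4b_end C.j1 h2 with h3 | h3
      · exact C.yq h3.symm
      · exact C.aq h3.symm
    have hx2 : x ≠ g2 := by
      rintro rfl
      rcases Step4b_end C.j2 h2 with h3 | h3
      · exact C.yq h3.symm
      · exact C.bq h3.symm
    have hxx : x ≠ xc := by
      rintro rfl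
      rcases Step4b_end C.jx h2 with h3 | h3
      · exact C.aq h3.symm
      · exact C.cq h3.symm
    have hxN' := (hmem x).2 ⟨hxS, hxk, hx2, hxk2⟩
    obtain ⟨⟨b1, b2⟩, -⟩ := hord x hxN' hxe hx1 hxx
    rw [b1, b2]
    exact ⟨hxN', h2⟩
  · rintro (rfl | ⟨h1, h2⟩)
    · exact ⟨by simp [C.hk2S, C.hk2e], Step4b_right C.jq⟩
    · obtain ⟨h3, h4, h5⟩ := hqord x (Step4b_mem_star.2 ⟨h1, h2⟩)
      obtain ⟨⟨b1, b2⟩, -⟩ := hord x h1 h3 h4 h5
      rw [b1, b2] at h2
      obtain ⟨hxS, -⟩ := (hmem x).1 h1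
      exact ⟨by simp [hxS, h3], h2⟩

end SEY
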