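import Pool.Agent.Helper25.SEY.T.SitH
import Pool.Agent.Helper25.SEY.T.MinCx
import Pool.Agent.Helper71.SEYApi2

/-!
T3-Step4c.
T3-Step4 (k2 /= f).  k2 is an element of H' = (M.con {g2}).del {e,k}, k2 /= g1, with M.del {e,k,k2} SC and HasT
(this is H' del k2 with the edge f = ab subdivided by y).  F := (M.con {g2}).del {e,k,k2} = H' del k2 is SC (`SC_con`, g1,g2
in series in M.del {e,k,k2}: star y = {g1,g2}), Two (`TC.del_two` for H'), graph on U - y with ends mg y b (g1 joins a, b).
Facts used everywhere: no edge of H joins a and b, none joins y to something else than a, b, d; H' has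
no parallel edges.

* `step4_c`: star_H a = {g1,xc,k2}, star_H q = {k2,x1,x2}, x1 = qc, x2 = qd.  Contract x2 (merge q into d).
  F con x2 = (M.con {g2,x2}).del {e,k,k2}: SC, Two (`con_two`: star_F q = {x1,x2}), HasT.  Add k2 = (a,d): `gext`: a has the other
  edges g1 (b), xc (c); vertices of degree 2 adjacent to a: none.  So (M.con {g2,x2}).del {e,k} is SC, Two, all degrees >= 3: TC.
  `subdiv`: (M.con {x2}).del {e,k} is SC, Two (y of degree 2 with star {g1,g2}); HasT (`HasT_of_con`).  Add k = (y,d): `gext`: y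
  has the other edges g1, g2 (to a, b), the only vertex of degree 2 is y.  So (M.con {x2}).del {e} is SC, Two, all degrees >= 3:
  TC.  Graft set: q, d not in T={y,a,b,c} so `IsGraft.con` keeps T: `MinCx.false_of_graft`.
-/

namespace SEY

open Finset

variable {E : Type} [Fintype E] [DecidableEq E] {V : Type} [Fintype V] [DecidableEq V]
variable {r l : ℕ} {rows : Fin r → Fin l → ZMod 2} {M : BM E} {U : Finset V} {h t : E → V}
  {e k g1 g2 : E} {y a b c d : V}


/-! ### Small facts on `Jn`, `mg`, stars -/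

omit [Fintype E] [DecidableEq E] [Fintype V] [DecidableEq V] in
theorem Step4c_jsymm {x : E} {u v : V} (hj : Jn h t x u v) : Jn h t x v u := Or.symm hj

omit [Fintype E] [DecidableEq E] [Fintype V] [DecidableEq V] in
theorem Step4c_jl {x : E} {u v : V} (hj : Jn h t x u v) : h x = u ∨ t x = u := by
  rcases hj with ⟨h1, _⟩ | ⟨_, h2⟩
  · exact Or.inl h1
  · exact Or.inr h2

omit [Fintype E] [DecidableEq E] [Fintype V] [DecidableEq V] in
theorem Step4c_jr {x : E} {u v : V} (hj : Jn h t x u v) : h x = v ∨ t x = v :=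
  Step4c_jl (Step4c_jsymm hj)

omit [Fintype E] [DecidableEq E] [Fintype V] [DecidableEq V] in
theorem Step4c_jor {x : E} {u v w : V} (hj : Jn h t x u v) (hw : h x = w ∨ t x = w) :
    w = u ∨ w = v := by
  rcases hj with ⟨h1, h2⟩ | ⟨h1, h2⟩ <;> rcases hw with h3 | h3
  · exact Or.inl (h3.symm.trans h1)
  · exact Or.inr (h3.symm.trans h2)
  · exact Or.inr (h3.symm.trans h1)
  · exact Or.inl (h3.symm.trans h2)

omit [Fintype E] [DecidableEq E] [Fintype V] in
theorem Step4c_jmg {x : E} {u v : V} (hj : Jn h t x u v) (p q : V) :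
    Jn (fun z => mg p q (h z)) (fun z => mg p q (t z)) x (mg p q u) (mg p q v) := by
  rcases hj with ⟨h1, h2⟩ | ⟨h1, h2⟩
  · exact Or.inl ⟨by simp only [h1], by simp only [h2]⟩
  · exact Or.inr ⟨by simp only [h1], by simp only [h2]⟩

omit [Fintype V] in
theorem Step4c_mgu (u v : V) : mg u v u = v := if_pos rfl

omit [Fintype V] in
theorem Step4c_mgne {u w : V} (v : V) (hw : w ≠ u) : mg u v w = w := if_neg hw

omit [Fintype V] in
theorem Step4c_mgiff {u v w z : V} (hw : w ≠ u) (hwv : w ≠ v) : mg u v z = w ↔ z = w := by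
  unfold mg
  constructor
  · intro h1
    by_cases hz : z = u
    · rw [if_pos hz] at h1
      exact absurd h1.symm hwv
    · rwa [if_neg hz] at h1
  · intro h1
    rw [h1, if_neg hw]

omit [Fintype V] in
theorem Step4c_mgv {u v z : V} : mg u v z = v ↔ z = v ∨ z = u := by
  unfold mg
  constructor
  · intro h1
    by_cases hz : z = u
    · exact Or.inr hz
    · rw [if_neg hz] at h1
      exact Or.inl h1
  · rintro (h1 | h1)
    · by_cases hz : z = u
      · rw [if_pos hz]
      · rw [if_neg hz, h1]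
    · rw [if_pos h1]

omit [Fintype E] [Fintype V] in
theorem Step4c_mem {A : Finset E} {x : E} {v : V} :
    x ∈ star A h t v ↔ x ∈ A ∧ (h x = v ∨ t x = v) := Finset.mem_filter

theorem SitI.step4_c (h0 : (ofRows rows).TC) (S : SitI rows M U h t e k g1 g2 y a b c d)
    (hcd : c ≠ d) (hd : 4 ≤ (star (M.S \ {e}) h t d).card) {k2 : E}
    (hk : k2 ∈ M.S) (hke : k2 ≠ e) (hkk : k2 ≠ k) (hk1 : k2 ≠ g1) (hk2 : k2 ≠ g2)
    (hsc : (M.del {e, k, k2}).SC) (hT : HasT rows (M.del {e, k, k2})) {xc x1 x2 : E} {q : V}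
    (hst : star (M.S \ {e}) h t a = {g1, xc, k2}) (hjc : Jn h t xc a c) (hjq : Jn h t k2 a q)
    (hq : q ≠ d) (hstq : star (M.S \ {e}) h t q = {k2, x1, x2}) (hj1 : Jn h t x1 q c)
    (hj2 : Jn h t x2 q d) : False := by
  -- basic facts on the graph `H`
  have hG := S.gr.gr
  have hHsc : (M.del {e}).SC := ((TC_iff_SC _).1 S.tc).1
  have hstar : ∀ x ∈ star (M.S \ {e}) h t y, x ∈ M.S \ {e} := fun x hx => (Step4c_mem.1 hx).1
  have hkS : k ∈ M.S \ {e} := hstar k (by rw [S.st]; simp)
  have hg1S : g1 ∈ M.S \ {e} := hstar g1 (by rw [S.st]; simp)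
  have hg2S : g2 ∈ M.S \ {e} := hstar g2 (by rw [S.st]; simp)
  have hxcS : xc ∈ M.S \ {e} := by
    have h1 : xc ∈ star (M.S \ {e}) h t a := by rw [hst]; simp
    exact (Step4c_mem.1 h1).1
  have hx1S : x1 ∈ M.S \ {e} := by
    have h1 : x1 ∈ star (M.S \ {e}) h t q := by rw [hstq]; simp
    exact (Step4c_mem.1 h1).1
  have hx2S : x2 ∈ M.S \ {e} := by
    have h1 : x2 ∈ star (M.S \ {e}) h t q := by rw [hstq]; simp
    exact (Step4c_mem.1 h1).1
  have hk2S : k2 ∈ M.S \ {e} :=
    Finset.mem_sdiff.2 ⟨hk, fun h1 => hke (Finset.mem_singleton.1 h1)⟩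
  have hne : ∀ x ∈ M.S \ {e}, ∀ u v : V, Jn h t x u v → u ≠ v := by
    intro x hx u v hj huv
    have h1 := (hG.ends x hx).2.2
    rcases hj with ⟨h2, h3⟩ | ⟨h2, h3⟩
    · exact h1 (h2.trans (huv.trans h3.symm))
    · exact h1 (h2.trans (huv.symm.trans h3.symm))
  have hend : ∀ x ∈ M.S \ {e}, ∀ u v : V, Jn h t x u v → u ∈ U ∧ v ∈ U := by
    intro x hx u v hj
    have h1 := hG.ends x hx
    rcases hj with ⟨h2, h3⟩ | ⟨h2, h3⟩
    · exact ⟨h2 ▸ h1.1, h3 ▸ h1.2.1⟩
    · exact ⟨h3 ▸ h1.2.1, h2 ▸ h1.1⟩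
  have hyU : y ∈ U := (hend k hkS _ _ S.jk).1
  have hdU : d ∈ U := (hend k hkS _ _ S.jk).2
  have haU : a ∈ U := (hend g1 hg1S _ _ S.j1).2
  have hbU : b ∈ U := (hend g2 hg2S _ _ S.j2).2
  have hcU : c ∈ U := (hend xc hxcS _ _ hjc).2
  have hqU : q ∈ U := (hend k2 hk2S _ _ hjq).2
  -- the edges at `y`
  have hyst : ∀ x ∈ M.S \ {e}, (h x = y ∨ t x = y) → x = k ∨ x = g1 ∨ x = g2 := by
    intro x hx h1
    have h2 : x ∈ star (M.S \ {e}) h t y := Step4c_mem.2 ⟨hx, h1⟩
    rw [S.st] at h2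
    simpa using h2
  have hast : ∀ x ∈ M.S \ {e}, (h x = a ∨ t x = a) → x = g1 ∨ x = xc ∨ x = k2 := by
    intro x hx h1
    have h2 : x ∈ star (M.S \ {e}) h t a := Step4c_mem.2 ⟨hx, h1⟩
    rw [hst] at h2
    simpa using h2
  have hqst : ∀ x ∈ M.S \ {e}, (h x = q ∨ t x = q) → x = k2 ∨ x = x1 ∨ x = x2 := by
    intro x hx h1
    have h2 : x ∈ star (M.S \ {e}) h t q := Step4c_mem.2 ⟨hx, h1⟩
    rw [hstq] at h2
    simpa using h2
  have hqa : q ≠ a := (hne k2 hk2S _ _ hjq).symm
  have hqc : q ≠ c := hne x1 hx1S _ _ hj1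
  have hqy : q ≠ y := by
    intro h1
    rcases hyst k2 hk2S (h1 ▸ Step4c_jr hjq) with h2 | h2 | h2
    · exact hkk h2
    · exact hk1 h2
    · exact hk2 h2
  have h12 : g1 ≠ g2 := by
    intro h1
    rcases Step4c_jor S.j1 (h1 ▸ Step4c_jr S.j2) with h2 | h2
    · exact S.yb h2.symm
    · exact S.ab h2.symm
  have h1k : g1 ≠ k := by
    intro h1
    rcases Step4c_jor S.jk (h1 ▸ Step4c_jr S.j1) with h2 | h2
    · exact S.ya h2.symm
    · exact S.ad h2
  have h2k : g2 ≠ k := by
    intro h1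
    rcases Step4c_jor S.jk (h1 ▸ Step4c_jr S.j2) with h2 | h2
    · exact S.yb h2.symm
    · exact S.bd h2
  -- an edge with ends different from `y` is none of `k, g1, g2`
  have hnoy : ∀ x : E, ¬ (h x = y ∨ t x = y) → x ≠ k ∧ x ≠ g1 ∧ x ≠ g2 := by
    intro x hx
    refine ⟨?_, ?_, ?_⟩
    · rintro rfl; exact hx (Step4c_jl S.jk)
    · rintro rfl; exact hx (Step4c_jl S.j1)
    · rintro rfl; exact hx (Step4c_jl S.j2)
  have hxcn := hnoy xc (fun h1 => by
    rcases Step4c_jor hjc h1 with h2 | h2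
    · exact S.ya h2
    · exact S.yc h2)
  have hx1n := hnoy x1 (fun h1 => by
    rcases Step4c_jor hj1 h1 with h2 | h2
    · exact hqy h2.symm
    · exact S.yc h2)
  have hx2n := hnoy x2 (fun h1 => by
    rcases Step4c_jor hj2 h1 with h2 | h2
    · exact hqy h2.symm
    · exact S.yd h2)
  have hxck2 : xc ≠ k2 := by
    intro h1
    rcases Step4c_jor hjc (h1 ▸ Step4c_jr hjq) with h2 | h2
    · exact hqa h2
    · exact hqc h2
  have hx1k2 : x1 ≠ k2 := by
    intro h1
    rcases Step4c_jor hj1 (h1 ▸ Step4c_jl hjq) with h2 | h2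
    · exact hqa h2.symm
    · exact S.ac h2
  have hx2k2 : x2 ≠ k2 := by
    intro h1
    rcases Step4c_jor hj2 (h1 ▸ Step4c_jl hjq) with h2 | h2
    · exact hqa h2.symm
    · exact S.ad h2
  have hx12 : x1 ≠ x2 := by
    intro h1
    rcases Step4c_jor hj1 (h1 ▸ Step4c_jr hj2) with h2 | h2
    · exact hq h2.symm
    · exact hcd h2.symm
  have hx2c : x2 ≠ xc := by
    intro h1
    rcases Step4c_jor hj2 (h1 ▸ Step4c_jl hjc) with h2 | h2
    · exact hqa h2.symm
    · exact S.ad h2
  -- `H'`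
  have hPgr := S.hp_gr
  have hPtc := S.hp_tc hd
  have hPsc : ((M.con {g2}).del {e, k}).SC := ((TC_iff_SC _).1 hPtc).1
  have hPS : ∀ x, x ∈ ((M.con {g2}).del {e, k}).S ↔ x ∈ M.S ∧ x ≠ g2 ∧ x ≠ e ∧ x ≠ k := by
    intro x
    simp only [BM.con_S, BM.del_S, Finset.mem_sdiff, Finset.mem_singleton, Finset.mem_insert,
      not_or]
    tauto
  have hESe : ∀ x, x ∈ M.S \ {e} ↔ x ∈ M.S ∧ x ≠ e := by
    intro x
    simp only [Finset.mem_sdiff, Finset.mem_singleton]
  rw [hESe] at hkS hg1S hg2S hxcS hx1S hx2S hk2S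
  have hqb : q ≠ b := by
    intro h1
    have h2 := IsGr.no_par hPgr hPsc (x := k2) (y := g1) (u := a) (v := b)
      ((hPS k2).2 ⟨hk2S.1, hk2, hke, hkk⟩) ((hPS g1).2 ⟨hg1S.1, h12, hg1S.2, h1k⟩)
      (by
        have h3 := Step4c_jmg hjq y b
        rw [Step4c_mgne b S.ya.symm, Step4c_mgne b hqy, h1] at h3
        exact h3)
      (by
        have h3 := Step4c_jmg S.j1 y b
        rw [Step4c_mgu, Step4c_mgne b S.ya.symm] at h3
        exact Step4c_jsymm h3)
    exact hk1 h2
  -- the matroids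
  have eqF1 : ((M.con {g2}).del {e, k}).del {k2} = (M.del {e, k, k2}).con {g2} := by
    rw [BM.del_del, BM.del_con]
    · congr 1
      ext x
      simp [or_assoc]
    · rw [Finset.disjoint_singleton_right]
      simp only [Finset.mem_insert, Finset.mem_singleton, not_or]
      exact ⟨hg2S.2, h2k, hk2.symm⟩
  have eqdk : (M.del {e}).del {k} = M.del {e, k} := by
    rw [BM.del_del]
    congr 1
  have eqdkk : (M.del {e, k}).del {k2} = M.del {e, k, k2} := by
    rw [BM.del_del]
    congr 1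
    ext x
    simp [or_assoc]
  have hGk : IsGr (M.del {e, k}) U h t := by
    have h1 := hG.del (x := k) ((hESe k).2 hkS) (S.tc.exists_cycle ((hESe k).2 hkS))
    rwa [eqdk] at h1
  have hk2dk : k2 ∈ (M.del {e, k}).S := by
    simp only [BM.del_S, Finset.mem_sdiff, Finset.mem_insert, Finset.mem_singleton, not_or]
    exact ⟨hk, hke, hkk⟩
  have hGkk : IsGr (M.del {e, k, k2}) U h t := by
    have h1 := hGk.del (x := k2) hk2dk (SC_not_coloop _ S.sc k2 hk2dk)
    rwa [eqdkk] at h1
  have hg1kk : g1 ∈ (M.del {e, k, k2}).S := by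
    simp only [BM.del_S, Finset.mem_sdiff, Finset.mem_insert, Finset.mem_singleton, not_or]
    exact ⟨hg1S.1, hg1S.2, h1k, hk1.symm⟩
  have hg2kk : g2 ∈ (M.del {e, k, k2}).S := by
    simp only [BM.del_S, Finset.mem_sdiff, Finset.mem_insert, Finset.mem_singleton, not_or]
    exact ⟨hg2S.1, hg2S.2, h2k, hk2.symm⟩
  have hser_of_star : ∀ (N : BM E) (W : Finset V) (h' t' : E → V) (p p' : E) (v : V),
      IsGr N W h' t' → v ∈ W → star N.S h' t' v = {p, p'} → p ≠ p' → N.Ser p p' := by
    intro N W h' t' p p' v hN hv hs hpp z hz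
    have h1 := N.dot_eq_zero (hN.star_mem hv) hz
    rw [hs, ind_dot, Finset.sum_pair hpp] at h1
    exact z_add_eq_zero.1 h1
  have hserkk : (M.del {e, k, k2}).Ser g2 g1 := by
    refine hser_of_star _ U h t g2 g1 y hGkk hyU ?_ h12.symm
    ext x
    rw [Step4c_mem]
    simp only [BM.del_S, Finset.mem_sdiff, Finset.mem_insert, Finset.mem_singleton, not_or]
    constructor
    · rintro ⟨⟨h1, h2, h3, h4⟩, h5⟩
      rcases hyst x ((hESe x).2 ⟨h1, h2⟩) h5 with h6 | h6 | h6
      · exact absurd h6 h3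
      · exact Or.inr h6
      · exact Or.inl h6
    · rintro (rfl | rfl)
      · exact ⟨⟨hg2S.1, hg2S.2, h2k, hk2.symm⟩, Step4c_jl S.j2⟩
      · exact ⟨⟨hg1S.1, hg1S.2, h1k, hk1.symm⟩, Step4c_jl S.j1⟩
  -- `F = H' del k2`
  have hk2P : k2 ∈ ((M.con {g2}).del {e, k}).S := (hPS k2).2 ⟨hk, hk2, hke, hkk⟩
  have hFgr : IsGr (((M.con {g2}).del {e, k}).del {k2}) (U.erase y) (fun x => mg y b (h x))
      (fun x => mg y b (t x)) := hPgr.del hk2P (hPtc.exists_cycle hk2P)
  have hFsc : (((M.con {g2}).del {e, k}).del {k2}).SC := by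
    rw [eqF1]
    exact (SC_con _ hsc g2 g1 hg2kk hg1kk h12.symm hserkk).1
  have hFtwo : (((M.con {g2}).del {e, k}).del {k2}).Two := TC.del_two hPtc hk2P
  have hFT : HasT rows (((M.con {g2}).del {e, k}).del {k2}) := by
    rw [eqF1]
    exact HasT_con h0 hg2kk hg1kk h12.symm hserkk hT
  have hFS : ∀ x, x ∈ (((M.con {g2}).del {e, k}).del {k2}).S ↔
      x ∈ M.S ∧ x ≠ g2 ∧ x ≠ e ∧ x ≠ k ∧ x ≠ k2 := by
    intro x
    rw [BM.del_S, Finset.mem_sdiff, hPS, Finset.mem_singleton]
    tauto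
  have hx1F := (hFS x1).2 ⟨hx1S.1, hx1n.2.2, hx1S.2, hx1n.1, hx1k2⟩
  have hx2F := (hFS x2).2 ⟨hx2S.1, hx2n.2.2, hx2S.2, hx2n.1, hx2k2⟩
  have hqUy : q ∈ U.erase y := Finset.mem_erase.2 ⟨hqy, hqU⟩
  have hFq : star (((M.con {g2}).del {e, k}).del {k2}).S (fun x => mg y b (h x))
      (fun x => mg y b (t x)) q = {x1, x2} := by
    ext x
    rw [Step4c_mem, Step4c_mgiff hqy hqb, Step4c_mgiff hqy hqb, hFS]
    simp only [Finset.mem_insert, Finset.mem_singleton]
    constructor
    · rintro ⟨⟨h1, h2, h3, h4, h5⟩, h6⟩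
      rcases hqst x ((hESe x).2 ⟨h1, h3⟩) h6 with h7 | h7 | h7
      · exact absurd h7 h5
      · exact Or.inl h7
      · exact Or.inr h7
    · rintro (rfl | rfl)
      · exact ⟨⟨hx1S.1, hx1n.2.2, hx1S.2, hx1n.1, hx1k2⟩, Step4c_jl hj1⟩
      · exact ⟨⟨hx2S.1, hx2n.2.2, hx2S.2, hx2n.1, hx2k2⟩, Step4c_jl hj2⟩
  have hFc := con_two hFgr hqUy hFq hx12 hFsc hFtwo
  have hFcT : HasT rows ((((M.con {g2}).del {e, k}).del {k2}).con {x2}) := by
    refine HasT_con h0 hx2F hx1F hx12.symm ?_ hFT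
    refine hser_of_star _ _ _ _ x2 x1 q hFgr hqUy ?_ hx12.symm
    rw [hFq, Finset.pair_comm]
  have hj2' : Jn (fun x => mg y b (h x)) (fun x => mg y b (t x)) x2 q d := by
    have h3 := Step4c_jmg hj2 y b
    rwa [Step4c_mgne b hqy, Step4c_mgne b S.yd.symm] at h3
  -- `F2 = H' con x2`
  have eqF2 : (((M.con {g2}).del {e, k}).con {x2}).del {k2} =
      (((M.con {g2}).del {e, k}).del {k2}).con {x2} :=
    (BM.del_con ((M.con {g2}).del {e, k}) (Finset.disjoint_singleton.2 hx2k2.symm)).symm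
  have hx2P : x2 ∈ ((M.con {g2}).del {e, k}).S :=
    (hPS x2).2 ⟨hx2S.1, hx2n.2.2, hx2S.2, hx2n.1⟩
  have hcardP : 2 ≤ ((M.con {g2}).del {e, k}).S.card := by
    have := hPtc.card
    omega
  have hcardF : 2 ≤ (((M.con {g2}).del {e, k}).del {k2}).S.card := by
    have h1 : ({x1, x2} : Finset E) ⊆ (((M.con {g2}).del {e, k}).del {k2}).S := by
      intro x hx
      simp only [Finset.mem_insert, Finset.mem_singleton] at hx
      rcases hx with rfl | rfl
      · exact hx1F
      · exact hx2F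
    have h2 := Finset.card_le_card h1
    rwa [Finset.card_pair hx12] at h2
  have hF2gr : IsGr (((M.con {g2}).del {e, k}).con {x2}) ((U.erase y).erase q)
      (fun x => mg q d (mg y b (h x))) (fun x => mg q d (mg y b (t x))) :=
    hPgr.con hx2P hj2' (fun z hz hzx hj => hzx (IsGr.no_par hPgr hPsc hz hx2P hj hj2')) hcardP
  have hF2gr' : IsGr ((((M.con {g2}).del {e, k}).con {x2}).del {k2}) ((U.erase y).erase q)
      (fun x => mg q d (mg y b (h x))) (fun x => mg q d (mg y b (t x))) := by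
    rw [eqF2]
    exact hFgr.con hx2F hj2' (fun z hz hzx hj => hzx (IsGr.no_par hFgr hFsc hz hx2F hj hj2'))
      hcardF
  have hF2S : ∀ x, x ∈ (((M.con {g2}).del {e, k}).con {x2}).S ↔
      x ∈ M.S ∧ x ≠ g2 ∧ x ≠ e ∧ x ≠ k ∧ x ≠ x2 := by
    intro x
    rw [BM.con_S, Finset.mem_sdiff, hPS, Finset.mem_singleton]
    tauto
  -- the vertex map of `F2`
  have hm2 : ∀ v z : V, v ≠ y → v ≠ q → v ≠ b → v ≠ d → (mg q d (mg y b z) = v ↔ z = v) := by
    intro v z h1 h2 h3 h4
    rw [Step4c_mgiff h2 h4, Step4c_mgiff h1 h3]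
  have hm2b : ∀ z : V, mg q d (mg y b z) = b ↔ z = b ∨ z = y := by
    intro z
    rw [Step4c_mgiff hqb.symm S.bd, Step4c_mgv]
  have hm2d : ∀ z : V, z = d ∨ z = q → mg q d (mg y b z) = d := by
    rintro z (rfl | rfl)
    · rw [Step4c_mgne b S.yd.symm, Step4c_mgne z hq.symm]
    · rw [Step4c_mgne b hqy, Step4c_mgu]
  have hdeg : ∀ v ∈ U, 3 ≤ (star (M.S \ {e}) h t v).card := fun v hv => TC.three_le_deg S.tc hG hv
  -- big stars in `F2`
  have hsub2 : ∀ v ∈ U, v ≠ y → v ≠ q → v ≠ b → v ≠ d → star (M.S \ {e}) h t v ⊆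
      star (((M.con {g2}).del {e, k}).con {x2}).S (fun x => mg q d (mg y b (h x)))
        (fun x => mg q d (mg y b (t x))) v := by
    intro v _ h1 h2 h3 h4 x hx
    rw [Step4c_mem, hESe] at hx
    rw [Step4c_mem, hm2 v _ h1 h2 h3 h4, hm2 v _ h1 h2 h3 h4, hF2S]
    refine ⟨⟨hx.1.1, ?_, hx.1.2, ?_, ?_⟩, hx.2⟩
    · rintro rfl
      rcases Step4c_jor S.j2 hx.2 with h5 | h5
      · exact h1 h5
      · exact h3 h5
    · rintro rfl
      rcases Step4c_jor S.jk hx.2 with h5 | h5
      · exact h1 h5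
      · exact h4 h5
    · rintro rfl
      rcases Step4c_jor hj2 hx.2 with h5 | h5
      · exact h2 h5
      · exact h4 h5
  have hb2 : insert g1 ((star (M.S \ {e}) h t b).erase g2) ⊆
      star (((M.con {g2}).del {e, k}).con {x2}).S (fun x => mg q d (mg y b (h x)))
        (fun x => mg q d (mg y b (t x))) b := by
    intro x hx
    rw [Step4c_mem, hm2b, hm2b, hF2S]
    rw [Finset.mem_insert, Finset.mem_erase, Step4c_mem, hESe] at hx
    rcases hx with rfl | ⟨h1, ⟨h2, h3⟩, h4⟩
    · refine ⟨⟨hg1S.1, h12, hg1S.2, h1k, hx2n.2.1.symm⟩, ?_⟩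
      rcases Step4c_jl S.j1 with h5 | h5
      · exact Or.inl (Or.inr h5)
      · exact Or.inr (Or.inr h5)
    · refine ⟨⟨h2, h1, h3, ?_, ?_⟩, ?_⟩
      · rintro rfl
        rcases Step4c_jor S.jk h4 with h5 | h5
        · exact S.yb h5.symm
        · exact S.bd h5
      · rintro rfl
        rcases Step4c_jor hj2 h4 with h5 | h5
        · exact hqb h5.symm
        · exact S.bd h5
      · rcases h4 with h5 | h5
        · exact Or.inl (Or.inl h5)
        · exact Or.inr (Or.inl h5)
  have hg1b : g1 ∉ (star (M.S \ {e}) h t b).erase g2 := by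
    intro h1
    have h2 := (Step4c_mem.1 (Finset.mem_erase.1 h1).2).2
    rcases Step4c_jor S.j1 h2 with h3 | h3
    · exact S.yb h3.symm
    · exact S.ab h3.symm
  have hb2c : 3 ≤ (insert g1 ((star (M.S \ {e}) h t b).erase g2)).card := by
    rw [Finset.card_insert_of_notMem hg1b, Finset.card_erase_of_mem
      (Step4c_mem.2 ⟨(hESe g2).2 hg2S, Step4c_jr S.j2⟩)]
    have := hdeg b hbU
    omega
  have hgext2 := gext (M := ((M.con {g2}).del {e, k}).con {x2}) (U := (U.erase y).erase q)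
    (h := fun x => mg q d (mg y b (h x))) (t := fun x => mg q d (mg y b (t x))) (x := k2)
    (u := a) (v := d) ((hF2S k2).2 ⟨hk, hk2, hke, hkk, hx2k2.symm⟩) hF2gr hF2gr'
    (by rw [eqF2]; exact hFc.1) (by rw [eqF2]; exact hFc.2)
    (by
      have h1 := Step4c_jmg (Step4c_jmg hjq y b) q d
      rw [Step4c_mgne b S.ya.symm, Step4c_mgne b hqy, Step4c_mgu, Step4c_mgne d hqa.symm] at h1
      exact h1)
    (by
      intro z hz hzk hj
      rw [hF2S] at hz
      have h1 := Step4c_jl hj
      rw [hm2 a _ S.ya.symm hqa.symm S.ab S.ad, hm2 a _ S.ya.symm hqa.symm S.ab S.ad] at h1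
      rcases hast z ((hESe z).2 ⟨hz.1, hz.2.2.1⟩) h1 with h2 | h2 | h2
      · subst h2
        have h3 := Step4c_jmg (Step4c_jmg S.j1 y b) q d
        rw [Step4c_mgu, Step4c_mgne d hqb.symm] at h3
        rcases Step4c_jor h3 (Step4c_jr hj) with h4 | h4
        · exact S.bd h4.symm
        · rw [Step4c_mgne b S.ya.symm, Step4c_mgne d hqa.symm] at h4
          exact S.ad h4.symm
      · subst h2
        have h3 := Step4c_jmg (Step4c_jmg hjc y b) q d
        rw [Step4c_mgne b S.ya.symm, Step4c_mgne d hqa.symm, Step4c_mgne b S.yc.symm,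
          Step4c_mgne d hqc.symm] at h3
        rcases Step4c_jor h3 (Step4c_jr hj) with h4 | h4
        · exact S.ad h4.symm
        · exact hcd h4.symm
      · exact hzk h2)
    (by
      intro s hsU hsa hsd p hp q' hq' hstars hjp _
      have hcard : (star ((((M.con {g2}).del {e, k}).con {x2}).S \ {k2})
          (fun x => mg q d (mg y b (h x))) (fun x => mg q d (mg y b (t x))) s).card ≤ 2 := by
        rw [hstars]
        exact Finset.card_le_two
      have hpk2 : p ≠ k2 := by
        intro h1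
        have h2 : p ∈ star ((((M.con {g2}).del {e, k}).con {x2}).S \ {k2})
          (fun x => mg q d (mg y b (h x))) (fun x => mg q d (mg y b (t x))) s := by
          rw [hstars]; simp
        have h3 := (Finset.mem_sdiff.1 (Step4c_mem.1 h2).1).2
        exact h3 (Finset.mem_singleton.2 h1)
      rw [hF2S] at hp
      have h1 := Step4c_jr hjp
      rw [hm2 a _ S.ya.symm hqa.symm S.ab S.ad, hm2 a _ S.ya.symm hqa.symm S.ab S.ad] at h1
      rcases hast p ((hESe p).2 ⟨hp.1, hp.2.2.1⟩) h1 with h2 | h2 | h2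
      · subst h2
        have h3 := Step4c_jmg (Step4c_jmg S.j1 y b) q d
        rw [Step4c_mgu, Step4c_mgne d hqb.symm, Step4c_mgne b S.ya.symm,
          Step4c_mgne d hqa.symm] at h3
        rcases Step4c_jor h3 (Step4c_jl hjp) with h4 | h4
        · subst h4
          have h5 : insert p ((star (M.S \ {e}) h t s).erase g2) ⊆
              star ((((M.con {g2}).del {e, k}).con {x2}).S \ {k2})
                (fun x => mg q d (mg y s (h x))) (fun x => mg q d (mg y s (t x))) s := by
            intro x hx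
            have h6 := hb2 hx
            rw [Step4c_mem] at h6 ⊢
            refine ⟨Finset.mem_sdiff.2 ⟨h6.1, ?_⟩, h6.2⟩
            intro h7
            rw [Finset.mem_singleton] at h7
            subst h7
            rw [Finset.mem_insert, Finset.mem_erase, Step4c_mem] at hx
            rcases hx with h8 | ⟨_, _, h8⟩
            · exact hpk2 h8.symm
            · rcases Step4c_jor hjq h8 with h9 | h9
              · exact S.ab h9.symm
              · exact hqb h9.symm
          have h6 := Finset.card_le_card h5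
          omega
        · exact hsa h4
      · subst h2
        have h3 := Step4c_jmg (Step4c_jmg hjc y b) q d
        rw [Step4c_mgne b S.ya.symm, Step4c_mgne d hqa.symm, Step4c_mgne b S.yc.symm,
          Step4c_mgne d hqc.symm] at h3
        rcases Step4c_jor h3 (Step4c_jl hjp) with h4 | h4
        · exact hsa h4
        · subst h4
          have h5 : star (M.S \ {e}) h t s ⊆
              star ((((M.con {g2}).del {e, k}).con {x2}).S \ {k2})
                (fun x => mg q d (mg y b (h x))) (fun x => mg q d (mg y b (t x))) s := by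
            intro x hx
            have h6 := hsub2 s hcU S.yc.symm hqc.symm S.bc.symm hcd hx
            rw [Step4c_mem] at h6 hx ⊢
            refine ⟨Finset.mem_sdiff.2 ⟨h6.1, ?_⟩, h6.2⟩
            intro h7
            rw [Finset.mem_singleton] at h7
            subst h7
            rcases Step4c_jor hjq hx.2 with h9 | h9
            · exact S.ac h9.symm
            · exact hqc h9.symm
          have h6 := Finset.card_le_card h5
          have h7 := hdeg s hcU
          omega
      · exact hpk2 h2)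
  have hF2tc : (((M.con {g2}).del {e, k}).con {x2}).TC := by
    refine IsGr.tc_of_deg hF2gr hgext2.1 hgext2.2 ?_
    intro v hv
    rw [Finset.mem_erase, Finset.mem_erase] at hv
    obtain ⟨hvq, hvy, hvU⟩ := hv
    by_cases hvb : v = b
    · subst hvb
      exact hb2c.trans (Finset.card_le_card hb2)
    · by_cases hvd : v = d
      · subst hvd
        have h5 : insert k2 (((star (M.S \ {e}) h t v).erase k).erase x2) ⊆
            star (((M.con {g2}).del {e, k}).con {x2}).S (fun x => mg q v (mg y b (h x)))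
              (fun x => mg q v (mg y b (t x))) v := by
          intro x hx
          rw [Finset.mem_insert, Finset.mem_erase, Finset.mem_erase, Step4c_mem, hESe] at hx
          rw [Step4c_mem, hF2S]
          rcases hx with rfl | ⟨h1, h2, ⟨h3, h4⟩, h5⟩
          · refine ⟨⟨hk, hk2, hke, hkk, hx2k2.symm⟩, ?_⟩
            rcases Step4c_jr hjq with h6 | h6
            · exact Or.inl (hm2d _ (Or.inr h6))
            · exact Or.inr (hm2d _ (Or.inr h6))
          · refine ⟨⟨h3, ?_, h4, h2, h1⟩, ?_⟩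
            · rintro rfl
              rcases Step4c_jor S.j2 h5 with h6 | h6
              · exact hvy h6
              · exact hvb h6
            · rcases h5 with h6 | h6
              · exact Or.inl (hm2d _ (Or.inl h6))
              · exact Or.inr (hm2d _ (Or.inl h6))
        have h6 : k2 ∉ ((star (M.S \ {e}) h t v).erase k).erase x2 := by
          intro h1
          have h2 := (Step4c_mem.1 (Finset.mem_erase.1 (Finset.mem_erase.1 h1).2).2).2
          rcases Step4c_jor hjq h2 with h3 | h3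
          · exact S.ad h3.symm
          · exact hvq h3
        have h7 := Finset.card_le_card h5
        rw [Finset.card_insert_of_notMem h6, Finset.card_erase_of_mem, Finset.card_erase_of_mem]
          at h7
        · omega
        · exact Step4c_mem.2 ⟨(hESe k).2 hkS, Step4c_jr S.jk⟩
        · exact Finset.mem_erase.2 ⟨hx2n.1, Step4c_mem.2 ⟨(hESe x2).2 hx2S, Step4c_jr hj2⟩⟩
      · exact (hdeg v hvU).trans (Finset.card_le_card (hsub2 v hvU hvy hvq hvb hvd))
  have hF2T : HasT rows (((M.con {g2}).del {e, k}).con {x2}) := by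
    apply HasT_of_del (D := {k2})
    rw [eqF2]
    exact hFcT
  -- `F3 = (M.del {e, k}).con {x2}`
  have eqF3 : ((M.del {e, k}).con {x2}).con {g2} = ((M.con {g2}).del {e, k}).con {x2} := by
    rw [← BM.del_con, BM.con_con, BM.con_con, Finset.union_comm]
    rw [Finset.disjoint_singleton_right]
    simp only [Finset.mem_insert, Finset.mem_singleton, not_or]
    exact ⟨hg2S.2, h2k⟩
  have hx2dk : x2 ∈ (M.del {e, k}).S := by
    simp only [BM.del_S, Finset.mem_sdiff, Finset.mem_insert, Finset.mem_singleton, not_or]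
    exact ⟨hx2S.1, hx2S.2, hx2n.1⟩
  have hg2dk : g2 ∈ (M.del {e, k}).S := by
    simp only [BM.del_S, Finset.mem_sdiff, Finset.mem_insert, Finset.mem_singleton, not_or]
    exact ⟨hg2S.1, hg2S.2, h2k⟩
  have hcard3 : 2 ≤ (M.del {e, k}).S.card := by
    have h1 : ({k2, x2} : Finset E) ⊆ (M.del {e, k}).S := by
      intro x hx
      simp only [Finset.mem_insert, Finset.mem_singleton] at hx
      rcases hx with rfl | rfl
      · exact hk2dk
      · exact hx2dk
    have h2 := Finset.card_le_card h1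
    rwa [Finset.card_pair hx2k2.symm] at h2
  have hF3gr : IsGr ((M.del {e, k}).con {x2}) (U.erase q) (fun x => mg q d (h x))
      (fun x => mg q d (t x)) :=
    hGk.con hx2dk hj2 (fun z hz hzx hj => hzx (IsGr.no_par hGk S.sc hz hx2dk hj hj2)) hcard3
  have hF3S : ∀ x, x ∈ ((M.del {e, k}).con {x2}).S ↔ x ∈ M.S ∧ x ≠ e ∧ x ≠ k ∧ x ≠ x2 := by
    intro x
    simp only [BM.con_S, BM.del_S, Finset.mem_sdiff, Finset.mem_singleton, Finset.mem_insert,
      not_or]
    tauto
  have hm3 : ∀ v z : V, v ≠ q → v ≠ d → (mg q d z = v ↔ z = v) := fun v z h1 h2 =>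
    Step4c_mgiff h1 h2
  have hyUq : y ∈ U.erase q := Finset.mem_erase.2 ⟨hqy.symm, hyU⟩
  have hF3y : star ((M.del {e, k}).con {x2}).S (fun x => mg q d (h x))
      (fun x => mg q d (t x)) y = {g1, g2} := by
    ext x
    rw [Step4c_mem, hm3 y _ hqy.symm S.yd, hm3 y _ hqy.symm S.yd, hF3S]
    simp only [Finset.mem_insert, Finset.mem_singleton]
    constructor
    · rintro ⟨⟨h1, h2, h3, h4⟩, h6⟩
      rcases hyst x ((hESe x).2 ⟨h1, h2⟩) h6 with h7 | h7 | h7
      · exact absurd h7 h3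
      · exact Or.inl h7
      · exact Or.inr h7
    · rintro (rfl | rfl)
      · exact ⟨⟨hg1S.1, hg1S.2, h1k, hx2n.2.1.symm⟩, Step4c_jl S.j1⟩
      · exact ⟨⟨hg2S.1, hg2S.2, h2k, hx2n.2.2.symm⟩, Step4c_jl S.j2⟩
  have hcl3 : ∃ z ∈ ((M.del {e, k}).con {x2}).Z, z g2 = 1 := by
    obtain ⟨z, hz, hz1⟩ := SC_not_coloop _ S.sc g2 hg2dk
    refine ⟨mask ((M.del {e, k}).S \ {x2}) z, (BM.mem_Z_con _).2 ⟨z, hz, rfl⟩, ?_⟩
    rw [mask_apply, if_pos, hz1]
    exact Finset.mem_sdiff.2 ⟨hg2dk, fun h1 => hx2n.2.2 (Finset.mem_singleton.1 h1).symm⟩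
  have hF3 := subdiv (p := g1) (q := g2) (y := y) hF3gr hyUq hF3y h12 hcl3
    (by rw [eqF3]; exact ((TC_iff_SC _).1 hF2tc).1)
    (by
      rw [eqF3]
      intro p hp p' hp' p'' hp'' h1 _
      exact Or.inl (((TC_iff_SC _).1 hF2tc).2 p hp p' hp' h1))
    (by
      rw [eqF3]
      intro x hx hxg h1
      rw [hF3S] at hx
      refine (((TC_iff_SC _).1 hF2tc).2 g1 ?_ x ?_ h1).symm
      · rw [hF2S]
        exact ⟨hg1S.1, h12, hg1S.2, h1k, hx2n.2.1.symm⟩
      · rw [hF2S]
        exact ⟨hx.1, hxg, hx.2.1, hx.2.2.1, hx.2.2.2⟩)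
  have hF3T : HasT rows ((M.del {e, k}).con {x2}) := by
    refine HasT_of_con h0 (a := g2) (b := g1) ((hF3S g2).2 ⟨hg2S.1, hg2S.2, h2k, hx2n.2.2.symm⟩)
      ((hF3S g1).2 ⟨hg1S.1, hg1S.2, h1k, hx2n.2.1.symm⟩) h12.symm ?_ hcl3 ?_
    · refine hser_of_star _ _ _ _ g2 g1 y hF3gr hyUq ?_ h12.symm
      rw [hF3y, Finset.pair_comm]
    · rw [eqF3]
      exact hF2T
  -- `F4 = (M.del {e}).con {x2}`
  have eqF4 : ((M.del {e}).con {x2}).del {k} = (M.del {e, k}).con {x2} := by
    rw [← BM.del_con, eqdk]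
    rw [Finset.disjoint_singleton]
    exact hx2n.1.symm
  have hcard4 : 2 ≤ (M.del {e}).S.card := by
    have := S.tc.card
    omega
  have hF4gr : IsGr ((M.del {e}).con {x2}) (U.erase q) (fun x => mg q d (h x))
      (fun x => mg q d (t x)) :=
    hG.con ((hESe x2).2 hx2S) hj2
      (fun z hz hzx hj => hzx (IsGr.no_par hG hHsc hz ((hESe x2).2 hx2S) hj hj2)) hcard4
  have hF4S : ∀ x, x ∈ ((M.del {e}).con {x2}).S ↔ x ∈ M.S ∧ x ≠ e ∧ x ≠ x2 := by
    intro x
    simp only [BM.con_S, BM.del_S, Finset.mem_sdiff, Finset.mem_singleton]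
    tauto
  have hsub4 : ∀ v, v ≠ q → v ≠ d → star (M.S \ {e}) h t v ⊆
      star ((M.del {e}).con {x2}).S (fun x => mg q d (h x)) (fun x => mg q d (t x)) v := by
    intro v h1 h2 x hx
    rw [Step4c_mem, hESe] at hx
    rw [Step4c_mem, hm3 v _ h1 h2, hm3 v _ h1 h2, hF4S]
    refine ⟨⟨hx.1.1, hx.1.2, ?_⟩, hx.2⟩
    rintro rfl
    rcases Step4c_jor hj2 hx.2 with h5 | h5
    · exact h1 h5
    · exact h2 h5
  have hgext4 := gext (M := (M.del {e}).con {x2}) (U := U.erase q)
    (h := fun x => mg q d (h x)) (t := fun x => mg q d (t x)) (x := k)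
    (u := y) (v := d) ((hF4S k).2 ⟨hkS.1, hkS.2, hx2n.1.symm⟩) hF4gr
    (by rw [eqF4]; exact hF3gr)
    (by rw [eqF4]; exact hF3.1) (by rw [eqF4]; exact hF3.2)
    (by
      have h1 := Step4c_jmg S.jk q d
      rw [Step4c_mgne d hqy.symm, Step4c_mgne d hq.symm] at h1
      exact h1)
    (by
      intro z hz hzk hj
      rw [hF4S] at hz
      have h1 := Step4c_jl hj
      rw [hm3 y _ hqy.symm S.yd, hm3 y _ hqy.symm S.yd] at h1
      rcases hyst z ((hESe z).2 ⟨hz.1, hz.2.1⟩) h1 with h2 | h2 | h2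
      · exact hzk h2
      · subst h2
        have h3 := Step4c_jmg S.j1 q d
        rw [Step4c_mgne d hqy.symm, Step4c_mgne d hqa.symm] at h3
        rcases Step4c_jor h3 (Step4c_jr hj) with h4 | h4
        · exact S.yd h4.symm
        · exact S.ad h4.symm
      · subst h2
        have h3 := Step4c_jmg S.j2 q d
        rw [Step4c_mgne d hqy.symm, Step4c_mgne d hqb.symm] at h3
        rcases Step4c_jor h3 (Step4c_jr hj) with h4 | h4
        · exact S.yd h4.symm
        · exact S.bd h4.symm)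
    (by
      intro s hsU hsy hsd p hp q' hq' hstars hjp _
      have hcard : (star (((M.del {e}).con {x2}).S \ {k})
          (fun x => mg q d (h x)) (fun x => mg q d (t x)) s).card ≤ 2 := by
        rw [hstars]
        exact Finset.card_le_two
      have hpk : p ≠ k := by
        intro h1
        have h2 : p ∈ star (((M.del {e}).con {x2}).S \ {k})
          (fun x => mg q d (h x)) (fun x => mg q d (t x)) s := by
          rw [hstars]; simp
        have h3 := (Finset.mem_sdiff.1 (Step4c_mem.1 h2).1).2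
        exact h3 (Finset.mem_singleton.2 h1)
      -- every vertex other than `y, q, d` keeps its star
      have hbig : ∀ v ∈ U, v ≠ q → v ≠ d → v ≠ y → s ≠ v := by
        rintro v hvU hvq hvd hvy rfl
        have h5 : star (M.S \ {e}) h t s ⊆ star (((M.del {e}).con {x2}).S \ {k})
            (fun x => mg q d (h x)) (fun x => mg q d (t x)) s := by
          intro x hx
          have h6 := hsub4 s hvq hvd hx
          rw [Step4c_mem] at h6 hx ⊢
          refine ⟨Finset.mem_sdiff.2 ⟨h6.1, ?_⟩, h6.2⟩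
          intro h7
          rw [Finset.mem_singleton] at h7
          subst h7
          rcases Step4c_jor S.jk hx.2 with h9 | h9
          · exact hvy h9
          · exact hvd h9
        have h6 := Finset.card_le_card h5
        have h7 := hdeg s hvU
        omega
      rw [hF4S] at hp
      have h1 := Step4c_jr hjp
      rw [hm3 y _ hqy.symm S.yd, hm3 y _ hqy.symm S.yd] at h1
      rcases hyst p ((hESe p).2 ⟨hp.1, hp.2.1⟩) h1 with h2 | h2 | h2
      · exact hpk h2
      · subst h2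
        have h3 := Step4c_jmg S.j1 q d
        rw [Step4c_mgne d hqy.symm, Step4c_mgne d hqa.symm] at h3
        rcases Step4c_jor h3 (Step4c_jl hjp) with h4 | h4
        · exact hsy h4
        · exact hbig a haU hqa.symm S.ad S.ya.symm h4
      · subst h2
        have h3 := Step4c_jmg S.j2 q d
        rw [Step4c_mgne d hqy.symm, Step4c_mgne d hqb.symm] at h3
        rcases Step4c_jor h3 (Step4c_jl hjp) with h4 | h4
        · exact hsy h4
        · exact hbig b hbU hqb.symm S.bd S.yb.symm h4)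
  have hF4tc : ((M.del {e}).con {x2}).TC := by
    refine IsGr.tc_of_deg hF4gr hgext4.1 hgext4.2 ?_
    intro v hv
    rw [Finset.mem_erase] at hv
    obtain ⟨hvq, hvU⟩ := hv
    by_cases hvd : v = d
    · subst hvd
      have h5 : (star (M.S \ {e}) h t v).erase x2 ⊆
          star ((M.del {e}).con {x2}).S (fun x => mg q v (h x)) (fun x => mg q v (t x)) v := by
        intro x hx
        rw [Finset.mem_erase, Step4c_mem, hESe] at hx
        rw [Step4c_mem, hF4S]
        refine ⟨⟨hx.2.1.1, hx.2.1.2, hx.1⟩, ?_⟩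
        rcases hx.2.2 with h6 | h6
        · exact Or.inl (Step4c_mgv.2 (Or.inl h6))
        · exact Or.inr (Step4c_mgv.2 (Or.inl h6))
      have h7 := Finset.card_le_card h5
      rw [Finset.card_erase_of_mem (Step4c_mem.2 ⟨(hESe x2).2 hx2S, Step4c_jr hj2⟩)] at h7
      omega
    · exact (hdeg v hvU).trans (Finset.card_le_card (hsub4 v hvq hvd))
  have hF4T : HasT rows ((M.del {e}).con {x2}) := by
    apply HasT_of_del (D := {k})
    rw [eqF4]
    exact hF3T
  -- the graft
  have eqN : (M.con {x2}).del {e} = (M.del {e}).con {x2} := by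
    rw [BM.del_con]
    rw [Finset.disjoint_singleton]
    exact hx2S.2.symm
  have hqT : q ∉ ({y, a, b, c} : Finset V) := by
    simp only [Finset.mem_insert, Finset.mem_singleton, not_or]
    exact ⟨hqy, hqa, hqb, hqc⟩
  have hgraft := S.gr.con (x := x2) (u := q) (v := d) hx2S.1 hx2S.2 hj2
    (fun z hz hze hzx hj => hzx (IsGr.no_par hG hHsc ((hESe z).2 ⟨hz, hze⟩)
      ((hESe x2).2 hx2S) hj hj2))
    (by
      have h1 := S.tc.card
      have h2 : (M.del {e}).S.card ≤ M.S.card := Finset.card_le_card Finset.sdiff_subset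
      omega)
  rw [if_neg hqT] at hgraft
  refine S.cx.false_of_graft h0 (M.con {x2}) (minor_con M {x2}) ?_ hgraft ?_ ?_ ?_
  · refine Finset.card_lt_card (Finset.ssubset_iff_subset_ne.2 ⟨Finset.sdiff_subset, ?_⟩)
    intro heq
    have h1 : x2 ∈ (M.con {x2}).S := by
      rw [heq]
      exact hx2S.1
    exact (Finset.mem_sdiff.1 h1).2 (Finset.mem_singleton_self x2)
  · rw [eqN]
    exact hF4tc
  · rw [eqN]
    exact hF4T
  · rw [Finset.card_insert_of_notMem, Finset.card_insert_of_notMem,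
      Finset.card_insert_of_notMem, Finset.card_singleton]
    · rw [Finset.mem_singleton]
      exact S.bc
    · simp only [Finset.mem_insert, Finset.mem_singleton, not_or]
      exact ⟨S.ab, S.ac⟩
    · simp only [Finset.mem_insert, Finset.mem_singleton, not_or]
      exact ⟨S.ya, S.yb, S.yc⟩

end SEY
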