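import Pool.Agent.Helper25.SEY.T.SitH
import Pool.Agent.Helper25.SEY.T.MinCx
import Pool.Agent.Helper71.SEYApi2

/-!
T3-Step4d.
T3-Step4 (k2 /= f).  k2 is an element of H' = (M.con {g2}).del {e,k}, k2 /= g1, with M.del {e,k,k2} SC and HasT
(this is H' del k2 with the edge f = ab subdivided by y).  F := (M.con {g2}).del {e,k,k2} = H' del k2 is SC (`SC_con`, g1,g2
in series in M.del {e,k,k2}: star y = {g1,g2}), Two (`TC.del_two` for H'), graph on U - y with ends mg y b (g1 joins a, b).
Facts used everywhere: no edge of H joins a and b, none joins y to something else than a, b, d; H' has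
no parallel edges.

* `step4_dich`: `SC_ext` for M' = M.del {e,k2}, P = {k}, M'.del {k} = M.del {e,k,k2}.  If hout holds: M' is SC.  Else there is a cycle z
  of M' with z k = 1 and all elements of z other than k pairwise in series in M'.del {k}.  Parity of z
  at y: exactly one of g1,g2 is in z.  Parity at d: some x1 /= k at d with z x1 = 1; x1 is not g1, g2 (d /= y,a,b).
  As g1, g2 are in series in M'.del {k}: Ser g1 x1, also in F.  `TC.triad` for H': {k2,g1,x1} is a row of H';
  `IsGr.star2` for F: star_F s = {g1,x1}, s = a or s = b (ends of g1 in F).  As deg_H' (s) >= 3 : star_H' s = {g1,x1,k2}; so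
  star_H a = {g1,x1,k2} or star_H b = {g2,x1,k2}; x1 joins s and d.
-/

namespace SEY

open Finset

variable {E : Type} [Fintype E] [DecidableEq E] {V : Type} [Fintype V] [DecidableEq V]
variable {r l : ℕ} {rows : Fin r → Fin l → ZMod 2} {M : BM E} {U : Finset V} {h t : E → V}
  {e k g1 g2 : E} {y a b c d : V}

/-- Parity of a cycle at a vertex. -/
lemma Step4d_parity {N : BM E} {U : Finset V} {h t : E → V} (hg : IsGr N U h t) {v : V}
    (hv : v ∈ U) {z : E → ZMod 2} (hz : z ∈ N.Z) : ∑ x ∈ star N.S h t v, z x = 0 := by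
  rw [← ind_dot]
  exact N.dot_eq_zero (hg.star_mem hv) hz

omit [Fintype V] in
lemma Step4d_mem_star {S : Finset E} {h t : E → V} {v : V} {x : E} :
    x ∈ star S h t v ↔ x ∈ S ∧ (h x = v ∨ t x = v) := by
  unfold star
  rw [Finset.mem_filter]

omit [Fintype V] in
lemma Step4d_mg_a {u v w s : V} (hsu : s ≠ u) (hsv : s ≠ v) : mg u v w = s ↔ w = s := by
  unfold mg
  by_cases h : w = u
  · rw [if_pos h]
    constructor
    · intro h1; exact absurd h1.symm hsv
    · intro h1; exact absurd (h1.symm.trans h) hsu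
  · rw [if_neg h]

omit [Fintype V] in
lemma Step4d_mg_v {u v w : V} : mg u v w = v ↔ w = v ∨ w = u := by
  unfold mg
  by_cases h : w = u
  · rw [if_pos h]
    simp [h]
  · rw [if_neg h]
    simp [h]

theorem SitI.step4_dich (S : SitI rows M U h t e k g1 g2 y a b c d)
    (hd : 4 ≤ (star (M.S \ {e}) h t d).card) {k2 : E} (hk : k2 ∈ M.S) (hke : k2 ≠ e)
    (hkk : k2 ≠ k) (hk1 : k2 ≠ g1) (hk2 : k2 ≠ g2) (hsc : (M.del {e, k, k2}).SC) :
    (M.del {e, k2}).SC ∨
      (∃ x1, star (M.S \ {e}) h t a = {g1, x1, k2} ∧ Jn h t x1 a d) ∨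
      (∃ x1, star (M.S \ {e}) h t b = {g2, x1, k2} ∧ Jn h t x1 b d) := by
  by_cases hMSC : (M.del {e, k2}).SC
  · exact Or.inl hMSC
  right
  -- basic facts
  have hH : IsGr (M.del {e}) U h t := S.gr.gr
  have hHS : (M.del {e}).S = M.S \ {e} := rfl
  have hstk : k ∈ star (M.S \ {e}) h t y := by rw [S.st]; simp
  have hst1 : g1 ∈ star (M.S \ {e}) h t y := by rw [S.st]; simp
  have hst2 : g2 ∈ star (M.S \ {e}) h t y := by rw [S.st]; simp
  have hkS : k ∈ M.S \ {e} := (Step4d_mem_star.1 hstk).1
  have h1S : g1 ∈ M.S \ {e} := (Step4d_mem_star.1 hst1).1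
  have h2S : g2 ∈ M.S \ {e} := (Step4d_mem_star.1 hst2).1
  have hkM : k ∈ M.S ∧ k ≠ e := by simpa using hkS
  have h1M : g1 ∈ M.S ∧ g1 ≠ e := by simpa using h1S
  have h2M : g2 ∈ M.S ∧ g2 ≠ e := by simpa using h2S
  -- ends
  have hyU : y ∈ U := by
    have := hH.ends k hkS
    rcases S.jk with ⟨h1, _⟩ | ⟨_, h2⟩
    · rw [← h1]; exact this.1
    · rw [← h2]; exact this.2.1
  have hdU : d ∈ U := by
    have := hH.ends k hkS
    rcases S.jk with ⟨_, h2⟩ | ⟨h1, _⟩
    · rw [← h2]; exact this.2.1
    · rw [← h1]; exact this.1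
  have hkends : ∀ v, (h k = v ∨ t k = v) ↔ (v = y ∨ v = d) := by
    intro v
    rcases S.jk with ⟨h1, h2⟩ | ⟨h1, h2⟩ <;> rw [h1, h2] <;> constructor <;>
      rintro (h | h) <;> simp [h]
  have h1ends : ∀ v, (h g1 = v ∨ t g1 = v) ↔ (v = y ∨ v = a) := by
    intro v
    rcases S.j1 with ⟨h1, h2⟩ | ⟨h1, h2⟩ <;> rw [h1, h2] <;> constructor <;>
      rintro (h | h) <;> simp [h]
  have h2ends : ∀ v, (h g2 = v ∨ t g2 = v) ↔ (v = y ∨ v = b) := by
    intro v
    rcases S.j2 with ⟨h1, h2⟩ | ⟨h1, h2⟩ <;> rw [h1, h2] <;> constructor <;>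
      rintro (h | h) <;> simp [h]
  have hk_ne1 : k ≠ g1 := by
    intro h1
    have := (hkends d).2 (Or.inr rfl)
    rw [h1] at this
    rcases (h1ends d).1 this with h2 | h2
    · exact S.yd h2.symm
    · exact S.ad h2.symm
  have hk_ne2 : k ≠ g2 := by
    intro h1
    have := (hkends d).2 (Or.inr rfl)
    rw [h1] at this
    rcases (h2ends d).1 this with h2 | h2
    · exact S.yd h2.symm
    · exact S.bd h2.symm
  have h12 : g1 ≠ g2 := by
    intro h1
    have := (h1ends a).2 (Or.inr rfl)
    rw [h1] at this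
    rcases (h2ends a).1 this with h2 | h2
    · exact S.ya h2.symm
    · exact S.ab h2
  -- cycles of M without e are cycles of H
  have hcyc : ∀ z ∈ M.Z, z e = 0 → z ∈ (M.del {e}).Z := by
    intro z hz h0
    rw [BM.mem_Z_del]
    refine ⟨hz, ?_⟩
    intro x hx
    rw [Finset.mem_singleton] at hx
    rw [hx]; exact h0
  have hpy : ∀ z ∈ M.Z, z e = 0 → z k + z g1 + z g2 = 0 := by
    intro z hz h0
    have := Step4d_parity hH hyU (hcyc z hz h0)
    rw [hHS, S.st, Finset.sum_insert (by simp [hk_ne1, hk_ne2]),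
      Finset.sum_insert (by simp [h12]), Finset.sum_singleton] at this
    rw [add_assoc]; exact this
  -- g1 and g2 are in series in M.del {e,k,k2}
  have hser : (M.del {e, k, k2}).Ser g1 g2 := by
    intro w hw
    rw [BM.mem_Z_del] at hw
    have h1 := hpy w hw.1 (hw.2 e (by simp))
    rw [hw.2 k (by simp), zero_add] at h1
    exact z_add_eq_zero.1 h1
  have hdd : (M.del {e, k2}).del {k} = M.del {e, k, k2} := by
    rw [BM.del_del]
    congr 1
    ext x; simp; tauto
  -- a bad cycle
  obtain ⟨z, hzZ, hzk, hzs⟩ : ∃ z ∈ (M.del {e, k2}).Z, z k = 1 ∧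
      ∀ p q, p ≠ k → q ≠ k → z p = 1 → z q = 1 → (M.del {e, k, k2}).Ser p q := by
    by_contra hcon
    push Not at hcon
    obtain ⟨z0, hz0, hz0k, hz0k2⟩ := S.tc.exists_cycle_ne (e := k) (e' := k2) hkS
      (by simp [hk, hke]) (Ne.symm hkk)
    rw [BM.mem_Z_del] at hz0
    have hz0' : z0 ∈ (M.del {e, k2}).Z := by
      rw [BM.mem_Z_del]
      refine ⟨hz0.1, ?_⟩
      intro x hx
      rw [Finset.mem_insert, Finset.mem_singleton] at hx
      rcases hx with hx | hx
      · rw [hx]; exact hz0.2 e (by simp)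
      · rw [hx]; exact hz0k2
    refine hMSC (SC_ext (M.del {e, k2}) {k} ?_ (by simp) (by rw [hdd]; exact hsc) z0 hz0' ?_ ?_ ?_).1
    · rw [Finset.singleton_subset_iff]
      show k ∈ M.S \ {e, k2}
      simp [hkM.1, hkM.2, Ne.symm hkk]
    · intro p hp
      rw [Finset.mem_singleton] at hp
      rw [hp]; exact hz0k
    · intro z _
      rcases zcases (z k) with h1 | h1
      · left
        intro p hp
        rw [Finset.mem_singleton] at hp
        rw [hp]; exact h1
      · right
        intro p hp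
        rw [Finset.mem_singleton] at hp
        rw [hp]; exact h1
    · intro z hz hp
      obtain ⟨p, q, h1, h2, h3, h4, h5⟩ := hcon z hz (hp k (by simp))
      refine ⟨p, q, by simpa using h1, by simpa using h2, h3, h4, ?_⟩
      rw [hdd]; exact h5
  rw [BM.mem_Z_del] at hzZ
  have hze : z e = 0 := hzZ.2 e (by simp)
  have hzk2 : z k2 = 0 := hzZ.2 k2 (by simp)
  -- an element at d
  obtain ⟨x1, hx1s, hx1k, hx1z⟩ : ∃ x1 ∈ star (M.S \ {e}) h t d, x1 ≠ k ∧ z x1 = 1 := by
    by_contra hcon
    push Not at hcon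
    have h1 := Step4d_parity hH hdU (hcyc z hzZ.1 hze)
    rw [hHS] at h1
    have hkd : k ∈ star (M.S \ {e}) h t d := by
      rw [Step4d_mem_star]
      exact ⟨hkS, (hkends d).2 (Or.inr rfl)⟩
    rw [Finset.sum_eq_single_of_mem k hkd] at h1
    · rw [hzk] at h1
      exact one_ne_zero h1
    · intro x hx hxk
      exact z_ne_one.1 (hcon x hx hxk)
  rw [Step4d_mem_star] at hx1s
  obtain ⟨hx1S, hx1d⟩ := hx1s
  have hx1M : x1 ∈ M.S ∧ x1 ≠ e := by simpa using hx1S
  have hx1_1 : x1 ≠ g1 := by
    intro h1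
    rw [h1] at hx1d
    rcases (h1ends d).1 hx1d with h2 | h2
    · exact S.yd h2.symm
    · exact S.ad h2.symm
  have hx1_2 : x1 ≠ g2 := by
    intro h1
    rw [h1] at hx1d
    rcases (h2ends d).1 hx1d with h2 | h2
    · exact S.yd h2.symm
    · exact S.bd h2.symm
  have hx1_k2 : x1 ≠ k2 := by
    intro h1
    rw [h1, hzk2] at hx1z
    exact zero_ne_one hx1z
  -- g1 and x1 are in series in M.del {e,k,k2}
  have hser1 : (M.del {e, k, k2}).Ser g1 x1 := by
    have h1 := hpy z hzZ.1 hze
    rw [hzk] at h1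
    rcases zcases (z g1) with h3 | h3
    · rw [h3, add_zero] at h1
      have h4 : z g2 = 1 := (z_add_eq_zero.1 h1).symm
      have h5 := hzs g2 x1 (Ne.symm hk_ne2) hx1k h4 hx1z
      intro w hw
      rw [hser w hw]
      exact h5 w hw
    · exact hzs g1 x1 (Ne.symm hk_ne1) hx1k h3 hx1z
  -- the graph H' and F
  have hHp := S.hp_gr
  have hHpT := S.hp_tc hd
  have hHpS : ((M.con {g2}).del {e, k}).S = (M.S \ {g2}) \ {e, k} := rfl
  have hk2Hp : k2 ∈ ((M.con {g2}).del {e, k}).S := by
    rw [hHpS]; simp [hk, hke, hkk, hk2]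
  have hg1Hp : g1 ∈ ((M.con {g2}).del {e, k}).S := by
    rw [hHpS]; simp [h1M.1, h1M.2, Ne.symm hk_ne1, h12]
  have hx1Hp : x1 ∈ ((M.con {g2}).del {e, k}).S := by
    rw [hHpS]; simp [hx1M.1, hx1M.2, hx1k, hx1_2]
  have hFeq : ((M.con {g2}).del {e, k}).del {k2} = (M.del {e, k, k2}).con {g2} := by
    rw [BM.del_del, BM.del_con]
    · congr 1
      ext x; simp
    · rw [Finset.disjoint_singleton_right]
      simp [h2M.2, Ne.symm hk_ne2, Ne.symm hk2]
  have hFser : (((M.con {g2}).del {e, k}).del {k2}).Ser g1 x1 := by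
    rw [hFeq]
    intro w hw
    rw [BM.mem_Z_con'] at hw
    obtain ⟨-, w', hw', hww⟩ := hw
    rw [← hww g1, ← hww x1]
    · exact hser1 w' hw'
    · show x1 ∈ (M.S \ {e, k, k2}) \ {g2}
      simp [hx1M.1, hx1M.2, hx1k, hx1_2, hx1_k2]
    · show g1 ∈ (M.S \ {e, k, k2}) \ {g2}
      simp [h1M.1, h1M.2, Ne.symm hk_ne1, h12, Ne.symm hk1]
  have hFgr := hHp.del hk2Hp (hHpT.exists_cycle hk2Hp)
  have hFsc : (((M.con {g2}).del {e, k}).del {k2}).SC := by
    rw [hFeq]
    refine (SC_con (M.del {e, k, k2}) hsc g2 g1 ?_ ?_ (Ne.symm h12) ?_).1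
    · show g2 ∈ M.S \ {e, k, k2}
      simp [h2M.1, h2M.2, Ne.symm hk_ne2, Ne.symm hk2]
    · show g1 ∈ M.S \ {e, k, k2}
      simp [h1M.1, h1M.2, Ne.symm hk_ne1, Ne.symm hk1]
    · intro w hw
      exact (hser w hw).symm
  have hFtwo : (((M.con {g2}).del {e, k}).del {k2}).Two := TC.del_two hHpT hk2Hp
  have hFS : (((M.con {g2}).del {e, k}).del {k2}).S = ((M.con {g2}).del {e, k}).S \ {k2} := rfl
  obtain ⟨s, hsU, hss⟩ := (hFgr.star2 hFsc hFtwo (a := g1) (b := x1)
    (by rw [hFS, Finset.mem_sdiff, Finset.mem_singleton]; exact ⟨hg1Hp, Ne.symm hk1⟩)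
    (by rw [hFS, Finset.mem_sdiff, Finset.mem_singleton]; exact ⟨hx1Hp, hx1_k2⟩)
    (Ne.symm hx1_1)).1 hFser
  have hdeg := TC.three_le_deg hHpT hHp hsU
  -- star of s in H'
  have hstar : star ((M.con {g2}).del {e, k}).S (fun x => mg y b (h x)) (fun x => mg y b (t x)) s
      = {g1, x1, k2} := by
    apply Finset.eq_of_subset_of_card_le
    · intro x hx
      by_cases hxk : x = k2
      · simp [hxk]
      · have : x ∈ star (((M.con {g2}).del {e, k}).del {k2}).S (fun x => mg y b (h x))
            (fun x => mg y b (t x)) s := by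
          rw [Step4d_mem_star] at hx ⊢
          refine ⟨?_, hx.2⟩
          rw [hFS, Finset.mem_sdiff, Finset.mem_singleton]
          exact ⟨hx.1, hxk⟩
        rw [hss, Finset.mem_insert, Finset.mem_singleton] at this
        rcases this with h1 | h1 <;> simp [h1]
    · refine le_trans ?_ hdeg
      exact Finset.card_le_three
  have hsy : s ≠ y := (Finset.mem_erase.1 hsU).1
  -- s = a or s = b
  have hsab : s = a ∨ s = b := by
    have h1 : g1 ∈ star ((M.con {g2}).del {e, k}).S (fun x => mg y b (h x))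
        (fun x => mg y b (t x)) s := by rw [hstar]; simp
    rw [Step4d_mem_star] at h1
    by_cases hsb : s = b
    · exact Or.inr hsb
    · left
      have h2 : h g1 = s ∨ t g1 = s := by
        rcases h1.2 with h3 | h3
        · exact Or.inl ((Step4d_mg_a hsy hsb).1 h3)
        · exact Or.inr ((Step4d_mg_a hsy hsb).1 h3)
      rcases (h1ends s).1 h2 with h3 | h3
      · exact absurd h3 hsy
      · exact h3
  -- characterisation of the star of s in H'
  have hchar : ∀ x, x ∈ ((M.con {g2}).del {e, k}).S →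
      ((mg y b (h x) = s ∨ mg y b (t x) = s) ↔ (x = g1 ∨ x = x1 ∨ x = k2)) := by
    intro x hx
    have h1 : x ∈ star ((M.con {g2}).del {e, k}).S (fun x => mg y b (h x))
        (fun x => mg y b (t x)) s ↔ x ∈ ({g1, x1, k2} : Finset E) := by rw [hstar]
    rw [Step4d_mem_star] at h1
    simp only [Finset.mem_insert, Finset.mem_singleton] at h1
    constructor
    · intro h2; exact h1.1 ⟨hx, h2⟩
    · intro h2; exact (h1.2 h2).2
  rcases hsab with rfl | rfl
  · -- s = a
    left
    have hxa : ∀ x, x ∈ star (M.S \ {e}) h t s ↔ (x = g1 ∨ x = x1 ∨ x = k2) := by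
      intro x
      rw [Step4d_mem_star]
      constructor
      · rintro ⟨hxS, hxs⟩
        have hxM : x ∈ M.S ∧ x ≠ e := by simpa using hxS
        have hx2 : x ≠ g2 := by
          intro h1
          rw [h1] at hxs
          rcases (h2ends s).1 hxs with h2 | h2
          · exact hsy h2
          · exact S.ab h2
        have hxk : x ≠ k := by
          intro h1
          rw [h1] at hxs
          rcases (hkends s).1 hxs with h2 | h2
          · exact hsy h2
          · exact S.ad h2
        refine (hchar x (by rw [hHpS]; simp [hxM.1, hxM.2, hx2, hxk])).1 ?_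
        rcases hxs with h1 | h1
        · exact Or.inl ((Step4d_mg_a hsy S.ab).2 h1)
        · exact Or.inr ((Step4d_mg_a hsy S.ab).2 h1)
      · intro hx
        have hxHp : x ∈ ((M.con {g2}).del {e, k}).S := by
          rcases hx with h1 | h1 | h1 <;> rw [h1] <;> assumption
        have h1 := (hchar x hxHp).2 hx
        rw [hHpS] at hxHp
        simp only [Finset.mem_sdiff, Finset.mem_insert, Finset.mem_singleton, not_or] at hxHp
        refine ⟨by simp [hxHp.1.1, hxHp.2.1], ?_⟩
        rcases h1 with h2 | h2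
        · exact Or.inl ((Step4d_mg_a hsy S.ab).1 h2)
        · exact Or.inr ((Step4d_mg_a hsy S.ab).1 h2)
    refine ⟨x1, ?_, ?_⟩
    · ext x
      rw [hxa]
      simp only [Finset.mem_insert, Finset.mem_singleton]
    · have h1 := (Step4d_mem_star.1 ((hxa x1).2 (Or.inr (Or.inl rfl)))).2
      have had : s ≠ d := S.ad
      unfold Jn
      rcases h1 with h1 | h1
      · rcases hx1d with h2 | h2
        · exact absurd (h1.symm.trans h2) had
        · exact Or.inl ⟨h1, h2⟩
      · rcases hx1d with h2 | h2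
        · exact Or.inr ⟨h2, h1⟩
        · exact absurd (h1.symm.trans h2) had
  · -- s = b
    right
    have hxb : ∀ x, x ∈ star (M.S \ {e}) h t s ↔ (x = g2 ∨ x = x1 ∨ x = k2) := by
      intro x
      rw [Step4d_mem_star]
      constructor
      · rintro ⟨hxS, hxs⟩
        have hxM : x ∈ M.S ∧ x ≠ e := by simpa using hxS
        by_cases hx2 : x = g2
        · exact Or.inl hx2
        have hxk : x ≠ k := by
          intro h1
          rw [h1] at hxs
          rcases (hkends s).1 hxs with h2 | h2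
          · exact hsy h2
          · exact S.bd h2
        have h3 := (hchar x (by rw [hHpS]; simp [hxM.1, hxM.2, hx2, hxk])).1 (by
          rcases hxs with h1 | h1
          · exact Or.inl (Step4d_mg_v.2 (Or.inl h1))
          · exact Or.inr (Step4d_mg_v.2 (Or.inl h1)))
        rcases h3 with h3 | h3
        · exfalso
          rw [h3] at hxs
          rcases (h1ends s).1 hxs with h2 | h2
          · exact hsy h2
          · exact S.ab h2.symm
        · exact Or.inr h3
      · intro hx
        rcases hx with h1 | h1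
        · rw [h1]
          exact ⟨h2S, (h2ends s).2 (Or.inr rfl)⟩
        · have hxHp : x ∈ ((M.con {g2}).del {e, k}).S := by
            rcases h1 with h1 | h1 <;> rw [h1] <;> assumption
          have h3 := (hchar x hxHp).2 (Or.inr h1)
          rw [hHpS] at hxHp
          simp only [Finset.mem_sdiff, Finset.mem_insert, Finset.mem_singleton, not_or] at hxHp
          have hxS : x ∈ M.S \ {e} := by simp [hxHp.1.1, hxHp.2.1]
          refine ⟨hxS, ?_⟩
          -- x is not at y
          have hxy : ¬ (h x = y ∨ t x = y) := by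
            intro h4
            have h5 : x ∈ star (M.S \ {e}) h t y := Step4d_mem_star.2 ⟨hxS, h4⟩
            rw [S.st] at h5
            simp only [Finset.mem_insert, Finset.mem_singleton] at h5
            rcases h5 with h5 | h5 | h5
            · exact hxHp.2.2 h5
            · rcases h1 with h6 | h6
              · exact hx1_1 (h6.symm.trans h5)
              · exact hk1 (h6.symm.trans h5)
            · exact hxHp.1.2 h5
          push Not at hxy
          rcases h3 with h4 | h4
          · rcases Step4d_mg_v.1 h4 with h5 | h5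
            · exact Or.inl h5
            · exact absurd h5 hxy.1
          · rcases Step4d_mg_v.1 h4 with h5 | h5
            · exact Or.inr h5
            · exact absurd h5 hxy.2
    refine ⟨x1, ?_, ?_⟩
    · ext x
      rw [hxb]
      simp only [Finset.mem_insert, Finset.mem_singleton]
    · have h1 := (Step4d_mem_star.1 ((hxb x1).2 (Or.inr (Or.inl rfl)))).2
      have hbd : s ≠ d := S.bd
      unfold Jn
      rcases h1 with h1 | h1
      · rcases hx1d with h2 | h2
        · exact absurd (h1.symm.trans h2) hbd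
        · exact Or.inl ⟨h1, h2⟩
      · rcases hx1d with h2 | h2
        · exact Or.inr ⟨h2, h1⟩
        · exact absurd (h1.symm.trans h2) hbd

end SEY
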